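import Pool.Agent.H89.TGT.RexH

/-!
# Activity in the tubes behind records with few bits

`rex_tubeZ`: as `rex_tubeH`, with the activity `ActZ` of the velocity behind the tube given the
exact point (all coordinates), the tube and the record. The active scale is chosen for the numbers
of the windows of all coordinates.
-/

set_option autoImplicit false

namespace Pool.TGT

open Finset Real MeasureTheory
open Pool.Agent.H49.Ent Pool.Agent.H32.Dense Pool.STK Pool.KA Pool.KSAT Pool.K2S Pool.PB Pool.S6C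
open Pool.GEN Pool.REX Pool.REX83 Pool.OWN72
open Pool.SUPA (SA FF)

variable {m n J : ℕ}

/-- Fewer coordinates in the condition. -/
theorem blk_id (F : Fam m J) (v : Vz m) (ε : Fin n → Fin m) {A : F.Ω → Prop}
    (hA : 0 < Pe F.p A) (κ : Fin n) (k l : ℕ) :
    blk (v.winV id F) {ε κ} A k l ≤ blk (v.winV ε F) {κ} A k l := by
  have hq := isLaw_cond F.isLaw hA
  have h0 := hq.nonneg
  have h1 : blk (v.winV id F) {ε κ} A k l ≤
      CH (Pool.Agent.H49.Ent.cond F.p A True) (fun ω => prjK {κ} ((v.winV ε F).D l ω))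
      (fun ω => ((v.winV id F).D k ω, ((v.winV id F).X (J - v.B J) ω, (v.winV id F).W ω))) := by
    refine CH_mono_left h0 fun ω ω' _ _ e => ?_
    have e1 := congrFun (Prod.ext_iff.1 e).1 κ
    have e2 : F.D l ω (ε κ) = F.D l ω' (ε κ) := by
      unfold prjK at e1
      have e3 : (v.winV ε F).D l ω κ = (v.winV ε F).D l ω' κ := by simpa using e1
      exact e3
    show prjK {ε κ} (F.D l ω) = prjK {ε κ} (F.D l ω')
    funext i
    unfold prjK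
    by_cases hi : i = ε κ
    · rw [hi, e2]
    · have : i ∉ ({ε κ} : Finset (Fin m)) := by simpa using hi
      rw [if_neg this, if_neg this]
  refine h1.trans (CH_mono_cond h0 fun ω ω' _ _ e => ?_)
  have e1 := Prod.ext_iff.1 e
  have e2 := Prod.ext_iff.1 e1.2
  have hD : F.D k ω = F.D k ω' := e1.1
  have hX : (v.winV id F).X (J - v.B J) ω = (v.winV id F).X (J - v.B J) ω' := e2.1
  have hW : (v.winV id F).W ω = (v.winV id F).W ω' := e2.2
  refine Prod.ext (funext fun i => congrFun hD (ε i)) (Prod.ext (funext fun i => ?_) hW)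
  exact congrFun hX (ε i)

/-- The numbers of the windows. -/
theorem num_id {S : PCl m} (hne : S.Ne) (hpos : Bas S (fun _ F A => 0 < Pe F.p A)) {v : Vz m}
    {ε : Fin n → Fin m} {N₀ : Finset (Fin m) → ℝ → ℝ → ℝ} (hN₀ : ActN (WyV S v id) N₀)
    {N : Finset (Fin n) → ℝ → ℝ → ℝ} (hN : ActN (WyV S v ε) N) (κ : Fin n)
    {x y : ℝ} (hx0 : 0 ≤ x) (hx1 : x ≤ 1) (hy0 : 0 ≤ y) (hy : y ≤ 1) :
    N₀ {ε κ} x y ≤ N {κ} x y := by
  have hl2 : 0 < Real.log 2 := Real.log_pos one_lt_two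
  have hb1 := v.b1
  have hc : 0 < 1 - v.b := by linarith
  have h1 := nbr_win hN₀ (ε κ) hx0 hx1 hy0 hy
  have h2 := nbr_win hN κ hx0 hx1 hy0 hy
  have key := Nbr.le hne h1 h2 (c := 0) (C := 0) (Bas.mono 0 hpos fun J _ F A hA => by
    have h3 := blk_id F v ε hA κ ⌊x * ((J - v.B J : ℕ) : ℝ)⌋₊ ⌊y * ((J - v.B J : ℕ) : ℝ)⌋₊
    show blk (v.winV id F) {ε κ} A ⌊x * ((J - v.B J : ℕ) : ℝ)⌋₊ ⌊y * ((J - v.B J : ℕ) : ℝ)⌋₊ ≤
      blk (v.winV ε F) {κ} A ⌊x * ((J - v.B J : ℕ) : ℝ)⌋₊ ⌊y * ((J - v.B J : ℕ) : ℝ)⌋₊ +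
        0 * J + 0
    linarith)
  rw [add_zero] at key
  have h4 := le_of_mul_le_mul_left key hc
  exact le_of_mul_le_mul_right h4 hl2

theorem act_mono {N N' : ℝ → ℝ → ℝ} {q al : ℝ} (hq : 0 ≤ q)
    (h : ∀ x y : ℝ, 0 ≤ x → x ≤ 1 → 0 ≤ y → y ≤ 1 → N x y ≤ N' x y) (ha : Act N q al) :
    Act N' q al := by
  intro ε hε
  obtain ⟨g₀, hg₀, H⟩ := ha ε hε
  refine ⟨g₀, hg₀, fun g hg1 hg2 hg3 M hM => ?_⟩
  obtain ⟨Gd, hGd, hc, hl⟩ := H g hg1 hg2 hg3 M hM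
  refine ⟨Gd, hGd, hc, fun l hl' => (hl l hl').trans ?_⟩
  have hMR : (0 : ℝ) < M := by exact_mod_cast hM
  have hlM := Finset.mem_range.1 (hGd hl')
  have h1 : (l : ℝ) ≤ M := by exact_mod_cast hlM.le
  have h2 : ((l + 1 : ℕ) : ℝ) ≤ M := by exact_mod_cast hlM
  have h3 : g * l / M ≤ g := by
    rw [div_le_iff₀ hMR]
    exact mul_le_mul_of_nonneg_left h1 hg1.le
  have h4 : g * ((l + 1 : ℕ) : ℝ) / M ≤ g := by
    rw [div_le_iff₀ hMR]
    exact mul_le_mul_of_nonneg_left h2 hg1.le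
  exact h _ _ (by positivity) (by linarith) (by positivity) (by linarith)

/-- The direction behind the tube. -/
theorem dir_tubZ (F : Fam m J) (v : Vz m) (ε : Fin n → Fin m) (hP : v.P J ≤ J - v.B J)
    {A : F.Ω → Prop} (hA : 0 < Pe F.p A) (κ : Fin n) (k : ℕ) :
    blk (v.winV id F) {ε κ} A (v.P J) (v.P J + k) ≤
      CH (Pool.Agent.H49.Ent.cond F.p A True) (fun ω => (v.famV ε F hP).D k ω κ)
        (fun ω => (F.X J ω, F.T ω, (v.famV ε F hP).Z ω)) + n * k99 := by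
  have hq := isLaw_cond F.isLaw hA
  have h0 := hq.nonneg
  have hB : v.B J ≤ J := (v.floor_le J).1
  -- the block with the coordinates of the family
  have h3 := CH_le_add h0 (fun ω => prjK {ε κ} (F.D (v.P J + k) ω))
    (fun ω => fl (v.P J) (fun i => (v.winV ε F).u ω i))
    (fun ω => (fl (v.B J) (F.x1 (v.B J) ω), (v.y J F ω, (F.D (v.P J) ω, (F.X J ω, F.W ω)))))
  have h5 : CH (Pool.Agent.H49.Ent.cond F.p A True)
      (fun ω => fl (v.P J) (fun i => (v.winV ε F).u ω i))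
      (fun ω => (fl (v.B J) (F.x1 (v.B J) ω),
        (v.y J F ω, (F.D (v.P J) ω, (F.X J ω, F.W ω))))) ≤ n * k99 := by
    refine le_trans (CH_mono_cond h0 fun ω ω' _ _ e => ?_) (u_few F v ε hP hq)
    have e1 := Prod.ext_iff.1 e
    have e2 := Prod.ext_iff.1 (Prod.ext_iff.1 e1.2).2
    have e3 := Prod.ext_iff.1 e2.2
    exact Prod.ext (Prod.ext e1.1 e2.1) (Prod.ext e3.1 (Prod.ext_iff.1 e3.2).1)
  obtain ⟨C, hC⟩ : ∃ C : F.Ω → (Fin n → ℤ) × ((Fin m → ℤ) × (v.κ J F × ((Fin m → ℤ) ×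
      ((Fin m → ℤ) × (ℕ × F.ζ))))), C = fun ω => (fl (v.P J) (fun i => (v.winV ε F).u ω i),
        (fl (v.B J) (F.x1 (v.B J) ω), (v.y J F ω, (F.D (v.P J) ω, (F.X J ω, F.W ω))))) :=
    ⟨_, rfl⟩
  have h6 : CH (Pool.Agent.H49.Ent.cond F.p A True) (fun ω => prjK {ε κ} (F.D (v.P J + k) ω)) C ≤
      CH (Pool.Agent.H49.Ent.cond F.p A True) (fun ω => (v.famV ε F hP).D k ω κ) C := by
    refine CH_mono_left h0 fun ω ω' _ _ e => ?_
    rw [hC] at e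
    have e1 := Prod.ext_iff.1 e
    have e2 : (v.famV ε F hP).D k ω κ = (v.famV ε F hP).D k ω' κ := e1.1
    have e3 := (Prod.ext_iff.1 (Prod.ext_iff.1 (Prod.ext_iff.1 (Prod.ext_iff.1 e1.2).2).2).2).1
    have e4 : F.D (v.P J) ω (ε κ) = F.D (v.P J) ω' (ε κ) := congrFun e3 (ε κ)
    have e5 : ⌊(2 : ℝ) ^ k * Int.fract (2 ^ v.P J * F.d ω (ε κ))⌋ =
        ⌊(2 : ℝ) ^ k * Int.fract (2 ^ v.P J * F.d ω' (ε κ))⌋ := e2
    have e6 : ⌊(2 : ℝ) ^ v.P J * F.d ω (ε κ)⌋ = ⌊(2 : ℝ) ^ v.P J * F.d ω' (ε κ)⌋ := e4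
    have e7 : F.D (v.P J + k) ω (ε κ) = F.D (v.P J + k) ω' (ε κ) := by
      show ⌊(2 : ℝ) ^ (v.P J + k) * F.d ω (ε κ)⌋ = ⌊(2 : ℝ) ^ (v.P J + k) * F.d ω' (ε κ)⌋
      rw [floor_split, floor_split, e5, e6]
    funext i
    show prjK {ε κ} (F.D (v.P J + k) ω) i = prjK {ε κ} (F.D (v.P J + k) ω') i
    unfold prjK
    by_cases hi : i = ε κ
    · rw [hi, e7]
    · have : i ∉ ({ε κ} : Finset (Fin m)) := by simpa using hi
      rw [if_neg this, if_neg this]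
  have h7 : CH (Pool.Agent.H49.Ent.cond F.p A True) (fun ω => (v.famV ε F hP).D k ω κ) C ≤
      CH (Pool.Agent.H49.Ent.cond F.p A True) (fun ω => (v.famV ε F hP).D k ω κ)
        (fun ω => (F.X J ω, F.T ω, (v.famV ε F hP).Z ω)) := by
    refine CH_mono_cond h0 fun ω ω' _ _ e => ?_
    rw [hC] at e
    have e1 := Prod.ext_iff.1 e
    have e2 := Prod.ext_iff.1 e1.2
    have e3 := Prod.ext_iff.1 e2.2
    have e4 := Prod.ext_iff.1 e3.2
    have e5 := Prod.ext_iff.1 e4.2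
    have hu : fl (v.P J) (fun i => (v.winV ε F).u ω i) =
      fl (v.P J) (fun i => (v.winV ε F).u ω' i) := e1.1
    have hx1 : fl (v.B J) (F.x1 (v.B J) ω) = fl (v.B J) (F.x1 (v.B J) ω') := e2.1
    have hy : v.y J F ω = v.y J F ω' := e3.1
    have hD : F.D (v.P J) ω = F.D (v.P J) ω' := e4.1
    have hX : F.X J ω = F.X J ω' := e5.1
    have hT : F.T ω = F.T ω' := (Prod.ext_iff.1 e5.2).1
    have hZ : F.Z ω = F.Z ω' := (Prod.ext_iff.1 e5.2).2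
    refine Prod.ext hX (Prod.ext hT (Prod.ext (Prod.ext hu (funext fun i => congrFun hD (ε i)))
      (Prod.ext hy ?_)))
    show F.c (v.B J) ω = F.c (v.B J) ω'
    unfold Fam.c Fam.T1
    rw [hT, hx1, hZ]
  rw [hC] at h6 h7
  -- the condition of the window
  have h8 : blk (v.winV id F) {ε κ} A (v.P J) (v.P J + k) ≤
      CH (Pool.Agent.H49.Ent.cond F.p A True) (fun ω => prjK {ε κ} (F.D (v.P J + k) ω))
    (fun ω => (fl (v.B J) (F.x1 (v.B J) ω), (v.y J F ω, (F.D (v.P J) ω, (F.X J ω, F.W ω))))) := by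
    refine CH_mono_cond h0 fun ω ω' _ _ e => ?_
    have e1 := Prod.ext_iff.1 e
    have e2 := Prod.ext_iff.1 e1.2
    have hD : F.D (v.P J) ω = F.D (v.P J) ω' := e1.1
    have hX : (v.winV id F).X (J - v.B J) ω = (v.winV id F).X (J - v.B J) ω' := e2.1
    have hW : (v.winV id F).W ω = (v.winV id F).W ω' := e2.2
    have hW1 := Prod.ext_iff.1 hW
    have hTm : F.T ω % 2 ^ (J - v.B J) = F.T ω' % 2 ^ (J - v.B J) := hW1.1
    have hW2 : (v.y J F ω, F.c (v.B J) ω) = (v.y J F ω', F.c (v.B J) ω') := hW1.2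
    have hW3 := Prod.ext_iff.1 hW2
    have hy : v.y J F ω = v.y J F ω' := hW3.1
    have hc : F.c (v.B J) ω = F.c (v.B J) ω' := hW3.2
    unfold Fam.c at hc
    have hc1 := Prod.ext_iff.1 hc
    have hc2 := Prod.ext_iff.1 hc1.1
    have hx1 : fl (v.B J) (F.x1 (v.B J) ω) = fl (v.B J) (F.x1 (v.B J) ω') := hc2.2
    have hT1 : F.T1 (v.B J) ω = F.T1 (v.B J) ω' := hc2.1
    have hZ : F.Z ω = F.Z ω' := hc1.2
    have hT : F.T ω = F.T ω' := by
      unfold Fam.T1 at hT1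
      rw [← Nat.div_add_mod (F.T ω) (2 ^ (J - v.B J)), hT1, hTm, Nat.div_add_mod]
    have hXJ : F.X J ω = F.X J ω' := by
      funext i
      have h1 := congrFun hX i
      rw [winV_X, winV_X, hx1] at h1
      exact sub_left_inj.1 h1
    exact Prod.ext hx1 (Prod.ext hy (Prod.ext hD (Prod.ext hXJ (Prod.ext hT hZ))))
  exact h8.trans (h3.trans ((add_le_add h5 (h6.trans h7)).trans (le_of_eq (add_comm _ _))))

/-- **The velocity is active behind the tube**, from the numbers of the windows. -/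
theorem act_ZH {S : PCl m} (hpos : Bas S (fun _ F A => 0 < Pe F.p A)) (v : Vz m)
    (ε : Fin n → Fin m) (κ : Fin n) {N : ℝ → ℝ → ℝ}
    (hN : ∀ x y : ℝ, 0 ≤ x → x ≤ 1 → 0 ≤ y → y ≤ 1 →
      Nbr S (fun J F A => blk (v.winV id F) {ε κ} A ⌊x * ((J - v.B J : ℕ) : ℝ)⌋₊
        ⌊y * ((J - v.B J : ℕ) : ℝ)⌋₊) ((1 - v.b) * (N x y * Real.log 2)))
    {al : ℝ} (hal : 0 < al) (hact : Act N v.p al) : Pool.MIC6.ActZ S v ε κ := by
  intro g hg
  have hl2 : 0 < Real.log 2 := Real.log_pos one_lt_two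
  have hb0 := v.b0
  have hb1 := v.b1
  have hp0 := v.p0
  have hp1 := v.p1
  have hc : 0 < 1 - v.b := by linarith
  -- a block with positive number
  obtain ⟨e₀, he₀⟩ : ∃ e₀, e₀ = min (al / 2) (1 / 2) := ⟨_, rfl⟩
  have he00 : 0 < e₀ := by rw [he₀]; exact lt_min (half_pos hal) (by norm_num)
  have he1 : e₀ ≤ al / 2 := by rw [he₀]; exact min_le_left _ _
  have he2 : e₀ ≤ 1 / 2 := by rw [he₀]; exact min_le_right _ _
  obtain ⟨g₀, hg₀, h⟩ := hact e₀ he00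
  have hcp : 0 < 1 - v.p := by linarith
  obtain ⟨g₁, hg₁⟩ : ∃ g₁, g₁ = min (min g₀ (1 - v.p)) (g * (1 - v.p) / 2) := ⟨_, rfl⟩
  have hg10 : 0 < g₁ := by
    rw [hg₁]
    exact lt_min (lt_min hg₀ hcp) (by positivity)
  have hg1a : g₁ ≤ g₀ := by rw [hg₁]; exact (min_le_left _ _).trans (min_le_left _ _)
  have hg1b : g₁ ≤ 1 - v.p := by rw [hg₁]; exact (min_le_left _ _).trans (min_le_right _ _)
  have hg1c : g₁ ≤ g * (1 - v.p) / 2 := by rw [hg₁]; exact min_le_right _ _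
  obtain ⟨a, ha, ha1⟩ : ∃ a, 0 < a ∧ a ≤ N v.p (v.p + g₁) := by
    obtain ⟨Gd, hGd, hcard, hl⟩ := h g₁ hg10 hg1a (by linarith) 1 one_pos
    have h1 : (0 : ℝ) < Gd.card := by
      push_cast at hcard
      linarith
    have h2 : 0 < Gd.card := by exact_mod_cast h1
    obtain ⟨l, hlG⟩ := Finset.card_pos.1 h2
    have h3 := Finset.mem_range.1 (hGd hlG)
    have h4 : l = 0 := by omega
    have h5 := hl l hlG
    rw [h4] at h5
    refine ⟨al / 2 * g₁, by positivity, ?_⟩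
    have e1 : v.p + g₁ * ((0 : ℕ) : ℝ) / ((1 : ℕ) : ℝ) = v.p := by push_cast; ring
    have e2 : v.p + g₁ * ((0 + 1 : ℕ) : ℝ) / ((1 : ℕ) : ℝ) = v.p + g₁ := by push_cast; ring
    have e3 : g₁ / ((1 : ℕ) : ℝ) = g₁ := by push_cast; ring
    rw [e1, e2, e3] at h5
    have h6 : al / 2 * g₁ ≤ (al - e₀) * g₁ := mul_le_mul_of_nonneg_right (by linarith) hg10.le
    exact h6.trans h5
  obtain ⟨c, hce⟩ : ∃ c : ℝ, c = (1 - v.b) * (a * Real.log 2) := ⟨_, rfl⟩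
  have hc0 : 0 < c := by rw [hce]; positivity
  refine ⟨c / 4, by positivity, ?_⟩
  have h1 := hN v.p (v.p + g₁) hp0 hp1.le (by linarith) (by linarith) (c / 4) (by positivity)
  obtain ⟨J₁, hJ₁⟩ := exists_nat_ge ((n * k99 : ℝ) / (c / 4))
  obtain ⟨J₂, hJ₂⟩ := exists_nat_ge ((4 + 2 * g) / (g * ((1 - v.b) * (1 - v.p)) / 2))
  refine Bas.mono (max J₁ J₂) (h1.and hpos) ?_
  rintro J hJ F A ⟨k1, hA⟩ hP
  have hJ0 : (0 : ℝ) ≤ J := Nat.cast_nonneg J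
  have j1 : (J₁ : ℝ) ≤ J := by exact_mod_cast (le_max_left _ _).trans hJ
  have j2 : (J₂ : ℝ) ≤ J := by exact_mod_cast (le_max_right _ _).trans hJ
  have l1 := hJ₁.trans j1
  rw [div_le_iff₀ (by positivity)] at l1
  have l2 := hJ₂.trans j2
  rw [div_le_iff₀ (by positivity)] at l2
  have hB : v.B J ≤ J := (v.floor_le J).1
  obtain ⟨r1, r2, r3, r4, r5⟩ := Pool.MIC6.vz_real v J
  have e1 : ((J - v.B J : ℕ) : ℝ) = J - v.B J := by rw [Nat.cast_sub hB]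
  have q1 : v.p * ((J - v.B J : ℕ) : ℝ) - 1 < v.P J := Nat.sub_one_lt_floor _
  have e2 : (v.B J : ℝ) ≤ v.b * J := Nat.floor_le (mul_nonneg hb0 hJ0)
  have e3 : v.b * J - 1 < (v.B J : ℝ) := Nat.sub_one_lt_floor _
  have q4 : ⌊(v.p + g₁) * ((J - v.B J : ℕ) : ℝ)⌋₊ ≤ v.P J + ⌊g * v.R J⌋₊ := by
    have a1 : (⌊(v.p + g₁) * ((J - v.B J : ℕ) : ℝ)⌋₊ : ℝ) ≤
        (v.p + g₁) * ((J - v.B J : ℕ) : ℝ) := Nat.floor_le (by positivity)
    have a2 : g * v.R J - 1 < (⌊g * v.R J⌋₊ : ℝ) := Nat.sub_one_lt_floor _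
    have a3 : g * ((1 - v.b) * (1 - v.p) * J - 1) ≤ g * v.R J :=
      mul_le_mul_of_nonneg_left r4 hg.le
    have a4 : g₁ * ((J - v.B J : ℕ) : ℝ) ≤ g * (1 - v.p) / 2 * ((J - v.B J : ℕ) : ℝ) :=
      mul_le_mul_of_nonneg_right hg1c (Nat.cast_nonneg _)
    have hg12 : g₁ ≤ 1 := by linarith
    have a5 : g * (1 - v.p) / 2 * ((J - v.B J : ℕ) : ℝ) ≤
        g * ((1 - v.b) * (1 - v.p)) / 2 * J + g / 2 := by
      rw [e1]
      have b1 : (J : ℝ) - v.B J ≤ (1 - v.b) * J + 1 := by linarith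
      have b2 : g * (1 - v.p) / 2 * (J - v.B J) ≤ g * (1 - v.p) / 2 * ((1 - v.b) * J + 1) :=
        mul_le_mul_of_nonneg_left b1 (by positivity)
      have b3 : g * (1 - v.p) / 2 * 1 ≤ g / 2 := by
        have : 0 ≤ g * v.p := by positivity
        linarith
      calc g * (1 - v.p) / 2 * (J - v.B J) ≤ g * (1 - v.p) / 2 * ((1 - v.b) * J + 1) := b2
        _ = g * ((1 - v.b) * (1 - v.p)) / 2 * J + g * (1 - v.p) / 2 * 1 := by ring
        _ ≤ _ := by linarith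
    have a6 : (v.p + g₁) * ((J - v.B J : ℕ) : ℝ) =
        v.p * ((J - v.B J : ℕ) : ℝ) + g₁ * ((J - v.B J : ℕ) : ℝ) := by ring
    have a7 : g * ((1 - v.b) * (1 - v.p) * J - 1) =
        2 * (g * ((1 - v.b) * (1 - v.p)) / 2 * J) - g := by ring
    have a8 : (J : ℝ) * (g * ((1 - v.b) * (1 - v.p)) / 2) =
        g * ((1 - v.b) * (1 - v.p)) / 2 * J := by ring
    have a9 : (⌊(v.p + g₁) * ((J - v.B J : ℕ) : ℝ)⌋₊ : ℝ) < v.P J + ⌊g * v.R J⌋₊ + 1 := by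
      linarith
    have a10 : ⌊(v.p + g₁) * ((J - v.B J : ℕ) : ℝ)⌋₊ < v.P J + ⌊g * v.R J⌋₊ + 1 := by
      exact_mod_cast a9
    omega
  have b1 := dir_tubZ F v ε hP hA κ ⌊g * v.R J⌋₊
  have b2 := (blk_up (F := v.winV id F) hA {ε κ} (k := v.P J) q4).1
  have k1' : |blk (v.winV id F) {ε κ} A (v.P J) ⌊(v.p + g₁) * ((J - v.B J : ℕ) : ℝ)⌋₊ -
    (1 - v.b) * (N v.p (v.p + g₁) * Real.log 2) * J| ≤ c / 4 * J := k1
  have b7 := (abs_le.1 k1').1
  have b8 : c * J ≤ (1 - v.b) * (N v.p (v.p + g₁) * Real.log 2) * J := by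
    rw [hce]
    exact mul_le_mul_of_nonneg_right (mul_le_mul_of_nonneg_left
      (mul_le_mul_of_nonneg_right ha1 hl2.le) hc.le) hJ0
  show c / 4 * J ≤ CH (Pool.Agent.H49.Ent.cond F.p A True)
    (fun ω => (v.famV ε F hP).D ⌊g * v.R J⌋₊ ω κ)
      (fun ω => (F.X J ω, F.T ω, (v.famV ε F hP).Z ω))
  have e7 : ((J - v.B J : ℕ) : ℝ) ≤ J := by
    rw [e1]
    have : (0 : ℝ) ≤ v.B J := Nat.cast_nonneg _
    linarith
  have b9 : 0 ≤ c * J := by positivity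
  linarith

/-- **Exactness and activity in the tubes** behind records with few bits given the exact point and
the first digits of the direction. -/
theorem rex_tubeZ {S : PCl m} (hS : S.Ne) {C₀ : ℝ} (hC₀ : 0 ≤ C₀) (htm : TmC S C₀)
    (hpos : ∀ (τ : ℝ) (J : ℕ) (F : Fam m J) (A : F.Ω → Prop), S.St τ J F A → 0 < Pe F.p A)
    {Ns : Finset (Fin m) → ℝ → ℝ → ℝ} (hNs : ActN S Ns)
    {ι : Type} [Countable ι] (k : ι → ℕ) (hF : ∀ i, FZX (k i)) (v : ι → Vz m)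
    (ε : ∀ i, Fin (k i) → Fin m) (κ : ∀ i, Fin (k i)) {P₀ h P Q : ι → ℝ}
    (hrec : ∀ i, Bas S (fun J F A =>
      CH (Pool.Agent.H49.Ent.cond F.p A True) ((v i).y J F)
        (fun ω => (F.D ⌊P₀ i * J⌋₊ ω, (F.X J ω, F.W ω))) ≤ h i * J))
    (hP0 : ∀ i, 0 ≤ P₀ i) (hPP : ∀ i, P₀ i ≤ P i) (hPQ : ∀ i, P i < Q i)
    (hQ : ∀ i, Q i < (1 - (v i).b) / 2)
    (hact : ∀ i, h i / Real.log 2 < FF (Ns {ε i (κ i)}) (Q i) - FF (Ns {ε i (κ i)}) (P i)) :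
    ∃ (p : ι → ℝ) (S₃ : PCl m) (L : ∀ i, Finset (Fin (k i)) → Fin (k i) → ℝ → ℝ → ℝ), S₃.Ne ∧
      (∀ (τ : ℝ) (J : ℕ) (F : Fam m J) (A : F.Ω → Prop), S₃.St τ J F A → S.St τ J F A) ∧
      ∀ i, P i < (1 - (v i).b) * p i ∧ (1 - (v i).b) * p i < Q i ∧
        RDt S₃ (v i) (ε i) (p i) (κ i) (L i) ∧
        ∀ (h0 : 0 ≤ p i) (h1 : p i < 1),
          Pool.MIC6.ActZ S₃ (atp (v i) (p i) h0 h1) (ε i) (κ i) := by
  -- the numbers of the windows of all coordinates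
  obtain ⟨S₀, N₀, hne₀, hsub₀, hN₀⟩ := act_all hS hpos (fun _ : ι => m)
    (fun i => wyZ (v i) (id : Fin m → Fin m))
  have hpos₀ : ∀ (τ : ℝ) (J : ℕ) (F : Fam m J) (A : F.Ω → Prop), S₀.St τ J F A →
      0 < Pe F.p A := fun τ J F A h => hpos τ J F A (hsub₀ τ J F A h)
  obtain ⟨S₁, N, hne₁, hsub₁, hN⟩ := act_all hne₀ hpos₀ k (fun i => wyZ (v i) (ε i))
  have hpos₁ : ∀ (τ : ℝ) (J : ℕ) (F : Fam m J) (A : F.Ω → Prop), S₁.St τ J F A →
      0 < Pe F.p A := fun τ J F A h => hpos₀ τ J F A (hsub₁ τ J F A h)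
  have hposB₁ : Bas S₁ (fun _ F A => 0 < Pe F.p A) :=
    ⟨1, one_pos, 0, fun J _ F A hA => hpos₁ 1 J F A hA⟩
  have hb : ∀ Φ : Stat m, Bas S Φ → Bas S₁ Φ := fun Φ h => Bas.sub hsub₁ (Bas.sub hsub₀ h)
  have hNs₁ : ActN S₁ Ns := actN_of_bas hb hNs
  have hN' : ∀ i, ActN (WyV S₁ (v i) (ε i)) (N i) := fun i => hN i
  have hN₀' : ∀ i, ActN (WyV S₁ (v i) (id : Fin m → Fin m)) (N₀ i) := fun i =>
    actN_of_bas (fun Φ hb => wyv_le (v i) id (sub_le hsub₁) hb) (hN₀ i)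
  have hpick : ∀ i, ∃ p : ℝ, P i < (1 - (v i).b) * p ∧ (1 - (v i).b) * p < Q i ∧
      ∃ al : ℝ, 0 < al ∧ Act (N₀ i {ε i (κ i)}) p al := by
    intro i
    have hb1 := (v i).b1
    have hc : 0 < 1 - (v i).b := by linarith
    have hP0i : 0 ≤ P i := (hP0 i).trans (hPP i)
    have e1 : ∀ z : ℝ, (1 - (v i).b) * (z / (1 - (v i).b)) = z := fun z => by field_simp
    have hPd : 0 ≤ P i / (1 - (v i).b) := div_nonneg hP0i hc.le
    have hPQd : P i / (1 - (v i).b) < Q i / (1 - (v i).b) := div_lt_div_of_pos_right (hPQ i) hc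
    have hQd : Q i / (1 - (v i).b) ≤ 1 := by
      rw [div_le_one hc]
      have := hQ i
      linarith
    have h1 := ff_win hne₁ hposB₁ hNs₁ (v i) (id : Fin m → Fin m) (hN₀' i) (ε i (κ i))
      (hb _ (hrec i)) hPd (by rw [e1]; exact hPP i) hPQd.le hQd
    rw [e1, e1] at h1
    have h2 := hact i
    have h3 : 0 < FF (N₀ i {ε i (κ i)}) (Q i / (1 - (v i).b)) -
        FF (N₀ i {ε i (κ i)}) (P i / (1 - (v i).b)) := by
      by_contra hcon
      push Not at hcon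
      have := mul_nonpos_of_nonneg_of_nonpos hc.le hcon
      have h1' : FF (Ns {ε i (κ i)}) (Q i) - FF (Ns {ε i (κ i)}) (P i) ≤
        (1 - (v i).b) * (FF (N₀ i {ε i (κ i)}) (Q i / (1 - (v i).b)) -
          FF (N₀ i {ε i (κ i)}) (P i / (1 - (v i).b))) + h i / Real.log 2 := h1
      linarith
    have hsa := (hN₀' i).sa {ε i (κ i)}
    have h4 : 0 < ∫ t in (P i / (1 - (v i).b))..(Q i / (1 - (v i).b)),
        deriv (FF (N₀ i {ε i (κ i)})) t := by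
      rw [Pool.SUPA.integral_deriv hsa]
      exact h3
    obtain ⟨p, hp1, hp2, al, hal, hp3⟩ := leb_pick (N := N₀ i {ε i (κ i)}) (measurable_deriv _)
      (fun q => (Pool.SUPA.FF_mono hsa).deriv_nonneg)
      (Pool.SUPA.deriv_le hsa) (fun x y a1 a2 a3 => by
        rw [Pool.SUPA.integral_deriv hsa]
        exact Pool.SUPA.FF_le hsa a1 a2 a3) hPd hPQd h4
    refine ⟨p, ?_, ?_, al, hal, hp3⟩
    · rw [div_lt_iff₀ hc] at hp1
      linarith
    · rw [lt_div_iff₀ hc] at hp2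
      linarith
  choose p hp1 hp2 al hal hact₁ using hpick
  have hp00 : ∀ i, 0 < p i := by
    intro i
    have hb1 := (v i).b1
    have hc : 0 < 1 - (v i).b := by linarith
    have h1 : 0 < (1 - (v i).b) * p i := ((hP0 i).trans (hPP i)).trans_lt (hp1 i)
    by_contra hcon
    push Not at hcon
    have := mul_nonpos_of_nonneg_of_nonpos hc.le hcon
    linarith
  have hp02 : ∀ i, p i < 1 / 2 := by
    intro i
    have hb1 := (v i).b1
    have hc : 0 < 1 - (v i).b := by linarith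
    have h1 : (1 - (v i).b) * p i < (1 - (v i).b) * (1 / 2) := by
      have h2 := hp2 i
      have h3 := hQ i
      linarith
    exact lt_of_mul_lt_mul_left h1 hc.le
  have hact₂ : ∀ i, Act (N i {κ i}) (p i) (al i) := fun i =>
    act_mono (hp00 i).le (fun x y a1 a2 a3 a4 =>
      num_id hne₁ hposB₁ (hN₀' i) (hN' i) (κ i) a1 a2 a3 a4) (hact₁ i)
  obtain ⟨S₃, L, hne₃, hsub₃, hR⟩ := rexv_at hne₁ hC₀
    (fun τ J F A hτ h => htm τ J F A hτ (hsub₀ τ J F A (hsub₁ τ J F A h))) hpos₁ k hF v ε hN' κ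
    hp00 hp02 hal hact₂
  refine ⟨p, S₃, L, hne₃, fun τ J F A h => hsub₀ τ J F A (hsub₁ τ J F A (hsub₃ τ J F A h)),
    fun i => ⟨hp1 i, hp2 i, hR i, fun h0 h1 => ?_⟩⟩
  refine act_ZH ⟨1, one_pos, 0, fun J _ F A hA => hpos₁ 1 J F A (hsub₃ 1 J F A hA)⟩
    (atp (v i) (p i) h0 h1) (ε i) (κ i) (N := N₀ i {ε i (κ i)}) (fun x y a1 a2 a3 a4 => ?_)
    (hal i) (hact₁ i)
  intro h hh
  exact Bas.sub hsub₃ (nbr_win (hN₀' i) (ε i (κ i)) a1 a2 a3 a4 h hh)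

end Pool.TGT
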