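import Pool.Agent.H72.OWN.ActU

/-!
# Exactness in the tubes behind records with few bits

`act_ff`: near `0` the total activity between `P` and `Q` is at least `al (Q - P) / 16`.
`ff_win`: the loss of the total activity of the zooms behind a record is at most the number of the
bits of the record given the exact point and the first digits of the direction. `rex_tubeH`: as
`rex_tube` (helper72), with records which have at most `h J` bits, `h` a fixed number which is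
small against the activity between `P` and `Q`.
-/

set_option autoImplicit false

namespace Pool.TGT

open Finset Real MeasureTheory
open Pool.Agent.H49.Ent Pool.Agent.H32.Dense Pool.STK Pool.KA Pool.KSAT Pool.K2S Pool.PB Pool.S6C
open Pool.GEN Pool.REX Pool.REX83 Pool.OWN72
open Pool.SUPA (SA FF)

variable {m n J : ℕ}

/-- The mesh sums are the increments of `FF`. -/
theorem ff_mesh {N : ℝ → ℝ → ℝ} {K : ℝ} (hN : SA N K) {e : ℝ} (he : 0 < e) :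
    ∃ del > 0, ∀ (M : ℕ) (x : ℕ → ℝ), Monotone x → 0 ≤ x 0 → x M ≤ 1 →
      (∀ i < M, x (i + 1) - x i ≤ del) →
      |∑ i ∈ range M, N (x i) (x (i + 1)) - (FF N (x M) - FF N (x 0))| ≤ e := by
  obtain ⟨del, hd, H⟩ := Pool.SUPA.rem_chain hN he
  refine ⟨del, hd, fun M x hx h0 h1 hm => ?_⟩
  have h2 := H M x hx h0 h1 hm
  have h3 : ∑ i ∈ range M, N (x i) (x (i + 1)) - (FF N (x M) - FF N (x 0)) =
      ∑ i ∈ range M, Pool.SUPA.rem N (x i) (x (i + 1)) := by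
    have h4 := Finset.sum_range_sub (fun i => FF N (x i)) M
    rw [← h4, ← Finset.sum_sub_distrib]
    rfl
  rw [h3]
  have h5 : 0 ≤ ∑ i ∈ range M, Pool.SUPA.rem N (x i) (x (i + 1)) := by
    refine Finset.sum_nonneg fun i hi => ?_
    exact (Pool.SUPA.rem_SA hN).nn (x i) (x (i + 1)) (h0.trans (hx (Nat.zero_le i)))
      (hx (Nat.le_succ i)) ((hx (Finset.mem_range.1 hi)).trans h1)
  rw [abs_of_nonneg h5]
  exact h2

/-- **The total activity near `0`**, uniformly in the numbers. -/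
theorem act_ff {al : ℝ} {g₀ : ℝ → ℝ} (hal : 0 < al) (hg₀ : ∀ e, 0 < e → 0 < g₀ e) {θ : ℝ}
    (hθ : 0 < θ) :
    ∃ r₀ : ℝ, 0 < r₀ ∧ r₀ ≤ 1 / 2 ∧ ∀ (N : ℝ → ℝ → ℝ) (K : ℝ), SA N K →
      ∀ Na : ℚ → ℚ → ℝ, ActM Na al g₀ →
      (∀ x y : ℚ, 0 ≤ x → x ≤ y → y ≤ 1 → Na x y ≤ N x y) →
      ∀ P Q : ℝ, 0 ≤ P → P < Q → Q ≤ r₀ → θ * Q ≤ Q - P →
      al * (Q - P) / 16 ≤ FF N Q - FF N P := by
  obtain ⟨ε, hε⟩ : ∃ ε : ℝ, ε = min (al / 2) (θ / 4) := ⟨_, rfl⟩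
  have hε0 : 0 < ε := by rw [hε]; exact lt_min (by linarith) (by linarith)
  have hεal : ε ≤ al / 2 := by rw [hε]; exact min_le_left _ _
  have hεθ : ε ≤ θ / 4 := by rw [hε]; exact min_le_right _ _
  have hgε := hg₀ ε hε0
  refine ⟨min (1 / 2) (g₀ ε / 2), lt_min (by norm_num) (by linarith), min_le_left _ _, ?_⟩
  intro N K hN Na hM hNa
  have kmono := Pool.SUPA.FF_mono hN
  intro P Q hP hPQ hQ hθQ
  have hQ1 : Q ≤ 1 / 2 := hQ.trans (min_le_left _ _)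
  have hQ2 : Q ≤ g₀ ε / 2 := hQ.trans (min_le_right _ _)
  have hQ0 : 0 < Q := hP.trans_lt hPQ
  obtain ⟨g, hg1, hg2⟩ := exists_rat_btwn (show Q < 2 * Q by linarith)
  have hg0 : (0 : ℝ) < g := hQ0.trans hg1
  have hg0' : (0 : ℚ) < g := by exact_mod_cast hg0
  have hg11 : (g : ℝ) ≤ 1 := by linarith
  -- the mesh
  obtain ⟨d, hd⟩ : ∃ d, d = Q - P := ⟨_, rfl⟩
  have hd0 : 0 < d := by rw [hd]; linarith
  obtain ⟨e, he⟩ : ∃ e, e = al * d / 16 := ⟨_, rfl⟩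
  have he0 : 0 < e := by rw [he]; positivity
  obtain ⟨del, hdel, h8⟩ := Pool.SUPA.rem_chain hN he0
  obtain ⟨M₁, hM₁⟩ := exists_nat_ge ((g : ℝ) / del)
  obtain ⟨M₂, hM₂⟩ := exists_nat_ge (16 * (g : ℝ) / d)
  obtain ⟨M, hMM⟩ : ∃ M, M = M₁ + M₂ + 1 := ⟨_, rfl⟩
  have hM0 : 0 < M := by omega
  have hMR : (0 : ℝ) < M := by exact_mod_cast hM0
  have m1 : (g : ℝ) / M ≤ del := by
    rw [div_le_iff₀ hMR]
    rw [div_le_iff₀ hdel] at hM₁
    have h1 : (M₁ : ℝ) ≤ M := by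
      rw [hMM]
      push_cast
      have : (0 : ℝ) ≤ M₂ := Nat.cast_nonneg _
      linarith
    nlinarith
  have m2 : 16 * ((g : ℝ) / M) ≤ d := by
    rw [← mul_div_assoc, div_le_iff₀ hMR]
    rw [div_le_iff₀ hd0] at hM₂
    have h1 : (M₂ : ℝ) ≤ M := by
      rw [hMM]
      push_cast
      have : (0 : ℝ) ≤ M₁ := Nat.cast_nonneg _
      linarith
    nlinarith
  obtain ⟨η, hη⟩ : ∃ η : ℝ, η = (g : ℝ) / M := ⟨_, rfl⟩
  have hη0 : 0 < η := by rw [hη]; positivity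
  have hηM : η * M = g := by
    rw [hη]
    field_simp
  rw [← hη] at m1 m2
  obtain ⟨z, hz⟩ : ∃ z : ℕ → ℝ, z = fun l : ℕ => (l : ℝ) * η := ⟨_, rfl⟩
  have hzz : ∀ l, z l = l * η := fun l => by rw [hz]
  have hzm : Monotone z := by
    intro l l' hll
    have h1 : (l : ℝ) ≤ l' := by exact_mod_cast hll
    rw [hzz, hzz]
    exact mul_le_mul_of_nonneg_right h1 hη0.le
  have hz0 : z 0 = 0 := by rw [hzz]; simp
  have hzM : z M ≤ 1 := by
    rw [hzz, mul_comm, hηM]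
    exact hg11
  have h9 := h8 M z hzm hz0.ge hzM (fun i _ => by
    rw [hzz, hzz]
    push_cast
    linarith)
  -- the block
  obtain ⟨i₀, hi₀⟩ : ∃ i₀, i₀ = ⌈P / η⌉₊ := ⟨_, rfl⟩
  obtain ⟨i₁, hi₁⟩ : ∃ i₁, i₁ = ⌊Q / η⌋₊ := ⟨_, rfl⟩
  have a1 : P ≤ z i₀ := by
    rw [hzz, hi₀, ← div_le_iff₀ hη0]
    exact Nat.le_ceil _
  have a2 : z i₀ ≤ P + η := by
    rw [hzz, hi₀]
    have h1 : (⌈P / η⌉₊ : ℝ) < P / η + 1 := Nat.ceil_lt_add_one (by positivity)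
    have h2 : P / η * η = P := by field_simp
    nlinarith
  have a3 : z i₁ ≤ Q := by
    rw [hzz, hi₁, ← le_div_iff₀ hη0]
    exact Nat.floor_le (by positivity)
  have a4 : Q - η ≤ z i₁ := by
    rw [hzz, hi₁]
    have h1 : Q / η < (⌊Q / η⌋₊ : ℝ) + 1 := Nat.lt_floor_add_one _
    have h2 : Q / η * η = Q := by field_simp
    nlinarith
  have h01 : i₀ ≤ i₁ := by
    by_contra hcon
    push Not at hcon
    have h1 := hzm hcon.le
    linarith
  have hi1M : i₁ ≤ M := by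
    have h1 : (i₁ : ℝ) * η ≤ M * η := by
      rw [mul_comm (M : ℝ), hηM, ← hzz]
      linarith
    exact_mod_cast le_of_mul_le_mul_right h1 hη0
  have b1 : FF N (z i₁) - FF N (z i₀) ≤ FF N Q - FF N P := by
    have h1 := kmono a3
    have h2 := kmono a1
    linarith
  have b2 : ∑ i ∈ Ico i₀ i₁, (FF N (z (i + 1)) - FF N (z i)) = FF N (z i₁) - FF N (z i₀) := by
    rw [Finset.sum_Ico_eq_sum_range]
    have h1 := Finset.sum_range_sub (fun i => FF N (z (i₀ + i))) (i₁ - i₀)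
    rw [Nat.add_sub_cancel' h01, Nat.add_zero] at h1
    exact h1
  have b3 : ∑ i ∈ Ico i₀ i₁, N (z i) (z (i + 1)) - e ≤
      ∑ i ∈ Ico i₀ i₁, (FF N (z (i + 1)) - FF N (z i)) := by
    have h1 : ∑ i ∈ Ico i₀ i₁, Pool.SUPA.rem N (z i) (z (i + 1)) ≤ e := by
      refine le_trans (Finset.sum_le_sum_of_subset_of_nonneg (fun i hi => ?_)
        (fun i hi _ => ?_)) h9
      · rw [Finset.mem_Ico] at hi
        rw [Finset.mem_range]
        omega
      · exact (Pool.SUPA.rem_SA hN).nn (z i) (z (i + 1)) (hz0.ge.trans (hzm (Nat.zero_le i)))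
          (hzm (Nat.le_succ i)) ((hzm (Finset.mem_range.1 hi)).trans hzM)
    have h2 : ∑ i ∈ Ico i₀ i₁, (N (z i) (z (i + 1)) - (FF N (z (i + 1)) - FF N (z i))) ≤ e := h1
    rw [Finset.sum_sub_distrib] at h2
    linarith
  -- the good places
  have hMr := hM ε hε0 g hg0' (by linarith) M
  obtain ⟨Bd, hBd⟩ : ∃ Bd : Finset ℕ, Bd = (range M).filter fun i : ℕ =>
      Na (i * (g / M)) ((i + 1) * (g / M)) < (al - ε) * ((g : ℝ) / M) := ⟨_, rfl⟩
  rw [← hBd] at hMr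
  have b4 : (al - ε) * η * (((i₁ - i₀ : ℕ) : ℝ) - Bd.card) ≤
      ∑ i ∈ Ico i₀ i₁, N (z i) (z (i + 1)) := by
    have hnn : ∀ i ∈ Ico i₀ i₁, 0 ≤ N (z i) (z (i + 1)) := fun i hi => by
      rw [Finset.mem_Ico] at hi
      exact hN.nn _ _ (hz0 ▸ hzm (Nat.zero_le i)) (hzm (Nat.le_succ i))
        ((hzm (by omega : i + 1 ≤ M)).trans hzM)
    have h1 : ∑ i ∈ (Ico i₀ i₁) \ Bd, (al - ε) * η ≤ ∑ i ∈ Ico i₀ i₁, N (z i) (z (i + 1)) := by
      refine le_trans (Finset.sum_le_sum fun i hi => ?_)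
        (Finset.sum_le_sum_of_subset_of_nonneg Finset.sdiff_subset (fun i hi _ => hnn i hi))
      rw [Finset.mem_sdiff, Finset.mem_Ico] at hi
      have h2 : ¬ Na (i * (g / M)) ((i + 1) * (g / M)) < (al - ε) * ((g : ℝ) / M) := fun h => by
        refine hi.2 ?_
        rw [hBd, Finset.mem_filter, Finset.mem_range]
        exact ⟨by omega, h⟩
      rw [not_lt, ← hη] at h2
      have hgM : (0 : ℚ) ≤ g / M := by positivity
      have h3 := hNa (i * (g / M)) ((i + 1) * (g / M)) (by positivity)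
        (mul_le_mul_of_nonneg_right (by linarith) hgM) (by
          have h4 : (((i : ℚ) + 1) * (g / M) : ℚ) ≤ (M : ℚ) * (g / M) := by
            refine mul_le_mul_of_nonneg_right ?_ hgM
            have : i + 1 ≤ M := by omega
            exact_mod_cast this
          have h5 : (M : ℚ) * (g / M) = g := by
            have : (M : ℚ) ≠ 0 := by exact_mod_cast hM0.ne'
            field_simp
          have h6 : g ≤ 1 := by exact_mod_cast hg11
          linarith)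
      refine h2.trans (h3.trans (le_of_eq ?_))
      have e1 : (((i : ℚ) * (g / M) : ℚ) : ℝ) = z i := by
        rw [hzz, hη]
        push_cast
        ring
      have e2 : ((((i : ℚ) + 1) * (g / M) : ℚ) : ℝ) = z (i + 1) := by
        rw [hzz, hη]
        push_cast
        ring
      rw [e1, e2]
    rw [Finset.sum_const, nsmul_eq_mul] at h1
    refine le_trans ?_ h1
    have h2 : ((i₁ - i₀ : ℕ) : ℝ) - Bd.card ≤ ((Ico i₀ i₁ \ Bd).card : ℝ) := by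
      have h3 := Finset.le_card_sdiff Bd (Ico i₀ i₁)
      rw [Nat.card_Ico] at h3
      have h4 : ((i₁ - i₀ - Bd.card : ℕ) : ℝ) ≤ ((Ico i₀ i₁ \ Bd).card : ℝ) := by exact_mod_cast h3
      have h5 : ((i₁ - i₀ : ℕ) : ℝ) - Bd.card ≤ ((i₁ - i₀ - Bd.card : ℕ) : ℝ) := by
        rcases le_total Bd.card (i₁ - i₀) with h6 | h6
        · rw [Nat.cast_sub h6]
        · have h7 : ((i₁ - i₀ : ℕ) : ℝ) ≤ Bd.card := by exact_mod_cast h6
          have h8 : (0 : ℝ) ≤ ((i₁ - i₀ - Bd.card : ℕ) : ℝ) := Nat.cast_nonneg _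
          linarith
      linarith
    have h3 : 0 ≤ (al - ε) * η := mul_nonneg (by linarith) hη0.le
    rw [mul_comm ((Ico i₀ i₁ \ Bd).card : ℝ)]
    exact mul_le_mul_of_nonneg_left h2 h3
  have c1 : (((i₁ - i₀ : ℕ) : ℝ)) * η = z i₁ - z i₀ := by
    rw [Nat.cast_sub h01, hzz, hzz]
    ring
  have c2 : (Bd.card : ℝ) * η ≤ ε * g := by
    have h1 := mul_le_mul_of_nonneg_right hMr hη0.le
    calc (Bd.card : ℝ) * η ≤ ε * M * η := h1
      _ = ε * (η * M) := by ring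
      _ = ε * g := by rw [hηM]
  have c3 : ε * g ≤ d / 2 := by
    have h1 : ε * g ≤ θ / 4 * (2 * Q) := mul_le_mul hεθ hg2.le hg0.le (by linarith)
    have h2 : θ * Q ≤ d := by rw [hd]; exact hθQ
    linarith
  have c4 : d / 4 ≤ (((i₁ - i₀ : ℕ) : ℝ) - Bd.card) * η := by
    rw [sub_mul, c1]
    rw [hd] at c3 m2 ⊢
    linarith
  have c5 : al / 2 * (d / 4) ≤ (al - ε) * η * (((i₁ - i₀ : ℕ) : ℝ) - Bd.card) := by
    have h1 : al / 2 * (d / 4) ≤ (al - ε) * ((((i₁ - i₀ : ℕ) : ℝ) - Bd.card) * η) :=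
      mul_le_mul (by linarith) c4 (by positivity) (by linarith)
    calc al / 2 * (d / 4) ≤ (al - ε) * ((((i₁ - i₀ : ℕ) : ℝ) - Bd.card) * η) := h1
      _ = _ := by ring
  have c6 : al / 2 * (d / 4) = al * d / 16 + al * d / 16 := by ring
  rw [← hd]
  rw [he] at b3
  linarith

/-- **The blocks of the zooms**, with the telescoping loss. -/
theorem blk_winT (F : Fam m J) (v : Vz m) (ε : Fin n → Fin m) {A : F.Ω → Prop}
    (hA : 0 < Pe F.p A) (κ : Fin n) {k l : ℕ} (hkl : k ≤ l) :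
    blk F {ε κ} A k l ≤ blk (v.winV ε F) {κ} A k l +
      (CH (Pool.Agent.H49.Ent.cond F.p A True) (v.y J F) (fun ω => (F.D k ω, (F.X J ω, F.W ω))) -
      CH (Pool.Agent.H49.Ent.cond F.p A True) (v.y J F) (fun ω => (F.D l ω, (F.X J ω, F.W ω)))) +
      m * k99 := by
  have hq := isLaw_cond F.isLaw hA
  have h0 := hq.nonneg
  have hB : v.B J ≤ J := (v.floor_le J).1
  have h1 := CH_bayes h0 (fun ω => prjK {ε κ} (F.D l ω))
    (fun ω => (v.y J F ω, fl (v.B J) (F.x1 (v.B J) ω))) (fun ω => (F.D k ω, (F.X J ω, F.W ω)))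
  have h2 := CH_subadd h0 (v.y J F) (fun ω => fl (v.B J) (F.x1 (v.B J) ω))
    (fun ω => (F.D k ω, (F.X J ω, F.W ω)))
  have h3 : CH (Pool.Agent.H49.Ent.cond F.p A True) (fun ω => fl (v.B J) (F.x1 (v.B J) ω))
      (fun ω => (F.D k ω, (F.X J ω, F.W ω))) ≤ m * k99 := by
    refine le_trans (CH_mono_cond h0 fun ω ω' _ _ e => ?_) (x1_few F hB hq)
    have e1 := Prod.ext_iff.1 (Prod.ext_iff.1 e).2
    exact Prod.ext e1.1 (Prod.ext_iff.1 e1.2).1
  have h3' : CH (Pool.Agent.H49.Ent.cond F.p A True) (v.y J F)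
      (fun ω => (F.D l ω, (F.X J ω, F.W ω))) ≤
      CH (Pool.Agent.H49.Ent.cond F.p A True)
        (fun ω => (v.y J F ω, fl (v.B J) (F.x1 (v.B J) ω)))
        (fun ω => (prjK {ε κ} (F.D l ω), (F.D k ω, (F.X J ω, F.W ω)))) := by
    refine le_trans (CH_mono_cond h0 (W' := fun ω => (F.D l ω, (F.X J ω, F.W ω)))
      (W := fun ω => (prjK {ε κ} (F.D l ω), (F.D k ω, (F.X J ω, F.W ω)))) fun ω ω' _ _ e => ?_)
      (CH_mono_left h0 fun ω ω' _ _ e => ?_)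
    · have e1 := Prod.ext_iff.1 e
      have e2 : F.D l ω = F.D l ω' := e1.1
      refine Prod.ext ?_ (Prod.ext (Pool.STK.B58.fl_fine hkl e1.1) e1.2)
      show prjK {ε κ} (F.D l ω) = prjK {ε κ} (F.D l ω')
      rw [e2]
    · exact (Prod.ext_iff.1 (Prod.ext_iff.1 e).1).1
  have h4 : CH (Pool.Agent.H49.Ent.cond F.p A True) (fun ω => prjK {ε κ} (F.D l ω))
      (fun ω => ((v.y J F ω, fl (v.B J) (F.x1 (v.B J) ω)), (F.D k ω, (F.X J ω, F.W ω)))) ≤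
      CH (Pool.Agent.H49.Ent.cond F.p A True) (fun ω => prjK {κ} ((v.winV ε F).D l ω))
      (fun ω => ((v.y J F ω, fl (v.B J) (F.x1 (v.B J) ω)), (F.D k ω, (F.X J ω, F.W ω)))) := by
    refine CH_mono_left h0 fun ω ω' _ _ e => ?_
    have e1 := congrFun (Prod.ext_iff.1 e).1 κ
    have e2 : F.D l ω (ε κ) = F.D l ω' (ε κ) := by
      unfold prjK at e1
      have e3 : (v.winV ε F).D l ω κ = (v.winV ε F).D l ω' κ := by simpa using e1
      exact e3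
    funext i
    show prjK {ε κ} (F.D l ω) i = prjK {ε κ} (F.D l ω') i
    unfold prjK
    by_cases hi : i = ε κ
    · rw [hi, e2]
    · have : i ∉ ({ε κ} : Finset (Fin m)) := by simpa using hi
      rw [if_neg this, if_neg this]
  have h5 : CH (Pool.Agent.H49.Ent.cond F.p A True) (fun ω => prjK {κ} ((v.winV ε F).D l ω))
      (fun ω => ((v.y J F ω, fl (v.B J) (F.x1 (v.B J) ω)), (F.D k ω, (F.X J ω, F.W ω)))) ≤
      blk (v.winV ε F) {κ} A k l := by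
    refine CH_mono_cond h0 fun ω ω' _ _ e => ?_
    have e1 := Prod.ext_iff.1 e
    have e2 := Prod.ext_iff.1 e1.1
    have e3 := Prod.ext_iff.1 e1.2
    have e4 := Prod.ext_iff.1 e3.2
    have hy : v.y J F ω = v.y J F ω' := e2.1
    have hx1 : fl (v.B J) (F.x1 (v.B J) ω) = fl (v.B J) (F.x1 (v.B J) ω') := e2.2
    have hD : F.D k ω = F.D k ω' := e3.1
    have hX : F.X J ω = F.X J ω' := e4.1
    have hW : F.W ω = F.W ω' := e4.2
    have hT : F.T ω = F.T ω' := (Prod.ext_iff.1 hW).1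
    have hZ : F.Z ω = F.Z ω' := (Prod.ext_iff.1 hW).2
    refine Prod.ext (funext fun i => congrFun hD (ε i)) (Prod.ext (funext fun i => ?_)
      (Prod.ext ?_ (Prod.ext hy ?_)))
    · show (v.winV ε F).X (J - v.B J) ω i = (v.winV ε F).X (J - v.B J) ω' i
      rw [winV_X, winV_X, hX, hx1]
    · show F.T ω % 2 ^ (J - v.B J) = F.T ω' % 2 ^ (J - v.B J)
      rw [hT]
    · show F.c (v.B J) ω = F.c (v.B J) ω'
      unfold Fam.c Fam.T1
      rw [hT, hx1, hZ]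
  unfold blk at h5 ⊢
  linarith

/-- The numbers of the windows. -/
theorem nbr_win {S : PCl m} {v : Vz m} {ε : Fin n → Fin m}
    {N : Finset (Fin n) → ℝ → ℝ → ℝ} (hN : ActN (WyV S v ε) N) (κ : Fin n)
    {x y : ℝ} (hx0 : 0 ≤ x) (hx1 : x ≤ 1) (hy0 : 0 ≤ y) (hy : y ≤ 1) :
    Nbr S (fun J F A => blk (v.winV ε F) {κ} A ⌊x * ((J - v.B J : ℕ) : ℝ)⌋₊
      ⌊y * ((J - v.B J : ℕ) : ℝ)⌋₊) ((1 - v.b) * (N {κ} x y * Real.log 2)) := by
  have hb0 := v.b0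
  have hb1 := v.b1
  intro h hh
  have k1 := bas_wyV (hN.num {κ} x y hx0 hx1 hy0 hy (h / 2) (half_pos hh))
  obtain ⟨a, ha⟩ : ∃ a : ℝ, a = N {κ} x y * Real.log 2 := ⟨_, rfl⟩
  rw [← ha] at k1 ⊢
  obtain ⟨J₁, hJ₁⟩ := exists_nat_ge (2 * |a| / h)
  refine Bas.mono J₁ k1 fun J hJ F A hA => ?_
  have hJ0 : (0 : ℝ) ≤ J := Nat.cast_nonneg J
  have e1 : ((J - v.B J : ℕ) : ℝ) = J - v.B J := by rw [Nat.cast_sub (v.floor_le J).1]
  have e2 : (v.B J : ℝ) ≤ v.b * J := Nat.floor_le (mul_nonneg hb0 hJ0)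
  have e3 : v.b * J - 1 < (v.B J : ℝ) := Nat.sub_one_lt_floor _
  have e4 : 2 * |a| ≤ h * J := by
    have h3 : (J₁ : ℝ) ≤ J := by exact_mod_cast hJ
    have h4 := hJ₁.trans h3
    rw [div_le_iff₀ hh] at h4
    linarith
  show |blk (v.winV ε F) {κ} A ⌊x * ((J - v.B J : ℕ) : ℝ)⌋₊ ⌊y * ((J - v.B J : ℕ) : ℝ)⌋₊ -
    (1 - v.b) * a * J| ≤ h * J
  have hA' : |blk (v.winV ε F) {κ} A ⌊x * ((J - v.B J : ℕ) : ℝ)⌋₊
    ⌊y * ((J - v.B J : ℕ) : ℝ)⌋₊ - a * ((J - v.B J : ℕ) : ℝ)| ≤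
      h / 2 * ((J - v.B J : ℕ) : ℝ) := hA
  have e5 : |a * ((J - v.B J : ℕ) : ℝ) - (1 - v.b) * a * J| ≤ |a| := by
    rw [e1]
    have e6 : a * (J - v.B J) - (1 - v.b) * a * J = a * (v.b * J - v.B J) := by ring
    rw [e6, abs_mul]
    have : |v.b * J - v.B J| ≤ 1 := by
      rw [abs_le]
      constructor <;> linarith
    calc |a| * |v.b * J - v.B J| ≤ |a| * 1 := mul_le_mul_of_nonneg_left this (abs_nonneg _)
      _ = |a| := mul_one _
  have e7 : ((J - v.B J : ℕ) : ℝ) ≤ J := by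
    rw [e1]
    have : (0 : ℝ) ≤ v.B J := Nat.cast_nonneg _
    linarith
  have e8 := abs_sub_le (blk (v.winV ε F) {κ} A ⌊x * ((J - v.B J : ℕ) : ℝ)⌋₊
    ⌊y * ((J - v.B J : ℕ) : ℝ)⌋₊) (a * ((J - v.B J : ℕ) : ℝ)) ((1 - v.b) * a * J)
  have e9 : h / 2 * ((J - v.B J : ℕ) : ℝ) ≤ h / 2 * J :=
    mul_le_mul_of_nonneg_left e7 (by linarith)
  linarith

/-- **The mesh sums of the zooms behind the record.** -/
theorem num_winT {S : PCl m} (hne : S.Ne) (hpos : Bas S (fun _ F A => 0 < Pe F.p A))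
    {Ns : Finset (Fin m) → ℝ → ℝ → ℝ} (hNs : ActN S Ns) (v : Vz m) (ε : Fin n → Fin m)
    {N : Finset (Fin n) → ℝ → ℝ → ℝ} (hN : ActN (WyV S v ε) N) (κ : Fin n) {P₀ h : ℝ}
    (hrec : Bas S (fun J F A =>
      CH (Pool.Agent.H49.Ent.cond F.p A True) (v.y J F)
        (fun ω => (F.D ⌊P₀ * J⌋₊ ω, (F.X J ω, F.W ω))) ≤ h * J))
    (M : ℕ) {x : ℕ → ℝ} (hx : Monotone x) (hx0 : 0 ≤ x 0) (hP₀ : P₀ ≤ (1 - v.b) * x 0)
    (hxM : x M ≤ 1) :
    ∑ i ∈ range M, Ns {ε κ} ((1 - v.b) * x i) ((1 - v.b) * x (i + 1)) ≤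
      (1 - v.b) * ∑ i ∈ range M, N {κ} (x i) (x (i + 1)) + h / Real.log 2 := by
  have hl2 : 0 < Real.log 2 := Real.log_pos one_lt_two
  have hb0 := v.b0
  have hb1 := v.b1
  have hc : 0 < 1 - v.b := by linarith
  have hxi0 : ∀ i, 0 ≤ x i := fun i => hx0.trans (hx (Nat.zero_le i))
  have hxi1 : ∀ i ≤ M, x i ≤ 1 := fun i hi => (hx hi).trans hxM
  have h1 : Nbr S (fun J F A => ∑ i ∈ range M, blk F {ε κ} A ⌊(1 - v.b) * x i * J⌋₊
      ⌊(1 - v.b) * x (i + 1) * J⌋₊)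
      (∑ i ∈ range M, Ns {ε κ} ((1 - v.b) * x i) ((1 - v.b) * x (i + 1)) * Real.log 2) :=
    Nbr.sum _ fun i hi => by
      have hiM := Finset.mem_range.1 hi
      refine hNs.num {ε κ} ((1 - v.b) * x i) ((1 - v.b) * x (i + 1))
        (mul_nonneg hc.le (hxi0 i)) ?_ (mul_nonneg hc.le (hxi0 _)) ?_
      · exact mul_le_one₀ (by linarith) (hxi0 i) (hxi1 i (by omega))
      · exact mul_le_one₀ (by linarith) (hxi0 _) (hxi1 _ (by omega))
  have h2 : Nbr S (fun J F A => ∑ i ∈ range M, blk (v.winV ε F) {κ} A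
      ⌊x i * ((J - v.B J : ℕ) : ℝ)⌋₊ ⌊x (i + 1) * ((J - v.B J : ℕ) : ℝ)⌋₊)
      (∑ i ∈ range M, (1 - v.b) * (N {κ} (x i) (x (i + 1)) * Real.log 2)) :=
    Nbr.sum _ fun i hi => by
      have hiM := Finset.mem_range.1 hi
      exact nbr_win hN κ (hxi0 i) (hxi1 i (by omega)) (hxi0 _) (hxi1 _ (by omega))
  have key := Nbr.le hne h1 h2 (c := h) (C := M * (m * k99 + n * Real.log 2 * 4)) (by
    refine Bas.mono 0 (hrec.and hpos) ?_
    rintro J - F A ⟨h3, hA⟩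
    have hq := isLaw_cond F.isLaw hA
    have hJ0 : (0 : ℝ) ≤ J := Nat.cast_nonneg J
    have e1 : ((J - v.B J : ℕ) : ℝ) = J - v.B J := by rw [Nat.cast_sub (v.floor_le J).1]
    have e2 : (v.B J : ℝ) ≤ v.b * J := Nat.floor_le (mul_nonneg hb0 hJ0)
    have e3 : v.b * J - 1 < (v.B J : ℝ) := Nat.sub_one_lt_floor _
    have near : ∀ z : ℝ, 0 ≤ z → z ≤ 1 → |((⌊(1 - v.b) * z * J⌋₊ : ℕ) : ℝ) -
        (⌊z * ((J - v.B J : ℕ) : ℝ)⌋₊ : ℕ)| ≤ 2 := by
      intro z hz0 hz1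
      have a1 : (⌊(1 - v.b) * z * J⌋₊ : ℝ) ≤ (1 - v.b) * z * J := Nat.floor_le (by positivity)
      have a2 : (1 - v.b) * z * J - 1 < (⌊(1 - v.b) * z * J⌋₊ : ℝ) := Nat.sub_one_lt_floor _
      have a3 : (⌊z * ((J - v.B J : ℕ) : ℝ)⌋₊ : ℝ) ≤ z * ((J - v.B J : ℕ) : ℝ) :=
        Nat.floor_le (by positivity)
      have a4 : z * ((J - v.B J : ℕ) : ℝ) - 1 < (⌊z * ((J - v.B J : ℕ) : ℝ)⌋₊ : ℝ) :=
        Nat.sub_one_lt_floor _
      rw [e1] at a3 a4 ⊢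
      have a5 : 0 ≤ z * (v.b * J - v.B J) := mul_nonneg hz0 (by linarith)
      have a6 : z * (v.b * J - v.B J) ≤ 1 := mul_le_one₀ hz1 (by linarith) (by linarith)
      rw [abs_le]
      constructor <;> nlinarith
    obtain ⟨φ, hφ⟩ : ∃ φ : ℕ → ℝ, φ = fun i => CH (Pool.Agent.H49.Ent.cond F.p A True) (v.y J F)
        (fun ω => (F.D ⌊(1 - v.b) * x i * J⌋₊ ω, (F.X J ω, F.W ω))) := ⟨_, rfl⟩
    have hone : ∀ i ∈ range M, blk F {ε κ} A ⌊(1 - v.b) * x i * J⌋₊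
        ⌊(1 - v.b) * x (i + 1) * J⌋₊ ≤ blk (v.winV ε F) {κ} A
        ⌊x i * ((J - v.B J : ℕ) : ℝ)⌋₊ ⌊x (i + 1) * ((J - v.B J : ℕ) : ℝ)⌋₊ +
        (φ i - φ (i + 1)) + (m * k99 + n * Real.log 2 * 4) := by
      intro i hi
      have hiM := Finset.mem_range.1 hi
      have k0 : ⌊(1 - v.b) * x i * J⌋₊ ≤ ⌊(1 - v.b) * x (i + 1) * J⌋₊ :=
        Nat.floor_le_floor (mul_le_mul_of_nonneg_right
          (mul_le_mul_of_nonneg_left (hx (Nat.le_succ i)) hc.le) hJ0)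
      have k1 := blk_winT F v ε hA κ k0
      have k2 := blk_near (F := v.winV ε F) hA {κ} ⌊(1 - v.b) * x i * J⌋₊
        ⌊x i * ((J - v.B J : ℕ) : ℝ)⌋₊ ⌊(1 - v.b) * x (i + 1) * J⌋₊
        ⌊x (i + 1) * ((J - v.B J : ℕ) : ℝ)⌋₊
      have k4 : (n : ℝ) * Real.log 2 * (|((⌊(1 - v.b) * x i * J⌋₊ : ℕ) : ℝ) -
          (⌊x i * ((J - v.B J : ℕ) : ℝ)⌋₊ : ℕ)| + |((⌊(1 - v.b) * x (i + 1) * J⌋₊ : ℕ) : ℝ) -
          (⌊x (i + 1) * ((J - v.B J : ℕ) : ℝ)⌋₊ : ℕ)|) ≤ n * Real.log 2 * 4 := by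
        refine mul_le_mul_of_nonneg_left ?_ (by positivity)
        linarith [near (x i) (hxi0 i) (hxi1 i (by omega)),
          near (x (i + 1)) (hxi0 _) (hxi1 _ (by omega))]
      rw [hφ]
      linarith
    have h5 := Finset.sum_le_sum hone
    rw [Finset.sum_add_distrib, Finset.sum_add_distrib, Finset.sum_range_sub', Finset.sum_const,
      Finset.card_range, nsmul_eq_mul] at h5
    have h6 : φ 0 ≤ h * J := by
      rw [hφ]
      refine le_trans (CH_mono_cond hq.nonneg fun ω ω' _ _ e => ?_) h3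
      have e' := Prod.ext_iff.1 e
      refine Prod.ext (Pool.STK.B58.fl_fine (Nat.floor_le_floor ?_) e'.1) e'.2
      exact mul_le_mul_of_nonneg_right hP₀ hJ0
    have h7 : 0 ≤ φ M := by
      rw [hφ]
      exact CH_nonneg hq.nonneg _ _
    show ∑ i ∈ range M, blk F {ε κ} A ⌊(1 - v.b) * x i * J⌋₊ ⌊(1 - v.b) * x (i + 1) * J⌋₊ ≤
      ∑ i ∈ range M, blk (v.winV ε F) {κ} A ⌊x i * ((J - v.B J : ℕ) : ℝ)⌋₊
        ⌊x (i + 1) * ((J - v.B J : ℕ) : ℝ)⌋₊ + h * J + M * (m * k99 + n * Real.log 2 * 4)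
    linarith)
  rw [← Finset.sum_mul, ← Finset.mul_sum, ← Finset.sum_mul] at key
  refine le_of_mul_le_mul_right ?_ hl2
  rw [add_mul, div_mul_cancel₀ _ hl2.ne']
  linarith

/-- **The total activity of the zooms behind the record.** -/
theorem ff_win {S : PCl m} (hne : S.Ne) (hpos : Bas S (fun _ F A => 0 < Pe F.p A))
    {Ns : Finset (Fin m) → ℝ → ℝ → ℝ} (hNs : ActN S Ns) (v : Vz m) (ε : Fin n → Fin m)
    {N : Finset (Fin n) → ℝ → ℝ → ℝ} (hN : ActN (WyV S v ε) N) (κ : Fin n) {P₀ h : ℝ}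
    (hrec : Bas S (fun J F A =>
      CH (Pool.Agent.H49.Ent.cond F.p A True) (v.y J F)
        (fun ω => (F.D ⌊P₀ * J⌋₊ ω, (F.X J ω, F.W ω))) ≤ h * J))
    {P Q : ℝ} (hP0 : 0 ≤ P) (hP₀ : P₀ ≤ (1 - v.b) * P) (hPQ : P ≤ Q) (hQ : Q ≤ 1) :
    FF (Ns {ε κ}) ((1 - v.b) * Q) - FF (Ns {ε κ}) ((1 - v.b) * P) ≤
      (1 - v.b) * (FF (N {κ}) Q - FF (N {κ}) P) + h / Real.log 2 := by
  have hb0 := v.b0
  have hb1 := v.b1
  have hc : 0 < 1 - v.b := by linarith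
  refine le_of_forall_pos_le_add fun e he => ?_
  obtain ⟨d₁, hd₁, k₁⟩ := ff_mesh (hNs.sa {ε κ}) (half_pos he)
  obtain ⟨d₂, hd₂, k₂⟩ := ff_mesh (hN.sa {κ}) (half_pos he)
  obtain ⟨M, hM⟩ := exists_nat_gt ((Q - P) / min d₁ d₂)
  have hd0 : 0 < min d₁ d₂ := lt_min hd₁ hd₂
  have hM0 : (0 : ℝ) < M := lt_of_le_of_lt (by
    have : 0 ≤ Q - P := by linarith
    positivity) hM
  rw [div_lt_iff₀ hd0] at hM
  obtain ⟨x, hx⟩ : ∃ x : ℕ → ℝ, x = fun l : ℕ => P + l * ((Q - P) / M) := ⟨_, rfl⟩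
  have hst : (Q - P) / M ≤ min d₁ d₂ := by
    rw [div_le_iff₀ hM0]
    linarith
  have hst0 : 0 ≤ (Q - P) / M := div_nonneg (by linarith) hM0.le
  have hxm : Monotone x := by
    intro l l' hll
    have h1 : (l : ℝ) ≤ l' := by exact_mod_cast hll
    rw [hx]
    have := mul_le_mul_of_nonneg_right h1 hst0
    show P + l * ((Q - P) / M) ≤ P + l' * ((Q - P) / M)
    linarith
  have hx0 : x 0 = P := by rw [hx]; simp
  have hxM : x M = Q := by
    rw [hx]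
    show P + M * ((Q - P) / M) = Q
    field_simp
    ring
  have hstep : ∀ i, x (i + 1) - x i = (Q - P) / M := by
    intro i
    rw [hx]
    show P + ((i + 1 : ℕ) : ℝ) * ((Q - P) / M) - (P + i * ((Q - P) / M)) = _
    push_cast
    ring
  have h1 := num_winT hne hpos hNs v ε hN κ hrec M hxm (by rw [hx0]; exact hP0)
    (by rw [hx0]; exact hP₀) (by rw [hxM]; exact hQ)
  have h2 := k₂ M x hxm (by rw [hx0]; exact hP0) (by rw [hxM]; exact hQ) (fun i _ => by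
    rw [hstep]
    exact hst.trans (min_le_right _ _))
  have h3 := k₁ M (fun i => (1 - v.b) * x i) (fun i j hij => mul_le_mul_of_nonneg_left (hxm hij)
    hc.le) (mul_nonneg hc.le (by rw [hx0]; exact hP0)) (by
      show (1 - v.b) * x M ≤ 1
      rw [hxM]
      exact mul_le_one₀ (by linarith) (hP0.trans hPQ) hQ) (fun i _ => by
        show (1 - v.b) * x (i + 1) - (1 - v.b) * x i ≤ d₁
        rw [← mul_sub, hstep]
        have h4 : (1 - v.b) * ((Q - P) / M) ≤ 1 * ((Q - P) / M) :=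
          mul_le_mul_of_nonneg_right (by linarith) hst0
        have h5 := hst.trans (min_le_left _ _)
        linarith)
  rw [hx0, hxM] at h2 h3
  rw [abs_le] at h2 h3
  have h4 : (1 - v.b) * (∑ i ∈ range M, N {κ} (x i) (x (i + 1))) ≤
      (1 - v.b) * (FF (N {κ}) Q - FF (N {κ}) P) + e / 2 := by
    have h5 : (1 - v.b) * (∑ i ∈ range M, N {κ} (x i) (x (i + 1))) ≤
        (1 - v.b) * (FF (N {κ}) Q - FF (N {κ}) P + e / 2) :=
      mul_le_mul_of_nonneg_left (by linarith [h2.2]) hc.le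
    nlinarith
  linarith [h3.1]

/-- **Exactness in the tubes** behind records with few bits given the exact point and the first
digits of the direction. -/
theorem rex_tubeH {S : PCl m} (hS : S.Ne) {C₀ : ℝ} (hC₀ : 0 ≤ C₀) (htm : TmC S C₀)
    (hpos : ∀ (τ : ℝ) (J : ℕ) (F : Fam m J) (A : F.Ω → Prop), S.St τ J F A → 0 < Pe F.p A)
    {Ns : Finset (Fin m) → ℝ → ℝ → ℝ} (hNs : ActN S Ns)
    {ι : Type} [Countable ι] (k : ι → ℕ) (hF : ∀ i, FZX (k i)) (v : ι → Vz m)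
    (ε : ∀ i, Fin (k i) → Fin m) (κ : ∀ i, Fin (k i)) {P₀ h P Q : ι → ℝ}
    (hrec : ∀ i, Bas S (fun J F A =>
      CH (Pool.Agent.H49.Ent.cond F.p A True) ((v i).y J F)
        (fun ω => (F.D ⌊P₀ i * J⌋₊ ω, (F.X J ω, F.W ω))) ≤ h i * J))
    (hP0 : ∀ i, 0 ≤ P₀ i) (hPP : ∀ i, P₀ i ≤ P i) (hPQ : ∀ i, P i < Q i)
    (hQ : ∀ i, Q i < (1 - (v i).b) / 2)
    (hact : ∀ i, h i / Real.log 2 < FF (Ns {ε i (κ i)}) (Q i) - FF (Ns {ε i (κ i)}) (P i)) :
    ∃ (p : ι → ℝ) (S₃ : PCl m) (L : ∀ i, Finset (Fin (k i)) → Fin (k i) → ℝ → ℝ → ℝ), S₃.Ne ∧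
      (∀ (τ : ℝ) (J : ℕ) (F : Fam m J) (A : F.Ω → Prop), S₃.St τ J F A → S.St τ J F A) ∧
      ∀ i, P i < (1 - (v i).b) * p i ∧ (1 - (v i).b) * p i < Q i ∧
        RDt S₃ (v i) (ε i) (p i) (κ i) (L i) := by
  obtain ⟨S₁, N, hne₁, hsub₁, hN⟩ := act_all hS hpos k (fun i => wyZ (v i) (ε i))
  have hpos₁ : ∀ (τ : ℝ) (J : ℕ) (F : Fam m J) (A : F.Ω → Prop), S₁.St τ J F A →
      0 < Pe F.p A := fun τ J F A h => hpos τ J F A (hsub₁ τ J F A h)
  have hposB₁ : Bas S₁ (fun _ F A => 0 < Pe F.p A) :=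
    ⟨1, one_pos, 0, fun J _ F A hA => hpos₁ 1 J F A hA⟩
  have hb : ∀ Φ : Stat m, Bas S Φ → Bas S₁ Φ := fun Φ h => Bas.sub hsub₁ h
  have hNs₁ : ActN S₁ Ns := actN_of_bas hb hNs
  have hN' : ∀ i, ActN (WyV S₁ (v i) (ε i)) (N i) := fun i => hN i
  have hpick : ∀ i, ∃ p : ℝ, P i < (1 - (v i).b) * p ∧ (1 - (v i).b) * p < Q i ∧
      ∃ al : ℝ, 0 < al ∧ Act (N i {κ i}) p al := by
    intro i
    have hb1 := (v i).b1
    have hc : 0 < 1 - (v i).b := by linarith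
    have hP0i : 0 ≤ P i := (hP0 i).trans (hPP i)
    have e1 : ∀ z : ℝ, (1 - (v i).b) * (z / (1 - (v i).b)) = z := fun z => by field_simp
    have hPd : 0 ≤ P i / (1 - (v i).b) := div_nonneg hP0i hc.le
    have hPQd : P i / (1 - (v i).b) < Q i / (1 - (v i).b) := div_lt_div_of_pos_right (hPQ i) hc
    have hQd : Q i / (1 - (v i).b) ≤ 1 := by
      rw [div_le_one hc]
      have := hQ i
      linarith
    have h1 := ff_win hne₁ hposB₁ hNs₁ (v i) (ε i) (hN' i) (κ i) (hb _ (hrec i)) hPd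
      (by rw [e1]; exact hPP i) hPQd.le hQd
    rw [e1, e1] at h1
    have h2 := hact i
    have h3 : 0 < FF (N i {κ i}) (Q i / (1 - (v i).b)) - FF (N i {κ i}) (P i / (1 - (v i).b)) := by
      by_contra hcon
      push Not at hcon
      have := mul_nonpos_of_nonneg_of_nonpos hc.le hcon
      linarith
    have h4 : 0 < ∫ t in (P i / (1 - (v i).b))..(Q i / (1 - (v i).b)),
        deriv (FF (N i {κ i})) t := by
      rw [Pool.SUPA.integral_deriv ((hN' i).sa {κ i})]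
      exact h3
    obtain ⟨p, hp1, hp2, al, hal, hp3⟩ := leb_pick (N := N i {κ i}) (measurable_deriv _)
      (fun q => (Pool.SUPA.FF_mono ((hN' i).sa {κ i})).deriv_nonneg)
      (Pool.SUPA.deriv_le ((hN' i).sa {κ i})) (fun x y a1 a2 a3 => by
        rw [Pool.SUPA.integral_deriv ((hN' i).sa {κ i})]
        exact Pool.SUPA.FF_le ((hN' i).sa {κ i}) a1 a2 a3) hPd hPQd h4
    refine ⟨p, ?_, ?_, al, hal, hp3⟩
    · rw [div_lt_iff₀ hc] at hp1
      linarith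
    · rw [lt_div_iff₀ hc] at hp2
      linarith
  choose p hp1 hp2 al hal hact₁ using hpick
  have hp00 : ∀ i, 0 < p i := by
    intro i
    have hb1 := (v i).b1
    have hc : 0 < 1 - (v i).b := by linarith
    have h1 : 0 < (1 - (v i).b) * p i := ((hP0 i).trans (hPP i)).trans_lt (hp1 i)
    by_contra hcon
    push Not at hcon
    have := mul_nonpos_of_nonneg_of_nonpos hc.le hcon
    linarith
  have hp02 : ∀ i, p i < 1 / 2 := by
    intro i
    have hb1 := (v i).b1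
    have hc : 0 < 1 - (v i).b := by linarith
    have h1 : (1 - (v i).b) * p i < (1 - (v i).b) * (1 / 2) := by
      have h2 := hp2 i
      have h3 := hQ i
      linarith
    exact lt_of_mul_lt_mul_left h1 hc.le
  obtain ⟨S₃, L, hne₃, hsub₃, hR⟩ := rexv_at hne₁ hC₀
    (fun τ J F A hτ h => htm τ J F A hτ (hsub₁ τ J F A h)) hpos₁ k hF v ε hN' κ hp00 hp02 hal hact₁
  exact ⟨p, S₃, L, hne₃, fun τ J F A h => hsub₁ τ J F A (hsub₃ τ J F A h),
    fun i => ⟨hp1 i, hp2 i, hR i⟩⟩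

end Pool.TGT
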