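import Pool.Agent.H33.SHF.Unl
import Pool.Agent.H33.SHF.Rate
import Pool.Agent.H89.TGT.RexH

/-!
# Zooms of classes with shrunk coordinates behind records with few bits

`rdq_tubS`: the zooms `vshf v s` of the classes `Shf S s` with the tube between `P` and `Q` and with
the active coordinate `ε κ` (which is not shrunk), if the record has `h J` bits given the exact
point and the first `P J` digits of the direction of the family itself, and the total activity of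
the class `S` between `P` and `Q` is more than `h`. `rdq_tubA`: from the activity near `0`.
-/

set_option autoImplicit false

namespace Pool.TGT

open Finset Real MeasureTheory
open Pool.Agent.H49.Ent Pool.Agent.H32.Dense Pool.STK Pool.KA Pool.KSAT Pool.K2S Pool.PB Pool.S6C
open Pool.GEN Pool.REX Pool.REX83 Pool.OWN72 Pool.SHF33 Pool.FRX
open Pool.SUPA (SA FF)

variable {m n J : ℕ}

/-- **The blocks of the zooms of the shrunk families**, with the telescoping loss. -/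
theorem blk_winS (F : Fam m J) (v : Vz m) (s : Fin m → ℝ) (ε : Fin n → Fin m) {A : F.Ω → Prop}
    (hA : 0 < Pe F.p A) (κ : Fin n) (hsκ : sd s J (ε κ) = 0) {k l : ℕ} (hkl : k ≤ l) :
    blk F {ε κ} A k l ≤ blk ((vshf v s).winV ε (shf F (sd s J))) {κ} A k l +
      (CH (Pool.Agent.H49.Ent.cond F.p A True) (v.y J F) (fun ω => (F.D k ω, (F.X J ω, F.W ω))) -
      CH (Pool.Agent.H49.Ent.cond F.p A True) (v.y J F) (fun ω => (F.D l ω, (F.X J ω, F.W ω)))) +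
      m * k99 := by
  have hq := isLaw_cond F.isLaw hA
  have h0 := hq.nonneg
  have hB : v.B J ≤ J := (v.floor_le J).1
  have h1 := CH_bayes h0 (fun ω => prjK {ε κ} (F.D l ω))
    (fun ω => (v.y J F ω, fl (v.B J) (F.x1 (v.B J) ω))) (fun ω => (F.D k ω, (F.X J ω, F.W ω)))
  have h2 := CH_subadd h0 (v.y J F) (fun ω => fl (v.B J) (F.x1 (v.B J) ω))
    (fun ω => (F.D k ω, (F.X J ω, F.W ω)))
  have h3 : CH (Pool.Agent.H49.Ent.cond F.p A True) (fun ω => fl (v.B J) (F.x1 (v.B J) ω))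
      (fun ω => (F.D k ω, (F.X J ω, F.W ω))) ≤ m * k99 := by
    refine le_trans (CH_mono_cond h0 fun ω ω' _ _ e => ?_) (x1_few F hB hq)
    have e1 := Prod.ext_iff.1 (Prod.ext_iff.1 e).2
    exact Prod.ext e1.1 (Prod.ext_iff.1 e1.2).1
  have h3' : CH (Pool.Agent.H49.Ent.cond F.p A True) (v.y J F)
      (fun ω => (F.D l ω, (F.X J ω, F.W ω))) ≤
      CH (Pool.Agent.H49.Ent.cond F.p A True)
        (fun ω => (v.y J F ω, fl (v.B J) (F.x1 (v.B J) ω)))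
        (fun ω => (prjK {ε κ} (F.D l ω), (F.D k ω, (F.X J ω, F.W ω)))) := by
    refine le_trans (CH_mono_cond h0 (W' := fun ω => (F.D l ω, (F.X J ω, F.W ω)))
      (W := fun ω => (prjK {ε κ} (F.D l ω), (F.D k ω, (F.X J ω, F.W ω)))) fun ω ω' _ _ e => ?_)
      (CH_mono_left h0 fun ω ω' _ _ e => ?_)
    · have e1 := Prod.ext_iff.1 e
      have e2 : F.D l ω = F.D l ω' := e1.1
      refine Prod.ext ?_ (Prod.ext (Pool.STK.B58.fl_fine hkl e1.1) e1.2)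
      show prjK {ε κ} (F.D l ω) = prjK {ε κ} (F.D l ω')
      rw [e2]
    · exact (Prod.ext_iff.1 (Prod.ext_iff.1 e).1).1
  have h4 : CH (Pool.Agent.H49.Ent.cond F.p A True) (fun ω => prjK {ε κ} (F.D l ω))
      (fun ω => ((v.y J F ω, fl (v.B J) (F.x1 (v.B J) ω)), (F.D k ω, (F.X J ω, F.W ω)))) ≤
      CH (Pool.Agent.H49.Ent.cond F.p A True)
        (fun ω => prjK {κ} (((vshf v s).winV ε (shf F (sd s J))).D l ω))
      (fun ω => ((v.y J F ω, fl (v.B J) (F.x1 (v.B J) ω)), (F.D k ω, (F.X J ω, F.W ω)))) := by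
    refine CH_mono_left h0 fun ω ω' _ _ e => ?_
    have e1 := congrFun (Prod.ext_iff.1 e).1 κ
    have e2 : F.D l ω (ε κ) = F.D l ω' (ε κ) := by
      unfold prjK at e1
      have e3 : ((vshf v s).winV ε (shf F (sd s J))).D l ω κ =
        ((vshf v s).winV ε (shf F (sd s J))).D l ω' κ := by simpa using e1
      have e4 : (shf F (sd s J)).D l ω (ε κ) = (shf F (sd s J)).D l ω' (ε κ) := e3
      rw [shf_Dd, shf_Dd, hsκ, pow_zero, Int.ediv_one, Int.ediv_one] at e4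
      exact e4
    funext i
    show prjK {ε κ} (F.D l ω) i = prjK {ε κ} (F.D l ω') i
    unfold prjK
    by_cases hi : i = ε κ
    · rw [hi, e2]
    · have : i ∉ ({ε κ} : Finset (Fin m)) := by simpa using hi
      rw [if_neg this, if_neg this]
  have h5 : CH (Pool.Agent.H49.Ent.cond F.p A True)
        (fun ω => prjK {κ} (((vshf v s).winV ε (shf F (sd s J))).D l ω))
      (fun ω => ((v.y J F ω, fl (v.B J) (F.x1 (v.B J) ω)), (F.D k ω, (F.X J ω, F.W ω)))) ≤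
      blk ((vshf v s).winV ε (shf F (sd s J))) {κ} A k l := by
    refine CH_mono_cond h0 fun ω ω' _ _ e => ?_
    have e1 := Prod.ext_iff.1 e
    have e2 := Prod.ext_iff.1 e1.1
    have e3 := Prod.ext_iff.1 e1.2
    have e4 := Prod.ext_iff.1 e3.2
    have hy : v.y J F ω = v.y J F ω' := e2.1
    have hx1 : fl (v.B J) (F.x1 (v.B J) ω) = fl (v.B J) (F.x1 (v.B J) ω') := e2.2
    have hD : F.D k ω = F.D k ω' := e3.1
    have hX : F.X J ω = F.X J ω' := e4.1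
    have hW : F.W ω = F.W ω' := e4.2
    have hT : F.T ω = F.T ω' := (Prod.ext_iff.1 hW).1
    have hZ : F.Z ω = F.Z ω' := (Prod.ext_iff.1 hW).2
    have hx1' : fl (v.B J) ((shf F (sd s J)).x1 (v.B J) ω) =
        fl (v.B J) ((shf F (sd s J)).x1 (v.B J) ω') := by
      funext i
      have a1 : ∀ ω : F.Ω, fl (v.B J) ((shf F (sd s J)).x1 (v.B J) ω) i =
          fl (v.B J) (F.x1 (v.B J) ω) i / 2 ^ sd s J i := by
        intro ω
        have a2 : fl (v.B J) ((shf F (sd s J)).x1 (v.B J) ω) i =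
          ⌊(2 : ℝ) ^ v.B J * (F.u ω i / 2 ^ sd s J i +
            (F.T1 (v.B J) ω : ℝ) / 2 ^ v.B J * (F.d ω i / 2 ^ sd s J i))⌋ := rfl
        have a3 : fl (v.B J) (F.x1 (v.B J) ω) i = ⌊(2 : ℝ) ^ v.B J * (F.u ω i +
            (F.T1 (v.B J) ω : ℝ) / 2 ^ v.B J * F.d ω i)⌋ := rfl
        rw [a2, a3, ← floor_div]
        congr 1
        ring
      rw [a1, a1, hx1]
    have hX' : (shf F (sd s J)).X J ω = (shf F (sd s J)).X J ω' := by
      funext i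
      rw [shf_Xd, shf_Xd, hX]
    refine Prod.ext (funext fun i => ?_) (Prod.ext (funext fun i => ?_)
      (Prod.ext ?_ (Prod.ext ((vshf_y v s F ω ω').2 hy) ?_)))
    · show (shf F (sd s J)).D k ω (ε i) = (shf F (sd s J)).D k ω' (ε i)
      rw [shf_Dd, shf_Dd, hD]
    · have b1 := winV_X (shf F (sd s J)) (vshf v s) ε ω i
      have b2 := winV_X (shf F (sd s J)) (vshf v s) ε ω' i
      have b3 : ((vshf v s).winV ε (shf F (sd s J))).X (J - (vshf v s).B J) ω i =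
          ((vshf v s).winV ε (shf F (sd s J))).X (J - (vshf v s).B J) ω' i := by
        rw [b1, b2, hX']
        have b4 : fl ((vshf v s).B J) ((shf F (sd s J)).x1 ((vshf v s).B J) ω) =
          fl ((vshf v s).B J) ((shf F (sd s J)).x1 ((vshf v s).B J) ω') := hx1'
        rw [b4]
      exact b3
    · show F.T ω % 2 ^ (J - v.B J) = F.T ω' % 2 ^ (J - v.B J)
      rw [hT]
    · show (shf F (sd s J)).c (v.B J) ω = (shf F (sd s J)).c (v.B J) ω'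
      unfold Fam.c
      have c1 : (shf F (sd s J)).T1 (v.B J) ω = (shf F (sd s J)).T1 (v.B J) ω' := by
        show F.T ω / 2 ^ (J - v.B J) = F.T ω' / 2 ^ (J - v.B J)
        rw [hT]
      have c2 : (shf F (sd s J)).Z ω = (shf F (sd s J)).Z ω' := hZ
      rw [c1, c2, hx1']
  unfold blk at h5 ⊢
  linarith

/-- The numbers of the windows of the shrunk families. -/
theorem nbr_winS {S : PCl m} {v : Vz m} {s : Fin m → ℝ} {ε : Fin n → Fin m}
    {N : Finset (Fin n) → ℝ → ℝ → ℝ} (hN : ActN (WyV (Shf S s) (vshf v s) ε) N) (κ : Fin n)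
    {x y : ℝ} (hx0 : 0 ≤ x) (hx1 : x ≤ 1) (hy0 : 0 ≤ y) (hy : y ≤ 1) :
    Nbr S (fun J F A => blk ((vshf v s).winV ε (shf F (sd s J))) {κ} A
      ⌊x * ((J - v.B J : ℕ) : ℝ)⌋₊ ⌊y * ((J - v.B J : ℕ) : ℝ)⌋₊)
      ((1 - v.b) * (N {κ} x y * Real.log 2)) := by
  intro h hh
  have h1 := bas_shf.1 (nbr_win hN κ hx0 hx1 hy0 hy h hh)
  exact h1

/-- **The mesh sums of the zooms behind the record.** -/
theorem num_winS {S : PCl m} (hne : S.Ne) (hpos : Bas S (fun _ F A => 0 < Pe F.p A))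
    {Ns : Finset (Fin m) → ℝ → ℝ → ℝ} (hNs : ActN S Ns) (v : Vz m) (s : Fin m → ℝ)
    (ε : Fin n → Fin m) {N : Finset (Fin n) → ℝ → ℝ → ℝ}
    (hN : ActN (WyV (Shf S s) (vshf v s) ε) N) (κ : Fin n) (hsκ : s (ε κ) ≤ 0) {P₀ h : ℝ}
    (hrec : Bas S (fun J F A =>
      CH (Pool.Agent.H49.Ent.cond F.p A True) (v.y J F)
        (fun ω => (F.D ⌊P₀ * J⌋₊ ω, (F.X J ω, F.W ω))) ≤ h * J))
    (M : ℕ) {x : ℕ → ℝ} (hx : Monotone x) (hx0 : 0 ≤ x 0) (hP₀ : P₀ ≤ (1 - v.b) * x 0)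
    (hxM : x M ≤ 1) :
    ∑ i ∈ range M, Ns {ε κ} ((1 - v.b) * x i) ((1 - v.b) * x (i + 1)) ≤
      (1 - v.b) * ∑ i ∈ range M, N {κ} (x i) (x (i + 1)) + h / Real.log 2 := by
  have hl2 : 0 < Real.log 2 := Real.log_pos one_lt_two
  have hb0 := v.b0
  have hb1 := v.b1
  have hc : 0 < 1 - v.b := by linarith
  have hxi0 : ∀ i, 0 ≤ x i := fun i => hx0.trans (hx (Nat.zero_le i))
  have hxi1 : ∀ i ≤ M, x i ≤ 1 := fun i hi => (hx hi).trans hxM
  have h1 : Nbr S (fun J F A => ∑ i ∈ range M, blk F {ε κ} A ⌊(1 - v.b) * x i * J⌋₊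
      ⌊(1 - v.b) * x (i + 1) * J⌋₊)
      (∑ i ∈ range M, Ns {ε κ} ((1 - v.b) * x i) ((1 - v.b) * x (i + 1)) * Real.log 2) :=
    Nbr.sum _ fun i hi => by
      have hiM := Finset.mem_range.1 hi
      refine hNs.num {ε κ} ((1 - v.b) * x i) ((1 - v.b) * x (i + 1))
        (mul_nonneg hc.le (hxi0 i)) ?_ (mul_nonneg hc.le (hxi0 _)) ?_
      · exact mul_le_one₀ (by linarith) (hxi0 i) (hxi1 i (by omega))
      · exact mul_le_one₀ (by linarith) (hxi0 _) (hxi1 _ (by omega))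
  have h2 : Nbr S (fun J F A => ∑ i ∈ range M, blk ((vshf v s).winV ε (shf F (sd s J))) {κ} A
      ⌊x i * ((J - v.B J : ℕ) : ℝ)⌋₊ ⌊x (i + 1) * ((J - v.B J : ℕ) : ℝ)⌋₊)
      (∑ i ∈ range M, (1 - v.b) * (N {κ} (x i) (x (i + 1)) * Real.log 2)) :=
    Nbr.sum _ fun i hi => by
      have hiM := Finset.mem_range.1 hi
      exact nbr_winS hN κ (hxi0 i) (hxi1 i (by omega)) (hxi0 _) (hxi1 _ (by omega))
  have key := Nbr.le hne h1 h2 (c := h) (C := M * (m * k99 + n * Real.log 2 * 4)) (by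
    refine Bas.mono 0 (hrec.and hpos) ?_
    rintro J - F A ⟨h3, hA⟩
    have hq := isLaw_cond F.isLaw hA
    have hJ0 : (0 : ℝ) ≤ J := Nat.cast_nonneg J
    have e1 : ((J - v.B J : ℕ) : ℝ) = J - v.B J := by rw [Nat.cast_sub (v.floor_le J).1]
    have e2 : (v.B J : ℝ) ≤ v.b * J := Nat.floor_le (mul_nonneg hb0 hJ0)
    have e3 : v.b * J - 1 < (v.B J : ℝ) := Nat.sub_one_lt_floor _
    have hsd : sd s J (ε κ) = 0 := by
      unfold sd
      refine Nat.floor_eq_zero.2 (lt_of_le_of_lt ?_ one_pos)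
      exact mul_nonpos_of_nonpos_of_nonneg hsκ hJ0
    have near : ∀ z : ℝ, 0 ≤ z → z ≤ 1 → |((⌊(1 - v.b) * z * J⌋₊ : ℕ) : ℝ) -
        (⌊z * ((J - v.B J : ℕ) : ℝ)⌋₊ : ℕ)| ≤ 2 := by
      intro z hz0 hz1
      have a1 : (⌊(1 - v.b) * z * J⌋₊ : ℝ) ≤ (1 - v.b) * z * J := Nat.floor_le (by positivity)
      have a2 : (1 - v.b) * z * J - 1 < (⌊(1 - v.b) * z * J⌋₊ : ℝ) := Nat.sub_one_lt_floor _
      have a3 : (⌊z * ((J - v.B J : ℕ) : ℝ)⌋₊ : ℝ) ≤ z * ((J - v.B J : ℕ) : ℝ) :=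
        Nat.floor_le (by positivity)
      have a4 : z * ((J - v.B J : ℕ) : ℝ) - 1 < (⌊z * ((J - v.B J : ℕ) : ℝ)⌋₊ : ℝ) :=
        Nat.sub_one_lt_floor _
      rw [e1] at a3 a4 ⊢
      have a5 : 0 ≤ z * (v.b * J - v.B J) := mul_nonneg hz0 (by linarith)
      have a6 : z * (v.b * J - v.B J) ≤ 1 := mul_le_one₀ hz1 (by linarith) (by linarith)
      rw [abs_le]
      constructor <;> nlinarith
    obtain ⟨φ, hφ⟩ : ∃ φ : ℕ → ℝ, φ = fun i => CH (Pool.Agent.H49.Ent.cond F.p A True) (v.y J F)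
        (fun ω => (F.D ⌊(1 - v.b) * x i * J⌋₊ ω, (F.X J ω, F.W ω))) := ⟨_, rfl⟩
    have hone : ∀ i ∈ range M, blk F {ε κ} A ⌊(1 - v.b) * x i * J⌋₊
        ⌊(1 - v.b) * x (i + 1) * J⌋₊ ≤ blk ((vshf v s).winV ε (shf F (sd s J))) {κ} A
        ⌊x i * ((J - v.B J : ℕ) : ℝ)⌋₊ ⌊x (i + 1) * ((J - v.B J : ℕ) : ℝ)⌋₊ +
        (φ i - φ (i + 1)) + (m * k99 + n * Real.log 2 * 4) := by
      intro i hi
      have hiM := Finset.mem_range.1 hi
      have k0 : ⌊(1 - v.b) * x i * J⌋₊ ≤ ⌊(1 - v.b) * x (i + 1) * J⌋₊ :=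
        Nat.floor_le_floor (mul_le_mul_of_nonneg_right
          (mul_le_mul_of_nonneg_left (hx (Nat.le_succ i)) hc.le) hJ0)
      have k1 := blk_winS F v s ε hA κ hsd k0
      have k2 := blk_near (F := (vshf v s).winV ε (shf F (sd s J))) hA {κ}
        ⌊(1 - v.b) * x i * J⌋₊ ⌊x i * ((J - v.B J : ℕ) : ℝ)⌋₊ ⌊(1 - v.b) * x (i + 1) * J⌋₊
        ⌊x (i + 1) * ((J - v.B J : ℕ) : ℝ)⌋₊
      have k4 : (n : ℝ) * Real.log 2 * (|((⌊(1 - v.b) * x i * J⌋₊ : ℕ) : ℝ) -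
          (⌊x i * ((J - v.B J : ℕ) : ℝ)⌋₊ : ℕ)| + |((⌊(1 - v.b) * x (i + 1) * J⌋₊ : ℕ) : ℝ) -
          (⌊x (i + 1) * ((J - v.B J : ℕ) : ℝ)⌋₊ : ℕ)|) ≤ n * Real.log 2 * 4 := by
        refine mul_le_mul_of_nonneg_left ?_ (by positivity)
        linarith [near (x i) (hxi0 i) (hxi1 i (by omega)),
          near (x (i + 1)) (hxi0 _) (hxi1 _ (by omega))]
      rw [hφ]
      linarith
    have h5 := Finset.sum_le_sum hone
    rw [Finset.sum_add_distrib, Finset.sum_add_distrib, Finset.sum_range_sub', Finset.sum_const,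
      Finset.card_range, nsmul_eq_mul] at h5
    have h6 : φ 0 ≤ h * J := by
      rw [hφ]
      refine le_trans (CH_mono_cond hq.nonneg fun ω ω' _ _ e => ?_) h3
      have e' := Prod.ext_iff.1 e
      refine Prod.ext (Pool.STK.B58.fl_fine (Nat.floor_le_floor ?_) e'.1) e'.2
      exact mul_le_mul_of_nonneg_right hP₀ hJ0
    have h7 : 0 ≤ φ M := by
      rw [hφ]
      exact CH_nonneg hq.nonneg _ _
    show ∑ i ∈ range M, blk F {ε κ} A ⌊(1 - v.b) * x i * J⌋₊ ⌊(1 - v.b) * x (i + 1) * J⌋₊ ≤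
      ∑ i ∈ range M, blk ((vshf v s).winV ε (shf F (sd s J))) {κ} A
        ⌊x i * ((J - v.B J : ℕ) : ℝ)⌋₊ ⌊x (i + 1) * ((J - v.B J : ℕ) : ℝ)⌋₊ + h * J +
        M * (m * k99 + n * Real.log 2 * 4)
    linarith)
  rw [← Finset.sum_mul, ← Finset.mul_sum, ← Finset.sum_mul] at key
  refine le_of_mul_le_mul_right ?_ hl2
  rw [add_mul, div_mul_cancel₀ _ hl2.ne']
  linarith

/-- **The total activity of the zooms behind the record.** -/
theorem ff_winS {S : PCl m} (hne : S.Ne) (hpos : Bas S (fun _ F A => 0 < Pe F.p A))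
    {Ns : Finset (Fin m) → ℝ → ℝ → ℝ} (hNs : ActN S Ns) (v : Vz m) (s : Fin m → ℝ)
    (ε : Fin n → Fin m) {N : Finset (Fin n) → ℝ → ℝ → ℝ}
    (hN : ActN (WyV (Shf S s) (vshf v s) ε) N) (κ : Fin n) (hsκ : s (ε κ) ≤ 0) {P₀ h : ℝ}
    (hrec : Bas S (fun J F A =>
      CH (Pool.Agent.H49.Ent.cond F.p A True) (v.y J F)
        (fun ω => (F.D ⌊P₀ * J⌋₊ ω, (F.X J ω, F.W ω))) ≤ h * J))
    {P Q : ℝ} (hP0 : 0 ≤ P) (hP₀ : P₀ ≤ (1 - v.b) * P) (hPQ : P ≤ Q) (hQ : Q ≤ 1) :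
    FF (Ns {ε κ}) ((1 - v.b) * Q) - FF (Ns {ε κ}) ((1 - v.b) * P) ≤
      (1 - v.b) * (FF (N {κ}) Q - FF (N {κ}) P) + h / Real.log 2 := by
  have hb0 := v.b0
  have hb1 := v.b1
  have hc : 0 < 1 - v.b := by linarith
  refine le_of_forall_pos_le_add fun e he => ?_
  obtain ⟨d₁, hd₁, k₁⟩ := ff_mesh (hNs.sa {ε κ}) (half_pos he)
  obtain ⟨d₂, hd₂, k₂⟩ := ff_mesh (hN.sa {κ}) (half_pos he)
  obtain ⟨M, hM⟩ := exists_nat_gt ((Q - P) / min d₁ d₂)
  have hd0 : 0 < min d₁ d₂ := lt_min hd₁ hd₂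
  have hM0 : (0 : ℝ) < M := lt_of_le_of_lt (by
    have : 0 ≤ Q - P := by linarith
    positivity) hM
  rw [div_lt_iff₀ hd0] at hM
  obtain ⟨x, hx⟩ : ∃ x : ℕ → ℝ, x = fun l : ℕ => P + l * ((Q - P) / M) := ⟨_, rfl⟩
  have hst : (Q - P) / M ≤ min d₁ d₂ := by
    rw [div_le_iff₀ hM0]
    linarith
  have hst0 : 0 ≤ (Q - P) / M := div_nonneg (by linarith) hM0.le
  have hxm : Monotone x := by
    intro l l' hll
    have h1 : (l : ℝ) ≤ l' := by exact_mod_cast hll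
    rw [hx]
    have := mul_le_mul_of_nonneg_right h1 hst0
    show P + l * ((Q - P) / M) ≤ P + l' * ((Q - P) / M)
    linarith
  have hx0 : x 0 = P := by rw [hx]; simp
  have hxM : x M = Q := by
    rw [hx]
    show P + M * ((Q - P) / M) = Q
    field_simp
    ring
  have hstep : ∀ i, x (i + 1) - x i = (Q - P) / M := by
    intro i
    rw [hx]
    show P + ((i + 1 : ℕ) : ℝ) * ((Q - P) / M) - (P + i * ((Q - P) / M)) = _
    push_cast
    ring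
  have h1 := num_winS hne hpos hNs v s ε hN κ hsκ hrec M hxm (by rw [hx0]; exact hP0)
    (by rw [hx0]; exact hP₀) (by rw [hxM]; exact hQ)
  have h2 := k₂ M x hxm (by rw [hx0]; exact hP0) (by rw [hxM]; exact hQ) (fun i _ => by
    rw [hstep]
    exact hst.trans (min_le_right _ _))
  have h3 := k₁ M (fun i => (1 - v.b) * x i) (fun i j hij => mul_le_mul_of_nonneg_left (hxm hij)
    hc.le) (mul_nonneg hc.le (by rw [hx0]; exact hP0)) (by
      show (1 - v.b) * x M ≤ 1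
      rw [hxM]
      exact mul_le_one₀ (by linarith) (hP0.trans hPQ) hQ) (fun i _ => by
        show (1 - v.b) * x (i + 1) - (1 - v.b) * x i ≤ d₁
        rw [← mul_sub, hstep]
        have h4 : (1 - v.b) * ((Q - P) / M) ≤ 1 * ((Q - P) / M) :=
          mul_le_mul_of_nonneg_right (by linarith) hst0
        have h5 := hst.trans (min_le_left _ _)
        linarith)
  rw [hx0, hxM] at h2 h3
  rw [abs_le] at h2 h3
  have h4 : (1 - v.b) * (∑ i ∈ range M, N {κ} (x i) (x (i + 1))) ≤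
      (1 - v.b) * (FF (N {κ}) Q - FF (N {κ}) P) + e / 2 := by
    have h5 : (1 - v.b) * (∑ i ∈ range M, N {κ} (x i) (x (i + 1))) ≤
        (1 - v.b) * (FF (N {κ}) Q - FF (N {κ}) P + e / 2) :=
      mul_le_mul_of_nonneg_left (by linarith [h2.2]) hc.le
    nlinarith
  linarith [h3.1]

/-- **The zooms of classes with shrunk coordinates** behind records with few bits, with the tube
between `P` and `Q`. -/
theorem rdq_tubS {S : PCl m} (hS : S.Ne)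
    (hpos : ∀ (τ : ℝ) (J : ℕ) (F : Fam m J) (A : F.Ω → Prop), S.St τ J F A → 0 < Pe F.p A)
    {Ns : Finset (Fin m) → ℝ → ℝ → ℝ} (hNs : ActN S Ns)
    {ι : Type} [Countable ι] (k : ι → ℕ) (s : ι → Fin m → ℝ) (v : ι → Vz m)
    (ε : ∀ i, Fin (k i) → Fin m) (κ : ∀ i, Fin (k i)) (hsκ : ∀ i, s i (ε i (κ i)) ≤ 0)
    {P₀ h P Q : ι → ℝ}
    (hrec : ∀ i, Bas S (fun J F A =>
      CH (Pool.Agent.H49.Ent.cond F.p A True) ((v i).y J F)
        (fun ω => (F.D ⌊P₀ i * J⌋₊ ω, (F.X J ω, F.W ω))) ≤ h i * J))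
    (hP0 : ∀ i, 0 ≤ P₀ i) (hPP : ∀ i, P₀ i ≤ P i) (hPQ : ∀ i, P i < Q i)
    (hQ : ∀ i, Q i < (1 - (v i).b) / 2)
    (hact : ∀ i, h i / Real.log 2 < FF (Ns {ε i (κ i)}) (Q i) - FF (Ns {ε i (κ i)}) (P i)) :
    ∃ (p : ι → ℝ) (S₃ : PCl m) (L : ∀ i, Finset (Fin (k i)) → Fin (k i) → ℝ → ℝ → ℝ), S₃.Ne ∧
      (∀ (τ : ℝ) (J : ℕ) (F : Fam m J) (A : F.Ω → Prop), S₃.St τ J F A → S.St τ J F A) ∧
      ∀ i, P i < (1 - (v i).b) * p i ∧ (1 - (v i).b) * p i < Q i ∧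
        RDq (Shf S₃ (s i)) (vshf (v i) (s i)) (ε i) (p i) (κ i) (L i) := by
  obtain ⟨v', hv'⟩ : ∃ v' : ι → Vz m, v' = fun i => vshf (v i) (s i) := ⟨_, rfl⟩
  have hvi : ∀ i, v' i = vshf (v i) (s i) := fun i => by rw [hv']
  obtain ⟨S₁, N, hne₁, hsub₁, hN⟩ := act_all hS hpos k (fun i => zshf (wyZ (v' i) (ε i)) (s i))
  have hN' : ∀ i, ActN (WyV (Shf S₁ (s i)) (v' i) (ε i)) (N i) := fun i => hN i
  have hpos₁ : ∀ (τ : ℝ) (J : ℕ) (F : Fam m J) (A : F.Ω → Prop), S₁.St τ J F A →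
      0 < Pe F.p A := fun τ J F A h => hpos τ J F A (hsub₁ τ J F A h)
  have hposB₁ : Bas S₁ (fun _ F A => 0 < Pe F.p A) :=
    ⟨1, one_pos, 0, fun J _ F A hA => hpos₁ 1 J F A hA⟩
  have hb : ∀ Φ : Stat m, Bas S Φ → Bas S₁ Φ := fun Φ h => Bas.sub hsub₁ h
  have hNs₁ : ActN S₁ Ns := actN_of_bas hb hNs
  have hpick : ∀ i, ∃ p : ℝ, P i < (1 - (v i).b) * p ∧ (1 - (v i).b) * p < Q i ∧
      ∃ al : ℝ, 0 < al ∧ Act (N i {κ i}) p al := by
    intro i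
    have hb1 := (v i).b1
    have hc : 0 < 1 - (v i).b := by linarith
    have hP0i : 0 ≤ P i := (hP0 i).trans (hPP i)
    have e1 : ∀ z : ℝ, (1 - (v i).b) * (z / (1 - (v i).b)) = z := fun z => by field_simp
    have hPd : 0 ≤ P i / (1 - (v i).b) := div_nonneg hP0i hc.le
    have hPQd : P i / (1 - (v i).b) < Q i / (1 - (v i).b) := div_lt_div_of_pos_right (hPQ i) hc
    have hQd : Q i / (1 - (v i).b) ≤ 1 := by
      rw [div_le_one hc]
      have := hQ i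
      linarith
    have hNi : ActN (WyV (Shf S₁ (s i)) (vshf (v i) (s i)) (ε i)) (N i) := by
      rw [← hvi i]
      exact hN' i
    have h1 := ff_winS hne₁ hposB₁ hNs₁ (v i) (s i) (ε i) hNi (κ i) (hsκ i)
      (hb _ (hrec i)) hPd (by rw [e1]; exact hPP i) hPQd.le hQd
    rw [e1, e1] at h1
    have h2 := hact i
    have h3 : 0 < FF (N i {κ i}) (Q i / (1 - (v i).b)) - FF (N i {κ i}) (P i / (1 - (v i).b)) := by
      by_contra hcon
      push Not at hcon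
      have := mul_nonpos_of_nonneg_of_nonpos hc.le hcon
      linarith
    have h4 : 0 < ∫ t in (P i / (1 - (v i).b))..(Q i / (1 - (v i).b)),
        deriv (FF (N i {κ i})) t := by
      rw [Pool.SUPA.integral_deriv ((hN' i).sa {κ i})]
      exact h3
    obtain ⟨p, hp1, hp2, al, hal, hp3⟩ := leb_pick (N := N i {κ i}) (measurable_deriv _)
      (fun q => (Pool.SUPA.FF_mono ((hN' i).sa {κ i})).deriv_nonneg)
      (Pool.SUPA.deriv_le ((hN' i).sa {κ i})) (fun x y a1 a2 a3 => by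
        rw [Pool.SUPA.integral_deriv ((hN' i).sa {κ i})]
        exact Pool.SUPA.FF_le ((hN' i).sa {κ i}) a1 a2 a3) hPd hPQd h4
    refine ⟨p, ?_, ?_, al, hal, hp3⟩
    · rw [div_lt_iff₀ hc] at hp1
      linarith
    · rw [lt_div_iff₀ hc] at hp2
      linarith
  choose p hp1 hp2 al hal hact₁ using hpick
  have hp00 : ∀ i, 0 < p i := by
    intro i
    have hb1 := (v i).b1
    have hc : 0 < 1 - (v i).b := by linarith
    have h1 : 0 < (1 - (v i).b) * p i := ((hP0 i).trans (hPP i)).trans_lt (hp1 i)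
    by_contra hcon
    push Not at hcon
    have := mul_nonpos_of_nonneg_of_nonpos hc.le hcon
    linarith
  have hp02 : ∀ i, p i < 1 / 2 := by
    intro i
    have hb1 := (v i).b1
    have hc : 0 < 1 - (v i).b := by linarith
    have h1 : (1 - (v i).b) * p i < (1 - (v i).b) * (1 / 2) := by
      have h2 := hp2 i
      have h3 := hQ i
      linarith
    exact lt_of_mul_lt_mul_left h1 hc.le
  have hp0 : ∀ i, 0 ≤ p i := fun i => (hp00 i).le
  have hp11 : ∀ i, p i < 1 := fun i => (hp02 i).trans (by norm_num)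
  obtain ⟨S₃, L, hne₃, hsub₃, hL⟩ := lam_all hne₁ k
    (fun i => zshf (reZ (atp (v' i) (p i) (hp0 i) (hp11 i)) (ε i)) (s i))
  refine ⟨p, S₃, L, hne₃, fun τ J F A h => hsub₁ τ J F A (hsub₃ τ J F A h), fun i =>
    ⟨hp1 i, hp2 i, ?_⟩⟩
  have hpos₃ : ∀ (τ : ℝ) (J : ℕ) (F : Fam m J) (A : F.Ω → Prop), S₃.St τ J F A →
      0 < Pe F.p A := fun τ J F A h => hpos₁ τ J F A (hsub₃ τ J F A h)
  have hN₃ : ActN (WyV (Shf S₃ (s i)) (v' i) (ε i)) (N i) :=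
    actN_of_bas (fun Φ hb => wyv_le (v' i) (ε i) (shf_le (sub_le hsub₃)) hb) (hN' i)
  obtain ⟨g₀, hg₀, hM⟩ := ActQ.mod (tub_actR (hp02 i).le (hact₁ i)).rat
  have hB := (tub_actB hN₃ (wyv_pos (v' i) (ε i) (shf_pos hpos₃)) (κ i) (hp0 i) (hp02 i).le).rat
  have hLi : LamW (RecV (Shf S₃ (s i)) (atp (v' i) (p i) (hp0 i) (hp11 i)) (ε i)) (L i) := hL i
  have hBi : ActB _ (RecV (Shf S₃ (s i)) (atp (v' i) (p i) (hp0 i) (hp11 i)) (ε i)) (κ i) :=
    actB_of_bas (fun Φ hb => Bas.sub (fun τ J F A hA =>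
      recv_atp (Shf S₃ (s i)) (v' i) (ε i) (p i) (hp0 i) (hp11 i) hA) hb) hB
  have hneR : (RecV (Shf S₃ (s i)) (atp (v' i) (p i) (hp0 i) (hp11 i)) (ε i)).Ne :=
    recV_ne (shf_ne hne₃) _ _
  have hposR : Bas (RecV (Shf S₃ (s i)) (atp (v' i) (p i) (hp0 i) (hp11 i)) (ε i))
      (fun _ F A => 0 < Pe F.p A) :=
    ⟨1, one_pos, 0, fun J _ F A hA => recv_pos _ _ (shf_pos hpos₃) 1 J F A hA⟩
  have hfin : RDq (Shf S₃ (s i)) (v' i) (ε i) (p i) (κ i) (L i) := by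
    refine ⟨hp00 i, hp02 i, hLi, ⟨_, al i, g₀, hal i, hg₀, hM, hBi⟩, ?_⟩
    have hκ : ∀ w : ℝ, 0 ≤ w → w < 1 → L i ∅ (κ i) w w = w := fun w hw0 hw1 =>
      hLi.act hneR (hal i) (hM.q hg₀) hBi hposR hw0 hw1
    obtain ⟨D, hD, hcov⟩ := wv_cover (φ := fun j => j) (κ := κ i) hLi hκ
    exact ⟨D, hD, fun w hw0 hw1 hwD => hcov w hw0 hw1 hwD⟩
  rw [hvi i] at hfin
  exact hfin

/-- **The zooms of classes with shrunk coordinates**, with the tube between `P` and `Q`, from the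
activity of the class near `0`. -/
theorem rdq_tubA {al : ℝ} {g₀ : ℝ → ℝ} (hal : 0 < al) (hg₀ : ∀ e, 0 < e → 0 < g₀ e) {θ : ℝ}
    (hθ : 0 < θ) : ∃ r₀ : ℝ, 0 < r₀ ∧ r₀ ≤ 1 / 2 ∧
    ∀ {m : ℕ} {S : PCl m} (_ : S.Ne)
    (_ : ∀ (τ : ℝ) (J : ℕ) (F : Fam m J) (A : F.Ω → Prop), S.St τ J F A → 0 < Pe F.p A)
    {Na : ℚ → ℚ → ℝ} (_ : ActM Na al g₀)
    {ι : Type} [Countable ι] (k : ι → ℕ) (s : ι → Fin m → ℝ) (v : ι → Vz m)
    (ε : ∀ i, Fin (k i) → Fin m) (κ : ∀ i, Fin (k i)) (_ : ∀ i, s i (ε i (κ i)) ≤ 0)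
    (_ : ∀ i, ActB Na S (ε i (κ i))) {P₀ h P Q : ι → ℝ}
    (_ : ∀ i, Bas S (fun J F A =>
      CH (Pool.Agent.H49.Ent.cond F.p A True) ((v i).y J F)
        (fun ω => (F.D ⌊P₀ i * J⌋₊ ω, (F.X J ω, F.W ω))) ≤ h i * J))
    (_ : ∀ i, 0 ≤ P₀ i) (_ : ∀ i, P₀ i ≤ P i) (_ : ∀ i, P i < Q i) (_ : ∀ i, Q i ≤ r₀)
    (_ : ∀ i, Q i < (1 - (v i).b) / 2) (_ : ∀ i, θ * Q i ≤ Q i - P i)
    (_ : ∀ i, h i ≤ al * (Q i - P i) / 32),
    ∃ (p : ι → ℝ) (S₃ : PCl m) (L : ∀ i, Finset (Fin (k i)) → Fin (k i) → ℝ → ℝ → ℝ), S₃.Ne ∧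
      (∀ (τ : ℝ) (J : ℕ) (F : Fam m J) (A : F.Ω → Prop), S₃.St τ J F A → S.St τ J F A) ∧
      ∀ i, P i < (1 - (v i).b) * p i ∧ (1 - (v i).b) * p i < Q i ∧
        RDq (Shf S₃ (s i)) (vshf (v i) (s i)) (ε i) (p i) (κ i) (L i) := by
  obtain ⟨r₀, hr₀, hr₁, hff⟩ := act_ff hal hg₀ hθ
  refine ⟨r₀, hr₀, hr₁, ?_⟩
  intro m S hS hpos Na hM ι _ k s v ε κ hsκ hB P₀ h P Q hrec hP0 hPP hPQ hQ1 hQ hθQ hh
  obtain ⟨S₀, Ns, hne₀, hsub₀, hNs⟩ := actN_exists' hS hpos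
  have hpos₀ : ∀ (τ : ℝ) (J : ℕ) (F : Fam m J) (A : F.Ω → Prop), S₀.St τ J F A →
      0 < Pe F.p A := fun τ J F A h => hpos τ J F A (hsub₀ τ J F A h)
  have hposB : Bas S₀ (fun _ F A => 0 < Pe F.p A) :=
    ⟨1, one_pos, 0, fun J _ F A hA => hpos₀ 1 J F A hA⟩
  have hl2 : (0.6931471803 : ℝ) < Real.log 2 := Real.log_two_gt_d9
  obtain ⟨p, S₃, L, hne₃, hsub₃, hR⟩ := rdq_tubS hne₀ hpos₀ hNs k s v ε κ hsκ
    (fun i => Bas.sub hsub₀ (hrec i)) hP0 hPP hPQ hQ (fun i => by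
      have h1 := hff (Ns {ε i (κ i)}) _ (hNs.sa {ε i (κ i)}) Na hM
        (fun x y a1 a2 a3 => actB_le hne₀ hposB hNs
          (actB_of_bas (fun Φ hb => Bas.sub hsub₀ hb) (hB i)) x y a1 a2 a3)
        (P i) (Q i) ((hP0 i).trans (hPP i)) (hPQ i) (hQ1 i) (hθQ i)
      refine lt_of_lt_of_le ?_ h1
      rw [div_lt_iff₀ (by linarith)]
      have h2 : 0 < al * (Q i - P i) := mul_pos hal (by linarith [hPQ i])
      have h3 := hh i
      nlinarith)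
  exact ⟨p, S₃, L, hne₃, fun τ J F A h => hsub₀ τ J F A (hsub₃ τ J F A h), hR⟩

end Pool.TGT
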