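import Pool.Agent.H89.TGT.NtQ

/-!
# No label of the target above its level, at the places of a kit: the proof
-/

set_option autoImplicit false

namespace Pool.TGT

open Finset Real MvPolynomial Filter
open Pool.Agent.H49.Ent Pool.Agent.H32.Dense Pool.STK Pool.KA Pool.KSAT Pool.K2S Pool.PB
open Pool.PB.Trl Pool.STAT Pool.STAT.CLO Pool.GEN Pool.S6C Pool.GEN.N83
open Pool.STR (NfB Nw)
open Pool.ALL (RateOf)
open Pool.CHT (TmH bet)
open Pool.CHB (chsysB)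
open Pool.LBT (ThrOf)
open Pool.EXC33 (ZmQ)
open Pool.SUPA (FF)

variable {m : ℕ} {Θ : Type*} {n₀ : ℕ}

theorem upd (x ζ : ℝ) (hx : 0 ≤ x) (hζ : 0 ≤ ζ) (i J : ℕ) :
    |((up x J + i * up ζ J : ℕ) : ℝ) - (x + i * ζ) * J| ≤ i + 1 := by
  have h1 := up_ge x J
  have h2 := up_le hx J
  have h3 := up_ge ζ J
  have h4 := up_le hζ J
  have hi : (0 : ℝ) ≤ i := Nat.cast_nonneg i
  have h5 := mul_le_mul_of_nonneg_left h3 hi
  have h6 := mul_le_mul_of_nonneg_left h4 hi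
  push_cast
  rw [abs_le]
  constructor <;> linarith

/-- **No label of the target above its level**, at a place of a kit. -/
theorem ntq_kit (hn₀ : 1 ≤ n₀) (hFZ : FZX n₀) {Kt : KitP m Θ n₀} {S : PCl m} {C₀ : ℝ}
    (hC₀ : 0 ≤ C₀) (htm : TmC S C₀) (htmh : TmH S) (hZ : Bas S (fun _ F _ => Zc F)) {p : Θ}
    (hinj : Inj (Kt.cs p) (n₀ + 1))
    (hcov : ∀ i : Fin m, i ≠ Kt.cs p n₀ → ∃ l < n₀, Kt.cs p l = i) {rr : ℝ → ℝ}
    (hR : RateOf S (Kt.cs p n₀) rr) {h : ℝ} (hh : 0 < h) (hh1 : h ≤ 1)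
    {β PP : List (Fin m) × Fin m → ℝ → ℝ → ℝ} (hP : ThrOf (chsysB m none β) S PP)
    (hLβ : ∀ k < n₀, ∀ a w : ℝ, bet β (Kt.cs p) k a w = Kt.L p k a w)
    {N M : ℕ} {θ ε T : ℝ} {K' s₁ : ℕ} {sh : ℕ → ℕ}
    (hcell : CellL (n₀ + 1) (Kt.L p) ε T (Kt.y p) (Kt.X p) (Kt.la p) (Kt.ml p))
    (hml : Kt.ml p n₀ = 1) (hN : 2 ≤ N) (hNT : 4 * (T + 2) ≤ N) (hε0 : 0 ≤ ε)
    (hε : ε * (64 * (N * (M + 4))) ≤ 1) (hεh : ε * (2 ^ 18 * (N * (M + 4))) ≤ h)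
    (hθ : 0 < θ) (hθ1 : θ ≤ 1 / 16) (hθh : θ * 2 ^ 18 ≤ h)
    (hthr : ∀ z : ℝ × ℝ, dist z (Kt.y p) ≤ Kt.X p →
      Nw (bet PP (Kt.cs p) n₀) z ≤ Nw (Kt.L p n₀) z + ε * Kt.X p)
    (hrow : NfB rr h (ε * Kt.X p)
      (Kt.L p n₀ ((Kt.y p).1 + (Kt.y p).2) (Kt.y p).1 - Kt.X p)
      (Kt.L p n₀ ((Kt.y p).1 + (Kt.y p).2) (Kt.y p).1 + 2 * Kt.X p))
    (hro : (Kt.y p).1 + 2 * (Kt.y p).2 + 2 * Kt.X p < 1) {ka ξ : ℝ} (hka0 : 0 ≤ ka)
    (hka : (ka + n₀ * θ) * (2 ^ 17 * ((n₀ + 1 : ℕ) : ℝ) ^ 2) < h ^ 2) (_hξ : 0 < ξ)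
    (hξ1 : ξ ≤ msh (Kt.X p) N M) (hξT : T * ξ * 2 ^ 14 ≤ h * msh (Kt.X p) N M)
    {b : ℕ → ℕ → ℕ → ℝ} {e : ℕ → ℕ → ℝ} (hb : Kt.Near p N M θ b e) {i j : ℕ} (hi : i ≤ M)
    (hj : j ≤ M) (hzm : ZmQ Kt S K' s₁ sh N M θ p ka ξ b e i j) {h₁ : ℝ}
    (hlab : LabFQ Kt S K' s₁ sh N M θ p b e i j
      ((Kt.y p).2 + i * msh (Kt.X p) N M - j * msh (Kt.X p) N M + ξ / 4) h₁) (κ : Fin n₀)
    (hact : ActF S (Kt.cs p κ)
      ((Kt.y p).2 + i * msh (Kt.X p) N M - j * msh (Kt.X p) N M + ξ / 4)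
      ((Kt.y p).2 + i * msh (Kt.X p) N M - j * msh (Kt.X p) N M + ξ / 2) h₁) :
    NtQ Kt S K' s₁ sh N M θ p (ξ / 4) b e i j := by
  classical
  intro S' hne hsub d hd wp hwp1 hwp2 q hq KQ hlbr
  have hN1 : 1 ≤ N := by omega
  have hX := hcell.pos
  have hs := hcell.sideE (B := 1) (by omega) hN1 hNT hN le_rfl hε0 hε hθ hθ1 hb
  have hl2 : 1 / 2 < Real.log 2 := by
    have := Real.log_two_gt_d9
    linarith
  obtain ⟨S₂, hne₂, hsub₂, hbit⟩ := hlab S' hne hsub d hd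
  obtain ⟨S₃, Ns, hne₃, hsub₃, hNs, hFF⟩ := hact S₂ hne₂
    (fun τ J F A h => hsub τ J F A (hsub₂ τ J F A h))
  have hs₃' : ∀ (τ : ℝ) (J : ℕ) (F : Fam m J) (A : F.Ω → Prop), S₃.St τ J F A →
      S'.St τ J F A := fun τ J F A h => hsub₂ τ J F A (hsub₃ τ J F A h)
  have hs₃ : ∀ (τ : ℝ) (J : ℕ) (F : Fam m J) (A : F.Ω → Prop), S₃.St τ J F A → S.St τ J F A :=
    fun τ J F A h => hsub τ J F A (hs₃' τ J F A h)
  have hd₃ : ∀ (τ : ℝ) (J : ℕ) (F : Fam m J) (A : F.Ω → Prop), S₃.St τ J F A →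
      (Kt.grid K' s₁ sh p N M θ b e).Ok F (d J F) A := fun τ J F A h => hd τ J F A (hs₃' τ J F A h)
  have hpl := placeD_kit hd₃ hi hj
  have hNζ : N * ((M + 4) * msh (Kt.X p) N M) = Kt.X p := msh_mul hN1
  have hζ0 := hs.ζ0
  have hwin := hs.win
  have hthin := hs.thin
  have htop := hs.top
  have hdep := hcell.dep
  have hXw := hcell.win
  have hln := hcell.lt n₀ (by omega)
  have hlo := hcell.low n₀ (by omega) ((Kt.y p).1 + (Kt.y p).2) (Kt.y p).1 hwin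
    (by linarith) (by linarith)
  have hup := fun l (hl : l < n₀ + 1) => hb.up i hi j hj l hl
  have hlw := fun l (hl : l < n₀ + 1) => hb.lo i hi j hj l hl
  have hposb := fun l (hl : l < n₀ + 1) => hs.pos i hi j hj l hl
  have hsiz := fun l (hl : l < n₀ + 1) => hs.siz i hi j hj l hl
  have hlev := hs.lev i hi j hj
  have he0 := hb.e0 i hi j hj
  have hzx := zmx_of (w₁ := (Kt.y p).1 + j * msh (Kt.X p) N M + ξ / 2) hzm hs₃ hd₃
    (by linarith)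
  have hT : 0 ≤ T := (hcell.mu0 0 (by omega)).trans (hcell.muT 0 (by omega))
  have hval := fun (a' w' : ℝ) (h1 : |w' - (Kt.y p).1| ≤ Kt.X p)
    (h2 : |(a' - w') - (Kt.y p).2| ≤ Kt.X p) => hcell.val (l := n₀) (by omega) h1 h2
  rw [hml] at hval
  have hlaT := hcell.laT n₀ (by omega)
  have hla0 := hcell.la0 n₀ (by omega)
  have haJ := upd ((Kt.y p).1 + (Kt.y p).2) (msh (Kt.X p) N M) (by linarith) hζ0.le i
  have hwJ := upd (Kt.y p).1 (msh (Kt.X p) N M) hwin hζ0.le j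
  -- the names of the numbers
  obtain ⟨ζ, hζ⟩ : ∃ ζ, ζ = msh (Kt.X p) N M := ⟨_, rfl⟩
  obtain ⟨X, hXd⟩ : ∃ X, X = Kt.X p := ⟨_, rfl⟩
  obtain ⟨y1, hy1⟩ : ∃ y1, y1 = (Kt.y p).1 := ⟨_, rfl⟩
  obtain ⟨y2, hy2⟩ : ∃ y2, y2 = (Kt.y p).2 := ⟨_, rfl⟩
  have hir : (i : ℝ) ≤ M := by exact_mod_cast hi
  have hjr : (j : ℝ) ≤ M := by exact_mod_cast hj
  have hi0 : (0 : ℝ) ≤ i := Nat.cast_nonneg i
  have hj0 : (0 : ℝ) ≤ j := Nat.cast_nonneg j
  have hNr : (2 : ℝ) ≤ N := by exact_mod_cast hN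
  have hM0 : (0 : ℝ) ≤ M := Nat.cast_nonneg M
  have hMX : 2 * ((M + 4) * msh (Kt.X p) N M) ≤ Kt.X p := by
    have h1 : 0 ≤ (M + 4) * msh (Kt.X p) N M := by positivity
    have h2 := mul_le_mul_of_nonneg_right hNr h1
    linarith
  have hεX : ε * Kt.X p * 2 ^ 18 ≤ h * msh (Kt.X p) N M := by
    have h1 := mul_le_mul_of_nonneg_right hεh hζ0.le
    have h2 : ε * (2 ^ 18 * (N * (M + 4))) * msh (Kt.X p) N M =
        ε * (N * ((M + 4) * msh (Kt.X p) N M)) * 2 ^ 18 := by ring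
    rw [h2, hNζ] at h1
    exact h1
  have hiζ : (i : ℝ) * msh (Kt.X p) N M ≤ M * msh (Kt.X p) N M :=
    mul_le_mul_of_nonneg_right hir hζ0.le
  have hjζ : (j : ℝ) * msh (Kt.X p) N M ≤ M * msh (Kt.X p) N M :=
    mul_le_mul_of_nonneg_right hjr hζ0.le
  have hiζ0 : 0 ≤ (i : ℝ) * msh (Kt.X p) N M := mul_nonneg hi0 hζ0.le
  have hjζ0 : 0 ≤ (j : ℝ) * msh (Kt.X p) N M := mul_nonneg hj0 hζ0.le
  have hhζ : h * msh (Kt.X p) N M ≤ msh (Kt.X p) N M := by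
    have := mul_le_mul_of_nonneg_right hh1 hζ0.le
    linarith
  have hhζ0 : 0 < h * msh (Kt.X p) N M := mul_pos hh hζ0
  have hθζ : θ * msh (Kt.X p) N M * 2 ^ 18 ≤ h * msh (Kt.X p) N M := by
    have := mul_le_mul_of_nonneg_right hθh hζ0.le
    linarith
  -- no improved chains
  obtain ⟨δ₀, hδ₀⟩ : ∃ δ₀, δ₀ = min (ξ / 4) (h * msh (Kt.X p) N M / 2 ^ 18) := ⟨_, rfl⟩
  have hδ₀0 : 0 < δ₀ := by rw [hδ₀]; exact lt_min (by linarith) (by positivity)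
  have hδ₀1 : δ₀ ≤ ξ / 4 := by rw [hδ₀]; exact min_le_left _ _
  have hδ₀2 : δ₀ * 2 ^ 18 ≤ h * msh (Kt.X p) N M := by
    have : δ₀ ≤ h * msh (Kt.X p) N M / 2 ^ 18 := by rw [hδ₀]; exact min_le_right _ _
    rw [le_div_iff₀ (by norm_num)] at this
    exact this
  have hno := noCh_of (S := S) hP (c := Kt.cs p) (n₀ := n₀) (L := Kt.L p)
    (fun k hk => hcell.law k (by omega)) hLβ
    (a := (Kt.y p).1 + (Kt.y p).2 + i * msh (Kt.X p) N M)
    (w := (Kt.y p).1 + j * msh (Kt.X p) N M) (wp := wp)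
    (t := h / 4 * msh (Kt.X p) N M / 512) (gn := h / 4 * msh (Kt.X p) N M / 1024) (δ₀ := δ₀)
    (b := b i j) (by linarith) hwp1 (by linarith) (by positivity) (by linarith)
    (fun k hk => ⟨hup k (by omega), by
      have h1 := hsiz k (by omega)
      rw [Nat.cast_one, one_mul] at h1
      have h2 : 0 ≤ (M : ℝ) * msh (Kt.X p) N M := by positivity
      linarith⟩) hδ₀0
    (fun a' w' h1 h2 h3 h4 => by
      have k1 : |w' - (Kt.y p).1| ≤ Kt.X p := by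
        rw [abs_le]
        constructor <;> linarith
      have k2 : |(a' - w') - (Kt.y p).2| ≤ Kt.X p := by
        rw [abs_le]
        constructor <;> linarith
      have k3 := (abs_le.1 (hval a' w' k1 k2)).2
      have k4 := (abs_le.1 (hval ((Kt.y p).1 + (Kt.y p).2 + i * msh (Kt.X p) N M)
        ((Kt.y p).1 + j * msh (Kt.X p) N M)
        (by rw [abs_le]; constructor <;> linarith)
        (by rw [abs_le]; constructor <;> linarith))).1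
      have k5 := hthr (w', a' - w') (by
        rw [Prod.dist_eq, Real.dist_eq, Real.dist_eq]
        exact max_le k1 k2)
      unfold Nw at k5
      simp only [add_sub_cancel] at k5
      have k6 : Kt.la p n₀ * (w' - ((Kt.y p).1 + j * msh (Kt.X p) N M)) ≤ T * (ξ / 2) :=
        mul_le_mul hlaT (by linarith) (by linarith) hT
      have k7 : Kt.la p n₀ * (w' - ((Kt.y p).1 + j * msh (Kt.X p) N M)) =
        Kt.la p n₀ * (w' - (Kt.y p).1) - Kt.la p n₀ *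
          ((Kt.y p).1 + j * msh (Kt.X p) N M - (Kt.y p).1) := by ring
      have k8 := hlw n₀ (by omega)
      have k9 := hlev.2
      rw [Nat.add_sub_cancel] at k9
      constructor
      · linarith
      · have k10 := hup n₀ (by omega)
        have k11 : Kt.L p n₀ ((Kt.y p).1 + (Kt.y p).2 + i * msh (Kt.X p) N M)
          ((Kt.y p).1 + j * msh (Kt.X p) N M) ≤ b i j n₀ + θ * msh (Kt.X p) N M := by linarith
        linarith)
  have hlog : ε * Kt.X p < 2 * (h / 4) * (msh (Kt.X p) N M / 4) * Real.log 2 := by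
    have h1 : h * msh (Kt.X p) N M * (1 / 2) < h * msh (Kt.X p) N M * Real.log 2 :=
      mul_lt_mul_of_pos_left hl2 hhζ0
    linarith
  have hrate := rateD_of htmh.1 hZ (c := Kt.cs p) hcov hR (h := h)
    (ηr := ε * Kt.X p) (A₀ := Kt.L p n₀ ((Kt.y p).1 + (Kt.y p).2) (Kt.y p).1 - Kt.X p)
    (B₀ := Kt.L p n₀ ((Kt.y p).1 + (Kt.y p).2) (Kt.y p).1 + 2 * Kt.X p) (by linarith)
    (by linarith) (by linarith) hh hh1 (mul_nonneg hε0 hX.le) hrow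
  have hdl : 16 * ((n₀ + 1 : ℕ) : ℝ) ^ 2 * ((ka + n₀ * θ) * msh (Kt.X p) N M) <
      h / 4 * (h / 4 * msh (Kt.X p) N M / 512) := by
    have h1 := mul_lt_mul_of_pos_right hka hζ0
    have h2 : 16 * ((n₀ + 1 : ℕ) : ℝ) ^ 2 * ((ka + n₀ * θ) * msh (Kt.X p) N M) * 2 ^ 13 =
      (ka + n₀ * θ) * (2 ^ 17 * ((n₀ + 1 : ℕ) : ℝ) ^ 2) * msh (Kt.X p) N M := by ring
    have h3 : h / 4 * (h / 4 * msh (Kt.X p) N M / 512) * 2 ^ 13 = h ^ 2 * msh (Kt.X p) N M := by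
      ring
    linarith
  refine tgt_none n₀ Kt.K K' KQ sh hn₀ hFZ (η := h / 4) (μ := msh (Kt.X p) N M)
    (dl := (ka + n₀ * θ) * msh (Kt.X p) N M) (ηr := ε * Kt.X p) (by positivity) (by linarith)
    hζ0 hdl (by positivity) hlog hne₃ hC₀ (fun τ J F A hτ h => htm τ J F A hτ (hs₃ τ J F A h))
    (htmh.sub hs₃) hinj hNs κ (C₁ := (i : ℝ) + j + 1) (eb := e i j)
    (gmr := 1 - e i j - msh (Kt.X p) N M)
    (a := (Kt.y p).1 + (Kt.y p).2 + i * msh (Kt.X p) N M)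
    (w := (Kt.y p).1 + j * msh (Kt.X p) N M) (b := b i j)
    (fun J => (haJ J).trans (by linarith)) (fun J => (hwJ J).trans (by linarith)) hpl
    (wp := wp) (q := q) (Q₁ := Kt.L p n₀ ((Kt.y p).1 + (Kt.y p).2 + i * msh (Kt.X p) N M)
        ((Kt.y p).1 + j * msh (Kt.X p) N M) + msh (Kt.X p) N M / 4)
    (w₁ := (Kt.y p).1 + j * msh (Kt.X p) N M + ξ / 2)
    (qm := (Kt.y p).2 + i * msh (Kt.X p) N M - j * msh (Kt.X p) N M + ξ)
    (P₀ := (Kt.y p).2 + i * msh (Kt.X p) N M - j * msh (Kt.X p) N M + ξ / 4) (h₁ := h₁)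
    (P := (Kt.y p).2 + i * msh (Kt.X p) N M - j * msh (Kt.X p) N M + ξ / 4)
    (Q := (Kt.y p).2 + i * msh (Kt.X p) N M - j * msh (Kt.X p) N M + ξ / 2)
    hzx (Bas.sub hsub₃ hbit) hq.le (by linarith) le_rfl (by linarith) (by linarith)
    (by linarith) hFF (Bas.sub hs₃' hlbr) ?_
    (R₀ := Kt.L p n₀ ((Kt.y p).1 + (Kt.y p).2) (Kt.y p).1 - Kt.X p)
    (R₁ := Kt.L p n₀ ((Kt.y p).1 + (Kt.y p).2) (Kt.y p).1 + 2 * Kt.X p)
    (by
      have h4 : 4 * (h / 4) = h := by ring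
      rw [h4]
      exact hrate.sub hs₃) ?_ ?_ (gn := h / 4 * msh (Kt.X p) N M / 1024) le_rfl
    (hno.sub hs₃) (by linarith) hwp1 (by linarith) (by linarith) (by linarith)
    (fun l hl => ⟨hposb l hl, ?_, ?_⟩) he0 (by linarith) (by
      have := hup n₀ (by omega)
      linarith)
  · -- the sum of the levels
    have h1 : ∑ l ∈ range n₀, (Kt.L p l ((Kt.y p).1 + (Kt.y p).2 + i * msh (Kt.X p) N M)
        ((Kt.y p).1 + j * msh (Kt.X p) N M) - θ * msh (Kt.X p) N M) ≤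
        ∑ l ∈ range n₀, b i j l := Finset.sum_le_sum fun l hl => by
      have := hlw l (by
        have := Finset.mem_range.1 hl
        omega)
      linarith
    rw [Finset.sum_sub_distrib, Finset.sum_const, Finset.card_range, nsmul_eq_mul] at h1
    rw [Finset.sum_sub_distrib, Finset.sum_const, Finset.card_range, nsmul_eq_mul, mul_one]
    linarith
  · have h1 := hlev.1
    rw [Nat.add_sub_cancel] at h1
    linarith
  · have h1 := hlev.2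
    rw [Nat.add_sub_cancel] at h1
    have h2 : 0 ≤ (M : ℝ) * msh (Kt.X p) N M := by positivity
    linarith
  · have h1 := hsiz l hl
    rw [Nat.cast_one, one_mul] at h1
    have h2 : 0 ≤ (M : ℝ) * msh (Kt.X p) N M := by positivity
    linarith
  · have h1 := hsiz l hl
    rw [Nat.cast_one, one_mul] at h1
    have h2 : 0 ≤ (M : ℝ) * msh (Kt.X p) N M := by positivity
    linarith

end Pool.TGT
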