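import Pool.Agent.H89.TGT.EndC
import Pool.Agent.H33.EXC.Zrp

/-!
# The record of the target, the numbers of the labels of the base

`sgv_num`: the precisions of the labels of a zoom. `NDat`: data of labels of the target. `rec_bits`:
the record has few bits.
-/

set_option autoImplicit false

namespace Pool.TGT

open Finset Real MvPolynomial Filter
open Pool.Agent.H49.Ent Pool.Agent.H32.Dense Pool.STK Pool.KA Pool.KSAT Pool.K2S Pool.PB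
open Pool.PB.Trl Pool.STAT Pool.STAT.CLO Pool.GEN Pool.S6C Pool.REX Pool.GRW
open Pool.FLF (Fam.sub)
open Pool.CHT (TmH bas_ev)
open Pool.EXC33 (lnV lnV_y rec_core slam_of)

variable {m n J : ℕ}

/-- The numbers of the precisions of the labels of a zoom. -/
theorem sgv_num (v : Vz m) (hb : 0 < v.b) {S : PCl m} {n₀ : ℕ} {c : ℕ → Fin m}
    {L : Finset (Fin n₀) → Fin n₀ → ℝ → ℝ → ℝ} (hL : LamW (RecV S v fun l : Fin n₀ => c l) L)
    (σ : Equiv.Perm (Fin n₀)) {w : ℝ} (hw : w ∈ Wv L σ) {e : ℝ} (he : 0 < e) (hew : 4 * e ≤ w)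
    {Q : ℝ} (hQ : (1 - v.b) * v.p < Q) :
    ∀ᶠ J : ℕ in atTop, v.P J ≤ ⌊Q * J⌋₊ ∧ ∀ j < n₀, 1 ≤ sgV v L σ w e J j ∧
      sgV v L σ w e J j ≤ J ∧ (J : ℝ) - ((sgV v L σ w e J j - 1 : ℕ) : ℝ) ≤
        (1 - v.sc (vs L σ w (j + 1)) + 4 * e) * J := by
  have hb1 := v.b1
  have hp0 := v.p0
  have hp1 := v.p1
  have q1 := evl hb 2
  have q2 := evl he 5
  have q3 := evl hQ (v.p + 1)
  filter_upwards [q1, q2, q3] with J q1 q2 q3
  have hJ0 : (0 : ℝ) ≤ J := Nat.cast_nonneg J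
  obtain ⟨f1, f2, -⟩ := v.floor_le J
  have b1 : (v.B J : ℝ) ≤ v.b * J := fl1 hb.le J
  have b2 : v.b * J - 1 ≤ (v.B J : ℝ) := fl2 v.b J
  have hJB : ((J - v.B J : ℕ) : ℝ) = J - v.B J := Nat.cast_sub f1
  have p1 : (v.P J : ℝ) ≤ v.p * ((J - v.B J : ℕ) : ℝ) := fl1 hp0 (J - v.B J)
  have p2 : v.p * ((J - v.B J : ℕ) : ℝ) - 1 ≤ (v.P J : ℝ) := fl2 v.p (J - v.B J)
  rw [hJB] at p1 p2
  have hR : (v.R J : ℝ) = J - v.B J - v.P J := by
    unfold Vz.R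
    rw [Nat.cast_sub f2, hJB]
  have hR0 : (0 : ℝ) ≤ v.R J := Nat.cast_nonneg _
  have hR1 : (v.R J : ℝ) ≤ (1 - v.b) * (1 - v.p) * J + 2 := by
    have h1 : (1 - v.p) * ((J : ℝ) - v.B J) ≤ (1 - v.p) * (J - (v.b * J - 1)) :=
      mul_le_mul_of_nonneg_left (by linarith) (by linarith)
    rw [hR]
    nlinarith
  have hRJ : (v.R J : ℝ) ≤ J := by
    rw [hR]
    have : (0 : ℝ) ≤ v.B J := Nat.cast_nonneg _
    have : (0 : ℝ) ≤ v.P J := Nat.cast_nonneg _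
    linarith
  refine ⟨?_, fun j hj => ?_⟩
  · refine Nat.le_floor ?_
    have h1 : v.p * ((J : ℝ) - v.B J) ≤ v.p * (J - (v.b * J - 1)) :=
      mul_le_mul_of_nonneg_left (by linarith) hp0
    nlinarith
  have hw1 := hw.2.1
  have hvs : w ≤ vs L σ w (j + 1) := le_vs hL σ hw1.le _
  have hvs1 : vs L σ w (j + 1) ≤ 1 := vs_le1 hL σ hw1.le _
  obtain ⟨s, hs⟩ : ∃ s, s = vs L σ w (j + 1) := ⟨_, rfl⟩
  obtain ⟨y, hy⟩ : ∃ y, y = ⌊(s - 3 * e) * v.R J⌋₊ := ⟨_, rfl⟩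
  have hsg : sgV v L σ w e J j = v.B J + v.P J + (y - 1) := by
    unfold sgV
    rw [hy, hs]
  rw [← hs] at hvs hvs1 ⊢
  have y1 : (y : ℝ) ≤ (s - 3 * e) * v.R J := by
    rw [hy]
    exact Nat.floor_le (mul_nonneg (by linarith) hR0)
  have y2 : (s - 3 * e) * v.R J - 1 ≤ y := by
    rw [hy]
    have := Nat.lt_floor_add_one ((s - 3 * e) * (v.R J : ℝ))
    linarith
  have y3 : y ≤ v.R J := by
    have : (y : ℝ) ≤ v.R J := by nlinarith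
    exact_mod_cast this
  have hRn : v.R J = J - v.B J - v.P J := rfl
  have hB1 : 1 ≤ v.B J := by
    have : (1 : ℝ) ≤ v.B J := by linarith
    exact_mod_cast this
  rw [hsg]
  refine ⟨by omega, by omega, ?_⟩
  have e1 : ((v.B J + v.P J + (y - 1) - 1 : ℕ) : ℝ) ≥ v.B J + v.P J + y - 2 := by
    have : (v.B J + v.P J + y : ℕ) ≤ (v.B J + v.P J + (y - 1) - 1) + 2 := by omega
    have h2 : ((v.B J + v.P J + y : ℕ) : ℝ) ≤
        ((v.B J + v.P J + (y - 1) - 1 : ℕ) : ℝ) + 2 := by exact_mod_cast this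
    push_cast at h2 ⊢
    linarith
  have e2 : 1 - v.sc s = (1 - v.b) * (1 - v.p) * (1 - s) := one_sub_sc v s
  rw [e2]
  have e3 : (1 - s) * (v.R J : ℝ) ≤ (1 - s) * ((1 - v.b) * (1 - v.p) * J + 2) :=
    mul_le_mul_of_nonneg_left hR1 (by linarith)
  have e4 : 3 * e * (v.R J : ℝ) ≤ 3 * e * J := mul_le_mul_of_nonneg_left hRJ (by linarith)
  nlinarith

/-- The data of labels of the target. -/
structure NDat (F : Fam m J) (κ : Type) : Type 1 where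
  /-- the values -/
  V : Type
  /-- the labels at the points -/
  z : PtT F → κ → V
  /-- the labels on the lines -/
  z' : LnT F → V
  /-- the polynomials -/
  G : V → MvPolynomial (Option (Fin m)) ℝ

instance {F : Fam m J} {κ : Type} : Nonempty (NDat F κ) :=
  ⟨⟨Unit, fun _ _ => (), fun _ => (), fun _ => 0⟩⟩

open Classical in
/-- Coarser digits of the direction. -/
noncomputable def trD (F : Fam m J) (k Q : ℕ) (x : Fin m → ℤ) : Fin m → ℤ :=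
  if h : ∃ ω : F.Ω, F.D Q ω = x then F.D k h.choose else 0

theorem trD_eq (F : Fam m J) {k Q : ℕ} (h : k ≤ Q) (ω : F.Ω) : trD F k Q (F.D Q ω) = F.D k ω := by
  have h1 : ∃ ω' : F.Ω, F.D Q ω' = F.D Q ω := ⟨ω, rfl⟩
  unfold trD
  rw [dif_pos h1]
  exact Pool.STK.B58.fl_fine h h1.choose_spec

/-- The record: the label of the place, first digits of the direction, the label of the target. -/
noncomputable def rcf {Λ : ∀ J : ℕ, Fam m J → Type} (lab : ∀ (J : ℕ) (F : Fam m J), F.Ω → Λ J F)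
    (q wp : ℝ) (d : ∀ (J : ℕ) (F : Fam m J), NDat F (Λ J F × (Fin m → ℤ))) (J : ℕ) (F : Fam m J)
    (ω : F.Ω) : Λ J F × ((Fin m → ℤ) × (d J F).V) :=
  (lab J F ω, (F.D ⌊q * J⌋₊ ω, (d J F).z' (slam F ⌊wp * J⌋₊ ω)))

theorem rcf_line {Λ : ∀ J : ℕ, Fam m J → Type} {lab : ∀ (J : ℕ) (F : Fam m J), F.Ω → Λ J F}
    {q wp : ℝ} {d : ∀ (J : ℕ) (F : Fam m J), NDat F (Λ J F × (Fin m → ℤ))} {J : ℕ} {F : Fam m J}
    {wj W : ℕ} (hlab : wj ≤ J → ∀ ω ω', slam F wj ω = slam F wj ω' → lab J F ω = lab J F ω')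
    (h1 : wj ≤ ⌊wp * J⌋₊) (h2 : ⌊wp * J⌋₊ ≤ W) (h3 : W ≤ J) {ω ω' : F.Ω}
    (h : slam F W ω = slam F W ω') : rcf lab q wp d J F ω = rcf lab q wp d J F ω' := by
  have e1 := slam_of h2 h3 h
  have e2 := slam_of h1 (h2.trans h3) e1
  have e3 : F.l ω = F.l ω' := congrArg (fun s => s.1) h
  have e4 : F.d ω = F.d ω' := congrArg (fun s => s.2) e3
  unfold rcf
  refine Prod.ext (hlab ((h1.trans h2).trans h3) ω ω' e2) (Prod.ext ?_ ?_)
  · show F.D ⌊q * J⌋₊ ω = F.D ⌊q * J⌋₊ ω'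
    unfold Fam.D
    rw [e4]
  · exact congrArg (d J F).z' e1

/-- **The record has few bits.** -/
theorem rec_bits {S : PCl m} (hpos : Bas S (fun _ F A => 0 < Pe F.p A)) {c : ℕ → Fin m} {n₀ KQ : ℕ}
    {Λ : ∀ J : ℕ, Fam m J → Type} {lab : ∀ (J : ℕ) (F : Fam m J), F.Ω → Λ J F} {q wp Q₁ : ℝ}
    {d : ∀ (J : ℕ) (F : Fam m J), NDat F (Λ J F × (Fin m → ℤ))}
    (hN : ∀ (τ : ℝ) (J : ℕ) (F : Fam m J) (A : F.Ω → Prop), S.St τ J F A →
      Lbr F ((range n₀).image c) (c n₀) KQ ⌊wp * J⌋₊ ⌊Q₁ * J⌋₊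
        (fun ω => (lab J F ω, F.D ⌊q * J⌋₊ ω)) A (d J F).z (d J F).z' (d J F).G)
    {P₀ h₁ : ℝ} (hq : q ≤ P₀)
    (hbit : Bas S (fun J F A => CH (Pool.Agent.H49.Ent.cond F.p A True) (lab J F)
      (fun ω => (F.D ⌊P₀ * J⌋₊ ω, (F.X J ω, F.W ω))) ≤ h₁ * J)) :
    Bas S (fun J F A => CH (Pool.Agent.H49.Ent.cond F.p A True)
      (fun ω => some (rcf lab q wp d J F ω))
      (fun ω => (F.D ⌊P₀ * J⌋₊ ω, (F.X J ω, F.W ω))) ≤ h₁ * J) := by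
  obtain ⟨τ, hτ, J₁, h⟩ := hbit.and hpos
  refine ⟨τ, hτ, J₁, fun J hJ F A hA => ?_⟩
  obtain ⟨g1, g2⟩ := h J hJ F A hA
  have hq1 := isLaw_cond F.isLaw g2
  have hmem : ∀ ω, 0 < Pool.Agent.H49.Ent.cond F.p A True ω → A ω := fun ω hω =>
    of_eq_true ((cond_pos_iff F.isLaw.nonneg A True ω).1 hω).2
  have hL := hN τ J F A hA
  have hJ0 : (0 : ℝ) ≤ J := Nat.cast_nonneg J
  have hfl : ⌊q * J⌋₊ ≤ ⌊P₀ * J⌋₊ := Nat.floor_le_floor (mul_le_mul_of_nonneg_right hq hJ0)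
  have h1 := rec_core (q := Pool.Agent.H49.Ent.cond F.p A True) hq1 (lab J F) (lab J F)
    (F.D ⌊q * J⌋₊) (fun ω => (d J F).z' (slam F ⌊wp * J⌋₊ ω))
    (fun ω => (F.D ⌊P₀ * J⌋₊ ω, (F.X J ω, F.W ω))) (a := 0) (h := h₁ * J)
    (le_of_eq (CH_eq_zero hq1.nonneg fun ω ω' _ _ hh => hh)) g1
    (fun ω ω' _ _ hh => Pool.STK.B58.fl_fine hfl (Prod.ext_iff.mp hh).1)
    (fun ω ω' a1 a2 hh hl => by
      have e1 := Pool.STK.B58.fl_fine hfl (Prod.ext_iff.mp hh).1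
      have e2 : ptr F J ω = ptr F J ω' := (Prod.ext_iff.mp hh).2
      have e3 := hL.cls ω (hmem ω a1)
      have e4 := hL.cls ω' (hmem ω' a2)
      have e5 : F.D ⌊q * J⌋₊ ω = F.D ⌊q * J⌋₊ ω' := e1
      simp only [hl, e2, e5] at e3
      exact e3.symm.trans e4)
  rw [add_zero] at h1
  exact h1

end Pool.TGT
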