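import Pool.Agent.H89.TGT.NtB
import Pool.Agent.H33.EXC.Yre
import Pool.Agent.H78.MIC.ClsM

/-!
# No label of the target above its level, on the boxes of a class

`NtI`: on a family of boxes, at all places of the grids, there is no closed label of the target over
the base, with the label of the place and first digits of the direction as record, above the level
of the target. `ntI_supY`: this follows from the facts `SupY` of the boxes.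
-/

set_option autoImplicit false

namespace Pool.TGT

open Finset Real MvPolynomial Filter
open Pool.Agent.H49.Ent Pool.Agent.H32.Dense Pool.STK Pool.KA Pool.KSAT Pool.K2S Pool.PB
open Pool.PB.Trl Pool.STAT Pool.STAT.CLO Pool.GEN Pool.S6C Pool.GEN.N83 Pool.REX83
open Pool.STR (NfB Nw NumI Rle)
open Pool.ALL (RateOf)
open Pool.CHT (TmH bet)
open Pool.CHB (chsysB)
open Pool.LBT (ThrOf)
open Pool.EXC33 Pool.PKG Pool.STA
open Pool.SUPA (FF)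
open Pool.OWN72 (RecExh)
open Pool.TOP (TopS)
open Pool.RTS (iso)

/-! ### Subclasses -/

section sub

variable {m : ℕ} {Θ : Type*} {n₀ : ℕ}

theorem labfq_of_sub {Kt : KitP m Θ n₀} {S : PCl m} {K' s₁ : ℕ} {sh : ℕ → ℕ} {N M : ℕ} {θ : ℝ}
    {p : Θ} {b : ℕ → ℕ → ℕ → ℝ} {e : ℕ → ℕ → ℝ} {i j : ℕ} {P₀ h : ℝ}
    (H : ∀ S' : PCl m, S'.Ne →
      (∀ (τ : ℝ) (J : ℕ) (F : Fam m J) (A : F.Ω → Prop), S'.St τ J F A → S.St τ J F A) →
      ∃ S₁ : PCl m, S₁.Ne ∧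
        (∀ (τ : ℝ) (J : ℕ) (F : Fam m J) (A : F.Ω → Prop), S₁.St τ J F A → S'.St τ J F A) ∧
        LabFQ Kt S₁ K' s₁ sh N M θ p b e i j P₀ h) :
    LabFQ Kt S K' s₁ sh N M θ p b e i j P₀ h := by
  intro S' hne hsub d hd
  obtain ⟨S₁, hne₁, hsub₁, h4⟩ := H S' hne hsub
  obtain ⟨S₂, hne₂, hsub₂, h5⟩ := h4 S₁ hne₁ (fun _ _ _ _ hA => hA) d
    (fun τ J F A hA => hd τ J F A (hsub₁ τ J F A hA))
  exact ⟨S₂, hne₂, fun τ J F A hA => hsub₁ τ J F A (hsub₂ τ J F A hA), h5⟩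

theorem labfq_sub {Kt : KitP m Θ n₀} {S S₁ : PCl m} {K' s₁ : ℕ} {sh : ℕ → ℕ} {N M : ℕ} {θ : ℝ}
    {p : Θ} {b : ℕ → ℕ → ℕ → ℝ} {e : ℕ → ℕ → ℝ} {i j : ℕ} {P₀ h : ℝ}
    (H : LabFQ Kt S K' s₁ sh N M θ p b e i j P₀ h)
    (hs : ∀ (τ : ℝ) (J : ℕ) (F : Fam m J) (A : F.Ω → Prop), S₁.St τ J F A → S.St τ J F A) :
    LabFQ Kt S₁ K' s₁ sh N M θ p b e i j P₀ h :=
  fun S' hne hsub => H S' hne fun τ J F A hA => hs τ J F A (hsub τ J F A hA)

theorem actF_of_sub {S : PCl m} {κ : Fin m} {P Q h : ℝ}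
    (H : ∀ S' : PCl m, S'.Ne →
      (∀ (τ : ℝ) (J : ℕ) (F : Fam m J) (A : F.Ω → Prop), S'.St τ J F A → S.St τ J F A) →
      ∃ S₁ : PCl m, S₁.Ne ∧
        (∀ (τ : ℝ) (J : ℕ) (F : Fam m J) (A : F.Ω → Prop), S₁.St τ J F A → S'.St τ J F A) ∧
        Pool.TGT.ActF S₁ κ P Q h) : Pool.TGT.ActF S κ P Q h := by
  intro S' hne hsub
  obtain ⟨S₁, hne₁, hsub₁, h4⟩ := H S' hne hsub
  obtain ⟨S₂, Ns, hne₂, hsub₂, h5, h6⟩ := h4 S₁ hne₁ (fun _ _ _ _ hA => hA)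
  exact ⟨S₂, Ns, hne₂, fun τ J F A hA => hsub₁ τ J F A (hsub₂ τ J F A hA), h5, h6⟩

theorem actF_sub {S S₁ : PCl m} {κ : Fin m} {P Q h : ℝ} (H : Pool.TGT.ActF S κ P Q h)
    (hs : ∀ (τ : ℝ) (J : ℕ) (F : Fam m J) (A : F.Ω → Prop), S₁.St τ J F A → S.St τ J F A) :
    Pool.TGT.ActF S₁ κ P Q h :=
  fun S' hne hsub => H S' hne fun τ J F A hA => hs τ J F A (hsub τ J F A hA)

theorem zmq_sub {Kt : KitP m Θ n₀} {S S₁ : PCl m} {K' s₁ : ℕ} {sh : ℕ → ℕ} {N M : ℕ} {θ : ℝ}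
    {p : Θ} {ka ξ : ℝ} {b : ℕ → ℕ → ℕ → ℝ} {e : ℕ → ℕ → ℝ} {i j : ℕ}
    (H : ZmQ Kt S K' s₁ sh N M θ p ka ξ b e i j)
    (hs : ∀ (τ : ℝ) (J : ℕ) (F : Fam m J) (A : F.Ω → Prop), S₁.St τ J F A → S.St τ J F A) :
    ZmQ Kt S₁ K' s₁ sh N M θ p ka ξ b e i j :=
  fun S' hne hsub => H S' hne fun τ J F A hA => hs τ J F A (hsub τ J F A hA)

end sub

/-! ### The class -/

section cls

variable {n : ℕ} {hn : 2 ≤ n} {S : PCl n} {P : ℝ → ℝ → ℝ} {rr : ℝ → ℝ}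
  {P' : ℕ → List (Fin n) × Fin n → ℝ → ℝ → ℝ} {Λ : Finset (Fin n) → Fin n → ℝ → ℝ → ℝ}
  {PB : ℕ → List (Fin n) × Fin n → ℝ → ℝ → ℝ}
  (H : PkT hn S P rr P' Λ PB) {hTop : TopS n} {hF : FZX (n - 1)}
  {ρ' : ℝ → ℝ} {hρ : Rle rr ρ'}

/-- **The labels of the places have few bits**, on the small boxes. -/
theorem labI_of_supY {p : ((H.nk hTop hF).chg hρ H.up).Par} {I : ℝ → BS p.cell → Prop}
    (hI : MonoI I) {c β h' Mr : ℝ} (hbs : ∀ ε q, I ε q → IsBS p.cell c β h' Mr ε q)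
    {al : ℝ} {g₀ : ℝ → ℝ} {be co : ℝ} (hco : 0 < co)
    (hs : SupY H p I al g₀ be co) (K K' s₁ : ℕ) (sh : ℕ → ℕ) (hK : 1 ≤ K) (hK' : 1 ≤ K') (M : ℕ)
    {x h₁ : ℝ} (hx : 0 < x) (hx1 : x ≤ 1 / 2) (hh₁ : 0 < h₁) :
    EvQ I fun N θ q => ∀ (b : ℕ → ℕ → ℕ → ℝ) (e : ℕ → ℕ → ℝ), (kitN H p K).kit.Near q N M θ b e →
      ∀ i ≤ M, ∀ j ≤ M, LabFQ (kitN H p K).kit S K' s₁ sh N M θ q b e i j
        (q.r + i * msh q.r N M - j * msh q.r N M + x * msh q.r N M) (h₁ * msh q.r N M) := by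
  refine ⟨1, fun N hN => ?_⟩
  obtain ⟨δ, θ₀, hδ, hθ₀, hbox⟩ := labf_boxY (n - 1) K K' s₁ sh (by omega) hK hK' hco M hx hx1 hh₁
  refine ⟨θ₀, hθ₀, fun θ hθ hθθ => ?_⟩
  have key := (hs 1 δ one_pos hδ N M hN).and hI
    (EvP.self I (show 0 < min (1 / 16) (co / 16) from lt_min (by norm_num) (by linarith)))
  refine key.mono ?_
  rintro q ⟨h1, h2⟩ b e hnear i hi j hj
  have hq := hbs _ _ h2
  have hr1 : q.r ≤ 1 / 16 := hq.rε.trans (min_le_left _ _)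
  have hr2 : q.r ≤ co / 16 := hq.rε.trans (min_le_right _ _)
  refine labfq_of_sub fun S' hne hsub => ?_
  obtain ⟨S₁, C₀, L, Na, E, a1, a2, a3, a4, a5, a6, a7, a8, a9⟩ := h1 S' hne hsub
  refine ⟨S₁, a1, a2, ?_⟩
  have hE0 := a9.E0
  have hactF : Pool.MIC6.ActF S₁ ((kitN H p 1).kit.cs q 0) := by
    obtain ⟨Wd, g, R, d, Dg, sl, hN, -⟩ := a9.nrd
    exact hN.aff.act
  exact hbox (Kt := (kitN H p K).kit) rfl
    (H.tmh.sub fun τ J F A hA => hsub τ J F A (a2 τ J F A hA)) a4 hactF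
    (numZ_kitN H hq K hN fun j hj l hl => by
      have := a9.siz j hj l hl
      linarith) (boxY_kitN H K a9) hδ.le le_rfl hθ.le hθθ hr2 hr1 b e hnear i hi j hj

/-- **The activity near the places**, on the small boxes. -/
theorem actI_of_supY {p : ((H.nk hTop hF).chg hρ H.up).Par} {I : ℝ → BS p.cell → Prop}
    (hI : MonoI I) {c β h' Mr : ℝ} (hbs : ∀ ε q, I ε q → IsBS p.cell c β h' Mr ε q)
    {al : ℝ} {g₀ : ℝ → ℝ} (hal : 0 < al) (hg₀ : ∀ e, 0 < e → 0 < g₀ e) {be co : ℝ}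
    (hs : SupY H p I al g₀ be co) (K : ℕ) (M : ℕ)
    {x h₁ : ℝ} (hx : 0 < x) (hx1 : x ≤ 1 / 2) (hh₁ : h₁ * 32 < al * x) :
    EvQ I fun N _ q => ∀ i ≤ M, ∀ j ≤ M, Pool.TGT.ActF S ((kitN H p K).kit.cs q 0)
      (q.r + i * msh q.r N M - j * msh q.r N M + x * msh q.r N M)
      (q.r + i * msh q.r N M - j * msh q.r N M + 2 * x * msh q.r N M) (h₁ * msh q.r N M) := by
  refine ⟨1, fun N hN => ?_⟩
  have hNr : (1 : ℝ) ≤ N := by exact_mod_cast hN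
  have hM0 : (0 : ℝ) ≤ M := Nat.cast_nonneg M
  obtain ⟨θ', hθ'⟩ : ∃ θ' : ℝ, θ' = x / (2 * (N * (M + 4))) := ⟨_, rfl⟩
  have hNM : 0 < (N : ℝ) * (M + 4) := by positivity
  have hθ'0 : 0 < θ' := by rw [hθ']; positivity
  obtain ⟨r₀, hr₀, hact⟩ := actF_of hal hg₀ hθ'0
  refine ⟨1, one_pos, fun θ hθ hθθ => ?_⟩
  have key := (hs 1 1 one_pos one_pos N M hN).and hI
    (EvP.self I (show 0 < r₀ / 2 by linarith))
  refine key.mono ?_
  rintro q ⟨h1, h2⟩ i hi j hj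
  have hq := hbs _ _ h2
  have hr0 := hq.r0
  have hr1 : q.r ≤ r₀ / 2 := hq.rε
  refine actF_of_sub fun S' hne hsub => ?_
  obtain ⟨S₁, C₀, L, Na, E, a1, a2, a3, a4, a5, a6, a7, a8, a9⟩ := h1 S' hne hsub
  refine ⟨S₁, a1, a2, ?_⟩
  obtain ⟨ζ, hζ⟩ : ∃ ζ, ζ = msh q.r N M := ⟨_, rfl⟩
  have hXζ : (N : ℝ) * ((M + 4) * ζ) = q.r := by rw [hζ]; exact msh_mul hN
  have hζ0 : 0 < ζ := by
    rw [hζ]
    unfold msh
    positivity
  rw [← hζ]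
  have hX4 : (M + 4) * ζ ≤ q.r := by
    have : 1 * ((M + 4) * ζ) ≤ N * ((M + 4) * ζ) :=
      mul_le_mul_of_nonneg_right hNr (by positivity)
    linarith
  have hir : (i : ℝ) ≤ M := by exact_mod_cast hi
  have hjr : (j : ℝ) ≤ M := by exact_mod_cast hj
  have hiζ := mul_le_mul_of_nonneg_right hir hζ0.le
  have hjζ := mul_le_mul_of_nonneg_right hjr hζ0.le
  have hi0 : 0 ≤ (i : ℝ) * ζ := by positivity
  have hj0 : 0 ≤ (j : ℝ) * ζ := by positivity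
  have hxζ : x * ζ ≤ 1 / 2 * ζ := mul_le_mul_of_nonneg_right hx1 hζ0.le
  have hxζ0 : 0 < x * ζ := by positivity
  have hQ : q.r + i * ζ - j * ζ + 2 * x * ζ ≤ 2 * q.r := by linarith
  have hl2 : 1 / 2 < Real.log 2 := by
    have := Real.log_two_gt_d9
    linarith
  refine hact n S₁ (fun τ J F A hA => H.tmh.1 τ J F A (hsub τ J F A (a2 τ J F A hA))) _ Na a6 a7 _ _
    _ (by linarith) (by linarith) (by linarith) ?_ ?_
  · have e1 : θ' * (2 * (N * (M + 4))) = x := by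
      rw [hθ']
      exact div_mul_cancel₀ x (by positivity)
    have e2 : θ' * (q.r + i * ζ - j * ζ + 2 * x * ζ) ≤ θ' * (2 * q.r) :=
      mul_le_mul_of_nonneg_left hQ hθ'0.le
    have e3 : θ' * (2 * q.r) = θ' * (2 * (N * (M + 4))) * ζ := by
      rw [← hXζ]
      ring
    rw [e1] at e3
    linarith
  · rw [div_lt_iff₀ (by linarith)]
    have e1 : al * (q.r + i * ζ - j * ζ + 2 * x * ζ - (q.r + i * ζ - j * ζ + x * ζ)) / 16 =
        al * x * ζ / 16 := by ring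
    rw [e1]
    have e2 : h₁ * 32 * ζ < al * x * ζ := mul_lt_mul_of_pos_right hh₁ hζ0
    have e3 : 0 < al * x * ζ := by positivity
    have e4 : al * x * ζ / 16 * (1 / 2) < al * x * ζ / 16 * Real.log 2 :=
      mul_lt_mul_of_pos_left hl2 (by positivity)
    linarith

/-- **No labels of the target above its level**, on a family of boxes: at all places there is no
closed label of the target over the base with the label of the place and first digits of the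
direction as record, `msh / 4` above the level of the target. -/
def NtI (p : ((H.nk hTop hF).chg hρ H.up).Par) (I : ℝ → BS p.cell → Prop) (c₀ : ℝ) : Prop :=
  ∀ (K K' s₁ : ℕ) (sh : ℕ → ℕ), 1 ≤ K → 1 ≤ K' → ∀ M' : ℕ, EvQ I fun N θ q =>
    ∀ (b : ℕ → ℕ → ℕ → ℝ) (e : ℕ → ℕ → ℝ), (kitN H p K).kit.Near q N M' θ b e →
      ∀ i ≤ M', ∀ j ≤ M', NtQ (kitN H p K).kit S K' s₁ sh N M' θ q (c₀ * msh q.r N M') b e i j

variable {H} in
theorem NtI.sub {p : ((H.nk hTop hF).chg hρ H.up).Par} {I I' : ℝ → BS p.cell → Prop} {c₀ : ℝ}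
    (h : NtI H p I c₀) (hs : ∀ ε q, I' ε q → I ε q) : NtI H p I' c₀ :=
  fun K K' s₁ sh hK hK' M' => (h K K' s₁ sh hK hK' M').sub hs

/-- **No labels of the target above its level**, from the facts of the boxes. -/
theorem ntI_of_supY {p : ((H.nk hTop hF).chg hρ H.up).Par} {I : ℝ → BS p.cell → Prop}
    (hI : MonoI I) {c β h' Mr : ℝ} (hbs : ∀ ε q, I ε q → IsBS p.cell c β h' Mr ε q)
    (hc : 0 < c) (hβ : 0 < β)
    (hpI : ∀ c (k : p.α × Od n) Q g ρ, p.Ad' c k Q g ρ → AdI hn S P P' c k.2 g ρ)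
    (hR : RecExh n (n - 1)) (hFk : ∀ k ≤ n - 1, FZX k) {al : ℝ} {g₀ : ℝ → ℝ} (hal : 0 < al)
    (hg₀ : ∀ e, 0 < e → 0 < g₀ e) {be co : ℝ} (hbe : 0 < be) (hbe1 : be ≤ 1) (hco : 0 < co)
    (hs : SupY H p I al g₀ be co) {h : ℝ} (hh : 0 < h) (hh1 : h ≤ 1)
    (hrow : ∀ ε' : ℝ, 0 < ε' → EvP I fun q =>
      NfB rr h (ε' * q.r) (P q.g q.g - q.r) (P q.g q.g + 3 * q.r)) :
    ∃ c₀ : ℝ, 0 < c₀ ∧ NtI H p I c₀ := by
  obtain ⟨T, hT⟩ : ∃ T : ℝ, T = 1 / c + 1 := ⟨_, rfl⟩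
  have hT0 : 1 ≤ T := by
    rw [hT]
    have : 0 < 1 / c := by positivity
    linarith
  obtain ⟨D, hD⟩ : ∃ D : ℝ, D = 2 ^ 17 * ((n - 1 + 1 : ℕ) : ℝ) ^ 2 := ⟨_, rfl⟩
  have hn0 : (0 : ℝ) < ((n - 1 + 1 : ℕ) : ℝ) := by
    have : 0 < n - 1 + 1 := by omega
    exact_mod_cast this
  have hD0 : 0 < D := by rw [hD]; positivity
  obtain ⟨ka, hka⟩ : ∃ ka : ℝ, ka = h ^ 2 / (4 * D) := ⟨_, rfl⟩
  have hka0 : 0 < ka := by rw [hka]; positivity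
  have hkaD : ka * D = h ^ 2 / 4 := by
    rw [hka]
    field_simp
  obtain ⟨θ₁, hθ₁⟩ : ∃ θ₁ : ℝ, θ₁ = h ^ 2 / (4 * D * ((n - 1 + 1 : ℕ) : ℝ)) := ⟨_, rfl⟩
  have hθ₁0 : 0 < θ₁ := by rw [hθ₁]; positivity
  have hθ₁D : θ₁ * ((n - 1 + 1 : ℕ) : ℝ) * D = h ^ 2 / 4 := by
    rw [hθ₁]
    field_simp
  obtain ⟨x, hx⟩ : ∃ x : ℝ, x = min (be * min ka 1 / (16 * ((n - 1 : ℕ) + 1)))
    (min (1 / 8) (h / (2 ^ 14 * T))) := ⟨_, rfl⟩
  have hk1 : 0 < min ka 1 := lt_min hka0 one_pos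
  have hx0 : 0 < x := by
    rw [hx]
    exact lt_min (by positivity) (lt_min (by norm_num) (by positivity))
  have hx1 : x ≤ be * min ka 1 / (16 * ((n - 1 : ℕ) + 1)) := by rw [hx]; exact min_le_left _ _
  have hx2 : x ≤ 1 / 8 := by rw [hx]; exact (min_le_right _ _).trans (min_le_left _ _)
  have hx3 : T * x * 2 ^ 14 ≤ h := by
    have h1 : x ≤ h / (2 ^ 14 * T) := by
      rw [hx]
      exact (min_le_right _ _).trans (min_le_right _ _)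
    rw [le_div_iff₀ (by positivity)] at h1
    linarith
  refine ⟨x / 4, by linarith, fun K K' s₁ sh hK hK' M => ?_⟩
  have hM0 : (0 : ℝ) ≤ M := Nat.cast_nonneg M
  have q1 := zmIe_of_supY H hI hbs hR hFk hal hg₀ hbe hbe1 hco hs K K' s₁ sh hK hK' hka0 M
  have q2 := labI_of_supY H hI hbs hco hs K K' s₁ sh hK hK' M (x := x / 4)
    (h₁ := al * x / 256) (by linarith) (by linarith) (by positivity)
  have q3 := actI_of_supY H hI hbs hal hg₀ hs K M (x := x / 4) (h₁ := al * x / 256) (by linarith)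
    (by linarith) (by
      have : 0 < al * x := by positivity
      linarith)
  have q4 : EvQ I fun N θ q => ∀ S' : PCl n, S'.Ne →
      (∀ (τ : ℝ) (J : ℕ) (F : Fam n J) (A : F.Ω → Prop), S'.St τ J F A → S.St τ J F A) →
      ∃ (S₁ : PCl n) (C₀ : ℝ), S₁.Ne ∧ (∀ (τ : ℝ) (J : ℕ) (F : Fam n J) (A : F.Ω → Prop),
        S₁.St τ J F A → S'.St τ J F A) ∧ 0 ≤ C₀ ∧ TmC S₁ C₀ := by
    refine ⟨1, fun N hN => ⟨1, one_pos, fun θ _ _ => (hs 1 1 one_pos one_pos N M hN).mono ?_⟩⟩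
    intro q h1 S' hne hsub
    obtain ⟨S₁, C₀, L, Na, E, a1, a2, a3, a4, -⟩ := h1 S' hne hsub
    exact ⟨S₁, C₀, a1, a2, a3, a4⟩
  obtain ⟨ε, hε⟩ : ∃ ε : ℕ → ℝ, ∀ N : ℕ, ε N = h / (2 ^ 18 * (((N : ℝ) + 1) * (M + 4))) :=
    ⟨fun N => h / (2 ^ 18 * (((N : ℝ) + 1) * (M + 4))), fun _ => rfl⟩
  have hε0 : ∀ N, 0 < ε N := fun N => by rw [hε N]; positivity
  have hεN : ∀ N : ℕ, ε N * (2 ^ 18 * (((N : ℝ) + 1) * (M + 4))) = h := fun N => by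
    rw [hε N]
    exact div_mul_cancel₀ h (by positivity)
  have q5 : EvQ I fun N _ q => CellL (n - 1 + 1) ((kitN H p K).kit.L q) (ε N) T
      ((kitN H p K).kit.y q) ((kitN H p K).kit.X q) ((kitN H p K).kit.la q)
      ((kitN H p K).kit.ml q) := EvQ.of_evP fun N => by
    rw [hT]
    exact (KitS.cel (Kt := kitN H p K) (M := Mr) (h := h') hc hβ (cls_hP H) (cls_hD H)
      (KitS.hlt_of hc (cls_hlt H hpI)) (ε N) (hε0 N)).sub hbs
  have q6 : EvQ I fun N _ q => ∀ z : ℝ × ℝ,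
      dist z ((kitN H p K).kit.y q) ≤ (kitN H p K).kit.X q →
      Nw (bet (PB (show Od n from q.k.2).2) ((kitN H p K).kit.cs q) (n - 1)) z ≤
        Nw ((kitN H p K).kit.L q (n - 1)) z + ε N * (kitN H p K).kit.X q :=
    EvQ.of_evP fun N => (kit_thr H (ε N) (hε0 N)).sub hbs
  have q7 : EvQ I fun N _ q => NfB rr h (ε N * q.r) (P q.g q.g - q.r) (P q.g q.g + 3 * q.r) :=
    EvQ.of_evP fun N => hrow (ε N) (hε0 N)
  have q8 := EvQ.self I (max 2 ⌈4 * (T + 2)⌉₊) (θ₀ := min (1 / 16) (min (h / 2 ^ 18) (θ₁ / 2)))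
    (ε := fun _ _ => 1) (lt_min (by norm_num) (lt_min (by positivity) (by positivity)))
    (fun _ _ _ => one_pos)
  refine (((((((q1.and hI q2).and hI q3).and hI q4).and hI q5).and hI q6).and hI q7).and hI
    q8).mono ?_
  rintro N θ q ⟨⟨⟨⟨⟨⟨⟨r1, r2⟩, r3⟩, r4⟩, r5⟩, r6⟩, r7⟩, hN, hθ, hθθ, r8⟩ b e hnear i hi j hj
  have hq := hbs _ _ r8
  have hr := hq.r0
  have hg0 := hq.g0
  have hg1 := hq.g1
  have hN2 : 2 ≤ N := (le_max_left _ _).trans hN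
  have hNr : (2 : ℝ) ≤ N := by exact_mod_cast hN2
  have hNT : 4 * (T + 2) ≤ N := (Nat.le_ceil _).trans (by
    exact_mod_cast (le_max_right 2 ⌈4 * (T + 2)⌉₊).trans hN)
  have hθ1 : θ ≤ 1 / 16 := hθθ.trans (min_le_left _ _)
  have hθ2 : θ ≤ h / 2 ^ 18 := hθθ.trans ((min_le_right _ _).trans (min_le_left _ _))
  have hθ3 : θ ≤ θ₁ / 2 := hθθ.trans ((min_le_right _ _).trans (min_le_right _ _))
  have hζ0 : 0 < msh q.r N M := by
    unfold msh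
    positivity
  have hNN : (N : ℝ) * (M + 4) ≤ (N + 1) * (M + 4) :=
    mul_le_mul_of_nonneg_right (by linarith) (by positivity)
  have hεh : ε N * (2 ^ 18 * (N * (M + 4))) ≤ h := by
    have h1 := mul_le_mul_of_nonneg_left hNN (show 0 ≤ ε N * 2 ^ 18 by
      have := hε0 N
      positivity)
    have h2 := hεN N
    calc ε N * (2 ^ 18 * (N * (M + 4))) = ε N * 2 ^ 18 * (N * (M + 4)) := by ring
      _ ≤ ε N * 2 ^ 18 * ((N + 1) * (M + 4)) := h1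
      _ = ε N * (2 ^ 18 * ((N + 1) * (M + 4))) := by ring
      _ = h := h2
  have hε64 : ε N * (64 * (N * (M + 4))) ≤ 1 := by
    have h1 : 0 ≤ ε N * (N * (M + 4)) := mul_nonneg (hε0 N).le (by positivity)
    linarith
  refine ntq_of_sub fun S' hne hsub => ?_
  obtain ⟨S₁, C₀, a1, a2, a3, a4⟩ := r4 S' hne hsub
  have hs₁ : ∀ (τ : ℝ) (J : ℕ) (F : Fam n J) (A : F.Ω → Prop), S₁.St τ J F A → S.St τ J F A :=
    fun τ J F A hA => hsub τ J F A (a2 τ J F A hA)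
  refine ⟨S₁, a1, a2, ?_⟩
  have e1 : x / 4 * msh q.r N M = x * msh q.r N M / 4 := by ring
  rw [e1]
  have hz := zmq_sub (r1 b e hnear i hi j hj) hs₁
  have hz' := zmq_mono hz (ξ' := x * msh q.r N M) (mul_le_mul_of_nonneg_right hx1 hζ0.le)
  have hl := labfq_sub (r2 b e hnear i hi j hj) hs₁
  have ha := actF_sub (r3 i hi j hj) hs₁
  rw [e1] at hl ha
  have e2 : 2 * (x / 4) * msh q.r N M = x * msh q.r N M / 2 := by ring
  rw [e2] at ha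
  refine ntq_kit (Kt := (kitN H p K).kit) (S := S₁) (p := q) (by omega) (hFk (n - 1) le_rfl) a3 a4 (H.tmh.sub hs₁)
    (H.zc.sub hs₁) (kit_inj H p K q.k) (kit_cov H p K q.k) ((kit_rate H p K q.k).sub hs₁) hh hh1
    ((H.thb (show Od n from q.k.2).2).sub hs₁) (fun k hk a w => (kit_Lb H q hk a w).symm) r5 rfl
    hN2 hNT (hε0 N).le hε64 hεh hθ hθ1 (by
      rw [le_div_iff₀ (by norm_num)] at hθ2
      exact hθ2) r6 ?c1 ?c2 hka0.le ?c3 (by positivity) ?c4 ?c5 hnear hi hj hz' hl ⟨0, by omega⟩ ha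
  case c1 =>
    rw [kit_Lt]
    show NfB rr h (ε N * q.r) (iso (fun a => P a a) (q.g + q.r) q.g - q.r)
      (iso (fun a => P a a) (q.g + q.r) q.g + 2 * q.r)
    have h7 := Pool.RTS.iso_le (fun a => P a a) (q.g + q.r) q.g
    have h8 := Pool.RTS.iso_lo (cls_hP H) (a := q.g + q.r) (w := q.g) (by linarith) (by linarith)
      (by linarith)
    rw [add_sub_cancel_left] at h7
    exact nfB_mono r7 le_rfl le_rfl (by linarith) (by linarith)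
  case c2 =>
    show q.g + 2 * q.r + 2 * q.r < 1
    linarith
  case c3 =>
    rw [← hD]
    have h1 : ((n - 1 : ℕ) : ℝ) * θ ≤ ((n - 1 + 1 : ℕ) : ℝ) * (θ₁ / 2) := by
      refine mul_le_mul ?_ hθ3 hθ.le hn0.le
      push_cast
      linarith
    have h2 := mul_le_mul_of_nonneg_right h1 hD0.le
    have h3 : ((n - 1 + 1 : ℕ) : ℝ) * (θ₁ / 2) * D = θ₁ * ((n - 1 + 1 : ℕ) : ℝ) * D / 2 := by ring
    have h4 : (ka + ((n - 1 : ℕ) : ℝ) * θ) * D = ka * D + ((n - 1 : ℕ) : ℝ) * θ * D := by ring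
    have h5 : 0 < h ^ 2 := by positivity
    linarith
  case c4 =>
    show x * msh q.r N M ≤ msh q.r N M
    have : x * msh q.r N M ≤ 1 * msh q.r N M := mul_le_mul_of_nonneg_right (by linarith) hζ0.le
    linarith
  case c5 =>
    show T * (x * msh q.r N M) * 2 ^ 14 ≤ h * msh q.r N M
    have := mul_le_mul_of_nonneg_right hx3 hζ0.le
    linarith

/-- **No labels of the target above its level**, from the facts of the boxes, at most four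
coordinates. -/
theorem ntI_supY (hn4 : n ≤ 4) {p : ((H.nk hTop hF).chg hρ H.up).Par} {I : ℝ → BS p.cell → Prop}
    (hI : MonoI I) {c β h' Mr : ℝ} (hbs : ∀ ε q, I ε q → IsBS p.cell c β h' Mr ε q)
    (hc : 0 < c) (hβ : 0 < β)
    (hpI : ∀ c (k : p.α × Od n) Q g ρ, p.Ad' c k Q g ρ → AdI hn S P P' c k.2 g ρ)
    (hFk : ∀ k ≤ n - 1, FZX k) {al : ℝ} {g₀ : ℝ → ℝ} (hal : 0 < al)
    (hg₀ : ∀ e, 0 < e → 0 < g₀ e) {be co : ℝ} (hbe : 0 < be) (hbe1 : be ≤ 1) (hco : 0 < co)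
    (hs : SupY H p I al g₀ be co) {h : ℝ} (hh : 0 < h) (hh1 : h ≤ 1)
    (hrow : ∀ ε' : ℝ, 0 < ε' → EvP I fun q =>
      NfB rr h (ε' * q.r) (P q.g q.g - q.r) (P q.g q.g + 3 * q.r)) :
    ∃ c₀ : ℝ, 0 < c₀ ∧ NtI H p I c₀ :=
  ntI_of_supY H hI hbs hc hβ hpI (Pool.OWN72.rec_exh n (n - 1) (by omega) (by omega)) hFk hal hg₀
    hbe hbe1 hco hs hh hh1 hrow

end cls

end Pool.TGT
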