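import Pool.Agent.H45.EXA.Crd
import Pool.Agent.H45.REC.Tch
import Pool.Agent.H72.REC.ExaV

/-!
# Exactness behind records, given closed values

`transferZ`: entropies of positions in the zoom given a closed value. `exz_cls`: exactness in the
family: the digits of the coordinates are free behind the numbers of the zoom, given the record, a
closed value of the zoom and everything which is a function of them and of the zoom.
-/

set_option autoImplicit false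

namespace Pool.TGT

open Finset Real
open Pool.Agent.H49.Ent Pool.Agent.H32.Dense Pool.STK Pool.KA Pool.KSAT Pool.K2S Pool.PB Pool.S6C
open Pool.GEN Pool.REX Pool.GRW

variable {m n J : ℕ}

/-- **Entropies of positions in the zoom**, given a closed value. -/
theorem transferZ (F : Fam m J) {B P : ℕ} (hP : P ≤ J - B) {κ : Type} (y : F.Ω → κ)
    {q : F.Ω → ℝ} {e : ℝ} (hB : B ≤ J)
    (hy : ∀ ω ω' : F.Ω, slam F B ω = slam F B ω' → y ω = y ω')
    (hq : IsLaw q) (hT : TmQ F q e) (ε : Fin n → Fin m) {w : ℕ} (hw : w ≤ J - B - P)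
    {V β : Type} (z' : LnT (zmV F hP y ε) → V) (Φ : F.Ω → β)
    (hΦ : ∀ ω ω', 0 < q ω → 0 < q ω' →
      z' (slam (zmV F hP y ε) w ω) = z' (slam (zmV F hP y ε) w ω') →
      (zmV F hP y ε).W ω = (zmV F hP y ε).W ω' → F.T ω = F.T ω' → F.Z ω = F.Z ω' →
      Φ ω = Φ ω') :
    CH q ((zmV F hP y ε).X (J - B - P))
      (fun ω => (z' (slam (zmV F hP y ε) w ω), (zmV F hP y ε).W ω)) ≤
    CH q (fun ω (j : Fin n) => F.X J ω (ε j)) (fun ω => (Φ ω, F.T ω)) + n * k99 + e := by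
  have h0 := hq.nonneg
  have hPJ : P ≤ J := by omega
  obtain ⟨Y, hY⟩ : ∃ Y : F.Ω → V × _, Y = fun ω =>
    (z' (slam (zmV F hP y ε) w ω), (zmV F hP y ε).W ω) := ⟨_, rfl⟩
  suffices hkey : CH q ((zmV F hP y ε).X (J - B - P)) Y ≤
      CH q (fun ω (j : Fin n) => F.X J ω (ε j)) (fun ω => (Φ ω, F.T ω)) + n * k99 + e by
    rw [hY] at hkey
    exact hkey
  have h1 := indep F hq (P := P) hPJ hT ((zmV F hP y ε).X (J - B - P)) Y
    (fun ω ω' _ _ h => (wV_det F hP y hB hy ε h).1) (fun ω ω' _ _ h => by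
      rw [hY]
      refine Prod.ext ?_ (wV_det F hP y hB hy ε h).2
      show z' (slam (zmV F hP y ε) w ω) = z' (slam (zmV F hP y ε) w ω')
      rw [zmV_of_slam F hP y ε hB (by omega) hy (slam_det F (W := B + w) (by omega) h)])
  have h2 := CH_le_add h0 ((zmV F hP y ε).X (J - B - P))
    (fun ω (j : Fin n) => F.X J ω (ε j)) (fun ω => (F.T ω % 2 ^ P, Y ω))
  have hd : ∀ ω ω' : F.Ω, (F.T ω % 2 ^ P, Y ω) = (F.T ω' % 2 ^ P, Y ω') →
      F.T ω = F.T ω' ∧ F.Z ω = F.Z ω' ∧ y ω = y ω' ∧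
      (∀ j, ((F.win B).L P ω).1 (ε j) = ((F.win B).L P ω').1 (ε j)) ∧
      (∀ j, ((F.win B).L P ω).2 (ε j) = ((F.win B).L P ω').2 (ε j)) ∧
      fl B (F.x1 B ω) = fl B (F.x1 B ω') := by
    intro ω ω' h
    have a1 := Prod.ext_iff.mp h
    have a2 : Y ω = Y ω' := a1.2
    rw [hY] at a2
    exact of_zmV F hP y ε a1.1 (Prod.ext_iff.mp a2).2
  have h3 : CH q (fun ω (j : Fin n) => F.X J ω (ε j)) (fun ω => (F.T ω % 2 ^ P, Y ω)) ≤
      CH q (fun ω (j : Fin n) => F.X J ω (ε j)) (fun ω => (Φ ω, F.T ω)) := by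
    refine CH_mono_cond h0 fun ω ω' hω hω' h => ?_
    obtain ⟨b1, b2, -, -, -, -⟩ := hd ω ω' h
    have a2 : Y ω = Y ω' := (Prod.ext_iff.mp h).2
    rw [hY] at a2
    have a3 := Prod.ext_iff.mp a2
    exact Prod.ext (hΦ ω ω' hω hω' a3.1 a3.2 b1 b2) b1
  have h4 : CH q ((zmV F hP y ε).X (J - B - P))
      (fun ω => ((fun j : Fin n => F.X J ω (ε j)), (F.T ω % 2 ^ P, Y ω))) ≤ n * k99 := by
    have h5 := CH_le_vec h0 hq.sum_one ((zmV F hP y ε).X (J - B - P))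
      (fun ω => ((fun j : Fin n => F.X J ω (ε j)), (F.T ω % 2 ^ P, Y ω)))
      (fun _ => 49) (fun ω ω' _ _ h k => by
        have a1 := Prod.ext_iff.mp h
        obtain ⟨b1, -, -, b4, b5, b6⟩ := hd ω ω' a1.2
        exact_mod_cast near1k F hP y hB b1 (b4 k) (b5 k) (congrFun b6 (ε k)) (congrFun a1.1 k))
    rwa [Ex_const hq.sum_one] at h5
  linarith

/-- Statements about the class of all zooms. -/
theorem bas_rec {S : PCl m} {v : Vz m} {ε : Fin n → Fin m} {Φ : Stat n}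
    (h : Bas (RecV S v ε) Φ) : Bas S (fun J F A =>
    ∀ hP : v.P J ≤ J - v.B J, Φ (v.R J) (v.famV ε F hP) A) := by
  obtain ⟨τ, hτ, J₁, h⟩ := h
  have hb1 := v.b1
  have hp1 := v.p1
  have hc : 0 < (1 - v.b) * (1 - v.p) := mul_pos (by linarith) (by linarith)
  obtain ⟨J₂, hJ₂⟩ := exists_nat_ge (1 / ((1 - v.b) * (1 - v.p)) * J₁)
  refine ⟨τ, hτ, J₂, fun J hJ F A hA hP => ?_⟩
  refine h (v.R J) ?_ (v.famV ε F hP) A (recV_mk hA hP)
  have h3 := (v.floor_le J).2.2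
  have h4 : (J₂ : ℝ) ≤ J := by exact_mod_cast hJ
  have h5 : 1 / ((1 - v.b) * (1 - v.p)) * (J₁ : ℝ) ≤ 1 / ((1 - v.b) * (1 - v.p)) * v.R J := by
    linarith
  have h6 : (J₁ : ℝ) ≤ v.R J := le_of_mul_le_mul_left h5 (by positivity)
  exact_mod_cast h6

/-- **Exactness behind records, given closed values**, in the family. -/
theorem exz_cls {S : PCl m} {C₀ : ℝ} (hC₀ : 0 ≤ C₀) (htm : TmC S C₀) (v : Vz m)
    (ε : Fin n → Fin m) {L : Finset (Fin n) → Fin n → ℝ → ℝ → ℝ} {σ : Fin n → Fin n} {w : ℝ}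
    (hw1 : w ≤ 1) (hex : VExa (RecV S v ε) L σ w) {ρ : ℝ} (hρ : 0 < ρ) :
    Bas S (fun J F A => ∀ (hP : v.P J ≤ J - v.B J) (V : Type)
      (z : PtT (zmV F hP (v.y J F) ε) → V) (z' : LnT (zmV F hP (v.y J F) ε) → V),
      (∀ ω, A ω → z (ptr (zmV F hP (v.y J F) ε) (v.R J) ω) =
        z' (slam (zmV F hP (v.y J F) ε) ⌊w * v.R J⌋₊ ω)) →
      ∀ (β : Type) (Φ : F.Ω → β), (∀ ω ω', A ω → A ω' →
        z' (slam (zmV F hP (v.y J F) ε) ⌊w * v.R J⌋₊ ω) =
          z' (slam (zmV F hP (v.y J F) ε) ⌊w * v.R J⌋₊ ω') →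
        (zmV F hP (v.y J F) ε).W ω = (zmV F hP (v.y J F) ε).W ω' → F.T ω = F.T ω' →
        F.Z ω = F.Z ω' → Φ ω = Φ ω') →
      ((∑ j : Fin n, (1 - v.sc (vs L σ w (j + 1)))) - ρ) * Real.log 2 * J ≤
        CH (Pool.Agent.H49.Ent.cond F.p A True) (fun ω (j : Fin n) => F.X J ω (ε j))
          (fun ω => (Φ ω, F.T ω))) := by
  have hb0 := v.b0
  have hb1 := v.b1
  have hp0 := v.p0
  have hp1 := v.p1
  obtain ⟨c, hc⟩ : ∃ c, c = (1 - v.b) * (1 - v.p) := ⟨_, rfl⟩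
  have hc0 : 0 < c := by rw [hc]; exact mul_pos (by linarith) (by linarith)
  have hc1 : c ≤ 1 := by
    rw [hc]
    exact mul_le_one₀ (by linarith) (by linarith) (by linarith)
  have hl2 : 0 < Real.log 2 := Real.log_pos one_lt_two
  have hl99 := k99_nonneg
  obtain ⟨X, hX⟩ : ∃ X, X = ∑ j : Fin n, (1 - vs L σ w (j + 1)) := ⟨_, rfl⟩
  have hsum : ∑ j : Fin n, (1 - v.sc (vs L σ w (j + 1))) = c * X := by
    rw [hX, Finset.mul_sum]
    refine Finset.sum_congr rfl fun j _ => ?_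
    rw [one_sub_sc, hc]
  rw [hsum]
  by_cases htriv : c * X - ρ ≤ 0
  · refine ⟨1, one_pos, 0, fun J _ F A hA hP V z z' _ β Φ _ => ?_⟩
    have hJ : (0 : ℝ) ≤ J := Nat.cast_nonneg J
    have h1 := (htm 1 J F A one_pos hA).1
    refine le_trans ?_ (CH_nonneg (isLaw_cond F.isLaw h1).nonneg _ _)
    exact mul_nonpos_of_nonpos_of_nonneg (mul_nonpos_of_nonpos_of_nonneg htriv hl2.le) hJ
  push Not at htriv
  have hXρ : ρ < X := by
    have hX0 : 0 < X := by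
      by_contra h
      push Not at h
      have := mul_nonpos_of_nonneg_of_nonpos hc0.le h
      linarith
    have : c * X ≤ X := by nlinarith
    linarith
  have hbr := bas_rec (hex (ρ / 4) (by positivity))
  rw [← hX] at hbr
  obtain ⟨τ₁, hτ₁, J₁, hbr⟩ := hbr
  obtain ⟨τ, hτ⟩ : ∃ τ, τ = min τ₁ (ρ * Real.log 2 / (4 * (C₀ + 1))) := ⟨_, rfl⟩
  have hτ0 : 0 < τ := by
    rw [hτ]
    exact lt_min (by positivity) (by positivity)
  have hτa : τ ≤ τ₁ := by rw [hτ]; exact min_le_left _ _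
  have hτb : C₀ * τ ≤ ρ * Real.log 2 / 4 := by
    have h1 : τ ≤ ρ * Real.log 2 / (4 * (C₀ + 1)) := by rw [hτ]; exact min_le_right _ _
    rw [le_div_iff₀ (by positivity)] at h1
    nlinarith
  obtain ⟨J₅, hJ₅⟩ := exists_nat_ge (n * k99 / (ρ * Real.log 2 / 4))
  refine ⟨τ, hτ0, max J₁ J₅, fun J hJ F A hA hP V z z' hz β Φ hΦ => ?_⟩
  have j5 : (J₅ : ℝ) ≤ J := by exact_mod_cast (le_max_right _ _).trans hJ
  have hJ0 : (0 : ℝ) ≤ J := Nat.cast_nonneg J
  obtain ⟨k1, k2, k3⟩ := v.floor_le J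
  rw [← hc] at k3
  have g2 : n * k99 ≤ ρ * Real.log 2 / 4 * J := by
    have := hJ₅.trans j5
    rw [div_le_iff₀ (by positivity)] at this
    linarith
  have hApos := (htm τ J F A hτ0 hA).1
  have hq := isLaw_cond F.isLaw hApos
  have t1 : TmQ F (Pool.Agent.H49.Ent.cond F.p A True) (C₀ * τ * J) :=
    (htm τ J F A hτ0 hA).2 hq
  have h1 := hbr J ((le_max_left _ _).trans hJ) F A (S.mono hτa hA) hP V z z' hz
  have h3 := transferZ F hP (v.y J F) k1 (v.line J F) hq t1 ε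
    (w := ⌊w * v.R J⌋₊) (Nat.floor_le_of_le (mul_le_of_le_one_left (Nat.cast_nonneg _) hw1)) z' Φ
    (fun ω ω' a b => hΦ ω ω' (of_eq_true ((cond_pos_iff F.isLaw.nonneg A True ω).1 a).2)
      (of_eq_true ((cond_pos_iff F.isLaw.nonneg A True ω').1 b).2))
  have h4 : (X - ρ / 4) * Real.log 2 * (v.R J : ℝ) ≤
      CH (Pool.Agent.H49.Ent.cond F.p A True) ((zmV F hP (v.y J F) ε).X (v.R J))
        (fun ω => (z' (slam (zmV F hP (v.y J F) ε) ⌊w * v.R J⌋₊ ω),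
          (zmV F hP (v.y J F) ε).W ω)) := by
    refine h1.trans (CH_mono_left hq.nonneg fun ω ω' _ _ h => ?_)
    have a1 := Prod.ext_iff.mp h
    funext j
    exact congrFun a1.1 (σ j)
  have h5 : (X - ρ / 4) * Real.log 2 * (c * J) ≤ (X - ρ / 4) * Real.log 2 * (v.R J : ℝ) := by
    refine mul_le_mul_of_nonneg_left ?_ (mul_nonneg (by linarith) hl2.le)
    have := k3
    rw [one_div, ← div_eq_inv_mul, le_div_iff₀ hc0] at this
    linarith
  have h7 : C₀ * τ * (J : ℝ) ≤ ρ * Real.log 2 / 4 * J := mul_le_mul_of_nonneg_right hτb hJ0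
  have h8 : (X - ρ / 4) * Real.log 2 * (c * J) =
      (c * X) * Real.log 2 * J - c * (ρ / 4 * Real.log 2 * J) := by ring
  have h9 : c * (ρ / 4 * Real.log 2 * J) ≤ ρ / 4 * Real.log 2 * J := by
    have : 0 ≤ ρ / 4 * Real.log 2 * J := by positivity
    nlinarith
  have h10 : (c * X - ρ) * Real.log 2 * J =
      (c * X) * Real.log 2 * J - ρ / 4 * Real.log 2 * J - ρ * Real.log 2 / 4 * J -
        ρ * Real.log 2 / 4 * J - ρ * Real.log 2 / 4 * J := by ring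
  have h11 : 0 ≤ ρ * Real.log 2 / 4 * J := by positivity
  rw [h10]
  have h12 := h4.trans h3
  linarith

end Pool.TGT
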