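import Pool.Agent.H89.TGT.Sgv
import Pool.Agent.H17.COR.Root

/-!
# No label of the target above its level, one place

`tgt_none`: in a class with the data of a place, there is no closed label of the target over the
base, with the label of the place and first digits of the direction as record, whose precision is
`μ / 4` above the side of the target.
-/

set_option autoImplicit false

namespace Pool.TGT

open Finset Real MvPolynomial Filter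
open Pool.Agent.H49.Ent Pool.Agent.H32.Dense Pool.STK Pool.KA Pool.KSAT Pool.K2S Pool.PB
open Pool.PB.Trl Pool.STAT Pool.STAT.CLO Pool.GEN Pool.S6C Pool.REX Pool.GRW
open Pool.FLF (Fam.sub)
open Pool.CHT (TmH bas_ev)
open Pool.EXC33 (lnV lnV_y rec_core slam_of)
open Pool.OWN17 (root_fix)
open Pool.SUPA (SA FF)
open Pool.REX83

variable {m n J : ℕ}

/-- **The base is exact behind closed values** with the label of the place and digits of the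
direction as record, in all subclasses. -/
def ZmX (S : PCl m) (c : ℕ → Fin m) (n₀ : ℕ) {Λ : ∀ J : ℕ, Fam m J → Type}
    (lab : ∀ (J : ℕ) (F : Fam m J), F.Ω → Λ J F) (X₀ w w₁ qm : ℝ) : Prop :=
  ∀ S' : PCl m, S'.Ne →
    (∀ (τ : ℝ) (J : ℕ) (F : Fam m J) (A : F.Ω → Prop), S'.St τ J F A → S.St τ J F A) →
  ∀ wp : ℝ, w < wp → wp < w₁ → ∀ q : ℝ, 0 < q → q < qm →
  ∀ (V : ∀ J : ℕ, Fam m J → Type)
    (z : ∀ (J : ℕ) (F : Fam m J), PtT F → Λ J F → (Fin m → ℤ) → V J F)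
    (z' : ∀ (J : ℕ) (F : Fam m J), LnT F → V J F),
    (∀ (τ : ℝ) (J : ℕ) (F : Fam m J) (A : F.Ω → Prop), S'.St τ J F A → ∀ ω, A ω →
      z J F (ptr F J ω) (lab J F ω) (F.D ⌊q * J⌋₊ ω) = z' J F (slam F ⌊wp * J⌋₊ ω)) →
  ∃ S'' : PCl m, S''.Ne ∧
    (∀ (τ : ℝ) (J : ℕ) (F : Fam m J) (A : F.Ω → Prop), S''.St τ J F A → S'.St τ J F A) ∧
    ∀ ρ : ℝ, 0 < ρ → Bas S'' (fun J F A => (X₀ - ρ) * Real.log 2 * J ≤
      CH (Pool.Agent.H49.Ent.cond F.p A True) (fun ω (l : Fin n₀) => F.X J ω (c l))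
        (fun ω => (lab J F ω, (F.D ⌊q * J⌋₊ ω, (z' J F (slam F ⌊wp * J⌋₊ ω), F.T ω)))))

theorem PlaceD.sub {S S' : PCl m} {c : ℕ → Fin m} {n₀ K K' s₁ : ℕ} {sh : ℕ → ℕ} {aJ wJ : ℕ → ℕ}
    {eb : ℝ} {b : ℕ → ℝ} {Λ : ∀ J : ℕ, Fam m J → Type}
    {lab : ∀ (J : ℕ) (F : Fam m J), F.Ω → Λ J F} {zL : ∀ (J : ℕ) (F : Fam m J), LnT F → LV}
    (h : PlaceD S c n₀ K K' s₁ sh aJ wJ eb b lab zL)
    (hs : ∀ (τ : ℝ) (J : ℕ) (F : Fam m J) (A : F.Ω → Prop), S'.St τ J F A → S.St τ J F A) :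
    PlaceD S' c n₀ K K' s₁ sh aJ wJ eb b lab zL :=
  ⟨h.1, fun τ J F A hA => h.2 τ J F A (hs τ J F A hA)⟩

theorem VL.congr {F : Fam m J} {c : ℕ → Fin m} {n₀ K w : ℕ} {σ sV sV' : ℕ → ℕ} {κ V : Type}
    {yd : F.Ω → κ} {z : PtT F → κ → V} {z' : LnT F → V} {G : V → ℕ → PN} {A : F.Ω → Prop}
    (h : VL F c n₀ K w σ sV yd z z' G A) (hs : ∀ j < n₀, sV j = sV' j) :
    VL F c n₀ K w σ sV' yd z z' G A :=
  ⟨h.vars, h.deg, h.dep, h.cls, fun ω hω j hj b h0 h1 => by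
    rw [← hs j hj]
    exact h.pos ω hω j hj b h0 h1⟩

theorem RateD.sub {S S' : PCl m} {c : ℕ → Fin m} {n₀ : ℕ} {x R₀ R₁ ηr : ℝ}
    (h : RateD S c n₀ x R₀ R₁ ηr)
    (hs : ∀ (τ : ℝ) (J : ℕ) (F : Fam m J) (A : F.Ω → Prop), S'.St τ J F A → S.St τ J F A) :
    RateD S' c n₀ x R₀ R₁ ηr := fun e he => Bas.sub hs (h e he)

theorem NoCh.sub {S S' : PCl m} {c : ℕ → Fin m} {n₀ : ℕ} {a wp t gn : ℝ} {b : ℕ → ℝ}
    (h : NoCh S c n₀ a wp t gn b)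
    (hs : ∀ (τ : ℝ) (J : ℕ) (F : Fam m J) (A : F.Ω → Prop), S'.St τ J F A → S.St τ J F A) :
    NoCh S' c n₀ a wp t gn b := fun K C => Bas.sub hs (h K C)

theorem tgt_none (n₀ K K' KQ : ℕ) (sh : ℕ → ℕ) (hn₀ : 1 ≤ n₀) (hFZ : FZX n₀) {η μ dl ηr : ℝ}
    (hη : 0 < η) (hη1 : η ≤ 1 / 4) (hμ : 0 < μ)
    (hdl : 16 * ((n₀ + 1 : ℕ) : ℝ) ^ 2 * dl < η * (η * μ / 512)) (hdl0 : 0 ≤ dl)
    (hηr : ηr < 2 * η * (μ / 4) * Real.log 2) {m : ℕ} {S : PCl m} (hS : S.Ne) {C₀ : ℝ}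
    (hC₀ : 0 ≤ C₀) (htm : TmC S C₀) (htmh : TmH S) {c : ℕ → Fin m} (hc : Inj c (n₀ + 1))
    {Ns : Finset (Fin m) → ℝ → ℝ → ℝ} (hNs : ActN S Ns) (κ : Fin n₀)
    {s₁ : ℕ} {a w eb gmr C₁ X₀ : ℝ} {b : ℕ → ℝ} {aJ wJ : ℕ → ℕ}
    (haJ : ∀ J, |(aJ J : ℝ) - a * J| ≤ C₁) (hwJ : ∀ J, |(wJ J : ℝ) - w * J| ≤ C₁)
    {Λ : ∀ J : ℕ, Fam m J → Type} {lab : ∀ (J : ℕ) (F : Fam m J), F.Ω → Λ J F}
    {zL : ∀ (J : ℕ) (F : Fam m J), LnT F → LV}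
    (hpl : PlaceD S c n₀ K K' s₁ sh aJ wJ eb b lab zL)
    {wp q Q₁ w₁ qm P₀ h₁ P Q : ℝ} (hzm : ZmX S c n₀ lab X₀ w w₁ qm)
    (hbit : Bas S (fun J F A => CH (Pool.Agent.H49.Ent.cond F.p A True) (lab J F)
      (fun ω => (F.D ⌊P₀ * J⌋₊ ω, (F.X J ω, F.W ω))) ≤ h₁ * J))
    (hq : q ≤ P₀) (hP0 : 0 < P₀) (hPP : P₀ ≤ P) (hPQ : P < Q) (hQm : Q < qm)
    (hQ2 : Q < (1 - w₁) / 2)
    (hact : h₁ / Real.log 2 < FF (Ns {c κ}) Q - FF (Ns {c κ}) P)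
    (hlbr : Bas S (fun J F A => ∃ (V : Type) (z : PtT F → Λ J F × (Fin m → ℤ) → V)
      (z' : LnT F → V) (G : V → MvPolynomial (Option (Fin m)) ℝ),
      Lbr F ((range n₀).image c) (c n₀) KQ ⌊wp * J⌋₊ ⌊Q₁ * J⌋₊
        (fun ω => (lab J F ω, F.D ⌊q * J⌋₊ ω)) A z z' G))
    (hdl' : n₀ - X₀ - ∑ l ∈ range n₀, b l ≤ dl)
    {R₀ R₁ : ℝ} (hrate : RateD S c n₀ (4 * η) R₀ R₁ ηr) (hR₀ : R₀ < b n₀)
    (hR₁ : b n₀ + μ / 4 < R₁) {gn : ℝ} (hgn : gn ≤ η * μ / 1024)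
    (hno : NoCh S c n₀ a wp (η * μ / 512) gn b) (hw0 : 0 ≤ w) (hwp : w < wp) (hw₁ : wp < w₁)
    (hwa : w₁ ≤ a) (ha1 : a + η * μ / 512 + μ / 4 < 1)
    (hb : ∀ l < n₀ + 1, 0 < b l ∧ b l ≤ gmr ∧ b l + η * μ / 512 + μ / 4 < 1) (heb0 : 0 ≤ eb)
    (heb : eb + gmr + η * μ / 512 < 1) (hQ₁ : b n₀ + μ / 4 ≤ Q₁) : False := by
  classical
  obtain ⟨e₀, he₀, hend⟩ := tgt_end n₀ K K' KQ sh hn₀ hη hη1 hμ hdl hdl0 hηr
  have hw1 : w₁ < 1 := by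
    have : 0 < η * μ := by positivity
    linarith
  have hposS : ∀ (τ : ℝ) (J : ℕ) (F : Fam m J) (A : F.Ω → Prop), S.St τ J F A → 0 < Pe F.p A :=
    htmh.1
  have hcn : ∀ i < n₀, ∀ j < n₀, c i = c j → i = j := fun i hi j hj h =>
    hc i (by omega) j (by omega) h
  -- one label of the target
  obtain ⟨S₁, dN, hne₁, hsub₁, hN₁⟩ := root_fix (Δ := fun J F => NDat F (Λ J F × (Fin m → ℤ))) hS
    (fun J F d A => Lbr F ((range n₀).image c) (c n₀) KQ ⌊wp * J⌋₊ ⌊Q₁ * J⌋₊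
      (fun ω => (lab J F ω, F.D ⌊q * J⌋₊ ω)) A d.z d.z' d.G)
    (fun J F d A B h hB => h.sub hB) (C := 1)
    (Bas.mono 0 hlbr fun J _ F A ⟨V, z, z', G, h⟩ => ⟨⟨V, z, z', G⟩, A, fun _ h => h,
      (one_mul _).ge, h⟩)
  have hpos₁ : ∀ (τ : ℝ) (J : ℕ) (F : Fam m J) (A : F.Ω → Prop), S₁.St τ J F A →
      0 < Pe F.p A := fun τ J F A h => hposS τ J F A (hsub₁ τ J F A h)
  have hposB₁ : Bas S₁ (fun _ F A => 0 < Pe F.p A) :=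
    ⟨1, one_pos, 0, fun J _ F A hA => hpos₁ 1 J F A hA⟩
  -- the record
  obtain ⟨b₁, hb₁⟩ : ∃ b₁ : ℝ, b₁ = (wp + w₁) / 2 := ⟨_, rfl⟩
  have hb₁w : wp < b₁ := by rw [hb₁]; linarith
  have hb₁1 : b₁ < w₁ := by rw [hb₁]; linarith
  have hb₁0 : 0 < b₁ := by linarith
  have hb₁11 : b₁ < 1 := by linarith
  obtain ⟨v, hv⟩ : ∃ v : Vz m, v = lnV b₁ hb₁0.le hb₁11 _
    (fun J F ω => rcf lab q wp dN J F ω) := ⟨_, rfl⟩
  have hvb : v.b = b₁ := by rw [hv]; rfl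
  -- the windows
  have hev : ∀ᶠ J : ℕ in atTop, wJ J ≤ ⌊wp * J⌋₊ ∧ ⌊wp * J⌋₊ ≤ ⌊b₁ * J⌋₊ ∧ ⌊b₁ * J⌋₊ ≤ J := by
    have q1 := evl hwp (C₁ + 1)
    filter_upwards [q1] with J q1
    have hJ0 : (0 : ℝ) ≤ J := Nat.cast_nonneg J
    have a2 := abs_le.1 (hwJ J)
    have w2 := fl2 wp J
    refine ⟨?_, Nat.floor_le_floor (mul_le_mul_of_nonneg_right hb₁w.le hJ0), ?_⟩
    · have : (wJ J : ℝ) ≤ ⌊wp * J⌋₊ := by linarith
      exact_mod_cast this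
    · refine Nat.floor_le_of_le ?_
      have := mul_le_mul_of_nonneg_right (hb₁1.trans hw1).le hJ0
      linarith
  obtain ⟨J₁, hJ₁⟩ := Filter.eventually_atTop.1 hev
  have hvy : ∀ J, J₁ ≤ J → ∀ F : Fam m J, ∀ ω ω', v.y J F ω = v.y J F ω' →
      rcf lab q wp dN J F ω = rcf lab q wp dN J F ω' := by
    intro J hJ F ω ω' h
    obtain ⟨h1, h2, h3⟩ := hJ₁ J hJ
    rw [hv] at h
    rw [lnV_y fun ω ω' h => rcf_line (hpl.1 J F) h1 h2 h3 h] at h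
    exact Option.some.inj h
  have hbits : Bas S₁ (fun J F A => CH (Pool.Agent.H49.Ent.cond F.p A True) (v.y J F)
      (fun ω => (F.D ⌊P₀ * J⌋₊ ω, (F.X J ω, F.W ω))) ≤ h₁ * J) := by
    refine Bas.mono J₁ ((rec_bits hposB₁ hN₁ hq (Bas.sub hsub₁ hbit)).and hposB₁) ?_
    rintro J hJ F A ⟨h4, h5⟩
    obtain ⟨h1, h2, h3⟩ := hJ₁ J hJ
    rw [hv, lnV_y fun ω ω' h => rcf_line (hpl.1 J F) h1 h2 h3 h]
    exact h4
  -- the zoom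
  have hNs₁ : ActN S₁ Ns := actN_of_bas (fun Φ h => Bas.sub hsub₁ h) hNs
  obtain ⟨pp, S₃, LL, hne₃, hsub₃, hz⟩ := rex_tubeH (S := S₁) hne₁ hC₀
    (fun τ J F A hτ h => htm τ J F A hτ (hsub₁ τ J F A h)) hpos₁ hNs₁ (ι := Unit)
    (fun _ => n₀) (fun _ => hFZ) (fun _ => v) (fun _ (l : Fin n₀) => c l) (fun _ => κ)
    (P₀ := fun _ => P₀) (h := fun _ => h₁) (P := fun _ => P) (Q := fun _ => Q)
    (fun _ => hbits) (fun _ => hP0.le) (fun _ => hPP) (fun _ => hPQ)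
    (fun _ => by rw [hvb]; linarith) (fun _ => hact)
  obtain ⟨z1, z2, z3⟩ := hz ()
  obtain ⟨p, hp⟩ : ∃ p, p = pp () := ⟨_, rfl⟩
  obtain ⟨L, hLd⟩ : ∃ L, L = LL () := ⟨_, rfl⟩
  rw [← hp] at z1 z2 z3
  rw [← hLd] at z3
  obtain ⟨p0, p1, hL, ⟨Na, al, g₀, hal, hg₀, hM, hB⟩, D, hD, hexa⟩ := z3
  obtain ⟨v', hv'⟩ : ∃ v' : Vz m, v' = atp v p p0.le (p1.trans (by norm_num)) := ⟨_, rfl⟩
  rw [← hv'] at hL hB
  have hv'b : v'.b = b₁ := by rw [hv']; exact hvb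
  have hv'p : v'.p = p := by rw [hv']; rfl
  have hv'y : ∀ J, J₁ ≤ J → ∀ F : Fam m J, ∀ ω ω', v'.y J F ω = v'.y J F ω' →
      rcf lab q wp dN J F ω = rcf lab q wp dN J F ω' := by
    intro J hJ F ω ω' h
    refine hvy J hJ F ω ω' ?_
    rw [hv'] at h
    exact h
  have hsub₃S : ∀ (τ : ℝ) (J : ℕ) (F : Fam m J) (A : F.Ω → Prop), S₃.St τ J F A → S.St τ J F A :=
    fun τ J F A h => hsub₁ τ J F A (hsub₃ τ J F A h)
  have hpos₃ : Bas S₃ (fun _ F A => 0 < Pe F.p A) :=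
    ⟨1, one_pos, 0, fun J _ F A hA => hposS 1 J F A (hsub₃S 1 J F A hA)⟩
  -- the window of the labels of the base
  obtain ⟨wz, hwz0, hwz1, hwzD⟩ : ∃ wz : ℝ, 0 < wz ∧ wz < (w₁ - b₁) / 4 ∧ wz ∉ D := by
    obtain ⟨y, hy, h1, h2⟩ := (hD.dense_compl ℝ).exists_between
      (show (0 : ℝ) < (w₁ - b₁) / 4 by linarith)
    exact ⟨y, h1, h2, hy⟩
  obtain ⟨σ, hσw, hσ0, -⟩ := hexa wz hwz0 (by linarith) hwzD
  obtain ⟨e, he⟩ : ∃ e, e = min (wz / 4) (e₀ / 4) := ⟨_, rfl⟩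
  have he0 : 0 < e := by rw [he]; exact lt_min (by linarith) (by linarith)
  have hewz : 4 * e ≤ wz := by
    have : e ≤ wz / 4 := by rw [he]; exact min_le_left _ _
    linarith
  have hee₀ : 4 * e ≤ e₀ := by
    have : e ≤ e₀ / 4 := by rw [he]; exact min_le_right _ _
    linarith
  obtain ⟨K₁, hvl⟩ := vl_cls hpos₃ v' hcn hL σ hσw he0 hewz
  obtain ⟨S₄, dV, hne₄, hsub₄, hV₄⟩ := root_fix (Δ := fun J F => VDat F (v'.κ J F × (Fin n₀ → ℤ)))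
    hne₃ (fun J F d A => VL F c n₀ K₁ (v'.B J + ⌊wz * v'.R J⌋₊) (sgN σ) (sgV v' L σ wz e J)
        (ydg F (v'.y J F) (fun l : Fin n₀ => c l) (v'.P J)) d.z d.z' d.G A ∧
      ZDt F v' (fun l : Fin n₀ => c l) wz
        (fun ω => d.z' (slam F (v'.B J + ⌊wz * v'.R J⌋₊) ω)) A)
    (fun J F d A B h hB => ⟨h.1.sub hB, h.2.sub hB⟩) (C := 7 ^ m * 7 ^ n₀ * 99 ^ n₀)
    (Bas.mono 0 hvl fun J _ F A ⟨d, B, h1, h2, h3, h4⟩ => ⟨d, B, h1, h2, h3, h4⟩)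
  have hsub₄S : ∀ (τ : ℝ) (J : ℕ) (F : Fam m J) (A : F.Ω → Prop), S₄.St τ J F A → S.St τ J F A :=
    fun τ J F A h => hsub₃S τ J F A (hsub₄ τ J F A h)
  -- the numbers
  have hs := sgv_num v' (by rw [hv'b]; exact hb₁0) hL σ hσw he0 hewz (Q := Q)
    (by rw [hv'b, hv'p, ← hvb]; exact z2)
  obtain ⟨wpp, hwpp⟩ : ∃ wpp : ℝ, wpp = (b₁ + w₁) / 2 := ⟨_, rfl⟩
  have hwpp0 : 0 ≤ wpp := by linarith
  have hwV : ∀ J : ℕ, v'.B J + ⌊wz * v'.R J⌋₊ ≤ ⌊wpp * J⌋₊ := by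
    intro J
    have hJ0 : (0 : ℝ) ≤ J := Nat.cast_nonneg J
    have h1 : (v'.B J : ℝ) ≤ b₁ * J := by
      rw [← hv'b]
      exact fl1 (by rw [hv'b]; exact hb₁0.le) J
    have h2 : (v'.R J : ℝ) ≤ J := by
      have : v'.R J ≤ J := (Nat.sub_le _ _).trans (Nat.sub_le _ _)
      exact_mod_cast this
    have h3 : (⌊wz * (v'.R J : ℝ)⌋₊ : ℝ) ≤ wz * v'.R J :=
      Nat.floor_le (mul_nonneg hwz0.le (Nat.cast_nonneg _))
    have h4 : wz * (v'.R J : ℝ) ≤ wz * J := mul_le_mul_of_nonneg_left h2 hwz0.le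
    refine Nat.le_floor ?_
    push_cast
    have h5 : (b₁ + wz) * J ≤ wpp * J := mul_le_mul_of_nonneg_right (by linarith) hJ0
    linarith
  have hevw : ∀ᶠ J : ℕ in atTop, ⌊wpp * J⌋₊ ≤ aJ J ∧ ⌊wpp * J⌋₊ ≤ J := by
    have q1 := evl (show wpp < a by linarith) C₁
    filter_upwards [q1] with J q1
    have hJ0 : (0 : ℝ) ≤ J := Nat.cast_nonneg J
    have a2 := abs_le.1 (haJ J)
    have w2 := fl1 hwpp0 J
    constructor
    · have : (⌊wpp * J⌋₊ : ℝ) ≤ aJ J := by linarith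
      exact_mod_cast this
    · refine Nat.floor_le_of_le ?_
      have := mul_le_mul_of_nonneg_right (show wpp ≤ 1 by linarith) hJ0
      linarith
  obtain ⟨J₂, hJ₂⟩ := Filter.eventually_atTop.1 (hev.and (hs.and hevw))
  -- the record as a function of the values
  have hyv : ∀ (J : ℕ) (F : Fam m J), ∃ y : (Λ J F × ((Fin m → ℤ) × (dN J F).V)) →
      Option (v'.κ J F), J₁ ≤ J → ∀ ω, y (rcf lab q wp dN J F ω) = some (v'.y J F ω) := by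
    intro J F
    by_cases hJ : J₁ ≤ J
    · obtain ⟨y, hy⟩ := Pool.GEN.fac (f := rcf lab q wp dN J F) (Y := v'.y J F)
        (B := fun _ => True) (fun ω ω' _ _ h => by
          obtain ⟨h1, h2, h3⟩ := hJ₁ J hJ
          rw [hv', hv]
          show (lnV b₁ hb₁0.le hb₁11 _ (fun J F ω => rcf lab q wp dN J F ω)).y J F ω =
            (lnV b₁ hb₁0.le hb₁11 _ (fun J F ω => rcf lab q wp dN J F ω)).y J F ω'
          rw [lnV_y fun ω ω' h => rcf_line (hpl.1 J F) h1 h2 h3 h]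
          exact congrArg some h)
      exact ⟨y, fun _ ω => hy ω trivial⟩
    · exact ⟨fun _ => none, fun h => absurd h hJ⟩
  choose yv hyv using hyv
  have hqQ : q ≤ Q := hq.trans (hPP.trans hPQ.le)
  obtain ⟨J₃, hJ₃⟩ : ∃ J₃, J₃ = max J₁ J₂ := ⟨_, rfl⟩
  have hJ31 : ∀ J, J₃ ≤ J → J₁ ≤ J := fun J h => (le_max_left _ _).trans (hJ₃ ▸ h)
  have hJ32 : ∀ J, J₃ ≤ J → J₂ ≤ J := fun J h => (le_max_right _ _).trans (hJ₃ ▸ h)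
  obtain ⟨zz', hzz'⟩ : ∃ zz' : ∀ (J : ℕ) (F : Fam m J), LnT F →
      Option ((dN J F).V × Option (dV J F).V), zz' = fun J F s => if J₃ ≤ J then
        some ((dN J F).z' (crs ⌊wp * J⌋₊ ⌊wpp * J⌋₊ s),
          some ((dV J F).z' (crs (v'.B J + ⌊wz * v'.R J⌋₊) ⌊wpp * J⌋₊ s))) else none := ⟨_, rfl⟩
  have hzzv : ∀ J, J₃ ≤ J → ∀ (F : Fam m J) (ω : F.Ω), zz' J F (slam F ⌊wpp * J⌋₊ ω) =
      some ((dN J F).z' (slam F ⌊wp * J⌋₊ ω),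
        some ((dV J F).z' (slam F (v'.B J + ⌊wz * v'.R J⌋₊) ω))) := by
    intro J hJ F ω
    obtain ⟨⟨h1, h2, h3⟩, h4, h5, h6⟩ := hJ₂ J (hJ32 J hJ)
    have h7 : ⌊wp * J⌋₊ ≤ ⌊wpp * J⌋₊ := Nat.floor_le_floor
      (mul_le_mul_of_nonneg_right (by linarith) (Nat.cast_nonneg J))
    rw [hzz']
    simp only [if_pos hJ]
    rw [crs_eq F h7 h6, crs_eq F (hwV J) h6]
  obtain ⟨S₅, hne₅, hsub₅, hzm₅⟩ := hzm S₄ hne₄ hsub₄S wpp (by linarith) (by linarith) Q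
    (by linarith) hQm (fun J F => Option ((dN J F).V × Option (dV J F).V))
    (fun J F u l x => if J₃ ≤ J then
      some ((dN J F).z u (l, trD F ⌊q * J⌋₊ ⌊Q * J⌋₊ x),
        (yv J F (l, (trD F ⌊q * J⌋₊ ⌊Q * J⌋₊ x,
          (dN J F).z u (l, trD F ⌊q * J⌋₊ ⌊Q * J⌋₊ x)))).map fun y =>
            (dV J F).z u (y, fun k => trD F (v'.P J) ⌊Q * J⌋₊ x (c k))) else none)
    zz' (fun τ J F A hA ω hω => by
      by_cases hJ : J₃ ≤ J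
      · obtain ⟨⟨h1, h2, h3⟩, ⟨h4, -⟩, h5, h6⟩ := hJ₂ J (hJ32 J hJ)
        have hfl : ⌊q * J⌋₊ ≤ ⌊Q * J⌋₊ :=
          Nat.floor_le_floor (mul_le_mul_of_nonneg_right hqQ (Nat.cast_nonneg J))
        have e1 := (hN₁ τ J F A (hsub₃ τ J F A (hsub₄ τ J F A hA))).cls ω hω
        have e2 := (hV₄ τ J F A hA).1.cls ω hω
        have e3 : yv J F (lab J F ω, (F.D ⌊q * J⌋₊ ω, (dN J F).z' (slam F ⌊wp * J⌋₊ ω))) =
            some (v'.y J F ω) := hyv J F (hJ31 J hJ) ω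
        have e4 : (dV J F).z (ptr F J ω) (v'.y J F ω, fun k : Fin n₀ => F.D (v'.P J) ω (c k)) =
            (dV J F).z' (slam F (v'.B J + ⌊wz * v'.R J⌋₊) ω) := e2
        rw [hzzv J hJ F ω, if_pos hJ, trD_eq F hfl, trD_eq F h4, e1, e3, Option.map_some, e4]
      · rw [hzz']
        simp only [if_neg hJ])
  have hsub₅S : ∀ (τ : ℝ) (J : ℕ) (F : Fam m J) (A : F.Ω → Prop), S₅.St τ J F A → S.St τ J F A :=
    fun τ J F A h => hsub₄S τ J F A (hsub₅ τ J F A h)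
  have htm₃ : TmC S₃ C₀ := fun τ J F A hτ h => htm τ J F A hτ (hsub₃S τ J F A h)
  have hvx : VExa (RecV S₃ v' fun l : Fin n₀ => c l) L σ wz := rdt_vexa hne₃ hC₀ htm₃ hFZ hL hal
    hg₀ hM hB σ.injective hσ0 hσw
  refine hend hne₅ hC₀ (fun τ J F A hτ h => htm τ J F A hτ (hsub₅S τ J F A h)) (htmh.sub hsub₅S)
    hc haJ hwJ (hpl.sub hsub₅S) (wp := wp) (Q₁ := Q₁) (VN := fun J F => (dN J F).V)
    (κN := fun J F => Λ J F × (Fin m → ℤ))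
    (ydN := fun J F ω => (lab J F ω, F.D ⌊q * J⌋₊ ω)) (zN := fun J F => (dN J F).z)
    (zN' := fun J F => (dN J F).z') (GN := fun J F => (dN J F).G)
    (fun τ J F A hA => hN₁ τ J F A (hsub₃ τ J F A (hsub₄ τ J F A (hsub₅ τ J F A hA))))
    (K₁ := K₁) (J₁ := J₃) (VV := fun J F => (dV J F).V)
    (κV := fun J F => v'.κ J F × (Fin n₀ → ℤ))
    (ydV := fun J F => ydg F (v'.y J F) (fun l : Fin n₀ => c l) (v'.P J))
    (zV := fun J F => (dV J F).z) (zV' := fun J F => (dV J F).z') (GV := fun J F => (dV J F).G)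
    (σ := sgN σ) (wV := fun J => v'.B J + ⌊wz * v'.R J⌋₊)
    (sV := fun J j => sgV v' L σ wz e J j - 1)
    (s := fun j => v'.sc (vs L σ wz (j + 1))) (e₁ := 4 * e) (by linarith) hee₀
    (fun τ J F A hA hJ => ?_) (fun j hj => sgN_lt σ hj) (fun l hl => ?_) (fun J hJ => ?_)
    (fun ρ hρ => ?_) (fun ρ hρ => ?_) hdl' (R₀ := R₀) (R₁ := R₁) (hrate.sub hsub₅S) hR₀ hR₁ hgn
    (hno.sub hsub₅S) hw0 hwp (by linarith) ha1 hb heb0 heb hQ₁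
  · obtain ⟨-, ⟨-, h1⟩, -⟩ := hJ₂ J (hJ32 J hJ)
    refine (hV₄ τ J F A (hsub₅ τ J F A hA)).1.congr fun j hj => ?_
    have h2 := (h1 j hj).1
    omega
  · refine ⟨σ.symm ⟨l, hl⟩, (σ.symm ⟨l, hl⟩).2, ?_⟩
    unfold sgN
    rw [dif_pos (σ.symm ⟨l, hl⟩).2]
    simp
  · obtain ⟨-, ⟨-, h1⟩, h2, -⟩ := hJ₂ J (hJ32 J hJ)
    refine ⟨(hwV J).trans h2, fun j hj => ?_⟩
    obtain ⟨h3, h4, h5⟩ := h1 j hj
    exact ⟨by omega, h5⟩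
  · have h1 := exz_cls hC₀ htm₃ v' (fun l : Fin n₀ => c l) (σ := fun j => σ j) hσw.2.1.le hvx hρ
    have h2 : Bas S₅ (fun J F A => ∀ (hP : v'.P J ≤ J - v'.B J) (V : Type)
      (z : PtT (zmV F hP (v'.y J F) fun l : Fin n₀ => c l) → V)
      (z' : LnT (zmV F hP (v'.y J F) fun l : Fin n₀ => c l) → V),
      (∀ ω, A ω → z (ptr (zmV F hP (v'.y J F) fun l : Fin n₀ => c l) (v'.R J) ω) =
        z' (slam (zmV F hP (v'.y J F) fun l : Fin n₀ => c l) ⌊wz * v'.R J⌋₊ ω)) →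
      ∀ (β : Type) (Φ : F.Ω → β), (∀ ω ω', A ω → A ω' →
        z' (slam (zmV F hP (v'.y J F) fun l : Fin n₀ => c l) ⌊wz * v'.R J⌋₊ ω) =
          z' (slam (zmV F hP (v'.y J F) fun l : Fin n₀ => c l) ⌊wz * v'.R J⌋₊ ω') →
        (zmV F hP (v'.y J F) fun l : Fin n₀ => c l).W ω =
          (zmV F hP (v'.y J F) fun l : Fin n₀ => c l).W ω' → F.T ω = F.T ω' →
        F.Z ω = F.Z ω' → Φ ω = Φ ω') →
      ((∑ j : Fin n₀, (1 - v'.sc (vs L σ wz (j + 1)))) - ρ) * Real.log 2 * J ≤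
        CH (Pool.Agent.H49.Ent.cond F.p A True) (fun ω (j : Fin n₀) => F.X J ω (c j))
          (fun ω => (Φ ω, F.T ω))) :=
      Bas.sub (fun τ J F A hA => hsub₄ τ J F A (hsub₅ τ J F A hA)) h1
    obtain ⟨τ, hτ, J₄, h2⟩ := h2
    refine ⟨τ, hτ, max J₃ J₄, fun J hJ F A hA => ?_⟩
    have hJ3 : J₃ ≤ J := (le_max_left _ _).trans hJ
    obtain ⟨⟨h3, h4, h5⟩, -⟩ := hJ₂ J (hJ32 J hJ3)
    have hP := (v'.floor_le J).2.1
    obtain ⟨V, z, z', h6, h7⟩ := (hV₄ τ J F A (hsub₅ τ J F A hA)).2 hP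
    have h8 := h2 J ((le_max_right _ _).trans hJ) F A hA hP V z z' h6 _
      (yfn F (lab J F) (dN J F).z' (dV J F).z' (aJ J) ⌊wp * J⌋₊ (v'.B J + ⌊wz * v'.R J⌋₊))
      (fun ω ω' hω hω' a1 a2 a3 a4 => by
        have b1 := h7 ω ω' hω hω' a1 a2 a3 a4
        obtain ⟨-, -, b2, -⟩ := of_zmV F hP (v'.y J F) (fun l : Fin n₀ => c l)
          (congrArg (fun t => t % 2 ^ v'.P J) a3) a2
        have b3 := hv'y J (hJ31 J hJ3) F ω ω' b2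
        unfold rcf at b3
        simp only [Prod.mk.injEq] at b3
        have b4 : F.T1 (aJ J) ω = F.T1 (aJ J) ω' := by
          unfold Fam.T1
          rw [a3]
        unfold yfn
        exact Prod.ext b3.1 (Prod.ext b4 (Prod.ext b3.2.2 b1)))
    refine le_trans (le_of_eq ?_) h8
    rw [Finset.sum_range]
  · refine Bas.mono J₃ (hzm₅ ρ hρ) fun J hJ F A h1 => ?_
    refine ⟨_, fun ω => (lab J F ω, (F.D ⌊Q * J⌋₊ ω, (zz' J F (slam F ⌊wpp * J⌋₊ ω), F.T ω))),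
      fun ω ω' _ _ h2 => ?_, h1⟩
    simp only [Prod.mk.injEq] at h2
    have h3 := h2.2.2.1
    rw [hzzv J hJ F ω, hzzv J hJ F ω'] at h3
    have h4 := (Prod.ext_iff.mp (Option.some.inj h3)).2
    exact ⟨Option.some.inj h4, h2.2.2.2⟩

end Pool.TGT
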