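import Pool.Agent.H71.GEN.Lip

/-!
# Dilation of bounds of polynomials

`dil1`: a polynomial in one variable which is bounded on the unit interval is bounded on larger
intervals, together with its derivative. `dilσ`: polynomials in several variables, on balls.
-/

set_option autoImplicit false

namespace Pool.TGT

open Finset MvPolynomial

/-- **Dilation in one variable**, with the derivative. -/
theorem dil1 (D : ℕ) (R : ℝ) : ∃ C : ℝ, 1 ≤ C ∧ ∀ (q : Polynomial ℝ) (S : ℝ), q.natDegree ≤ D →
    (∀ t ∈ Set.Icc (0 : ℝ) 1, |q.eval t| ≤ S) →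
    ∀ t ∈ Set.Icc (-R) R, |q.eval t| ≤ C * S ∧ |q.derivative.eval t| ≤ C * S := by
  classical
  obtain ⟨v, hv⟩ : ∃ v : ℕ → ℝ, v = fun i : ℕ => (i : ℝ) / (D + 1) := ⟨_, rfl⟩
  have hD : (0 : ℝ) < D + 1 := by positivity
  have hinj : Set.InjOn v (range (D + 1) : Finset ℕ) := by
    intro i _ k _ h
    rw [hv] at h
    have h1 : (i : ℝ) / (D + 1) = (k : ℝ) / (D + 1) := h
    field_simp at h1
    exact_mod_cast h1
  have hM : ∀ i, ∃ M : ℝ, 0 ≤ M ∧ ∀ t ∈ Set.Icc (-R) R,
      |(Lagrange.basis (range (D + 1)) v i).eval t| ≤ M ∧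
      |((Lagrange.basis (range (D + 1)) v i).derivative).eval t| ≤ M := by
    intro i
    obtain ⟨M, hM⟩ := (isCompact_Icc (a := -R) (b := R)).exists_bound_of_continuousOn
      (((Lagrange.basis (range (D + 1)) v i).derivative).continuous.continuousOn)
    obtain ⟨M', hM'⟩ := (isCompact_Icc (a := -R) (b := R)).exists_bound_of_continuousOn
      ((Lagrange.basis (range (D + 1)) v i).continuous.continuousOn)
    refine ⟨max (max M M') 0, le_max_right _ _, fun t ht => ⟨?_, ?_⟩⟩
    · exact (hM' t ht).trans ((le_max_right _ _).trans (le_max_left _ _))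
    · exact (hM t ht).trans ((le_max_left _ _).trans (le_max_left _ _))
  choose M hM0 hM1 using hM
  refine ⟨1 + ∑ i ∈ range (D + 1), M i, ?_, ?_⟩
  · have := Finset.sum_nonneg (s := range (D + 1)) fun i _ => hM0 i
    linarith
  intro q S hq hS t ht
  have hS0 : 0 ≤ S := le_trans (abs_nonneg _) (hS 0 (by simp))
  have h1 : q = Lagrange.interpolate (range (D + 1)) v fun i => q.eval (v i) := by
    refine Lagrange.eq_interpolate hinj ?_
    rw [card_range]
    refine lt_of_le_of_lt (Polynomial.degree_le_natDegree) ?_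
    exact_mod_cast Nat.lt_succ_of_le hq
  have h2 : q.derivative.eval t = ∑ i ∈ range (D + 1),
      q.eval (v i) * ((Lagrange.basis (range (D + 1)) v i).derivative).eval t := by
    conv_lhs => rw [h1]
    rw [Lagrange.interpolate_apply, Polynomial.derivative_sum, Polynomial.eval_finsetSum]
    refine Finset.sum_congr rfl fun i _ => ?_
    rw [Polynomial.derivative_C_mul, Polynomial.eval_mul, Polynomial.eval_C]
  have h2' : q.eval t = ∑ i ∈ range (D + 1),
      q.eval (v i) * (Lagrange.basis (range (D + 1)) v i).eval t := by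
    conv_lhs => rw [h1]
    rw [Lagrange.interpolate_apply, Polynomial.eval_finsetSum]
    refine Finset.sum_congr rfl fun i _ => ?_
    rw [Polynomial.eval_mul, Polynomial.eval_C]
  have hvi : ∀ i ∈ range (D + 1), |q.eval (v i)| ≤ S := by
    intro i hi
    refine hS _ ?_
    rw [hv]
    have hi' : (i : ℝ) ≤ D := by
      have := Finset.mem_range.1 hi
      exact_mod_cast Nat.le_of_lt_succ this
    refine ⟨by positivity, ?_⟩
    show (i : ℝ) / (D + 1) ≤ 1
    rw [div_le_one hD]
    linarith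
  have key : ∀ f : ℕ → ℝ, (∀ i, |f i| ≤ M i) →
      |∑ i ∈ range (D + 1), q.eval (v i) * f i| ≤ (1 + ∑ i ∈ range (D + 1), M i) * S := by
    intro f hf
    refine le_trans (Finset.abs_sum_le_sum_abs _ _) ?_
    have h3 : ∑ i ∈ range (D + 1), |q.eval (v i) * f i| ≤ ∑ i ∈ range (D + 1), M i * S := by
      refine Finset.sum_le_sum fun i hi => ?_
      rw [abs_mul, mul_comm]
      exact mul_le_mul (hf i) (hvi i hi) (abs_nonneg _) (hM0 i)
    refine h3.trans ?_
    rw [← Finset.sum_mul]
    nlinarith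
  constructor
  · rw [h2']
    exact key _ fun i => (hM1 i t ht).1
  · rw [h2]
    exact key _ fun i => (hM1 i t ht).2

/-- **Dilation of balls.** -/
theorem dilσ (D : ℕ) (R : ℝ) (hR : 1 ≤ R) : ∃ C : ℝ, 1 ≤ C ∧ ∀ (σ : Type) (_ : Fintype σ)
    (P : MvPolynomial σ ℝ) (x : σ → ℝ) (r M : ℝ), P.totalDegree ≤ D →
    (∀ y : σ → ℝ, (∀ j, |y j - x j| ≤ r) → |eval y P| ≤ M) →
    ∀ y : σ → ℝ, (∀ j, |y j - x j| ≤ R * r) → |eval y P| ≤ C * M := by
  obtain ⟨C, hC, h⟩ := dil1 D R
  refine ⟨C, hC, fun σ _ P x r M hP hM y hy => ?_⟩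
  have hR0 : (0 : ℝ) < R := by linarith
  obtain ⟨g, hg⟩ : ∃ g : σ → Polynomial ℝ, g = fun j =>
      Polynomial.C (x j) + Polynomial.C ((y j - x j) / R) * Polynomial.X := ⟨_, rfl⟩
  have hge : ∀ t : ℝ, (MvPolynomial.aeval g P).eval t =
      MvPolynomial.eval (fun j => x j + (y j - x j) / R * t) P := by
    intro t
    rw [Pool.KBX.eval_aeval_poly]
    congr 1
    congr 1
    funext j
    rw [hg]
    simp only [Polynomial.eval_add, Polynomial.eval_mul, Polynomial.eval_C, Polynomial.eval_X]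
  have hgd : ∀ j, (g j).natDegree ≤ 1 := by
    intro j
    rw [hg]
    refine (Polynomial.natDegree_add_le _ _).trans (max_le ?_ ?_)
    · rw [Polynomial.natDegree_C]
      exact Nat.zero_le _
    · exact (Polynomial.natDegree_C_mul_le _ _).trans Polynomial.natDegree_X_le
  have h1 := (h (MvPolynomial.aeval g P) M (Pool.KBX.natDegree_aeval_le _ _ hgd hP) (fun t ht => by
    rw [hge]
    refine hM _ fun j => ?_
    rw [add_sub_cancel_left, abs_mul, abs_div, abs_of_pos hR0, abs_of_nonneg ht.1]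
    have h2 : |y j - x j| / R ≤ r := by
      rw [div_le_iff₀ hR0]
      linarith [hy j]
    have h3 : 0 ≤ |y j - x j| / R := by positivity
    calc |y j - x j| / R * t ≤ |y j - x j| / R * 1 := mul_le_mul_of_nonneg_left ht.2 h3
      _ ≤ r := by linarith) R ⟨by linarith, le_rfl⟩).1
  rw [hge] at h1
  have e1 : (fun j => x j + (y j - x j) / R * R) = y := by
    funext j
    rw [div_mul_cancel₀ _ hR0.ne']
    ring
  rwa [e1] at h1

end Pool.TGT
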