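import Pool.Agent.H40.MIC.CD2
import Pool.Agent.H74.PZ.Line
import Pool.Agent.H89.TGT.Dil
import Pool.Agent.H33.EXA.Gra

/-!
# The own line in natural coordinates

`mu`: the natural coordinate of the own line with respect to a polynomial, as a polynomial in the
time. `pth`: if it is small at the samples, it is Lipschitz in the window.
-/

set_option autoImplicit false

namespace Pool.TGT

open Finset MvPolynomial
open Pool.Agent.H49.Ent Pool.Agent.H32.Dense Pool.STK Pool.KA Pool.KSAT Pool.K2S Pool.PB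
open Pool.PB.Trl Pool.STAT Pool.STAT.CLO Pool.GEN Pool.S6C
open Pool.FLF (Fam.sub sub_Pe)

variable {m J : ℕ}

/-- The natural coordinate of the own line, as a polynomial in the time. -/
noncomputable def mu {F : Fam m J} (c : ℕ → Fin m) (s : LnT F) (Q : PN) (i : ℕ) : Polynomial ℝ :=
  pc c s i - aeval (pc c s) Q

theorem eval_mu {F : Fam m J} (c : ℕ → Fin m) (s : LnT F) (Q : PN) (i : ℕ) (t : ℝ) :
    (mu c s Q i).eval t = (pc c s i).eval t - eval (fun l => (pc c s l).eval t) Q := by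
  unfold mu
  rw [Polynomial.eval_sub, Pool.KBX.eval_aeval_poly]

theorem mu_deg {F : Fam m J} (c : ℕ → Fin m) (s : LnT F) {Q : PN} {K : ℕ} (hK : 1 ≤ K)
    (hQ : Q.totalDegree ≤ K) (i : ℕ) : (mu c s Q i).natDegree ≤ K := by
  unfold mu
  refine (Polynomial.natDegree_sub_le _ _).trans (max_le ((pc_deg c s i).trans hK) ?_)
  exact Pool.KBX.natDegree_aeval_le _ _ (pc_deg c s) hQ

/-- The own line at the time of the sample. -/
theorem pc_eval (F : Fam m J) (c : ℕ → Fin m) (w : ℕ) (ω : F.Ω) (l : ℕ) :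
    (pc c (slam F w ω) l).eval (F.t ω) = cx F (fun i => c (i - 1)) ω l := by
  have t1 : cx F (fun i => c (i - 1)) ω 0 = F.t ω := if_pos rfl
  rcases Nat.eq_zero_or_pos l with rfl | hl0
  · have h3 : pc c (slam F w ω) 0 = Polynomial.X := if_pos rfl
    rw [h3, Polynomial.eval_X, t1]
  · have h3 : cx F (fun i => c (i - 1)) ω l = F.x ω (c (l - 1)) := if_neg (by omega)
    have h5 : pc c (slam F w ω) l = Polynomial.C (F.u ω (c (l - 1))) +
        Polynomial.C (F.d ω (c (l - 1))) * Polynomial.X := if_neg (by omega)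
    rw [h3, h5, Polynomial.eval_add, Polynomial.eval_mul, Polynomial.eval_C,
      Polynomial.eval_C, Polynomial.eval_X]
    unfold Fam.x
    ring

/-- The natural coordinate at the time of the sample. -/
theorem mu_t (F : Fam m J) (c : ℕ → Fin m) (w : ℕ) (ω : F.Ω) (Q : PN) (i : ℕ) :
    (mu c (slam F w ω) Q i).eval (F.t ω) = cx F (fun i => c (i - 1)) ω i -
      eval (cx F (fun i => c (i - 1)) ω) Q := by
  rw [eval_mu, pc_eval]
  congr 2
  congr 1
  funext l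
  exact pc_eval F c w ω l

/-- **The own line in natural coordinates** is Lipschitz in the window. -/
theorem pth (K : ℕ) (hK : 1 ≤ K) : ∃ C₁ : ℝ, 1 ≤ C₁ ∧ ∀ {m J : ℕ} (F : Fam m J)
    (c : ℕ → Fin m) (A : F.Ω → Prop) (hA : 0 < Pe F.p A) (w : ℕ) (Q : LnT F → PN) (i : ℕ)
    (S₀ θ : ℝ), w ≤ J → (∀ s, (Q s).totalDegree ≤ K) → 0 < S₀ → 0 ≤ θ →
    (Fam.sub F A hA).Tm θ → C₁ * (θ + 1) ≤ ((J : ℝ) - w) * Real.log 2 →
    (∀ ω, A ω → |cx F (fun i => c (i - 1)) ω i -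
      eval (cx F (fun i => c (i - 1)) ω) (Q (slam F w ω))| ≤ S₀) →
    ∃ B : F.Ω → Prop, Sub B A ∧ Pe F.p A / 2 ≤ Pe F.p B ∧ ∀ ω, B ω → ∀ t t' : ℝ,
      |t - F.t ω| ≤ 1 / 2 ^ w → |t' - F.t ω| ≤ 1 / 2 ^ w →
      |(mu c (slam F w ω) (Q (slam F w ω)) i).eval t -
        (mu c (slam F w ω) (Q (slam F w ω)) i).eval t'| ≤
        Real.exp (C₁ * (θ + 1)) * S₀ * (2 ^ w * |t - t'|) := by
  obtain ⟨C₂, hC₂, hdil⟩ := dil1 K 2
  -- the constant does not depend on the number of coordinates: one form of the inequality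
  obtain ⟨C₁, hC₁, hrem⟩ := Pool.BFL.Rem.rem_thm K
  refine ⟨C₁ * 2 + C₂, by linarith, ?_⟩
  intro m J F c A hA w Q i S₀ θ hw hQ hS₀ hθ hTm hN hAQ
  obtain ⟨q, hq⟩ : ∃ q : LnT F → Polynomial ℝ, q = fun s => (mu c s (Q s) i).comp
    (Polynomial.C ((s.2.2 : ℝ) / 2 ^ w) + Polynomial.C (1 / 2 ^ w) * Polynomial.X) := ⟨_, rfl⟩
  have hqe : ∀ s τ, (q s).eval τ = (mu c s (Q s) i).eval (((s.2.2 : ℝ) + τ) / 2 ^ w) := by
    intro s τ
    rw [hq]
    simp only
    rw [Polynomial.eval_comp]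
    congr 1
    rw [Polynomial.eval_add, Polynomial.eval_mul, Polynomial.eval_C, Polynomial.eval_C,
      Polynomial.eval_X]
    ring
  have hqd : ∀ s, (q s).natDegree ≤ K := by
    intro s
    rw [hq]
    simp only
    refine Polynomial.natDegree_comp_le.trans ?_
    have h1 : (Polynomial.C ((s.2.2 : ℝ) / 2 ^ w) +
        Polynomial.C (1 / 2 ^ w) * Polynomial.X : Polynomial ℝ).natDegree ≤ 1 := by
      refine (Polynomial.natDegree_add_le _ _).trans (max_le ?_ ?_)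
      · rw [Polynomial.natDegree_C]
        exact Nat.zero_le _
      · exact (Polynomial.natDegree_C_mul_le _ _).trans Polynomial.natDegree_X_le
    calc (mu c s (Q s) i).natDegree * _ ≤ K * 1 := Nat.mul_le_mul (mu_deg c s hK (hQ s) i) h1
      _ = K := Nat.mul_one K
  have hC2θ : 0 ≤ C₂ * (θ + 1) := by positivity
  -- Remez inequality in the time
  have hrem' : ∃ B : F.Ω → Prop, Sub B A ∧ Pe F.p A / 2 ≤ Pe F.p B ∧ ∀ ω, B ω →
      ∀ τ ∈ Set.Icc (0 : ℝ) 1,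
        |(q (slam F w ω)).eval τ| ≤ Real.exp (C₁ * 2 * (θ + 1)) * S₀ := by
    classical
    have hql := (Fam.sub F A hA).isLaw
    have hM : C₁ * (θ + 1) / (1 / 2) = C₁ * 2 * (θ + 1) := by ring
    have hwt := Pool.Agent.H40.BFL.window_time hql (Fam.sub F A hA).T
      (fun ω => ((Fam.sub F A hA).l ω, (Fam.sub F A hA).Z ω)) J w hw (Fam.sub F A hA).tim θ hTm
    have hCH : Real.log ((2 ^ (J - w) : ℕ) : ℝ) - θ ≤
        CH (Fam.sub F A hA).p (fun ω => (Fam.sub F A hA).T ω % 2 ^ (J - w))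
          (slam (Fam.sub F A hA) w) := by
      rw [Nat.cast_pow, Real.log_pow, Nat.cast_ofNat, Nat.cast_sub hw]
      refine hwt.trans (le_of_eq ?_)
      refine CH_congr hql.nonneg (fun ω ω' _ _ h => (Prod.ext_iff.mp h).1)
        (fun ω ω' _ _ h => (Prod.ext_iff.mp h).1) ?_ ?_
      · intro ω ω' _ _ h
        simp only [Prod.mk.injEq] at h
        obtain ⟨⟨h1, h2⟩, h3⟩ := h
        unfold slam
        exact Prod.ext h1 (Prod.ext h2 h3)
      · intro ω ω' _ _ h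
        have h1 : (Fam.sub F A hA).l ω = (Fam.sub F A hA).l ω' := congrArg (fun s => s.1) h
        have h2 : (Fam.sub F A hA).Z ω = (Fam.sub F A hA).Z ω' := congrArg (fun s => s.2.1) h
        have h3 : (Fam.sub F A hA).T1 w ω = (Fam.sub F A hA).T1 w ω' :=
          congrArg (fun s => s.2.2) h
        exact Prod.ext (Prod.ext h1 h2) h3
    have hP0 : Pool.BFL.Pb (Fam.sub F A hA).p (fun _ => ¬ True) ≤ (1 / 2) / 4 := by
      unfold Pool.BFL.Pb
      simp only [not_true, if_false, Finset.sum_const_zero]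
      norm_num
    have h1 := hrem (Fam.sub F A hA).Ω _ (Fam.sub F A hA).p (2 ^ (J - w))
      (fun ω => (Fam.sub F A hA).T ω % 2 ^ (J - w)) (slam (Fam.sub F A hA) w)
      q (fun _ => True) (fun _ => S₀) θ (1 / 2) hql
      (fun ω => Nat.mod_lt _ (by positivity)) hqd hθ
      (by norm_num) (by norm_num) hCH hP0 (fun _ => hS₀) (by
        rw [Nat.cast_pow, Real.log_pow, Nat.cast_ofNat, Nat.cast_sub hw, hM]
        refine le_trans ?_ hN
        rw [add_mul]
        linarith) (by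
        intro ω _
        have h2 := hAQ ω.1 ω.2
        rw [← mu_t F c w ω.1 (Q (slam F w ω.1)) i] at h2
        have h3 : F.t ω.1 = (((slam F w ω.1).2.2 : ℝ) + rt F w ω.1) / 2 ^ w := t_rt F hw ω.1
        rw [h3, ← hqe] at h2
        exact h2)
    rw [hM] at h1
    obtain ⟨E, hE⟩ : ∃ E : {ω // A ω} → Prop, E = fun ω => ∀ τ ∈ Set.Icc (0 : ℝ) 1,
        |(q (slam F w ω.1)).eval τ| ≤ Real.exp (C₁ * 2 * (θ + 1)) * S₀ := ⟨_, rfl⟩
    have h2 : Pool.BFL.Pb (Fam.sub F A hA).p (fun ω => ¬ E ω) ≤ 1 / 2 := by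
      rw [hE]
      exact h1
    have h3 : Pe (Fam.sub F A hA).p E = 1 - Pool.BFL.Pb (Fam.sub F A hA).p (fun ω => ¬ E ω) :=
      Pe_compl hql E
    refine ⟨fun ω => ∃ h : A ω, E ⟨ω, h⟩, fun ω hω => hω.1, ?_, fun ω hω => ?_⟩
    · have h5 : Pe F.p (fun ω => ∃ h : A ω, E ⟨ω, h⟩) = Pe F.p A * Pe (Fam.sub F A hA).p E :=
        sub_Pe hA E
      rw [h5, h3]
      nlinarith
    · obtain ⟨h, hω⟩ := hω
      rw [hE] at hω
      exact hω
  obtain ⟨B, hB, hPe, hBq⟩ := hrem'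
  refine ⟨B, hB, hPe, fun ω hω t t' ht ht' => ?_⟩
  obtain ⟨s, hs⟩ : ∃ s, s = slam F w ω := ⟨_, rfl⟩
  have hbq := hBq ω hω
  rw [← hs] at hbq ⊢
  have h2w : (0 : ℝ) < 2 ^ w := by positivity
  have hrt := rt_mem F w ω
  have htt : F.t ω = ((s.2.2 : ℝ) + rt F w ω) / 2 ^ w := by rw [hs]; exact t_rt F hw ω
  have hin : ∀ t : ℝ, |t - F.t ω| ≤ 1 / 2 ^ w → 2 ^ w * t - (s.2.2 : ℝ) ∈ Set.Icc (-2 : ℝ) 2 := by
    intro t ht
    have h1 : |2 ^ w * t - 2 ^ w * F.t ω| ≤ 1 := by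
      rw [← mul_sub, abs_mul, abs_of_pos h2w]
      calc 2 ^ w * |t - F.t ω| ≤ 2 ^ w * (1 / 2 ^ w) := mul_le_mul_of_nonneg_left ht h2w.le
        _ = 1 := by field_simp
    have h2 : 2 ^ w * F.t ω = (s.2.2 : ℝ) + rt F w ω := by
      rw [htt]
      field_simp
    rw [h2] at h1
    rw [abs_le] at h1
    constructor <;> linarith [h1.1, h1.2, hrt.1, hrt.2]
  have hev : ∀ t : ℝ, (mu c s (Q s) i).eval t = (q s).eval (2 ^ w * t - (s.2.2 : ℝ)) := by
    intro t
    rw [hqe]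
    congr 1
    field_simp
    ring
  rw [hev t, hev t']
  have hbd := hdil (q s) (Real.exp (C₁ * 2 * (θ + 1)) * S₀) (hqd s) hbq
  have hmv := Convex.norm_image_sub_le_of_norm_deriv_le (f := fun x => (q s).eval x)
    (s := Set.Icc (-2 : ℝ) 2) (C := C₂ * (Real.exp (C₁ * 2 * (θ + 1)) * S₀))
    (x := 2 ^ w * t' - (s.2.2 : ℝ)) (y := 2 ^ w * t - (s.2.2 : ℝ))
    (fun x _ => (q s).differentiableAt) (fun x hx => by
      rw [Polynomial.deriv, Real.norm_eq_abs]
      exact (hbd x hx).2) (convex_Icc _ _) (hin t' ht') (hin t ht)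
  rw [Real.norm_eq_abs, Real.norm_eq_abs] at hmv
  refine hmv.trans ?_
  have e1 : (2 : ℝ) ^ w * t - (s.2.2 : ℝ) - (2 ^ w * t' - (s.2.2 : ℝ)) = 2 ^ w * (t - t') := by ring
  rw [e1, abs_mul, abs_of_pos h2w]
  refine mul_le_mul_of_nonneg_right ?_ (by positivity)
  have h3 : C₂ ≤ Real.exp (C₂ * (θ + 1)) := by
    have h4 := Real.add_one_le_exp (C₂ * (θ + 1))
    nlinarith
  calc C₂ * (Real.exp (C₁ * 2 * (θ + 1)) * S₀) ≤
        Real.exp (C₂ * (θ + 1)) * (Real.exp (C₁ * 2 * (θ + 1)) * S₀) :=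
        mul_le_mul_of_nonneg_right h3 (by positivity)
    _ = Real.exp ((C₁ * 2 + C₂) * (θ + 1)) * S₀ := by
        rw [← mul_assoc, ← Real.exp_add]
        congr 2
        ring

end Pool.TGT
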