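import Pool.Agent.H68.STAT.FulG
import Pool.Agent.H89.TUB.Core3
import Pool.Agent.H89.TGT.Pth

/-!
# The chart of a place, closed with the cell of the time

`cht`: the exact labels of a place of a grid (the value `zL` of the line) give a label at the exact
point which is a function of the value `zL` and of the cell of the time in the radius.
-/

set_option autoImplicit false

namespace Pool.TGT

open Finset MvPolynomial
open Pool.Agent.H49.Ent Pool.Agent.H32.Dense Pool.STK Pool.KA Pool.KSAT Pool.K2S Pool.PB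
open Pool.PB.Trl Pool.STAT Pool.STAT.CLO Pool.GEN Pool.S6C

variable {m J : ℕ}

theorem hx_hs {F : Fam m J} (c : ℕ → Fin m) (n w : ℕ)
    (H : LnT F → ℕ → MvPolynomial (Option (Fin m)) ℝ) (s : LnT F) {i : ℕ} (hi : 1 ≤ i) :
    Hx c n w H s i = Hs c n H s i := by
  have h0 : ¬ i = 0 := by omega
  unfold Hx Hs sy
  simp only [h0, if_false]

/-- The cells of the time in two scales. -/
theorem cell_cell (F : Fam m J) {a w : ℕ} (hw : w ≤ a) (ha : a ≤ J) (ω : F.Ω) :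
    |(F.T1 a ω : ℝ) / 2 ^ a - (F.T1 w ω : ℝ) / 2 ^ w| ≤ 2 / 2 ^ w := by
  have h1 := t_cell F ha ω
  have h2 := t_cell F (hw.trans ha) ω
  have h3 : (1 : ℝ) / 2 ^ a ≤ 1 / 2 ^ w :=
    one_div_le_one_div_of_le (by positivity) (pow_le_pow_right₀ (by norm_num) hw)
  have h4 : (2 : ℝ) / 2 ^ w = 1 / 2 ^ w + 1 / 2 ^ w := by ring
  rw [h4]
  rw [abs_le] at h1 h2 ⊢
  constructor <;> linarith [h1.1, h1.2, h2.1, h2.2]

/-- **The chart, closed with the cell of the time.** -/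
theorem cht (n K K' : ℕ) : ∃ s₀ sh₂ c₁ C₂ : ℕ, 1 ≤ c₁ ∧ ∀ (m J : ℕ) (F : Fam m J)
    (c : ℕ → Fin m) (a w e s₁ : ℕ) (g sh : ℕ → ℕ) (A : F.Ω → Prop)
    (G : PtT F → ℕ → MvPolynomial (Option (Fin m)) ℝ)
    (H : LnT F → ℕ → MvPolynomial (Option (Fin m)) ℝ) (zL : LnT F → LV) (PL : LV → ℕ → PN)
    (zS : PtT F → LV) (zS' : LV → ℝ → LV) (PS : LV → ℕ → PN), w ≤ a → a ≤ J → Inj c n →
    ChOK F c n (fun _ => K) a w e g A G H →
    Out2 n K' s₁ sh a w A (ptr F J) (slam F w) tx (tl w) (fun l => g (l - 1)) (Gx c n G)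
      (Hx c n w H) (cx F fun i => c (i - 1)) zL PL zS zS' PS →
    (∀ i < n, sh₂ ≤ g i) →
    ∃ (z : PtT F → LV) (z' : LV × ℕ → LV) (P : LV → ℕ → PN) (B : F.Ω → Prop), Sub B A ∧
      Pe F.p A ≤ c₁ * Pe F.p B ∧
      Lev n c₁ (2 ^ C₂) (cx F fun i => c (i - 1)) B (ptr F J)
        (fun ω => (zL (slam F w ω), F.T1 a ω)) (tp a) (fun v => (v.2 : ℝ) / 2 ^ a)
        (gs sh₂ (gg a g)) (fun v => PL v.1) z z' P ∧
      ∀ ω, B ω → Nr c₁ (2 ^ s₀) (gg a g) (P (z (ptr F J ω))) (Gs c n a G (ptr F J ω))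
        (n + 1) := by
  obtain ⟨sA, hraw⟩ := raw_of n K
  obtain ⟨ρ, hρ⟩ : ∃ ρ : ℝ, ρ = 3 + 2 ^ sA := ⟨_, rfl⟩
  have hρ1 : 1 ≤ ρ := by
    rw [hρ]
    have : (0 : ℝ) < 2 ^ sA := by positivity
    linarith
  obtain ⟨s₀, hs₀⟩ := pow_unbounded_of_one_lt (2 ^ sA + (K' * 2 * ρ) ^ K') (one_lt_two (α := ℝ))
  obtain ⟨a₀, c₁, hc₁, hclo⟩ := clo n (max K K')
  refine ⟨s₀, a₀ * (s₀ + 1), c₁, c₁ * (s₀ + 1), hc₁, ?_⟩
  intro m J F c a w e s₁ g sh A G H zL PL zS zS' PS hwa haJ hc hch hO hg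
  have hR := hraw m J F c (fun _ => K) a w e g A G H hwa haJ hc (fun _ _ => le_rfl) hch
  have hgg : ∀ i, 1 ≤ i → gg a g i = g (i - 1) := fun i hi => if_neg (by omega)
  have hRaw : Raw n (max K K') (2 ^ s₀) A (ptr F J) (fun ω => (zL (slam F w ω), F.T1 a ω))
      (tp a) (fun v => (v.2 : ℝ) / 2 ^ a) (gg a g) (Gs c n a G) (fun v => PL v.1) := by
    refine ⟨hR.G_tri, fun y i => (hR.G_deg y i).trans (le_max_left _ _), fun v => hO.Ltri v.1,
      fun v i => (hO.Ldeg v.1 i).trans (le_max_right _ _), hR.G_zero, fun ω _ => tp_eq F a ω,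
      fun ω hω i hi1 hi b hb => ?_⟩
    -- near the line side of the chain
    have hnear : ∀ j, 1 ≤ j → j ≤ i → |eval b (Gs c n a G (ptr F J ω) j) -
        eval b (Hx c n w H (slam F w ω) j)| ≤ 2 ^ sA / 2 ^ g (j - 1) := by
      intro j hj1 hj
      have h1 := hR.near ω hω j hj1 (hj.trans hi) b (fun k hk => hb k (hk.trans_le hj))
      rw [crs_eq F hwa haJ ω, hgg j hj1] at h1
      rw [hx_hs c n w H _ hj1]
      exact h1
    have hbox : Bxr ρ (gt0 w fun l => g (l - 1)) (Hx c n w H (slam F w ω)) i b := by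
      intro j hj
      rcases Nat.eq_zero_or_pos j with rfl | hj1
      · have h1 := hb 0 hj
        rw [hR.G_zero, eval_C, tp_eq] at h1
        have h2 : gg a g 0 = a := if_pos rfl
        rw [h2] at h1
        have h3 := cell_cell F hwa haJ ω
        have h4 : (1 : ℝ) / 2 ^ a ≤ 1 / 2 ^ w :=
          one_div_le_one_div_of_le (by positivity) (pow_le_pow_right₀ (by norm_num) hwa)
        have h5 : Hx c n w H (slam F w ω) 0 = MvPolynomial.C (tl w (slam F w ω)) := sy_zero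
        rw [gt0_zero, h5, eval_C, tl_eq]
        have h6 : |b 0 - (F.T1 w ω : ℝ) / 2 ^ w| ≤ 3 / 2 ^ w := by
          have e3 : (3 : ℝ) / 2 ^ w = 1 / 2 ^ w + 2 / 2 ^ w := by ring
          rw [e3]
          rw [abs_le] at h1 h3 ⊢
          constructor <;> linarith [h1.1, h1.2, h3.1, h3.2]
        refine h6.trans (div_le_div_of_nonneg_right ?_ (by positivity))
        rw [hρ]
        have : (0 : ℝ) < 2 ^ sA := by positivity
        linarith
      · have h1 := hb j hj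
        have h2 := hnear j hj1 hj.le
        rw [hgg j hj1] at h1
        rw [gt0_pos _ _ hj1]
        have h3 : ρ / 2 ^ g (j - 1) = 3 / 2 ^ g (j - 1) + 2 ^ sA / 2 ^ g (j - 1) := by
          rw [hρ]
          ring
        have h4 : (1 : ℝ) / 2 ^ g (j - 1) ≤ 3 / 2 ^ g (j - 1) :=
          div_le_div_of_nonneg_right (by norm_num) (by positivity)
        show |b j - eval b (Hx c n w H (slam F w ω) j)| ≤ ρ / 2 ^ g (j - 1)
        rw [h3]
        rw [abs_le] at h1 h2 ⊢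
        constructor <;> linarith [h1.1, h1.2, h2.1, h2.2]
    have h1 := (hO.nrL ω hω).2 i hi1 (by omega) ρ hρ1 b hbox
    have h2 := hnear i hi1 le_rfl
    rw [gt0_pos _ _ hi1] at h1
    rw [hgg i hi1]
    have h3 : |eval b (Gs c n a G (ptr F J ω) i) - eval b (PL (zL (slam F w ω)) i)| ≤
        (2 ^ sA + (K' * 2 * ρ) ^ K') / 2 ^ g (i - 1) := by
      rw [add_div]
      rw [abs_le] at h1 h2 ⊢
      constructor <;> linarith [h1.1, h1.2, h2.1, h2.2]
    exact h3.trans (div_le_div_of_nonneg_right hs₀.le (by positivity))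
  exact hclo F.Ω (PtT F) (LV × ℕ) F.p s₀ A (ptr F J) (fun ω => (zL (slam F w ω), F.T1 a ω))
    (tp a) (fun v => (v.2 : ℝ) / 2 ^ a) (gg a g) (Gs c n a G) (fun v => PL v.1)
    (cx F fun i => c (i - 1)) F.isLaw hRaw
    (fun ω _ => by
      have h1 : cx F (fun i => c (i - 1)) ω 0 = F.t ω := if_pos rfl
      have h2 : gg a g 0 = a := if_pos rfl
      rw [h1, h2, hR.G_zero, eval_C, tp_eq]
      exact t_cell F haJ ω)
    (fun ω hω i hi1 hi => (pos_of hc hch hω hi1 hi).trans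
      (div_le_div_of_nonneg_right (one_le_pow₀ (by norm_num)) (by positivity)))
    (fun i hi1 hi => by
      rw [hgg i hi1]
      exact hg (i - 1) (by omega))

end Pool.TGT
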