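import Mathlib

/-!
# Large resolutions

Linear inequalities for large resolutions, with integer parts.
-/

set_option autoImplicit false

namespace Pool.TGT

open Filter

theorem evl {x y : ℝ} (h : x < y) (C : ℝ) : ∀ᶠ J : ℕ in atTop, x * J + C ≤ y * J := by
  obtain ⟨J₁, hJ₁⟩ := exists_nat_ge (C / (y - x))
  filter_upwards [eventually_ge_atTop J₁] with J hJ
  have h1 : C / (y - x) ≤ J := hJ₁.trans (by exact_mod_cast hJ)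
  rw [div_le_iff₀ (by linarith)] at h1
  linarith

theorem fl1 {x : ℝ} (hx : 0 ≤ x) (J : ℕ) : (⌊x * J⌋₊ : ℝ) ≤ x * J :=
  Nat.floor_le (mul_nonneg hx (Nat.cast_nonneg J))

theorem fl2 (x : ℝ) (J : ℕ) : x * J - 1 ≤ (⌊x * J⌋₊ : ℝ) := by
  have := Nat.lt_floor_add_one (x * J)
  linarith

/-- The numbers of the last step, first part: the windows and the sizes. -/
theorem end_ev1 (n₀ : ℕ) {a w wp C₁ t x eb gmr Q₁ : ℝ} {b : ℕ → ℝ} {aJ wJ : ℕ → ℕ}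
    (haJ : ∀ J, |(aJ J : ℝ) - a * J| ≤ C₁) (hwJ : ∀ J, |(wJ J : ℝ) - w * J| ≤ C₁)
    (hw : 0 ≤ w) (hwp : w < wp) (hpa : wp < a) (ht : 0 < t) (hx : 0 < x) (ha1 : a + t + x < 1)
    (hb : ∀ l < n₀ + 1, 0 < b l ∧ b l ≤ gmr ∧ b l + t + x < 1) (he0 : 0 ≤ eb)
    (he : eb + gmr + t < 1) (hQ₁ : b n₀ + x ≤ Q₁) {Cθ : ℝ} (sh₂ c₄ C₂ X₀ : ℕ)
    {ε : ℝ} (hε : Cθ * ε < (a - w) * Real.log 2) :
    ∀ᶠ J : ℕ in atTop, wJ J ≤ ⌊wp * J⌋₊ ∧ ⌊wp * J⌋₊ ≤ aJ J ∧ aJ J ≤ J ∧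
      (∀ l < n₀ + 1, sh₂ + 1 ≤ ⌊b l * J⌋₊ ∧ ⌊b l * J⌋₊ ≤ ⌊gmr * J⌋₊) ∧
      ⌊eb * J⌋₊ + ⌊gmr * J⌋₊ + ⌊t * J⌋₊ + C₂ ≤ J ∧
      Cθ * (ε * J + 1) ≤ ((aJ J : ℝ) - wJ J) * Real.log 2 ∧
      ⌊b n₀ * J⌋₊ + ⌊x * J⌋₊ ≤ ⌊Q₁ * J⌋₊ ∧ X₀ ≤ ⌊x * J⌋₊ ∧ (n₀ + 1) * c₄ ≤ ⌊t * J⌋₊ ∧
      (∀ l < n₀ + 1, ⌊b l * J⌋₊ + ⌊t * J⌋₊ + ⌊x * J⌋₊ + 1 ≤ J) ∧
      aJ J + ⌊t * J⌋₊ + ⌊x * J⌋₊ + 1 ≤ J := by
  have hl2 : 0 < Real.log 2 := Real.log_pos one_lt_two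
  have hbn := hb n₀ (by omega)
  have hg0 : 0 ≤ gmr := hbn.1.le.trans hbn.2.1
  have hQ0 : 0 ≤ Q₁ := by linarith
  have q1 := evl hwp (C₁ + 1)
  have q2 := evl hpa C₁
  have q3 := evl (show a < 1 by linarith) C₁
  have q4 : ∀ᶠ J : ℕ in atTop, ∀ l ∈ Finset.range (n₀ + 1), 0 * (J : ℝ) + (sh₂ + 2) ≤ b l * J := by
    rw [Filter.eventually_all_finset]
    intro l hl
    exact evl (hb l (Finset.mem_range.1 hl)).1 _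
  have q5 := evl he C₂
  have q6 := evl hε (Cθ + 2 * C₁ * Real.log 2)
  have q7 := evl hx (X₀ + 1)
  have q8 := evl ht ((n₀ + 1) * c₄ + 1)
  have q9 : ∀ᶠ J : ℕ in atTop, ∀ l ∈ Finset.range (n₀ + 1),
      (b l + t + x) * (J : ℝ) + 1 ≤ 1 * J := by
    rw [Filter.eventually_all_finset]
    intro l hl
    exact evl (hb l (Finset.mem_range.1 hl)).2.2 _
  have q10 := evl ha1 (C₁ + 1)
  filter_upwards [q1, q2, q3, q4, q5, q6, q7, q8, q9, q10] with J q1 q2 q3 q4 q5 q6 q7 q8 q9 q10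
  have a1 := abs_le.1 (haJ J)
  have a2 := abs_le.1 (hwJ J)
  have hJ0 : (0 : ℝ) ≤ J := Nat.cast_nonneg J
  have w1 := fl1 (hw.trans hwp.le) J
  have w2 := fl2 wp J
  have t1 := fl1 ht.le J
  have t2 := fl2 t J
  have x1 := fl1 hx.le J
  have x2 := fl2 x J
  have e1 := fl1 he0 J
  have g1 := fl1 hg0 J
  have bn1 := fl1 hbn.1.le J
  refine ⟨?_, ?_, ?_, fun l hl => ⟨?_, ?_⟩, ?_, ?_, ?_, ?_, ?_, fun l hl => ?_, ?_⟩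
  · have : (wJ J : ℝ) ≤ ⌊wp * J⌋₊ := by linarith
    exact_mod_cast this
  · have : (⌊wp * J⌋₊ : ℝ) ≤ aJ J := by linarith
    exact_mod_cast this
  · have : (aJ J : ℝ) ≤ J := by linarith
    exact_mod_cast this
  · have h1 := q4 l (Finset.mem_range.2 hl)
    have h2 := fl2 (b l) J
    have : ((sh₂ + 1 : ℕ) : ℝ) ≤ (⌊b l * J⌋₊ : ℝ) := by
      push_cast
      linarith
    exact_mod_cast this
  · exact Nat.floor_le_floor (mul_le_mul_of_nonneg_right (hb l hl).2.1 hJ0)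
  · have : ((⌊eb * J⌋₊ + ⌊gmr * J⌋₊ + ⌊t * J⌋₊ + C₂ : ℕ) : ℝ) ≤ J := by
      push_cast
      linarith
    exact_mod_cast this
  · have h1 : ((a - w) * J - 2 * C₁) * Real.log 2 ≤ ((aJ J : ℝ) - wJ J) * Real.log 2 :=
      mul_le_mul_of_nonneg_right (by linarith) hl2.le
    have h2 : Cθ * (ε * J + 1) = Cθ * ε * J + Cθ := by ring
    have h3 : ((a - w) * J - 2 * C₁) * Real.log 2 =
      (a - w) * Real.log 2 * J - 2 * C₁ * Real.log 2 := by ring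
    linarith
  · refine Nat.le_floor ?_
    push_cast
    have h1 : (b n₀ + x) * J ≤ Q₁ * J := mul_le_mul_of_nonneg_right hQ₁ hJ0
    linarith
  · have : (X₀ : ℝ) ≤ ⌊x * J⌋₊ := by linarith
    exact_mod_cast this
  · have : (((n₀ + 1) * c₄ : ℕ) : ℝ) ≤ (⌊t * J⌋₊ : ℝ) := by
      push_cast
      linarith
    exact_mod_cast this
  · have h1 := q9 l (Finset.mem_range.2 hl)
    have h2 := fl1 (hb l hl).1.le J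
    have : ((⌊b l * J⌋₊ + ⌊t * J⌋₊ + ⌊x * J⌋₊ + 1 : ℕ) : ℝ) ≤ J := by
      push_cast
      linarith
    exact_mod_cast this
  · have : ((aJ J + ⌊t * J⌋₊ + ⌊x * J⌋₊ + 1 : ℕ) : ℝ) ≤ J := by
      push_cast
      linarith
    exact_mod_cast this

/-- The numbers of the last step, second part: the errors. -/
theorem end_ev2 (n₀ : ℕ) {η dl κ ρ e₁ ε₂ t x C ηr e' R₀ R₁ bn : ℝ} (hη : 0 < η)
    (hκ : 0 < κ) (hx : 0 < x) (hbn : 0 ≤ bn)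
    (h1 : 16 * ((n₀ + 1 : ℕ) : ℝ) ^ 2 * (dl + ρ + κ * x) < η * t)
    (h2 : ε₂ + (ρ + n₀ * e₁) < κ * x) (h3 : ηr + e' < 2 * η * x * Real.log 2)
    (h4 : R₀ + e' < bn) (h5 : bn + x < R₁ - e') (sh₂ : ℕ) :
    ∀ᶠ J : ℕ in atTop,
      16 * ((n₀ + 1 : ℕ) : ℝ) ^ 2 * ((dl + ρ) * J + C + κ * ⌊x * J⌋₊) ≤ η * ⌊t * J⌋₊ ∧
      ε₂ * J + (ρ + n₀ * e₁) * J ≤ κ * ⌊x * J⌋₊ ∧
      (ηr + e') * J ≤ 2 * η * (⌊x * J⌋₊ * Real.log 2) ∧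
      (R₀ + e') * J ≤ (⌊bn * J⌋₊ - sh₂ - 1 : ℕ) ∧
      ((⌊bn * J⌋₊ - sh₂ - 1 + ⌊x * J⌋₊ : ℕ) : ℝ) ≤ (R₁ - e') * J := by
  have hl2 : 0 < Real.log 2 := Real.log_pos one_lt_two
  have q1 := evl h1 (16 * ((n₀ + 1 : ℕ) : ℝ) ^ 2 * C + η)
  have q2 := evl h2 κ
  have q3 := evl h3 (2 * η * Real.log 2)
  have q4 := evl h4 (sh₂ + 2)
  filter_upwards [q1, q2, q3, q4] with J q1 q2 q3 q4
  have hJ0 : (0 : ℝ) ≤ J := Nat.cast_nonneg J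
  have t2 := fl2 t J
  have x1 := fl1 hx.le J
  have x2 := fl2 x J
  have b1 := fl1 hbn J
  have b2 := fl2 bn J
  have hn0 : (0 : ℝ) ≤ 16 * ((n₀ + 1 : ℕ) : ℝ) ^ 2 := by positivity
  refine ⟨?_, ?_, ?_, ?_, ?_⟩
  · have e1 : 16 * ((n₀ + 1 : ℕ) : ℝ) ^ 2 * ((dl + ρ) * J + C + κ * ⌊x * J⌋₊) ≤
        16 * ((n₀ + 1 : ℕ) : ℝ) ^ 2 * ((dl + ρ) * J + C + κ * (x * J)) := by
      refine mul_le_mul_of_nonneg_left ?_ hn0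
      have := mul_le_mul_of_nonneg_left x1 hκ.le
      linarith
    have e2 : η * (t * J - 1) ≤ η * ⌊t * J⌋₊ := mul_le_mul_of_nonneg_left t2 hη.le
    have e3 : 16 * ((n₀ + 1 : ℕ) : ℝ) ^ 2 * ((dl + ρ) * J + C + κ * (x * J)) =
      16 * ((n₀ + 1 : ℕ) : ℝ) ^ 2 * (dl + ρ + κ * x) * J + 16 * ((n₀ + 1 : ℕ) : ℝ) ^ 2 * C := by
      ring
    linarith
  · have e2 : κ * (x * J - 1) ≤ κ * ⌊x * J⌋₊ := mul_le_mul_of_nonneg_left x2 hκ.le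
    linarith
  · have e2 : 2 * η * ((x * J - 1) * Real.log 2) ≤ 2 * η * (⌊x * J⌋₊ * Real.log 2) :=
      mul_le_mul_of_nonneg_left (mul_le_mul_of_nonneg_right x2 hl2.le) (by positivity)
    linarith
  · have e1 : (⌊bn * J⌋₊ : ℝ) ≤ ((⌊bn * J⌋₊ - sh₂ - 1 : ℕ) : ℝ) + (sh₂ + 1) := by
      exact_mod_cast (by omega : ⌊bn * J⌋₊ ≤ (⌊bn * J⌋₊ - sh₂ - 1) + (sh₂ + 1))
    linarith
  · have e1 : ((⌊bn * J⌋₊ - sh₂ - 1 : ℕ) : ℝ) ≤ (⌊bn * J⌋₊ : ℝ) := by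
      exact_mod_cast (by omega : ⌊bn * J⌋₊ - sh₂ - 1 ≤ ⌊bn * J⌋₊)
    have e2 := mul_le_mul_of_nonneg_right h5.le hJ0
    push_cast
    linarith

/-- The numbers of the last step, third part: the new chain. -/
theorem end_ev3 (n₀ : ℕ) {a wp C₁ t x η gn : ℝ} {b : ℕ → ℝ} {aJ : ℕ → ℕ}
    (haJ : ∀ J, |(aJ J : ℝ) - a * J| ≤ C₁) (hwp : 0 ≤ wp) (hη : 0 < η) (ht : 0 < t) (hx : 0 < x)
    (hb : ∀ l < n₀ + 1, 0 < b l) (hgn : t + gn < η / 64 * x) (sh₂ c₄ : ℕ) :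
    ∀ᶠ J : ℕ in atTop,
      |((aJ J + ⌊t * J⌋₊ : ℕ) : ℝ) - (a + t) * J| ≤ C₁ + 1 ∧
      |(⌊wp * J⌋₊ : ℝ) - wp * J| ≤ 1 ∧
      (∀ k < n₀, ((⌊b k * J⌋₊ - sh₂ - 1 + ⌊t * J⌋₊ - (k + 1) * c₄ : ℕ) : ℝ) ≤ (b k + t) * J) ∧
      (b n₀ + t + gn) * J ≤ ((⌊b n₀ * J⌋₊ - sh₂ - 1 + ⌊η / 64 * ⌊x * J⌋₊⌋₊ - 1 : ℕ) : ℝ) := by
  have q1 := evl hgn (sh₂ + 5 + η / 64)
  filter_upwards [q1] with J q1
  have hJ0 : (0 : ℝ) ≤ J := Nat.cast_nonneg J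
  have a1 := abs_le.1 (haJ J)
  have t1 := fl1 ht.le J
  have t2 := fl2 t J
  have w1 := fl1 hwp J
  have w2 := fl2 wp J
  have x1 := fl1 hx.le J
  have x2 := fl2 x J
  refine ⟨?_, ?_, fun k hk => ?_, ?_⟩
  · push_cast
    rw [abs_le]
    constructor <;> linarith
  · rw [abs_le]
    constructor <;> linarith
  · have h1 := fl1 (hb k (by omega)).le J
    have h2 : ((⌊b k * J⌋₊ - sh₂ - 1 + ⌊t * J⌋₊ - (k + 1) * c₄ : ℕ) : ℝ) ≤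
        (⌊b k * J⌋₊ : ℝ) + ⌊t * J⌋₊ := by
      have h3 : ⌊b k * J⌋₊ - sh₂ - 1 + ⌊t * J⌋₊ - (k + 1) * c₄ ≤ ⌊b k * J⌋₊ + ⌊t * J⌋₊ := by omega
      exact_mod_cast h3
    linarith
  · have h1 := fl2 (b n₀) J
    obtain ⟨y, hy⟩ : ∃ y, y = ⌊η / 64 * (⌊x * J⌋₊ : ℝ)⌋₊ := ⟨_, rfl⟩
    rw [← hy]
    have h2 : η / 64 * (⌊x * J⌋₊ : ℝ) - 1 ≤ y := by
      have := Nat.lt_floor_add_one (η / 64 * (⌊x * J⌋₊ : ℝ))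
      rw [← hy] at this
      linarith
    have h3 : η / 64 * (x * J - 1) ≤ η / 64 * (⌊x * J⌋₊ : ℝ) :=
      mul_le_mul_of_nonneg_left x2 (by positivity)
    have h4 : (⌊b n₀ * J⌋₊ : ℝ) + y ≤
        ((⌊b n₀ * J⌋₊ - sh₂ - 1 + y - 1 : ℕ) : ℝ) + (sh₂ + 2) := by
      have h5 : ⌊b n₀ * J⌋₊ + y ≤ (⌊b n₀ * J⌋₊ - sh₂ - 1 + y - 1) + (sh₂ + 2) := by omega
      exact_mod_cast h5
    linarith

end Pool.TGT
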