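import Pool.Agent.H89.TGT.FinF
import Pool.Agent.H89.TGT.Evn
import Pool.Agent.H2.GEN.AttG

/-!
# The contradiction for a class, one place

`NoCh`: no chains with improved precisions. `tgt_end`: a class with the data of a place, a label of
the target and labels of the base which account for all the digits has an improved chain.
-/

set_option autoImplicit false

namespace Pool.TGT

open Finset Real MvPolynomial
open Pool.Agent.H49.Ent Pool.Agent.H32.Dense Pool.STK Pool.KA Pool.KSAT Pool.K2S Pool.PB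
open Pool.PB.Trl Pool.STAT Pool.STAT.CLO Pool.GEN Pool.S6C Pool.REX Pool.GRW
open Pool.FLF (Fam.sub)
open Pool.CHT (TmH bas_ev)

variable {m n J : ℕ}

/-- **No chains with improved precisions**: radius `a + t`, window `wp`, sides `b k + t` for the
base, `b n₀ + t + gn` for the target. -/
def NoCh (S : PCl m) (c : ℕ → Fin m) (n₀ : ℕ) (a wp t gn : ℝ) (b : ℕ → ℝ) : Prop :=
  ∀ (K : ℕ) (C : ℝ), Bas S (fun J F A => ∀ (a₀ w₀ e₀ : ℕ) (g : ℕ → ℕ), w₀ ≤ a₀ → a₀ ≤ J →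
    |(a₀ : ℝ) - (a + t) * J| ≤ C → |(w₀ : ℝ) - wp * J| ≤ C → (∀ k ≤ n₀, g k ≤ J) →
    (∀ k < n₀, (g k : ℝ) ≤ (b k + t) * J) → (b n₀ + t + gn) * J ≤ g n₀ →
    ¬ ChN F c (n₀ + 1) (fun _ => K) a₀ w₀ e₀ g A)

/-- The deficit of the time, for a class. -/
theorem tmq_bas {S : PCl m} {C₀ : ℝ} (hC₀ : 0 ≤ C₀) (htm : TmC S C₀) {ε : ℝ} (hε : 0 < ε) :
    Bas S (fun J F A => TmQ F (Pool.Agent.H49.Ent.cond F.p A True) (ε * J)) := by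
  refine ⟨ε / (C₀ + 1), by positivity, 0, fun J _ F A hA => ?_⟩
  have hτ : 0 < ε / (C₀ + 1) := by positivity
  have h1 := htm _ J F A hτ hA
  have h2 : TmQ F (Pool.Agent.H49.Ent.cond F.p A True) (C₀ * (ε / (C₀ + 1)) * J) :=
    h1.2 (isLaw_cond F.isLaw h1.1)
  unfold TmQ at h2 ⊢
  have h3 : C₀ * (ε / (C₀ + 1)) ≤ ε := by
    rw [mul_div_assoc', div_le_iff₀ (by positivity)]
    nlinarith
  have h4 := mul_le_mul_of_nonneg_right h3 (Nat.cast_nonneg (α := ℝ) J)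
  linarith

/-- The coordinates of the base. -/
noncomputable def bse (F : Fam m J) (c : ℕ → Fin m) (n₀ : ℕ) (ω : F.Ω) (l : Fin n₀) : ℤ :=
  F.X J ω (c l)

/-- The data of a place, for all events of the class. -/
def PlaceD (S : PCl m) (c : ℕ → Fin m) (n₀ K K' s₁ : ℕ) (sh : ℕ → ℕ) (aJ wJ : ℕ → ℕ) (eb : ℝ)
    (b : ℕ → ℝ) {Λ : ∀ J : ℕ, Fam m J → Type} (lab : ∀ (J : ℕ) (F : Fam m J), F.Ω → Λ J F)
    (zL : ∀ (J : ℕ) (F : Fam m J), LnT F → LV) : Prop :=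
  (∀ (J : ℕ) (F : Fam m J), wJ J ≤ J → ∀ ω ω', slam F (wJ J) ω = slam F (wJ J) ω' →
    lab J F ω = lab J F ω') ∧
  ∀ (τ : ℝ) (J : ℕ) (F : Fam m J) (A : F.Ω → Prop), S.St τ J F A →
    (∀ ω ω', A ω → A ω' → lab J F ω = lab J F ω' →
      zL J F (slam F (wJ J) ω) = zL J F (slam F (wJ J) ω')) ∧
    ∃ (G : PtT F → ℕ → MvPolynomial (Option (Fin m)) ℝ)
      (H : LnT F → ℕ → MvPolynomial (Option (Fin m)) ℝ) (PL : LV → ℕ → PN)
      (zS : PtT F → LV) (zS' : LV → ℝ → LV) (PS : LV → ℕ → PN),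
      ChOK F c (n₀ + 1) (fun _ => K) (aJ J) (wJ J) ⌊eb * J⌋₊ (fun l => ⌊b l * J⌋₊) A G H ∧
      Out2 (n₀ + 1) K' s₁ sh (aJ J) (wJ J) A (ptr F J) (slam F (wJ J)) tx (tl (wJ J))
        (fun l => ⌊b (l - 1) * J⌋₊) (Gx c (n₀ + 1) G) (Hx c (n₀ + 1) (wJ J) H)
        (cx F fun i => c (i - 1)) (zL J F) PL zS zS' PS

/-- The rate of the rows of the target, given the base. -/
def RateD (S : PCl m) (c : ℕ → Fin m) (n₀ : ℕ) (x R₀ R₁ ηr : ℝ) : Prop :=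
  ∀ e : ℝ, 0 < e → Bas S (fun J F A => ∀ P Q : ℕ, (R₀ + e) * J ≤ P → P ≤ Q →
    (Q : ℝ) ≤ (R₁ - e) * J → CH (Pool.Agent.H49.Ent.cond F.p A True) (fun ω => F.X Q ω (c n₀))
      (fun ω => (F.X P ω (c n₀), ((fun l : Fin n₀ => F.X J ω (c l)), F.T ω))) ≤
      (1 - x) * (((Q : ℝ) - P) * Real.log 2) + (ηr + e) * J)

theorem tgt_end (n₀ K K' KQ : ℕ) (sh : ℕ → ℕ) (hn₀ : 1 ≤ n₀) {η μ dl ηr : ℝ} (hη : 0 < η)
    (hη1 : η ≤ 1 / 4) (hμ : 0 < μ)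
    (hdl : 16 * ((n₀ + 1 : ℕ) : ℝ) ^ 2 * dl < η * (η * μ / 512)) (hdl0 : 0 ≤ dl)
    (hηr : ηr < 2 * η * (μ / 4) * Real.log 2) : ∃ e₀ : ℝ, 0 < e₀ ∧
    ∀ {m : ℕ} {S : PCl m} (_ : S.Ne) {C₀ : ℝ} (_ : 0 ≤ C₀) (_ : TmC S C₀) (_ : TmH S)
      {c : ℕ → Fin m} (_ : Inj c (n₀ + 1))
      {s₁ : ℕ} {a w eb gmr C₁ X₀ : ℝ} {b : ℕ → ℝ} {aJ wJ : ℕ → ℕ}
      (_ : ∀ J, |(aJ J : ℝ) - a * J| ≤ C₁) (_ : ∀ J, |(wJ J : ℝ) - w * J| ≤ C₁)
      {Λ : ∀ J : ℕ, Fam m J → Type} {lab : ∀ (J : ℕ) (F : Fam m J), F.Ω → Λ J F}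
      {zL : ∀ (J : ℕ) (F : Fam m J), LnT F → LV}
      (_ : PlaceD S c n₀ K K' s₁ sh aJ wJ eb b lab zL)
      {wp Q₁ : ℝ} {VN κN : ∀ J : ℕ, Fam m J → Type}
      {ydN : ∀ (J : ℕ) (F : Fam m J), F.Ω → κN J F}
      {zN : ∀ (J : ℕ) (F : Fam m J), PtT F → κN J F → VN J F}
      {zN' : ∀ (J : ℕ) (F : Fam m J), LnT F → VN J F}
      {GN : ∀ (J : ℕ) (F : Fam m J), VN J F → MvPolynomial (Option (Fin m)) ℝ}
      (_ : ∀ (τ : ℝ) (J : ℕ) (F : Fam m J) (A : F.Ω → Prop), S.St τ J F A →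
        Lbr F ((range n₀).image c) (c n₀) KQ ⌊wp * J⌋₊ ⌊Q₁ * J⌋₊ (ydN J F) A (zN J F) (zN' J F)
          (GN J F))
      {K₁ J₁ : ℕ} {VV κV : ∀ J : ℕ, Fam m J → Type}
      {ydV : ∀ (J : ℕ) (F : Fam m J), F.Ω → κV J F}
      {zV : ∀ (J : ℕ) (F : Fam m J), PtT F → κV J F → VV J F}
      {zV' : ∀ (J : ℕ) (F : Fam m J), LnT F → VV J F}
      {GV : ∀ (J : ℕ) (F : Fam m J), VV J F → ℕ → PN} {σ : ℕ → ℕ} {wV : ℕ → ℕ}
      {sV : ℕ → ℕ → ℕ} {s : ℕ → ℝ} {e₁ : ℝ} (_ : 0 ≤ e₁) (_ : e₁ ≤ e₀)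
      (_ : ∀ (τ : ℝ) (J : ℕ) (F : Fam m J) (A : F.Ω → Prop), S.St τ J F A → J₁ ≤ J →
        VL F c n₀ K₁ (wV J) σ (fun j => sV J j + 1) (ydV J F) (zV J F) (zV' J F) (GV J F) A)
      (_ : ∀ j < n₀, σ j < n₀) (_ : ∀ l < n₀, ∃ j < n₀, σ j = l)
      (_ : ∀ J, J₁ ≤ J → wV J ≤ aJ J ∧ ∀ j < n₀, sV J j + 1 ≤ J ∧
        (J : ℝ) - sV J j ≤ (1 - s j + e₁) * J)
      (_ : ∀ ρ : ℝ, 0 < ρ → Bas S (fun J F A =>
        (∑ j ∈ range n₀, (1 - s j) - ρ) * Real.log 2 * J ≤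
          CH (Pool.Agent.H49.Ent.cond F.p A True) (fun ω (l : Fin n₀) => F.X J ω (c l))
            (fun ω => (yfn F (lab J F) (zN' J F) (zV' J F) (aJ J) ⌊wp * J⌋₊ (wV J) ω, F.T ω))))
      (_ : ∀ ρ : ℝ, 0 < ρ → Bas S (fun J F A => ∃ (β : Type) (Y : F.Ω → β),
        (∀ ω ω', A ω → A ω' → Y ω = Y ω' →
          zV' J F (slam F (wV J) ω) = zV' J F (slam F (wV J) ω') ∧ F.T ω = F.T ω') ∧
        (X₀ - ρ) * Real.log 2 * J ≤
          CH (Pool.Agent.H49.Ent.cond F.p A True) (fun ω (l : Fin n₀) => F.X J ω (c l)) Y))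
      (_ : n₀ - X₀ - ∑ l ∈ range n₀, b l ≤ dl)
      {R₀ R₁ : ℝ} (_ : RateD S c n₀ (4 * η) R₀ R₁ ηr) (_ : R₀ < b n₀) (_ : b n₀ + μ / 4 < R₁)
      {gn : ℝ} (_ : gn ≤ η * μ / 1024) (_ : NoCh S c n₀ a wp (η * μ / 512) gn b)
      (_ : 0 ≤ w) (_ : w < wp) (_ : wp < a) (_ : a + η * μ / 512 + μ / 4 < 1)
      (_ : ∀ l < n₀ + 1, 0 < b l ∧ b l ≤ gmr ∧ b l + η * μ / 512 + μ / 4 < 1) (_ : 0 ≤ eb)
      (_ : eb + gmr + η * μ / 512 < 1) (_ : b n₀ + μ / 4 ≤ Q₁), False := by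
  classical
  obtain ⟨sh₂, c₄, C₂, Kc, κ₁, D, Cθ, hκ₁, hD, hCθ, hfin⟩ := fin_fam n₀ K K' KQ sh hn₀ hη
    (hη1.trans (by norm_num))
  have hl2 : 0 < Real.log 2 := Real.log_pos one_lt_two
  have hl1 : Real.log 2 ≤ 1 := by
    have := Real.log_two_lt_d9
    linarith
  obtain ⟨Nn, hNn⟩ : ∃ Nn : ℝ, Nn = 16 * ((n₀ + 1 : ℕ) : ℝ) ^ 2 := ⟨_, rfl⟩
  have hNn0 : 0 < Nn := by rw [hNn]; positivity
  obtain ⟨gap, hgap⟩ : ∃ gap, gap = η * (η * μ / 512) - Nn * dl := ⟨_, rfl⟩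
  have hgap0 : 0 < gap := by rw [hgap, hNn]; linarith
  obtain ⟨κ, hκ⟩ : ∃ κ, κ = min κ₁ (gap / (Nn * μ)) := ⟨_, rfl⟩
  have hκ0 : 0 < κ := by rw [hκ]; exact lt_min hκ₁ (by positivity)
  have hκ1 : κ ≤ κ₁ := by rw [hκ]; exact min_le_left _ _
  have hκ2 : Nn * (κ * (μ / 4)) ≤ gap / 4 := by
    have h1 : κ ≤ gap / (Nn * μ) := by rw [hκ]; exact min_le_right _ _
    rw [le_div_iff₀ (by positivity)] at h1
    linarith
  obtain ⟨e₀, he₀⟩ : ∃ e₀, e₀ = κ * μ / (32 * (n₀ + 1)) := ⟨_, rfl⟩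
  have he₀0 : 0 < e₀ := by rw [he₀]; positivity
  refine ⟨e₀, he₀0, ?_⟩
  intro m S hS C₀ hC₀ htm htmh c hc s₁ a w eb gmr C₁ X₀ b aJ wJ haJ hwJ Λ lab zL hpl wp Q₁ VN κN
    ydN zN zN' GN hN K₁ J₁ VV κV ydV zV zV' GV σ wV sV s e₁ he₁0 he₁ hV hσ1 hσ2 hsz hful hcnt hdl'
    R₀ R₁ hrate hR₀ hR₁ gn hgn hno hw0 hwp hpa ha1 hb heb0 heb hQ₁
  obtain ⟨X₁, hX₁⟩ := hfin κ hκ0 hκ1 K₁
  obtain ⟨t, ht⟩ : ∃ t, t = η * μ / 512 := ⟨_, rfl⟩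
  obtain ⟨x, hx⟩ : ∃ x, x = μ / 4 := ⟨_, rfl⟩
  rw [← ht] at hgap hno ha1 heb
  rw [← hx] at hκ2 hηr hR₁ ha1 hQ₁
  have hb' : ∀ l < n₀ + 1, 0 < b l ∧ b l ≤ gmr ∧ b l + t + x < 1 := by
    rw [ht, hx]
    exact hb
  have ht0 : 0 < t := by rw [ht]; positivity
  have hx0 : 0 < x := by rw [hx]; positivity
  have hD0 : 0 < D := lt_of_lt_of_le one_pos hD
  have hCθ0 : 0 < Cθ := lt_of_lt_of_le one_pos hCθ
  -- the small numbers
  obtain ⟨ρ, hρ⟩ : ∃ ρ, ρ = min (gap / (4 * Nn)) (κ * μ / 64) := ⟨_, rfl⟩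
  have hρ0 : 0 < ρ := by rw [hρ]; exact lt_min (by positivity) (by positivity)
  have hρ1 : Nn * ρ ≤ gap / 4 := by
    have h1 : ρ ≤ gap / (4 * Nn) := by rw [hρ]; exact min_le_left _ _
    rw [le_div_iff₀ (by positivity)] at h1
    linarith
  have hρ2 : ρ ≤ κ * μ / 64 := by rw [hρ]; exact min_le_right _ _
  obtain ⟨ε₂, hε₂⟩ : ∃ ε₂, ε₂ = κ * μ / 64 := ⟨_, rfl⟩
  have hε₂0 : 0 < ε₂ := by rw [hε₂]; positivity
  obtain ⟨e', he'⟩ : ∃ e', e' = min ((2 * η * x * Real.log 2 - ηr) / 2)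
    (min ((b n₀ - R₀) / 2) ((R₁ - (b n₀ + x)) / 2)) := ⟨_, rfl⟩
  have he'0 : 0 < e' := by
    rw [he']
    exact lt_min (by linarith) (lt_min (by linarith) (by linarith))
  have he'1 : ηr + e' < 2 * η * x * Real.log 2 := by
    have h1 : e' ≤ (2 * η * x * Real.log 2 - ηr) / 2 := by rw [he']; exact min_le_left _ _
    linarith
  have he'2 : R₀ + e' < b n₀ := by
    have h1 : e' ≤ (b n₀ - R₀) / 2 := by
      rw [he']
      exact (min_le_right _ _).trans (min_le_left _ _)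
    linarith
  have he'3 : b n₀ + x < R₁ - e' := by
    have h1 : e' ≤ (R₁ - (b n₀ + x)) / 2 := by
      rw [he']
      exact (min_le_right _ _).trans (min_le_right _ _)
    linarith
  obtain ⟨ε, hε⟩ : ∃ ε, ε = (a - w) * Real.log 2 / (2 * Cθ) := ⟨_, rfl⟩
  have haw : 0 < (a - w) * Real.log 2 := mul_pos (by linarith) hl2
  have hε0 : 0 < ε := by rw [hε]; positivity
  have hε1 : Cθ * ε < (a - w) * Real.log 2 := by
    have h1 : Cθ * ε = (a - w) * Real.log 2 / 2 := by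
      rw [hε]
      field_simp
    linarith
  -- the eventualities
  have hbn := hb' n₀ (by omega)
  have k1 := end_ev1 n₀ haJ hwJ hw0 hwp hpa ht0 hx0 ha1 hb' heb0 heb hQ₁ sh₂ c₄ C₂ X₁ hε1
  obtain ⟨C, hC⟩ : ∃ C : ℝ, C = n₀ * (Real.log 7 / Real.log 2 + (sh₂ + 2)) := ⟨_, rfl⟩
  have hC0 : 0 ≤ C := by
    have : 0 ≤ Real.log 7 / Real.log 2 := div_nonneg (Real.log_nonneg (by norm_num)) hl2.le
    rw [hC]
    positivity
  have k2 := end_ev2 n₀ (C := C) (dl := dl) (ε₂ := ε₂) (e₁ := e₁) hη hκ0 hx0 hbn.1.le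
    (ρ := ρ) (t := t) (bn := b n₀) (R₀ := R₀) (R₁ := R₁)
    (by
      rw [← hNn]
      have e1 : Nn * (dl + ρ + κ * x) = Nn * dl + Nn * ρ + Nn * (κ * x) := by ring
      rw [e1]
      linarith)
    (by
      have e1 : (n₀ : ℝ) * e₁ ≤ n₀ * e₀ := mul_le_mul_of_nonneg_left he₁ (Nat.cast_nonneg _)
      have e2 : (n₀ : ℝ) * e₀ ≤ κ * μ / 32 := by
        rw [he₀, mul_div_assoc', div_le_div_iff₀ (by positivity) (by norm_num)]
        have : 0 ≤ κ * μ := by positivity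
        nlinarith
      have e3 : κ * x = κ * μ / 4 := by rw [hx]; ring
      have e4 : 0 < κ * μ := by positivity
      rw [e3, hε₂]
      linarith)
    he'1 he'2 he'3 sh₂
  have k3 := end_ev3 n₀ haJ (hw0.trans hwp.le) hη ht0 hx0 (fun l hl => (hb' l hl).1)
    (gn := gn) (by
      rw [ht, hx]
      have : 0 < η * μ := by positivity
      linarith) sh₂ c₄
  obtain ⟨J₂, hJ₂⟩ := Filter.eventually_atTop.1 (k1.and (k2.and k3))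
  -- the facts
  have hDi : 0 < 1 / D := by positivity
  have f1 := bas_ev (htmh.2 ε hε0) hDi
  have f2 := bas_ev (tmq_bas hC₀ htm hε₂0) hDi
  have f3 := bas_ev (hful ρ hρ0) hDi
  have f4 := bas_ev (hrate e' he'0) hDi
  have f5 := hcnt ρ hρ0
  have hEi : 0 < η / 32 / D := by positivity
  have f6 := bas_ev (hno Kc (C₁ + 1)) hEi
  have f7 : Bas S (fun _ F A => 0 < Pe F.p A) :=
    ⟨1, one_pos, 0, fun J _ F A hA => htmh.1 1 J F A hA⟩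
  obtain ⟨τ, hτ, J₃, hall⟩ := ((f1.and f2).and (f3.and f4)).and ((f5.and f6).and f7)
  obtain ⟨J, hJ, F, A, hA⟩ := hS τ hτ (max J₃ (max J₁ (max J₂ 1)))
  obtain ⟨⟨⟨g1, g2⟩, g3, g4⟩, ⟨g5, g6⟩, g7⟩ := hall J ((le_max_left _ _).trans hJ) F A hA
  have hJ1 : J₁ ≤ J := ((le_max_left _ _).trans (le_max_right _ _)).trans hJ
  have hJ2 : J₂ ≤ J :=
    (((le_max_left _ _).trans (le_max_right _ _)).trans (le_max_right _ _)).trans hJ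
  obtain ⟨⟨n1, n2, n3, n4, n5, n6, n7, n8, n9, n10, n11⟩, ⟨m1, m2, m3, m4, m5⟩, l1, l2, l3, l4⟩ :=
    hJ₂ J hJ2
  have hJ0 : (0 : ℝ) ≤ J := Nat.cast_nonneg J
  obtain ⟨hlab1, hpl'⟩ := hpl
  obtain ⟨hlab2, G, H, PL, zS, zS', PS, hch, hO⟩ := hpl' τ J F A hA
  obtain ⟨s1, s2⟩ := hsz J hJ1
  have hVA := hV τ J F A hA hJ1
  have hwJJ : wJ J ≤ J := n1.trans (n2.trans n3)
  have hBp : ∀ B : F.Ω → Prop, Pe F.p A ≤ D * Pe F.p B → 0 < Pe F.p B := by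
    intro B hB
    by_contra hcon
    push Not at hcon
    have := mul_nonpos_of_nonneg_of_nonpos hD0.le hcon
    linarith
  have hDB : ∀ B : F.Ω → Prop, Pe F.p A ≤ D * Pe F.p B → 1 / D * Pe F.p A ≤ Pe F.p B := by
    intro B hB
    rw [one_div, ← div_eq_inv_mul, div_le_iff₀ hD0]
    linarith
  -- the sum of the precisions
  obtain ⟨β, Y, hY, hYle⟩ := g5
  have hqA : IsLaw (Pool.Agent.H49.Ent.cond F.p A True) := isLaw_cond F.isLaw g7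
  have hmemA : ∀ ω, 0 < Pool.Agent.H49.Ent.cond F.p A True ω → A ω := fun ω hω =>
    of_eq_true ((cond_pos_iff F.isLaw.nonneg A True ω).1 hω).2
  have hc1 := vl_count hVA hqA hmemA hσ2 (fun j hj => (s2 j hj).1) Y hY
  have hsum1 : ∑ j ∈ range n₀, (sV J j : ℝ) ≤ (n₀ - X₀ + ρ) * J + n₀ * (Real.log 7 / Real.log 2) := by
    have h1 := hYle.trans hc1
    have h2 : ∑ j ∈ range n₀, ((J : ℝ) - ((sV J j + 1 : ℕ) : ℝ)) ≤
        n₀ * J - ∑ j ∈ range n₀, (sV J j : ℝ) := by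
      rw [Finset.sum_sub_distrib, Finset.sum_const, Finset.card_range, nsmul_eq_mul]
      have : ∑ j ∈ range n₀, (sV J j : ℝ) ≤ ∑ j ∈ range n₀, ((sV J j + 1 : ℕ) : ℝ) :=
        Finset.sum_le_sum fun j _ => by
          push_cast
          linarith
      linarith
    have h3 : (X₀ - ρ) * Real.log 2 * J ≤
        (n₀ * J - ∑ j ∈ range n₀, (sV J j : ℝ)) * Real.log 2 + n₀ * Real.log 7 :=
      h1.trans (by
        have := mul_le_mul_of_nonneg_right h2 hl2.le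
        linarith)
    have h4 : Real.log 7 = Real.log 7 / Real.log 2 * Real.log 2 := by
      field_simp
    have h5 : ((X₀ - ρ) * J + ∑ j ∈ range n₀, (sV J j : ℝ)) * Real.log 2 ≤
        (n₀ * J + n₀ * (Real.log 7 / Real.log 2)) * Real.log 2 := by
      have h6 : (n₀ : ℝ) * Real.log 7 = n₀ * (Real.log 7 / Real.log 2) * Real.log 2 := by
        rw [mul_assoc, ← h4]
      linarith
    have h6 := le_of_mul_le_mul_right h5 hl2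
    linarith
  have hsum2 : ∑ l ∈ range n₀, b l * J - n₀ * (sh₂ + 2) ≤
      ∑ l ∈ range n₀, ((⌊b l * J⌋₊ - sh₂ - 1 : ℕ) : ℝ) := by
    have h1 : ∑ l ∈ range n₀, (b l * J - (sh₂ + 2)) ≤
        ∑ l ∈ range n₀, ((⌊b l * J⌋₊ - sh₂ - 1 : ℕ) : ℝ) := by
      refine Finset.sum_le_sum fun l _ => ?_
      have h2 := fl2 (b l) J
      have h3 : (⌊b l * J⌋₊ : ℝ) ≤ ((⌊b l * J⌋₊ - sh₂ - 1 : ℕ) : ℝ) + (sh₂ + 1) := by
        exact_mod_cast (by omega : ⌊b l * J⌋₊ ≤ (⌊b l * J⌋₊ - sh₂ - 1) + (sh₂ + 1))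
      linarith
    rw [Finset.sum_sub_distrib, Finset.sum_const, Finset.card_range, nsmul_eq_mul] at h1
    exact h1
  obtain ⟨E, hEA, hPE, e'', hE⟩ := hX₁ F c (aJ J) (wJ J) ⌊wp * J⌋₊ (wV J) ⌊eb * J⌋₊ s₁
    ⌊gmr * J⌋₊ ⌊t * J⌋₊ ⌊x * J⌋₊ ⌊Q₁ * J⌋₊ (fun l => ⌊b l * J⌋₊) A G H (zL J F) PL zS zS' PS
    (ε * J) (lab J F) (ydN J F) (zN J F) (zN' J F) (GN J F) (ydV J F) (zV J F) (zV' J F)
    (GV J F) σ (sV J) (ε₂ * J) ((ρ + n₀ * e₁) * J) ((dl + ρ) * J + C) g7 n1 n2 s1 n3 hc hch hO n4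
    n5 (by positivity) (fun B hB hPe => ⟨hBp B hPe, g1 B hB (hDB B hPe) (hBp B hPe)⟩) n6
    (hlab1 J F hwJJ) hlab2 (hN τ J F A hA) hVA n7 n8 n9 n10 n11 hσ1 hσ2 (fun j hj => (s2 j hj).1)
    (fun B hB hPe => by
      refine ⟨g2 B hB (hDB B hPe), ?_, ?_⟩
      · refine le_trans ?_ (g3 B hB (hDB B hPe))
        have h1 : ∑ j ∈ range n₀, ((J : ℝ) - sV J j) ≤
            ∑ j ∈ range n₀, (1 - s j + e₁) * J := Finset.sum_le_sum fun j hj =>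
          (s2 j (Finset.mem_range.1 hj)).2
        have h2 : ∑ j ∈ range n₀, (1 - s j + e₁) * (J : ℝ) =
            (∑ j ∈ range n₀, (1 - s j)) * J + n₀ * e₁ * J := by
          rw [← Finset.sum_mul, Finset.sum_add_distrib, Finset.sum_const, Finset.card_range,
            nsmul_eq_mul]
          ring
        rw [h2] at h1
        have h3 := mul_le_mul_of_nonneg_right h1 hl2.le
        obtain ⟨Y₀, hY₀⟩ : ∃ Y₀, Y₀ = ∑ j ∈ range n₀, (1 - s j) := ⟨_, rfl⟩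
        rw [← hY₀] at h3 ⊢
        have h4 : 0 ≤ (ρ + n₀ * e₁) * J := by positivity
        have h5 : (ρ + n₀ * e₁) * J * Real.log 2 ≤ (ρ + n₀ * e₁) * J * 1 :=
          mul_le_mul_of_nonneg_left hl1 h4
        have h6 : (Y₀ - ρ) * Real.log 2 * J = (Y₀ * J + n₀ * e₁ * J) * Real.log 2 -
            (ρ + n₀ * e₁) * J * Real.log 2 := by ring
        rw [h6]
        linarith
      · have h1 := g4 B hB (hDB B hPe) (⌊b n₀ * J⌋₊ - sh₂ - 1)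
          (⌊b n₀ * J⌋₊ - sh₂ - 1 + ⌊x * J⌋₊) m4 (Nat.le_add_right _ _) m5
        refine h1.trans ?_
        have h2 : (((⌊b n₀ * J⌋₊ - sh₂ - 1 + ⌊x * J⌋₊ : ℕ) : ℝ) - (⌊b n₀ * J⌋₊ - sh₂ - 1 : ℕ)) =
            ⌊x * J⌋₊ := by
          push_cast
          ring
        rw [h2]
        have h3 : (1 - 2 * η) * (⌊x * J⌋₊ * Real.log 2) = (1 - 4 * η) *
            (⌊x * J⌋₊ * Real.log 2) + 2 * η * (⌊x * J⌋₊ * Real.log 2) := by ring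
        rw [h3]
        linarith)
    (by positivity) (by
      have h1 := mul_le_mul_of_nonneg_right hdl' hJ0
      have h2 : ∑ l ∈ range n₀, b l * (J : ℝ) = (∑ l ∈ range n₀, b l) * J := by
        rw [Finset.sum_mul]
      rw [h2] at hsum2
      rw [hC]
      linarith) m1 m2
  have hC₁ : 0 ≤ C₁ := (abs_nonneg _).trans (haJ 0)
  refine g6 E hEA hPE (aJ J + ⌊t * J⌋₊) ⌊wp * J⌋₊ e'' _ (n2.trans (Nat.le_add_right _ _))
    (by omega) l1 (l2.trans (by linarith)) (fun k hk => ?_) (fun k hk => ?_) ?_ hE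
  · unfold gim
    have h1 := n10 n₀ (by omega)
    split_ifs with h2
    · have h3 := n10 k (by omega)
      have h4 : gpr sh₂ (aJ J) (fun l => ⌊b l * J⌋₊) (k + 1) = ⌊b k * J⌋₊ - sh₂ - 1 := rfl
      rw [h4]
      omega
    · have h3 : ⌊η / 64 * (⌊x * J⌋₊ : ℝ)⌋₊ ≤ ⌊x * J⌋₊ := Nat.floor_le_of_le (by
        have h4 : (0 : ℝ) ≤ ⌊x * J⌋₊ := Nat.cast_nonneg _
        nlinarith)
      omega
  · unfold gim
    rw [if_pos hk]
    exact l3 k hk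
  · unfold gim
    rw [if_neg (lt_irrefl n₀)]
    exact l4

end Pool.TGT
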