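import Pool.Agent.H89.TGT.Vxa

/-!
# The last step in a family

`fin_fam`: the place, the label of the target and the labels of the base give the chain of an
improved label.
-/

set_option autoImplicit false

namespace Pool.TGT

open Finset Real MvPolynomial
open Pool.Agent.H49.Ent Pool.Agent.H32.Dense Pool.STK Pool.KA Pool.KSAT Pool.K2S Pool.PB
open Pool.PB.Trl Pool.STAT Pool.STAT.CLO Pool.GEN Pool.S6C Pool.REX Pool.GRW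
open Pool.FLF (Fam.sub)

variable {m n J : ℕ}

/-- The context of the last step: the label of the place, the time in the radius, the values of the
labels. -/
noncomputable def yfn (F : Fam m J) {Λ VN VV : Type} (lab : F.Ω → Λ) (zN : LnT F → VN)
    (zV : LnT F → VV) (a w₂ wV : ℕ) (ω : F.Ω) : Λ × (ℕ × (VN × VV)) :=
  (lab ω, (F.T1 a ω, (zN (slam F w₂ ω), zV (slam F wV ω))))

theorem fin_fam (n₀ K K' KQ : ℕ) (sh : ℕ → ℕ) (hn₀ : 1 ≤ n₀) {η : ℝ} (hη : 0 < η)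
    (hη1 : η ≤ 1) : ∃ (sh₂ c₄ C₂ Kc : ℕ) (κ₁ D Cθ : ℝ), 0 < κ₁ ∧ 1 ≤ D ∧ 1 ≤ Cθ ∧
    ∀ κ : ℝ, 0 < κ → κ ≤ κ₁ → ∀ K₁ : ℕ, ∃ X₀ : ℕ,
    ∀ {m J : ℕ} (F : Fam m J) (c : ℕ → Fin m) (a w w₂ wV e s₁ gm m' X Q₁ : ℕ) (g : ℕ → ℕ)
      (A : F.Ω → Prop) (G : PtT F → ℕ → MvPolynomial (Option (Fin m)) ℝ)
      (H : LnT F → ℕ → MvPolynomial (Option (Fin m)) ℝ) (zL : LnT F → LV) (PL : LV → ℕ → PN)
      (zS : PtT F → LV) (zS' : LV → ℝ → LV) (PS : LV → ℕ → PN) (θ : ℝ)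
      {Λ VN VV κN κV : Type} (lab : F.Ω → Λ) (ydN : F.Ω → κN) (zN : PtT F → κN → VN)
      (zN' : LnT F → VN) (GN : VN → MvPolynomial (Option (Fin m)) ℝ) (ydV : F.Ω → κV)
      (zV : PtT F → κV → VV) (zV' : LnT F → VV) (GV : VV → ℕ → PN) (σ sV : ℕ → ℕ)
      (θ₁ θ₂ δ : ℝ), 0 < Pe F.p A → w ≤ w₂ → w₂ ≤ a → wV ≤ a → a ≤ J → Inj c (n₀ + 1) →
      ChOK F c (n₀ + 1) (fun _ => K) a w e g A G H →
      Out2 (n₀ + 1) K' s₁ sh a w A (ptr F J) (slam F w) tx (tl w) (fun l => g (l - 1))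
        (Gx c (n₀ + 1) G) (Hx c (n₀ + 1) w H) (cx F fun i => c (i - 1)) zL PL zS zS' PS →
      (∀ i < n₀ + 1, sh₂ + 1 ≤ g i ∧ g i ≤ gm) → e + gm + m' + C₂ ≤ J → 0 ≤ θ →
      (∀ B : F.Ω → Prop, Sub B A → Pe F.p A ≤ D * Pe F.p B →
        ∃ h : 0 < Pe F.p B, (Fam.sub F B h).Tm θ) →
      Cθ * (θ + 1) ≤ ((a : ℝ) - w) * Real.log 2 →
      (∀ ω ω', slam F w ω = slam F w ω' → lab ω = lab ω') →
      (∀ ω ω', A ω → A ω' → lab ω = lab ω' → zL (slam F w ω) = zL (slam F w ω')) →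
      Lbr F ((range n₀).image c) (c n₀) KQ w₂ Q₁ ydN A zN zN' GN →
      VL F c n₀ K₁ wV σ (fun j => sV j + 1) ydV zV zV' GV A →
      g n₀ + X ≤ Q₁ → X₀ ≤ X → (n₀ + 1) * c₄ ≤ m' →
      (∀ i < n₀ + 1, g i + m' + X + 1 ≤ J) → a + m' + X + 1 ≤ J →
      (∀ j < n₀, σ j < n₀) → (∀ l < n₀, ∃ j < n₀, σ j = l) → (∀ j < n₀, sV j + 1 ≤ J) →
      (∀ B : F.Ω → Prop, Sub B A → Pe F.p A ≤ D * Pe F.p B →
        Pool.REX.TmQ F (Pool.Agent.H49.Ent.cond F.p B True) θ₁ ∧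
        (∑ j ∈ range n₀, ((J : ℝ) - sV j)) * Real.log 2 - θ₂ ≤
          CH (Pool.Agent.H49.Ent.cond F.p B True) (fun ω (l : Fin n₀) => F.X J ω (c l))
            (fun ω => (yfn F lab zN' zV' a w₂ wV ω, F.T ω)) ∧
        CH (Pool.Agent.H49.Ent.cond F.p B True) (fun ω => F.X (g n₀ - sh₂ - 1 + X) ω (c n₀))
          (fun ω => (F.X (g n₀ - sh₂ - 1) ω (c n₀),
            ((fun l : Fin n₀ => F.X J ω (c l)), F.T ω))) ≤ (1 - 2 * η) * (X * Real.log 2)) →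
      0 ≤ δ → ∑ j ∈ range n₀, (sV j : ℝ) - ∑ l ∈ range n₀, ((g l - sh₂ - 1 : ℕ) : ℝ) ≤ δ →
      16 * ((n₀ + 1 : ℕ) : ℝ) ^ 2 * (δ + κ * X) ≤ η * m' → θ₁ + θ₂ ≤ κ * X →
      ∃ E : F.Ω → Prop, Sub E A ∧ η / 32 / D * Pe F.p A ≤ Pe F.p E ∧ ∃ e' : ℕ,
        ChN F c (n₀ + 1) (fun _ => Kc) (a + m') w₂ e'
          (gim n₀ c₄ m' (g n₀ - sh₂ - 1 + ⌊η / 64 * X⌋₊) (gpr sh₂ a g)) E := by
  classical
  obtain ⟨Kp, C₂, sh₂, D, Cθ, hKp, hD, hCθ, hpre⟩ := pre_of n₀ K K' sh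
  obtain ⟨c₄, KU, κ₁, hc₄, hκ₁, hκ₁1, htgt⟩ := tgt_fam n₀ Kp C₂ KQ hn₀ hKp hη hη1
  refine ⟨sh₂, c₄, C₂, max Kp KU, κ₁, D, Cθ, hκ₁, hD, hCθ, fun κ hκ hκκ K₁ => ?_⟩
  obtain ⟨X₀, hX₀⟩ := htgt κ hκ hκκ K₁
  refine ⟨X₀, ?_⟩
  intro m J F c a w w₂ wV e s₁ gm m' X Q₁ g A G H zL PL zS zS' PS θ Λ VN VV κN κV lab ydN zN zN'
    GN ydV zV zV' GV σ sV θ₁ θ₂ δ hA hw hw₂ hwV haJ hc hch hO hg hJ hθ hTm hth hlab1 hlab2 hN hV
    hQ hX hm hgJ haJ' hσ1 hσ2 hsJ hB hδ hsum hsm hθθ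
  have hcn : ∀ i < n₀, ∀ j < n₀, c i = c j → i = j := fun i hi j hj h =>
    hc i (by omega) j (by omega) h
  obtain ⟨z, z', P, B, hBA, hPe, hP, hcls⟩ := hpre F c a w e s₁ gm m' g A G H zL PL zS zS' PS θ
    (hw.trans hw₂) haJ hc hch hO hg hJ hθ hTm hth
  obtain ⟨b1, b2, b3⟩ := hB B hBA hPe
  have hD0 : 0 < D := lt_of_lt_of_le one_pos hD
  have hBp : 0 < Pe F.p B := by
    by_contra hcon
    push Not at hcon
    have := mul_nonpos_of_nonneg_of_nonpos hD0.le hcon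
    linarith
  have hgp : ∀ i, 1 ≤ i → gpr sh₂ a g i = g (i - 1) - sh₂ - 1 := fun i hi => if_neg (by omega)
  have hgp0 : gpr sh₂ a g 0 = a := if_pos rfl
  have hgn : gpr sh₂ a g (n₀ + 1) = g n₀ - sh₂ - 1 := by rw [hgp _ (by omega), Nat.add_sub_cancel]
  have hgn0 := (hg n₀ (by omega)).1
  have hsl : ∀ {W : ℕ}, W ≤ a → ∀ ω ω', F.l ω = F.l ω' → F.Z ω = F.Z ω' →
      F.T1 a ω = F.T1 a ω' → slam F W ω = slam F W ω' := by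
    intro W hW ω ω' h1 h2 h3
    have h4 : slam F a ω = slam F a ω' := Prod.ext h1 (Prod.ext h2 h3)
    rw [slam_coarse F hW haJ ω, slam_coarse F hW haJ ω', h4]
  obtain ⟨E, hEB, hPE, e', hE⟩ := hX₀ F c a w w₂ m' X (gpr sh₂ a g) B zL PL z z' P _
    (yfn F lab zN' zV' a w₂ wV) (fun s => tpn c n₀ (GN (zN' s))) σ sV
    (fun ω => GV (zV' (slam F wV ω))) θ₁ θ₂ δ hP hcls hBp hw (hw₂.trans haJ) haJ hX hm
    (fun i hi => by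
      rcases Nat.eq_zero_or_pos i with rfl | hi1
      · rw [hgp0]
        exact haJ'
      · rw [hgp i hi1]
        have := hgJ (i - 1) (by omega)
        omega)
    (fun ω ω' h1 h2 h => by
      unfold yfn at h
      simp only [Prod.mk.injEq] at h
      obtain ⟨a1, a2, a3, a4⟩ := h
      refine ⟨hlab2 ω ω' (hBA ω h1) (hBA ω' h2) a1, a2, ?_, ?_⟩
      · show tpn c n₀ (GN (zN' (slam F w₂ ω))) = tpn c n₀ (GN (zN' (slam F w₂ ω')))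
        rw [a3]
      · show GV (zV' (slam F wV ω)) = GV (zV' (slam F wV ω'))
        rw [a4])
    (fun ω ω' h1 h2 h3 => by
      unfold yfn
      rw [hlab1 ω ω' (hsl (hw.trans hw₂) ω ω' h1 h2 h3), h3, hsl hw₂ ω ω' h1 h2 h3,
        hsl hwV ω ω' h1 h2 h3])
    (fun s => ⟨tpn_vars _ _ _, tpn_deg (hN.deg _)⟩)
    (fun ω h1 b hb0 hb => by
      rw [cx_succ]
      refine (lbr_tpn hN hcn (hBA ω h1) hb0 hb).trans ?_
      rw [hgn]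
      exact one_div_le_one_div_of_le (by positivity) (pow_le_pow_right₀ (by norm_num) (by omega)))
    hσ1 hσ2 hsJ
    (fun ω h1 j hj => ⟨hV.vars _ j hj, hV.deg _ j hj, fun b b' h2 h3 => hV.dep _ j hj b b' h2 h3,
      fun b hb0 hb => hV.pos ω (hBA ω h1) j hj b hb0 hb⟩)
    b1 b2 hδ
    (by
      refine le_trans (le_of_eq ?_) hsum
      congr 1)
    hsm hθθ
    (by rw [hgn]; exact b3)
  refine ⟨E, fun ω h => hBA ω (hEB ω h), ?_, e', ?_⟩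
  · refine le_trans ?_ hPE
    rw [div_mul_eq_mul_div, div_le_iff₀ hD0]
    have h1 : η / 32 * Pe F.p A ≤ η / 32 * (D * Pe F.p B) :=
      mul_le_mul_of_nonneg_left hPe (by positivity)
    calc η / 32 * Pe F.p A ≤ η / 32 * (D * Pe F.p B) := h1
      _ = η / 32 * Pe F.p B * D := by ring
  · rw [hgn] at hE
    exact hE

end Pool.TGT
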