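import Pool.Agent.H89.TGT.Cht
import Pool.Agent.H35.LBK.Lbk

/-!
# The chain of an improved label

`Pre`: the chart of a place, closed with the cell of the time, on an event, with the own paths.
`imp_chn`: a polynomial `U` of the exact point which is near a polynomial of the line on the boxes
with the radius and the sides `m'` digits smaller is the end of a chain of two-sided labels.
-/

set_option autoImplicit false

namespace Pool.TGT

open Finset MvPolynomial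
open Pool.Agent.H49.Ent Pool.Agent.H32.Dense Pool.STK Pool.KA Pool.KSAT Pool.K2S Pool.PB
open Pool.PB.Trl Pool.STAT Pool.STAT.CLO Pool.GEN Pool.S6C

variable {m J : ℕ}

/-- Natural coordinates are natural Lipschitz coordinates. -/
theorem nat_lip (n K : ℕ) : ∃ C : ℝ, 1 ≤ C ∧ ∀ (Φ : ℕ → PN) (g : ℕ → ℕ) (F : PN) (i : ℕ)
    (S δ : ℝ), TriN Φ → (∀ j, (Φ j).totalDegree ≤ K) → i ≤ n → F.vars ⊆ range i →
    F.totalDegree ≤ K → 0 ≤ δ → (∀ b : ℕ → ℝ, Bxr 1 g Φ i b → |eval b F| ≤ S) →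
    ∀ b b' : ℕ → ℝ, Bxr 2 g Φ i b → Bxr 2 g Φ i b' →
    (∀ j < i, |nc g Φ b' j - nc g Φ b j| ≤ δ) → |eval b' F - eval b F| ≤ C * S * δ := by
  obtain ⟨C₂, hC₂, hbox⟩ := n1_of_box n K
  obtain ⟨K₁, hK₁⟩ : ∃ K₁, K₁ = K * (K + 1) ^ (n + 1) := ⟨_, rfl⟩
  refine ⟨1 + n * (K₁ * C₂ * 2 ^ K₁), by
    have : 0 ≤ (n : ℝ) * (K₁ * C₂ * 2 ^ K₁) := by positivity
    linarith, ?_⟩
  intro Φ g F i S δ hΦ hK hi hv hF hδ hS b b' hb hb' hd
  have hS0 : 0 ≤ S := (abs_nonneg _).trans (hS _ (box_nuc hΦ g (fun _ => (0 : ℝ))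
    (ρ := 1) fun j _ => by
      rw [abs_zero]
      exact zero_le_one))
  obtain ⟨f1, f2⟩ := nat_deg hΦ hK g hi hv hF
  rw [← hK₁] at f2
  have f3 := hbox Φ g F i S hΦ hK hi hv hF hS
  rw [eval_nat hΦ g b, eval_nat hΦ g b']
  refine (NEAR.var_le (by norm_num : (1 : ℝ) ≤ 2) f1 f2 (fun l hl => nc_le.2 (hb l hl))
    (fun l hl => nc_le.2 (hb' l hl)) hd).trans ?_
  have f4 := n1_nonneg (bind₁ (nuc g Φ) F)
  have hi' : (i : ℝ) ≤ n := by exact_mod_cast hi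
  calc (i : ℝ) * (K₁ * n1 (bind₁ (nuc g Φ) F) * 2 ^ K₁ * δ) ≤
      n * (K₁ * (C₂ * S) * 2 ^ K₁ * δ) := by
        refine mul_le_mul hi' ?_ (by positivity) (Nat.cast_nonneg n)
        refine mul_le_mul_of_nonneg_right ?_ hδ
        refine mul_le_mul_of_nonneg_right ?_ (by positivity)
        exact mul_le_mul_of_nonneg_left f3 (Nat.cast_nonneg K₁)
    _ = n * (K₁ * C₂ * 2 ^ K₁) * S * δ := by ring
    _ ≤ (1 + n * (K₁ * C₂ * 2 ^ K₁)) * S * δ := by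
        have : 0 ≤ S * δ := mul_nonneg hS0 hδ
        nlinarith

/-- The rounded point. -/
noncomputable def xq {F : Fam m J} (c : ℕ → Fin m) (y : PtT F) (i : ℕ) : ℝ :=
  if i = 0 then tx y else (y.1 (c (i - 1)) : ℝ) / 2 ^ J

theorem xq_zero (F : Fam m J) (c : ℕ → Fin m) (ω : F.Ω) : xq c (ptr F J ω) 0 = F.t ω := if_pos rfl

theorem xq_near (F : Fam m J) (c : ℕ → Fin m) (ω : F.Ω) {i : ℕ} (hi : 1 ≤ i) :
    |xq c (ptr F J ω) i - cx F (fun i => c (i - 1)) ω i| ≤ 1 / 2 ^ J := by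
  have h1 : cx F (fun i => c (i - 1)) ω i = F.x ω (c (i - 1)) := if_neg (by omega)
  have h2 : xq c (ptr F J ω) i = ((F.X J ω (c (i - 1)) : ℤ) : ℝ) / 2 ^ J := if_neg (by omega)
  rw [h1, h2, abs_sub_comm]
  exact Pool.CHT.near_pt F (c (i - 1)) ω

/-- **The chart of a place**, closed with the cell of the time, on an event. -/
structure Pre (F : Fam m J) (c : ℕ → Fin m) (n₀ K C₂ a w m' : ℕ) (g₁ : ℕ → ℕ)
    (B : F.Ω → Prop) (zL : LnT F → LV) (PL : LV → ℕ → PN) (z : PtT F → LV) (P : LV → ℕ → PN) :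
    Prop where
  g0 : g₁ 0 = a
  Ptri : ∀ v, TriN (P v)
  Pdeg : ∀ v j, (P v j).totalDegree ≤ K
  Pzero : ∀ v, P v 0 = MvPolynomial.C v.1
  zfst : ∀ y, (z y).1 = tp a y
  Ltri : ∀ v, TriN (PL v)
  Ldeg : ∀ v j, (PL v j).totalDegree ≤ K
  hgt : ∀ ω, B ω → ∀ i ≤ n₀ + 1, |cx F (fun i => c (i - 1)) ω i -
    eval (cx F (fun i => c (i - 1)) ω) (P (z (ptr F J ω)) i)| ≤ 1 / 2 ^ g₁ i
  hgt1 : ∀ ω, B ω → ∀ i, 1 ≤ i → i ≤ n₀ + 1 → |cx F (fun i => c (i - 1)) ω i -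
    eval (cx F (fun i => c (i - 1)) ω) (P (z (ptr F J ω)) i)| ≤ 1 / 2 / 2 ^ g₁ i
  line : ∀ ω, B ω → ∀ i, 1 ≤ i → i ≤ n₀ + 1 → ∀ b : ℕ → ℝ, Bx g₁ (P (z (ptr F J ω))) i b →
    |eval b (PL (zL (slam F w ω)) i) - eval b (P (z (ptr F J ω)) i)| ≤ 2 ^ C₂ / 2 ^ g₁ i
  rnd : ∀ ω, B ω → ∀ i, 1 ≤ i → i ≤ n₀ + 1 → ∀ b : ℕ → ℝ, b 0 = F.t ω →
    (∀ j, 1 ≤ j → j < i → |b j - cx F (fun i => c (i - 1)) ω j| ≤ 1 / 2 ^ J) →
    |eval b (P (z (ptr F J ω)) i) -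
      eval (cx F (fun i => c (i - 1)) ω) (P (z (ptr F J ω)) i)| ≤ 2 ^ C₂ / 2 ^ (g₁ i + m')
  pth : ∀ ω, B ω → ∀ i, 1 ≤ i → i ≤ n₀ → ∀ t' : ℝ, |t' - F.t ω| ≤ 1 / 2 ^ (a + m') →
    |(mu c (slam F w ω) (PL (zL (slam F w ω)) i) i).eval (F.t ω) -
      (mu c (slam F w ω) (PL (zL (slam F w ω)) i) i).eval t'| ≤ 1 / 2 ^ (g₁ i + m')

theorem Pre.sub {F : Fam m J} {c : ℕ → Fin m} {n₀ K C₂ a w m' : ℕ} {g₁ : ℕ → ℕ}
    {B B' : F.Ω → Prop} {zL : LnT F → LV} {PL : LV → ℕ → PN} {z : PtT F → LV} {P : LV → ℕ → PN}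
    (h : Pre F c n₀ K C₂ a w m' g₁ B zL PL z P) (hB : Sub B' B) :
    Pre F c n₀ K C₂ a w m' g₁ B' zL PL z P :=
  ⟨h.g0, h.Ptri, h.Pdeg, h.Pzero, h.zfst, h.Ltri, h.Ldeg, fun ω hω => h.hgt ω (hB ω hω),
    fun ω hω => h.hgt1 ω (hB ω hω), fun ω hω => h.line ω (hB ω hω),
    fun ω hω => h.rnd ω (hB ω hω), fun ω hω => h.pth ω (hB ω hω)⟩

/-- **The samples and the rounded samples.** -/
theorem pre_near {F : Fam m J} {c : ℕ → Fin m} {n₀ K C₂ a w m' : ℕ} {g₁ : ℕ → ℕ}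
    {B : F.Ω → Prop} {zL : LnT F → LV} {PL : LV → ℕ → PN} {z : PtT F → LV} {P : LV → ℕ → PN}
    (hp : Pre F c n₀ K C₂ a w m' g₁ B zL PL z P) (hJ : ∀ i ≤ n₀ + 1, g₁ i + m' ≤ J) {ω : F.Ω}
    (hω : B ω) : ∀ Φ : ℕ → PN, Φ = P (z (ptr F J ω)) →
      ∀ x : ℕ → ℝ, x = cx F (fun i => c (i - 1)) ω → ∀ xx : ℕ → ℝ, xx = xq c (ptr F J ω) →
      (∀ i ≤ n₀ + 1, |nc g₁ Φ x i| ≤ 1) ∧
      (∀ i ≤ n₀ + 1, |nc g₁ Φ xx i - nc g₁ Φ x i| ≤ (1 + 2 ^ C₂) / 2 ^ m') ∧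
      (∀ i, 1 ≤ i → i ≤ n₀ + 1 → |eval xx (Φ i) - eval x (Φ i)| ≤ 2 ^ C₂ / 2 ^ (g₁ i + m')) ∧
      (∀ i, 1 ≤ i → i ≤ n₀ + 1 → |xx i - x i| ≤ 1 / 2 ^ (g₁ i + m')) := by
  have p2 : ∀ k : ℕ, (0 : ℝ) < 2 ^ k := fun k => by positivity
  intro Φ hΦ x hx xx hxx
  have hx0 : x 0 = F.t ω := by rw [hx]; exact if_pos rfl
  have hxx0 : xx 0 = F.t ω := by rw [hxx]; exact xq_zero F c ω
  have h1 : ∀ i, 1 ≤ i → i ≤ n₀ + 1 →
      |eval xx (Φ i) - eval x (Φ i)| ≤ 2 ^ C₂ / 2 ^ (g₁ i + m') := by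
    intro i hi1 hi
    rw [hΦ, hx]
    refine hp.rnd ω hω i hi1 hi xx hxx0 fun j hj1 hj => ?_
    rw [hxx]
    exact xq_near F c ω hj1
  have h2 : ∀ i, 1 ≤ i → i ≤ n₀ + 1 → |xx i - x i| ≤ 1 / 2 ^ (g₁ i + m') := by
    intro i hi1 hi
    rw [hxx, hx]
    exact (xq_near F c ω hi1).trans (one_div_le_one_div_of_le (p2 _)
      (pow_le_pow_right₀ (by norm_num) (hJ i hi)))
  refine ⟨fun i hi => ?_, fun i hi => ?_, h1, h2⟩
  · rw [nc_le, hΦ, hx]
    exact hp.hgt ω hω i hi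
  · rcases Nat.eq_zero_or_pos i with rfl | hi1
    · unfold nc
      have h3 : Φ 0 = MvPolynomial.C (z (ptr F J ω)).1 := by rw [hΦ]; exact hp.Pzero _
      rw [h3, eval_C, eval_C, hx0, hxx0, sub_self, abs_zero]
      positivity
    · have h3 := h1 i hi1 hi
      have h4 := h2 i hi1 hi
      have e1 : nc g₁ Φ xx i - nc g₁ Φ x i =
          2 ^ g₁ i * ((xx i - x i) - (eval xx (Φ i) - eval x (Φ i))) := by
        unfold nc
        ring
      rw [e1, abs_mul, abs_of_pos (p2 _)]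
      have h5 : |(xx i - x i) - (eval xx (Φ i) - eval x (Φ i))| ≤
          (1 + 2 ^ C₂) / 2 ^ (g₁ i + m') := by
        rw [add_div]
        rw [abs_le] at h3 h4 ⊢
        constructor <;> linarith [h3.1, h3.2, h4.1, h4.2]
      refine (mul_le_mul_of_nonneg_left h5 (p2 _).le).trans (le_of_eq ?_)
      rw [pow_add]
      field_simp

/-- The point side of the new chain. -/
noncomputable def Gim {F : Fam m J} (c : ℕ → Fin m) (n₀ : ℕ) (z : PtT F → LV)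
    (P : LV → ℕ → PN) (U : PtT F → PN) (y : PtT F) (k : ℕ) : MvPolynomial (Option (Fin m)) ℝ :=
  if k < n₀ then Pool.LBK.tr c (P (z y) (k + 1)) +
    MvPolynomial.C (xq c y (k + 1) - eval (xq c y) (P (z y) (k + 1)))
  else if k = n₀ then Pool.LBK.tr c (U y) else 0

/-- The line side of the new chain. -/
noncomputable def Him {F : Fam m J} (c : ℕ → Fin m) (n₀ w w₂ : ℕ) (zL : LnT F → LV)
    (PL : LV → ℕ → PN) (Q : LnT F → PN) (s : LnT F) (k : ℕ) : MvPolynomial (Option (Fin m)) ℝ :=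
  if k < n₀ then Pool.LBK.tr c (PL (zL (crs w w₂ s)) (k + 1)) +
    Polynomial.aeval (MvPolynomial.X none : MvPolynomial (Option (Fin m)) ℝ)
      (mu c s (PL (zL (crs w w₂ s)) (k + 1)) (k + 1))
  else if k = n₀ then Pool.LBK.tr c (Q s) else 0

/-- The precisions of the new chain. -/
def gim (n₀ c₄ m' Pn : ℕ) (g₁ : ℕ → ℕ) (k : ℕ) : ℕ :=
  if k < n₀ then g₁ (k + 1) + m' - (k + 1) * c₄ else Pn - 1

theorem eval_aevX (q : Polynomial ℝ) (b : Option (Fin m) → ℝ) :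
    eval b (Polynomial.aeval (MvPolynomial.X none : MvPolynomial (Option (Fin m)) ℝ) q) =
      q.eval (b none) := by
  rw [Polynomial.aeval_def, Polynomial.hom_eval₂, MvPolynomial.eval_X]
  have h1 : (eval b).comp (algebraMap ℝ (MvPolynomial (Option (Fin m)) ℝ)) = RingHom.id ℝ := by
    refine RingHom.ext fun x => ?_
    rw [RingHom.comp_apply, algebraMap_eq, eval_C, RingHom.id_apply]
  rw [h1, Polynomial.eval₂_id]

theorem deg_aevX (q : Polynomial ℝ) :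
    (Polynomial.aeval (MvPolynomial.X none : MvPolynomial (Option (Fin m)) ℝ) q).totalDegree ≤
      q.natDegree := by
  rw [Polynomial.aeval_eq_sum_range]
  refine totalDegree_finsetSum_le fun i hi => ?_
  have h1 : (q.coeff i • (MvPolynomial.X none : MvPolynomial (Option (Fin m)) ℝ) ^ i).totalDegree ≤
      i := by
    refine (totalDegree_smul_le _ _).trans ((totalDegree_pow _ _).trans ?_)
    rw [totalDegree_X, mul_one]
  refine h1.trans ?_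
  have := Finset.mem_range.1 hi
  omega

/-- **The chain of an improved label.** -/
theorem imp_chn (n₀ K C₂ : ℕ) (hn₀ : 1 ≤ n₀) (hK : 1 ≤ K) : ∃ c₄ : ℕ, C₂ + 2 ≤ c₄ ∧ ∀ {m J : ℕ} (F : Fam m J) (c : ℕ → Fin m)
    (a w w₂ m' KU Pn : ℕ) (g₁ : ℕ → ℕ) (B : F.Ω → Prop) (zL : LnT F → LV) (PL : LV → ℕ → PN)
    (z : PtT F → LV) (P : LV → ℕ → PN) (U : PtT F → PN) (Q : LnT F → PN),
    Pre F c n₀ K C₂ a w m' g₁ B zL PL z P → w ≤ w₂ → w₂ ≤ J → (n₀ + 1) * c₄ ≤ m' → 1 ≤ Pn →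
    (∀ i ≤ n₀ + 1, g₁ i + m' ≤ J) →
    (∀ y, (U y).vars ⊆ range (n₀ + 1) ∧ (U y).totalDegree ≤ KU) →
    (∀ s, (Q s).vars ⊆ range (n₀ + 1) ∧ (Q s).totalDegree ≤ KU) →
    (∀ ω, B ω → |cx F (fun i => c (i - 1)) ω (n₀ + 1) -
      eval (cx F (fun i => c (i - 1)) ω) (Q (slam F w₂ ω))| ≤ 1 / 2 ^ Pn) →
    (∀ ω, B ω → ∀ b : ℕ → ℝ, (∀ i < n₀ + 1, |nc g₁ (P (z (ptr F J ω))) b i -
      nc g₁ (P (z (ptr F J ω))) (xq c (ptr F J ω)) i| ≤ 2 ^ (n₀ * c₄) / 2 ^ m') →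
      |eval b (U (ptr F J ω)) - eval b (Q (slam F w₂ ω))| ≤ 1 / 2 ^ Pn) →
    ∃ e : ℕ, ChN F c (n₀ + 1) (fun _ => max K KU) (a + m') w₂ e (gim n₀ c₄ m' Pn g₁) B := by
  obtain ⟨Cn, hCn, hlip⟩ := nat_lip (n₀ + 1) K
  obtain ⟨c₄, hc₄⟩ := pow_unbounded_of_one_lt
    (2 ^ (C₂ + 2) + 8 + Cn * 2 ^ C₂ * (3 + 2 ^ C₂)) (one_lt_two (α := ℝ))
  have hC20 : (1 : ℝ) ≤ 2 ^ C₂ := one_le_pow₀ (by norm_num)
  have hc41 : C₂ + 2 ≤ c₄ := by
    by_contra h
    have h2 : 0 ≤ Cn * 2 ^ C₂ * (3 + 2 ^ C₂) := by positivity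
    have h3 : (2 : ℝ) ^ c₄ ≤ 2 ^ (C₂ + 2) := pow_le_pow_right₀ (by norm_num) (by omega)
    linarith
  refine ⟨c₄, hc41, ?_⟩
  intro m J F c a w w₂ m' KU Pn g₁ B zL PL z P U Q hp hw hw₂ hm hPn hJ hU hQ hpos hagr
  -- dependence
  have hdG : ∀ y k, DepC c k (Gim c n₀ z P U y k) := by
    intro y k
    unfold Gim
    split_ifs with h1 h2
    · intro b b' h0 hb
      rw [map_add, map_add, eval_C, eval_C, Pool.LBK.dep_tr (hp.Ptri _ (k + 1)) b b' h0 hb]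
    · rw [h2]
      exact Pool.LBK.dep_tr (hU y).1
    · intro b b' _ _
      rw [map_zero, map_zero]
  obtain ⟨e, he⟩ := Pool.LBK.lip_ex F (n₀ + 1) (a + m') (gim n₀ c₄ m' Pn g₁) hdG
  -- the values at the point
  have hbt : ∀ (ω : F.Ω) (R : PN) (k : ℕ), k ≤ n₀ → R.vars ⊆ range (k + 1) →
      eval (bt F ω) (Pool.LBK.tr c R) = eval (cx F (fun i => c (i - 1)) ω) R := by
    intro ω R k hk hR
    rw [Pool.LBK.eval_tr]
    refine Pool.LBK.eval_vars hR fun k' hk' => ?_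
    cases k' with
    | zero => exact (if_pos rfl).symm
    | succ k' => exact (if_neg (Nat.succ_ne_zero k')).symm
  have hcr : ∀ ω : F.Ω, crs w w₂ (slam F w₂ ω) = slam F w ω := fun ω => crs_eq F hw hw₂ ω
  have hmuE : ∀ (ω : F.Ω) (R : PN) (k : ℕ), mu c (slam F w₂ ω) R k = mu c (slam F w ω) R k :=
    fun ω R k => rfl
  -- scales
  have p2 : ∀ k : ℕ, (0 : ℝ) < 2 ^ k := fun k => by positivity
  have h2m : ∀ k ≤ n₀ + 1, (2 : ℝ) ^ (k * c₄) / 2 ^ m' ≤ 1 := by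
    intro k hk
    rw [div_le_one (p2 _)]
    exact pow_le_pow_right₀ (by norm_num) ((Nat.mul_le_mul_right _ hk).trans hm)
  have hC4 : 2 ^ (C₂ + 2) + 8 + Cn * 2 ^ C₂ * (3 + 2 ^ C₂) ≤ (2 : ℝ) ^ c₄ := hc₄.le
  have hCn0 : 0 ≤ Cn * 2 ^ C₂ * (3 + 2 ^ C₂) := by positivity
  have hC4' : (2 : ℝ) ^ (C₂ + 2) + 8 ≤ 2 ^ c₄ := by linarith
  have hsm : (4 * 2 ^ C₂ + 8 : ℝ) / 2 ^ m' ≤ 1 := by
    rw [div_le_one (p2 _)]
    have h1 : (2 : ℝ) ^ (C₂ + 2) = 4 * 2 ^ C₂ := by rw [pow_add]; ring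
    rw [h1] at hC4'
    refine hC4'.trans (pow_le_pow_right₀ (by norm_num) ?_)
    calc c₄ = 1 * c₄ := (Nat.one_mul _).symm
      _ ≤ (n₀ + 1) * c₄ := Nat.mul_le_mul_right _ (by omega)
      _ ≤ m' := hm
  have main := fun ω hω => pre_near (J := J) hp hJ (ω := ω) hω
  -- the natural distances of the points of a box
  have hnat : ∀ ω, B ω → ∀ k ≤ n₀, ∀ b : Option (Fin m) → ℝ,
      NBx c (Gim c n₀ z P U (ptr F J ω)) (gim n₀ c₄ m' Pn g₁) (a + m') (F.t ω) k b →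
      ∀ i < k + 1, |nc g₁ (P (z (ptr F J ω))) (b ∘ Pool.LBK.vc c) i -
        nc g₁ (P (z (ptr F J ω))) (xq c (ptr F J ω)) i| ≤ 2 ^ (i * c₄) / 2 ^ m' := by
    intro ω hω k hk b hb i hi
    rcases Nat.eq_zero_or_pos i with rfl | hi1
    · unfold nc
      rw [hp.Pzero, eval_C, eval_C, xq_zero, hp.g0]
      have h1 := hb.1
      show |(2 : ℝ) ^ a * (b none - (z (ptr F J ω)).1) - 2 ^ a * (F.t ω - (z (ptr F J ω)).1)| ≤ _
      have e1 : (2 : ℝ) ^ a * (b none - (z (ptr F J ω)).1) -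
          2 ^ a * (F.t ω - (z (ptr F J ω)).1) = 2 ^ a * (b none - F.t ω) := by ring
      rw [e1, abs_mul, abs_of_pos (p2 _)]
      refine (mul_le_mul_of_nonneg_left h1 (p2 _).le).trans (le_of_eq ?_)
      rw [Nat.zero_mul, pow_zero, pow_add]
      field_simp
    · obtain ⟨l, rfl⟩ : ∃ l, i = l + 1 := ⟨i - 1, by omega⟩
      have hl : l < n₀ := by omega
      have h1 := hb.2 l (by omega)
      unfold Gim gim at h1
      rw [if_pos hl, if_pos hl, map_add, eval_C, Pool.LBK.eval_tr] at h1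
      have e1 : nc g₁ (P (z (ptr F J ω))) (b ∘ Pool.LBK.vc c) (l + 1) -
          nc g₁ (P (z (ptr F J ω))) (xq c (ptr F J ω)) (l + 1) = 2 ^ g₁ (l + 1) *
          (b (some (c l)) - (eval (b ∘ Pool.LBK.vc c) (P (z (ptr F J ω)) (l + 1)) +
            (xq c (ptr F J ω) (l + 1) - eval (xq c (ptr F J ω)) (P (z (ptr F J ω)) (l + 1))))) := by
        unfold nc
        have : (b ∘ Pool.LBK.vc c) (l + 1) = b (some (c l)) := rfl
        rw [this]
        ring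
      rw [e1, abs_mul, abs_of_pos (p2 _)]
      refine (mul_le_mul_of_nonneg_left h1 (p2 _).le).trans ?_
      rw [mul_one_div, div_le_div_iff₀ (p2 _) (p2 _), ← pow_add, ← pow_add]
      refine pow_le_pow_right₀ (by norm_num) ?_
      have h3 : (l + 1) * c₄ ≤ m' := (Nat.mul_le_mul_right _ (by omega)).trans hm
      omega
  refine ⟨e, Gim c n₀ z P U, Him c n₀ w w₂ zL PL Q, ?_, ?_, hdG, ?_, ?_, ?_, ?_⟩
  · intro y k
    unfold Gim
    split_ifs with h1 h2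
    · refine (totalDegree_add _ _).trans (max_le ?_ ?_)
      · exact (Pool.LBK.deg_tr c _).trans ((hp.Pdeg _ _).trans (le_max_left _ _))
      · rw [totalDegree_C]
        exact Nat.zero_le _
    · exact (Pool.LBK.deg_tr c _).trans ((hU y).2.trans (le_max_right _ _))
    · rw [totalDegree_zero]
      exact Nat.zero_le _
  · intro s k
    unfold Him
    split_ifs with h1 h2
    · refine (totalDegree_add _ _).trans (max_le ?_ ?_)
      · exact (Pool.LBK.deg_tr c _).trans ((hp.Ldeg _ _).trans (le_max_left _ _))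
      · refine (deg_aevX _).trans ?_
        unfold mu
        refine (Polynomial.natDegree_sub_le _ _).trans (max_le ?_ ?_)
        · exact (pc_deg c s _).trans (hK.trans (le_max_left _ _))
        · exact (Pool.KBX.natDegree_aeval_le _ _ (pc_deg c s) (hp.Ldeg _ _)).trans
            (le_max_left _ _)
    · exact (Pool.LBK.deg_tr c _).trans ((hQ s).2.trans (le_max_right _ _))
    · rw [totalDegree_zero]
      exact Nat.zero_le _
  · intro s k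
    unfold Him
    split_ifs with h1 h2
    · intro b b' h0 hb
      rw [map_add, map_add, eval_aevX, eval_aevX, h0,
        Pool.LBK.dep_tr (hp.Ltri _ (k + 1)) b b' h0 hb]
    · rw [h2]
      exact Pool.LBK.dep_tr (hQ s).1
    · intro b b' _ _
      rw [map_zero, map_zero]
  · -- the samples
    intro ω hω k hk
    obtain ⟨m1, m2, m3, m4⟩ := main ω hω _ rfl _ rfl _ rfl
    rcases Nat.lt_succ_iff_lt_or_eq.1 hk with hk | rfl
    · unfold Gim gim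
      rw [if_pos hk, if_pos hk, map_add, eval_C, hbt ω _ (k + 1) (by omega)
        ((hp.Ptri _ (k + 1)).trans (Finset.range_mono (by omega)))]
      have h1 := m3 (k + 1) (by omega) (by omega)
      have h2 := m4 (k + 1) (by omega) (by omega)
      have h3 : cx F (fun i => c (i - 1)) ω (k + 1) = F.x ω (c k) := if_neg (by omega)
      rw [← h3]
      have h4 : (1 + 2 ^ C₂ : ℝ) / 2 ^ (g₁ (k + 1) + m') ≤
          1 / 2 ^ (g₁ (k + 1) + m' - (k + 1) * c₄) := by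
        rw [div_le_div_iff₀ (p2 _) (p2 _), one_mul]
        have h5 : (1 + 2 ^ C₂ : ℝ) ≤ 2 ^ ((k + 1) * c₄) := by
          have h6 : (2 : ℝ) ^ (C₂ + 2) = 4 * 2 ^ C₂ := by rw [pow_add]; ring
          rw [h6] at hC4'
          have h7 : (1 + 2 ^ C₂ : ℝ) ≤ 2 ^ c₄ := by linarith
          refine h7.trans (pow_le_pow_right₀ (by norm_num) ?_)
          calc c₄ = 1 * c₄ := (Nat.one_mul _).symm
            _ ≤ (k + 1) * c₄ := Nat.mul_le_mul_right _ (by omega)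
        calc (1 + 2 ^ C₂ : ℝ) * 2 ^ (g₁ (k + 1) + m' - (k + 1) * c₄) ≤
            2 ^ ((k + 1) * c₄) * 2 ^ (g₁ (k + 1) + m' - (k + 1) * c₄) :=
              mul_le_mul_of_nonneg_right h5 (p2 _).le
          _ = 2 ^ (g₁ (k + 1) + m') := by
              rw [← pow_add]
              congr 1
              have h8 : (k + 1) * c₄ ≤ m' := (Nat.mul_le_mul_right _ (by omega)).trans hm
              omega
      refine le_trans ?_ h4
      rw [add_div]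
      rw [abs_le] at h1 h2 ⊢
      constructor <;> linarith [h1.1, h1.2, h2.1, h2.2]
    · unfold Gim gim
      rw [if_neg (lt_irrefl _), if_pos rfl, if_neg (lt_irrefl _), hbt ω _ k le_rfl (hU _).1]
      have h3 : cx F (fun i => c (i - 1)) ω (k + 1) = F.x ω (c k) := if_neg (by omega)
      rw [← h3]
      have h1 := hpos ω hω
      have h2 := hagr ω hω (cx F (fun i => c (i - 1)) ω) (fun i hi => by
        rw [abs_sub_comm]
        refine (m2 i (by omega)).trans (div_le_div_of_nonneg_right ?_ (p2 _).le)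
        have h6 : (2 : ℝ) ^ (C₂ + 2) = 4 * 2 ^ C₂ := by rw [pow_add]; ring
        rw [h6] at hC4'
        have h7 : (1 + 2 ^ C₂ : ℝ) ≤ 2 ^ c₄ := by linarith
        refine h7.trans (pow_le_pow_right₀ (by norm_num) ?_)
        calc c₄ = 1 * c₄ := (Nat.one_mul _).symm
          _ ≤ k * c₄ := Nat.mul_le_mul_right _ hn₀)
      have h4 : (1 : ℝ) / 2 ^ (Pn - 1) = 1 / 2 ^ Pn + 1 / 2 ^ Pn := by
        obtain ⟨q, rfl⟩ : ∃ q, Pn = q + 1 := ⟨Pn - 1, by omega⟩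
        rw [Nat.add_sub_cancel, pow_succ]
        field_simp
        norm_num
      rw [h4]
      rw [abs_le] at h1 h2 ⊢
      constructor <;> linarith [h1.1, h1.2, h2.1, h2.2]
  · -- the agreement
    intro ω hω k hk b hb
    obtain ⟨m1, m2, m3, m4⟩ := main ω hω _ rfl _ rfl _ rfl
    have hnb := hnat ω hω k (by omega) b hb
    rcases Nat.lt_succ_iff_lt_or_eq.1 hk with hk | rfl
    · obtain ⟨Φ, hΦ⟩ : ∃ Φ, Φ = P (z (ptr F J ω)) := ⟨_, rfl⟩
      obtain ⟨Λ, hΛ⟩ : ∃ Λ, Λ = PL (zL (slam F w ω)) := ⟨_, rfl⟩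
      obtain ⟨x, hx⟩ : ∃ x, x = cx F (fun i => c (i - 1)) ω := ⟨_, rfl⟩
      obtain ⟨xx, hxx⟩ : ∃ xx, xx = xq c (ptr F J ω) := ⟨_, rfl⟩
      obtain ⟨β, hβ⟩ : ∃ β, β = b ∘ Pool.LBK.vc c := ⟨_, rfl⟩
      have hline := hp.line ω hω (k + 1) (by omega) (by omega)
      have hpth := hp.pth ω hω (k + 1) (by omega) (by omega) (b none) hb.1
      rw [← hΛ] at hpth hline
      have hmt : (mu c (slam F w ω) (Λ (k + 1)) (k + 1)).eval (F.t ω) =
          x (k + 1) - eval x (Λ (k + 1)) := by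
        rw [mu_t, hx]
      rw [hmt] at hpth
      unfold Gim Him gim
      rw [if_pos hk, if_pos hk, if_pos hk, map_add, map_add, eval_C, eval_aevX,
        Pool.LBK.eval_tr, Pool.LBK.eval_tr, hcr, hmuE, ← hΛ, ← hΦ, ← hxx, ← hβ]
      rw [← hΦ, ← hx] at m1
      rw [← hΦ, ← hx, ← hxx] at m2 m3
      rw [← hx, ← hxx] at m4
      rw [← hΦ, ← hβ, ← hxx] at hnb
      rw [← hΦ] at hline
      -- natural boxes
      have hTri : TriN Φ := by rw [hΦ]; exact hp.Ptri _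
      have hDg : ∀ j, (Φ j).totalDegree ≤ K := fun j => by rw [hΦ]; exact hp.Pdeg _ _
      have bx : Bxr 2 g₁ Φ (k + 1) x := fun j hj => nc_le.1 ((m1 j (by omega)).trans (by norm_num))
      have bxx : ∀ j < k + 1, |nc g₁ Φ xx j| ≤ 1 + (1 + 2 ^ C₂) / 2 ^ m' := fun j hj => by
        have h1 := m1 j (by omega)
        have h2 := m2 j (by omega)
        rw [abs_le] at h1 h2 ⊢
        constructor <;> linarith [h1.1, h1.2, h2.1, h2.2]
      have hs1 : (1 + 2 ^ C₂ : ℝ) / 2 ^ m' ≤ 1 / 4 := by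
        have e1 : (4 * 2 ^ C₂ + 8 : ℝ) / 2 ^ m' = 4 * ((1 + 2 ^ C₂) / 2 ^ m') + 4 / 2 ^ m' := by
          ring
        rw [e1] at hsm
        have : (0 : ℝ) ≤ 4 / 2 ^ m' := by positivity
        linarith
      have hkc : (2 : ℝ) ^ (k * c₄) / 2 ^ m' ≤ 1 / 8 := by
        rw [div_le_div_iff₀ (p2 _) (by norm_num), one_mul]
        have e1 : (2 : ℝ) ^ (k * c₄) * 8 ≤ 2 ^ (k * c₄) * 2 ^ c₄ := by
          refine mul_le_mul_of_nonneg_left ?_ (p2 _).le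
          have : (0 : ℝ) < 2 ^ (C₂ + 2) := by positivity
          linarith
        refine e1.trans ?_
        rw [← pow_add]
        refine pow_le_pow_right₀ (by norm_num) ?_
        have e2 : (k + 1) * c₄ = k * c₄ + c₄ := by ring
        have e3 : (k + 1) * c₄ ≤ (n₀ + 1) * c₄ := Nat.mul_le_mul_right _ (by omega)
        omega
      have hnb' : ∀ j < k + 1, |nc g₁ Φ β j - nc g₁ Φ xx j| ≤ 2 ^ (k * c₄) / 2 ^ m' := fun j hj =>
        (hnb j hj).trans (div_le_div_of_nonneg_right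
          (pow_le_pow_right₀ (by norm_num) (Nat.mul_le_mul_right _ (by omega))) (p2 _).le)
      have bxx' : Bxr 2 g₁ Φ (k + 1) xx := fun j hj => nc_le.1 ((bxx j hj).trans (by linarith))
      have bβ : Bxr 2 g₁ Φ (k + 1) β := fun j hj => nc_le.1 (by
        have h1 := bxx j hj
        have h2 := hnb' j hj
        rw [abs_le] at h1 h2 ⊢
        constructor <;> linarith [h1.1, h1.2, h2.1, h2.2])
      -- the difference of the two labels
      obtain ⟨Δ, hΔ⟩ : ∃ Δ, Δ = Φ (k + 1) - Λ (k + 1) := ⟨_, rfl⟩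
      have hΔv : Δ.vars ⊆ range (k + 1) := by
        rw [hΔ, hΛ]
        exact AdxRow.vars_sub_le (hTri (k + 1)) (hp.Ltri _ (k + 1))
      have hΔd : Δ.totalDegree ≤ K := by
        rw [hΔ, hΛ]
        exact (totalDegree_sub _ _).trans (max_le (hDg _) (hp.Ldeg _ _))
      have hΔb : ∀ b : ℕ → ℝ, Bxr 1 g₁ Φ (k + 1) b → |eval b Δ| ≤ 2 ^ C₂ / 2 ^ g₁ (k + 1) := by
        intro b hb
        rw [hΔ, map_sub, abs_sub_comm]
        exact hline b hb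
      have d1 := hlip Φ g₁ Δ (k + 1) (2 ^ C₂ / 2 ^ g₁ (k + 1)) (2 ^ (k * c₄) / 2 ^ m') hTri hDg
        (by omega) hΔv hΔd (by positivity) hΔb xx β bxx' bβ hnb'
      have d2 := hlip Φ g₁ Δ (k + 1) (2 ^ C₂ / 2 ^ g₁ (k + 1)) ((1 + 2 ^ C₂) / 2 ^ m') hTri hDg
        (by omega) hΔv hΔd (by positivity) hΔb x xx bx bxx' (fun j hj => m2 j (by omega))
      have d3 := m3 (k + 1) (by omega) (by omega)
      have d4 := m4 (k + 1) (by omega) (by omega)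
      have e0 : ∀ y : ℕ → ℝ, eval y Δ = eval y (Φ (k + 1)) - eval y (Λ (k + 1)) := fun y => by
        rw [hΔ, map_sub]
      rw [e0, e0] at d1 d2
      have e1 : eval β (Φ (k + 1)) + (xx (k + 1) - eval xx (Φ (k + 1))) -
          (eval β (Λ (k + 1)) + (mu c (slam F w ω) (Λ (k + 1)) (k + 1)).eval (b none)) =
          ((eval β (Φ (k + 1)) - eval β (Λ (k + 1))) -
            (eval xx (Φ (k + 1)) - eval xx (Λ (k + 1)))) + (xx (k + 1) - x (k + 1)) -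
          (eval xx (Φ (k + 1)) - eval x (Φ (k + 1))) +
          ((eval xx (Φ (k + 1)) - eval xx (Λ (k + 1))) -
            (eval x (Φ (k + 1)) - eval x (Λ (k + 1)))) +
          (x (k + 1) - eval x (Λ (k + 1)) -
            (mu c (slam F w ω) (Λ (k + 1)) (k + 1)).eval (b none)) := by ring
      rw [e1]
      obtain ⟨q, hq⟩ : ∃ q : ℝ, q = 1 / 2 ^ (g₁ (k + 1) + m') := ⟨_, rfl⟩
      have hq0 : 0 < q := by rw [hq]; positivity
      have q1 : Cn * (2 ^ C₂ / 2 ^ g₁ (k + 1)) * (2 ^ (k * c₄) / 2 ^ m') =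
          Cn * 2 ^ C₂ * 2 ^ (k * c₄) * q := by
        rw [hq, pow_add]
        field_simp
      have q2 : Cn * (2 ^ C₂ / 2 ^ g₁ (k + 1)) * ((1 + 2 ^ C₂) / 2 ^ m') =
          Cn * 2 ^ C₂ * (1 + 2 ^ C₂) * q := by
        rw [hq, pow_add]
        field_simp
      have q3 : (2 : ℝ) ^ C₂ / 2 ^ (g₁ (k + 1) + m') = 2 ^ C₂ * q := by
        rw [hq]
        ring
      rw [q1] at d1
      rw [q2] at d2
      rw [q3] at d3
      rw [← hq] at d4 hpth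
      have q4 : (1 : ℝ) / 2 ^ (g₁ (k + 1) + m' - (k + 1) * c₄) = 2 ^ ((k + 1) * c₄) * q := by
        rw [hq, mul_one_div, div_eq_div_iff (p2 _).ne' (p2 _).ne', one_mul, ← pow_add]
        congr 1
        have h8 : (k + 1) * c₄ ≤ m' := (Nat.mul_le_mul_right _ (by omega)).trans hm
        omega
      rw [q4]
      have q5 : Cn * 2 ^ C₂ * 2 ^ (k * c₄) + (1 + (2 ^ C₂ + (Cn * 2 ^ C₂ * (1 + 2 ^ C₂) + 1))) ≤
          (2 : ℝ) ^ ((k + 1) * c₄) := by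
        have r1 : (1 : ℝ) ≤ 2 ^ (k * c₄) := one_le_pow₀ (by norm_num)
        have r2 : (2 : ℝ) ^ ((k + 1) * c₄) = 2 ^ (k * c₄) * 2 ^ c₄ := by
          rw [← pow_add]
          congr 1
          ring
        rw [r2]
        have r3 : (2 : ℝ) ^ (k * c₄) * (2 ^ (C₂ + 2) + 8 + Cn * 2 ^ C₂ * (3 + 2 ^ C₂)) ≤
            2 ^ (k * c₄) * 2 ^ c₄ := mul_le_mul_of_nonneg_left hC4 (p2 _).le
        refine le_trans ?_ r3
        have r4 : (2 : ℝ) ^ (C₂ + 2) = 4 * 2 ^ C₂ := by rw [pow_add]; ring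
        rw [r4]
        have r5 : 0 ≤ Cn * 2 ^ C₂ := by positivity
        have r6 : (1 + (2 ^ C₂ + (Cn * 2 ^ C₂ * (1 + 2 ^ C₂) + 1)) : ℝ) ≤
            2 ^ (k * c₄) * (1 + (2 ^ C₂ + (Cn * 2 ^ C₂ * (1 + 2 ^ C₂) + 1))) :=
          le_mul_of_one_le_left (by positivity) r1
        have r7 : (2 : ℝ) ^ (k * c₄) * (4 * 2 ^ C₂ + 8 + Cn * 2 ^ C₂ * (3 + 2 ^ C₂)) =
            Cn * 2 ^ C₂ * 2 ^ (k * c₄) +
              2 ^ (k * c₄) * (1 + (2 ^ C₂ + (Cn * 2 ^ C₂ * (1 + 2 ^ C₂) + 1))) +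
              2 ^ (k * c₄) * (3 * 2 ^ C₂ + 6 + Cn * 2 ^ C₂) := by ring
        rw [r7]
        have r8 : 0 ≤ (2 : ℝ) ^ (k * c₄) * (3 * 2 ^ C₂ + 6 + Cn * 2 ^ C₂) := by positivity
        linarith
      have q6 := mul_le_mul_of_nonneg_right q5 hq0.le
      refine le_trans ?_ q6
      have q7 : (Cn * 2 ^ C₂ * 2 ^ (k * c₄) + (1 + (2 ^ C₂ + (Cn * 2 ^ C₂ * (1 + 2 ^ C₂) + 1)))) *
          q = Cn * 2 ^ C₂ * 2 ^ (k * c₄) * q + q + 2 ^ C₂ * q +
            Cn * 2 ^ C₂ * (1 + 2 ^ C₂) * q + q := by ring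
      rw [q7]
      rw [abs_le] at d1 d2 d3 d4 hpth ⊢
      constructor <;> linarith [d1.1, d1.2, d2.1, d2.2, d3.1, d3.2, d4.1, d4.2, hpth.1, hpth.2]
    · unfold Gim Him gim
      rw [if_neg (lt_irrefl _), if_pos rfl, if_neg (lt_irrefl _), if_pos rfl,
        if_neg (lt_irrefl _), Pool.LBK.eval_tr, Pool.LBK.eval_tr]
      refine (hagr ω hω (b ∘ Pool.LBK.vc c) fun i hi => ?_).trans ?_
      · exact (hnb i hi).trans (div_le_div_of_nonneg_right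
          (pow_le_pow_right₀ (by norm_num) (Nat.mul_le_mul_right _ (by omega))) (p2 _).le)
      · exact one_div_le_one_div_of_le (p2 _) (pow_le_pow_right₀ (by norm_num) (Nat.sub_le _ _))
  · intro ω hω k hk b hb k' hk'
    exact he ω k hk b hb k' hk'

end Pool.TGT
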