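import Pool.Agent.H45.REC.Tcg
import Pool.Agent.H54.GN.Lb
import Pool.Agent.H89.TGT.Dil

/-!
# Closed labels with a record

`Lbr`: closed labels which are functions of the point and of a record, robust under rounding of the
position. `lbr_of`: the closed labels of a zoom (window, tube, record) are such labels of the family;
the record consists of the record of the zoom and of the digits of the velocities.
-/

set_option autoImplicit false

namespace Pool.TGT

open Finset Real MvPolynomial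
open Pool.Agent.H49.Ent Pool.Agent.H32.Dense Pool.STK Pool.BFL Pool.KA Pool.KSAT Pool.K2S Pool.PB
open Pool.GEN Pool.S6C Pool.REX Pool.GRW

variable {m n J : ℕ}

/-- **Closed labels of the coordinate `k` over the coordinates in `I` with the record `yd`**: the
label is a function of the point and of the record, and a function of the line in the window; it is
valid at all points near the position. -/
structure Lbr (F : Fam m J) (I : Finset (Fin m)) (k : Fin m) (K w P : ℕ) {κ : Type}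
    (yd : F.Ω → κ) (A : F.Ω → Prop) {V : Type} (z : PtT F → κ → V) (z' : LnT F → V)
    (G : V → MvPolynomial (Option (Fin m)) ℝ) : Prop where
  deg : ∀ v, (G v).totalDegree ≤ K
  dep : ∀ v, ∀ b b' : Option (Fin m) → ℝ, b none = b' none →
    (∀ i ∈ I, b (some i) = b' (some i)) → eval b (G v) = eval b' (G v)
  cls : ∀ ω, A ω → z (ptr F J ω) (yd ω) = z' (slam F w ω)
  pos : ∀ ω, A ω → ∀ b : Option (Fin m) → ℝ, (∀ o, |b o - bt F ω o| ≤ 1 / 2 ^ J) →
    |F.x ω k - eval b (G (z' (slam F w ω)))| ≤ 1 / 2 ^ P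

section

variable {F : Fam m J} {I : Finset (Fin m)} {k : Fin m} {K w P : ℕ} {κ : Type}
  {yd : F.Ω → κ} {A : F.Ω → Prop} {V : Type} {z : PtT F → κ → V} {z' : LnT F → V}
  {G : V → MvPolynomial (Option (Fin m)) ℝ}

theorem Lbr.sub {B : F.Ω → Prop} (h : Lbr F I k K w P yd A z z' G) (hB : Sub B A) :
    Lbr F I k K w P yd B z z' G :=
  ⟨h.deg, h.dep, fun ω hω => h.cls ω (hB ω hω), fun ω hω => h.pos ω (hB ω hω)⟩

theorem Lbr.mono {K' P' : ℕ} (h : Lbr F I k K w P yd A z z' G) (hK : K ≤ K') (hP : P' ≤ P) :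
    Lbr F I k K' w P' yd A z z' G :=
  ⟨fun v => (h.deg v).trans hK, h.dep, h.cls, fun ω hω b hb => (h.pos ω hω b hb).trans
    (inv_mono hP)⟩

/-- Smaller windows. -/
theorem Lbr.win {w' : ℕ} (h : Lbr F I k K w P yd A z z' G) (hw : w ≤ w') (hw' : w' ≤ J) :
    Lbr F I k K w' P yd A z (fun s => z' (s.1, s.2.1, s.2.2 / 2 ^ (w' - w))) G := by
  have e : ∀ ω, ((slam F w' ω).1, (slam F w' ω).2.1, (slam F w' ω).2.2 / 2 ^ (w' - w)) =
      slam F w ω := fun ω => (slam_coarse F hw hw' ω).symm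
  refine ⟨h.deg, h.dep, fun ω hω => ?_, fun ω hω b hb => ?_⟩
  · simp only [e]
    exact h.cls ω hω
  · simp only [e]
    exact h.pos ω hω b hb

/-- A finer record. -/
theorem Lbr.fine {κ' : Type} {yd' : F.Ω → κ'} (φ : κ' → κ) (hφ : ∀ ω, A ω → yd ω = φ (yd' ω))
    (h : Lbr F I k K w P yd A z z' G) : Lbr F I k K w P yd' A (fun u v => z u (φ v)) z' G :=
  ⟨h.deg, h.dep, fun ω hω => by rw [← hφ ω hω]; exact h.cls ω hω, h.pos⟩

end

/-- **The point of the zoom is a function of the point and of the record** (`ptr_part`). -/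
def PtDet (F : Fam m J) {B P : ℕ} (hP : P ≤ J - B) {κ : Type} (y : F.Ω → κ) (ε : Fin n → Fin m)
    (A : F.Ω → Prop) : Prop :=
  ∀ ω ω', A ω → A ω' → ptr (F.cnd (ydg F y ε P)) J ω = ptr (F.cnd (ydg F y ε P)) J ω' →
    ptr (zmV F hP y ε) (J - B - P) ω = ptr (zmV F hP y ε) (J - B - P) ω' ∧
    F.T1 B ω = F.T1 B ω' ∧ fl B (F.x1 B ω) = fl B (F.x1 B ω') ∧
    (∀ k, ((F.win B).L P ω).1 (ε k) = ((F.win B).L P ω').1 (ε k)) ∧
    ∀ k, ((F.win B).L P ω).2 (ε k) = ((F.win B).L P ω').2 (ε k)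

theorem PtDet.sub {F : Fam m J} {B P : ℕ} {hP : P ≤ J - B} {κ : Type} {y : F.Ω → κ}
    {ε : Fin n → Fin m} {A A' : F.Ω → Prop} (h : PtDet F hP y ε A) (hA : Sub A' A) :
    PtDet F hP y ε A' := fun ω ω' hω hω' => h ω ω' (hA ω hω) (hA ω' hω')

/-- The data of the substitution. -/
noncomputable def dsub (F : Fam m J) (B P : ℕ) (ε : Fin n → Fin m) (ω : F.Ω) :
    ℕ × (Fin n → ℝ) × (Fin n → ℝ) :=
  (F.T1 B ω, (fun k => 2 ^ P * (fl B (F.x1 B ω) (ε k) : ℝ) + (((F.win B).L P ω).1 (ε k) : ℝ)),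
    fun k => (((F.win B).L P ω).2 (ε k) : ℝ))

/-- **The closed labels of a zoom are labels of the family with a record.** They are functions of
the labels of the zoom and of the data of the substitution. -/
theorem lbr_ofD (n K : ℕ) : ∃ c₀ : ℕ, ∀ {m J : ℕ} (F : Fam m J) {B P : ℕ} (_ : B ≤ J)
    (hP : P ≤ J - B) {κ : Type} (y : F.Ω → κ)
    (_ : ∀ ω ω' : F.Ω, slam F B ω = slam F B ω' → y ω = y ω') {ε : Fin n → Fin m}
    {I : Finset (Fin n)} {k : Fin n} {e w ρ P₁ : ℕ} {A : F.Ω → Prop} {V : Type}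
    {z : PtT (zmV F hP y ε) → V} {z' : LnT (zmV F hP y ε) → V}
    {G : V → MvPolynomial (Option (Fin n)) ℝ},
    PtDet F hP y ε A → LbOK (zmV F hP y ε) I k K e (J - B - P) w ρ P₁ A z z' G →
    w ≤ J - B - P → ρ ≤ J - B - P → 1 ≤ P₁ → P₁ + e + c₀ ≤ J - B - P →
    ∃ (V' : Type) (zz : PtT F → κ × (Fin n → ℤ) → V') (zz' : LnT F → V')
      (GG : V' → MvPolynomial (Option (Fin m)) ℝ),
      Lbr F (I.image ε) (ε k) (K + 1) (B + w) (B + P + (P₁ - 1)) (ydg F y ε P) A zz zz' GG ∧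
      ∀ ω ω', A ω → A ω' → z' (slam (zmV F hP y ε) w ω) = z' (slam (zmV F hP y ε) w ω') →
        dsub F B P ε ω = dsub F B P ε ω' → zz' (slam F (B + w) ω) = zz' (slam F (B + w) ω') := by
  classical
  obtain ⟨C, hC, hdil⟩ := dilσ K 4 (by norm_num)
  obtain ⟨c₀, hc₀⟩ := pow_unbounded_of_one_lt (2 + 3 * C * (n + 1)) (one_lt_two (α := ℝ))
  refine ⟨c₀, ?_⟩
  intro m J F B P hB hP κ y hy ε I k e w ρ P₁ A V z z' G hpd h hw hρ hP1 hsz
  obtain ⟨val, hval⟩ : ∃ val : F.Ω → V × ℕ × (Fin n → ℝ) × (Fin n → ℝ), val = fun ω =>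
    (z' (slam (zmV F hP y ε) w ω), dsub F B P ε ω) := ⟨_, rfl⟩
  obtain ⟨yp, hyp⟩ := fac (f := ptr (F.cnd (ydg F y ε P)) J) (Y := val) (B := A) (by
    intro ω ω' hω hω' hpt
    obtain ⟨e1, e2, e3, e4, e5⟩ := hpd ω ω' hω hω' hpt
    rw [hval]
    unfold dsub
    beta_reduce
    rw [← h.cls ω hω, ← h.cls ω' hω', e1, e2]
    simp only [e3, e4, e5])
  obtain ⟨yl, hyl⟩ := fac (f := slam F (B + w)) (Y := val) (B := A) (by
    intro ω ω' hω hω' hsl
    have k6 := zmV_of_slam F hP y ε hB (by omega) hy hsl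
    obtain ⟨e2, e3, e4, e5⟩ := dat_of_zmV F hP y ε k6
    rw [hval]
    unfold dsub
    beta_reduce
    rw [k6, e2]
    simp only [e3, e4, e5])
  obtain ⟨Gf, hGf⟩ : ∃ Gf : Option (V × ℕ × (Fin n → ℝ) × (Fin n → ℝ)) →
      MvPolynomial (Option (Fin m)) ℝ, Gf = fun o => match o with
    | none => 0
    | some v => qst B (B + P) v.2.1 v.2.2.1 v.2.2.2 ε (G v.1) k := ⟨_, rfl⟩
  refine ⟨Option (V × ℕ × (Fin n → ℝ) × (Fin n → ℝ)), fun u v => yp (u.1, u.2.1, (v, u.2.2)), yl,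
    Gf, ⟨fun o => ?_, fun o b b' hn hb => ?_, fun ω hω => ?_, fun ω hω b hb => ?_⟩,
    fun ω ω' hω hω' h1 h2 => by
      rw [hyl ω hω, hyl ω' hω', hval]
      show some (z' (slam (zmV F hP y ε) w ω), dsub F B P ε ω) =
        some (z' (slam (zmV F hP y ε) w ω'), dsub F B P ε ω')
      rw [h1, h2]⟩
  · rw [hGf]
    rcases o with _ | v
    · show (0 : MvPolynomial (Option (Fin m)) ℝ).totalDegree ≤ _
      rw [totalDegree_zero]
      exact Nat.zero_le _
    · exact deg_qst (h.deg v.1)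
  · rw [hGf]
    rcases o with _ | v
    · show eval b (0 : MvPolynomial (Option (Fin m)) ℝ) = eval b' 0
      rw [map_zero, map_zero]
    · show eval b (qst B (B + P) v.2.1 v.2.2.1 v.2.2.2 ε (G v.1) k) =
        eval b' (qst B (B + P) v.2.1 v.2.2.1 v.2.2.2 ε (G v.1) k)
      rw [eval_qst, eval_qst, hn]
      congr 3
      refine h.dep _ _ _ ?_ fun i hi => ?_
      · rw [eval_sbt_none, eval_sbt_none, hn]
      · rw [eval_sbt_some, eval_sbt_some, hn, hb (ε i) (mem_image_of_mem ε hi)]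
  · have e1 : yp ((ptr F J ω).1, (ptr F J ω).2.1, (ydg F y ε P ω, (ptr F J ω).2.2)) =
        some (val ω) := hyp ω hω
    rw [hyl ω hω]
    exact e1
  · rw [hyl ω hω, hGf]
    show |F.x ω (ε k) - eval b (qst B (B + P) (val ω).2.1 (val ω).2.2.1 (val ω).2.2.2 ε
      (G (val ω).1) k)| ≤ _
    obtain ⟨a, ha⟩ : ∃ a : ℝ, a = ((val ω).2.1 : ℝ) := ⟨_, rfl⟩
    obtain ⟨cv, hcv⟩ : ∃ cv, cv = (val ω).2.2.1 := ⟨_, rfl⟩
    obtain ⟨vv, hvv⟩ : ∃ vv, vv = (val ω).2.2.2 := ⟨_, rfl⟩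
    have hv1 : (val ω).1 = z' (slam (zmV F hP y ε) w ω) := by rw [hval]
    rw [← ha, ← hcv, ← hvv, hv1]
    have ha' : a = F.T1 B ω := by rw [ha, hval]; rfl
    have hcv' : cv = fun k => 2 ^ P * (fl B (F.x1 B ω) (ε k) : ℝ) +
        (((F.win B).L P ω).1 (ε k) : ℝ) := by rw [hcv, hval]; rfl
    have hvv' : vv = fun k => (((F.win B).L P ω).2 (ε k) : ℝ) := by rw [hvv, hval]; rfl
    have hvvb : ∀ j, |vv j| ≤ 2 ^ P := by
      intro j
      rw [hvv']
      show |((⌊(2 : ℝ) ^ P * F.d ω (ε j)⌋ : ℤ) : ℝ)| ≤ 2 ^ P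
      have d0 := abs_le.1 (F.dir ω (ε j))
      have p0 : (0 : ℝ) < 2 ^ P := by positivity
      rw [abs_le]
      constructor
      · have h1 : (-(2 ^ P : ℤ)) ≤ ⌊(2 : ℝ) ^ P * F.d ω (ε j)⌋ := by
          rw [Int.le_floor]
          push_cast
          nlinarith [d0.1]
        have h2 : (((-(2 ^ P : ℤ)) : ℤ) : ℝ) ≤ (⌊(2 : ℝ) ^ P * F.d ω (ε j)⌋ : ℤ) := by
          exact_mod_cast h1
        push_cast at h2
        exact h2
      · have h1 := Int.floor_le ((2 : ℝ) ^ P * F.d ω (ε j))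
        nlinarith [d0.2]
    obtain ⟨R, hR⟩ : ∃ R, R = J - B - P := ⟨_, rfl⟩
    rw [← hR] at hw hρ hsz
    have pR : (0 : ℝ) < 1 / 2 ^ R := by positivity
    -- the units
    have eJ : (2 : ℝ) ^ J = 2 ^ R * 2 ^ P * 2 ^ B := by
      rw [← pow_add, ← pow_add]
      congr 1
      omega
    have u1 : (2 : ℝ) ^ (B + P) * (1 / 2 ^ J) = 1 / 2 ^ R := by
      rw [eJ, pow_add]
      field_simp
    have u2 : (2 : ℝ) ^ B * (1 / 2 ^ J) ≤ 1 / 2 ^ R := by
      rw [← u1]
      refine mul_le_mul_of_nonneg_right ?_ (by positivity)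
      exact pow_le_pow_right₀ (by norm_num) (Nat.le_add_right _ _)
    -- the substituted points
    obtain ⟨s, hs⟩ : ∃ s : Option (Fin n) → ℝ, s = fun o =>
      eval b (sbt B (B + P) a cv vv ε o) := ⟨_, rfl⟩
    have hbn := hb none
    have hbn' : |b none - F.t ω| ≤ 1 / 2 ^ J := hbn
    have hbk : ∀ j : Fin m, |b (some j) - F.x ω j| ≤ 1 / 2 ^ J := fun j => hb (some j)
    have hvt : ∀ j, |vv j * (2 ^ B * (b none - F.t ω))| ≤ 1 / 2 ^ R := by
      intro j
      rw [abs_mul, abs_mul, abs_of_pos (by positivity : (0 : ℝ) < 2 ^ B), ← u1, pow_add]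
      calc |vv j| * (2 ^ B * |b none - F.t ω|) ≤ 2 ^ P * (2 ^ B * (1 / 2 ^ J)) :=
            mul_le_mul (hvvb j) (mul_le_mul_of_nonneg_left hbn' (by positivity)) (by positivity)
              (by positivity)
        _ = 2 ^ B * 2 ^ P * (1 / 2 ^ J) := by ring
    have hsz1 : ∀ o, |s o - zs F ε B P ω o| ≤ 2 * (1 / 2 ^ R) := by
      intro o
      rcases o with _ | j
      · have e1 : s none - zs F ε B P ω none = 2 ^ B * (b none - F.t ω) := by
          rw [hs]
          simp only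
          rw [eval_sbt_none, ha']
          show 2 ^ B * b none - (F.T1 B ω : ℝ) - (2 ^ B * F.t ω - F.T1 B ω) = _
          ring
        rw [e1, abs_mul, abs_of_pos (by positivity : (0 : ℝ) < 2 ^ B)]
        have := mul_le_mul_of_nonneg_left hbn' (by positivity : (0 : ℝ) ≤ 2 ^ B)
        linarith
      · have e1 : s (some j) - zs F ε B P ω (some j) = 2 ^ (B + P) * (b (some (ε j)) -
            F.x ω (ε j)) - vv j * (2 ^ B * (b none - F.t ω)) := by
          rw [hs]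
          simp only
          rw [eval_sbt_some, ha', hcv', hvv']
          show 2 ^ (B + P) * b (some (ε j)) - (2 ^ P * (fl B (F.x1 B ω) (ε j) : ℝ) +
            (((F.win B).L P ω).1 (ε j) : ℝ)) - (((F.win B).L P ω).2 (ε j) : ℝ) *
            (2 ^ B * b none - F.T1 B ω) - (2 ^ (B + P) * F.x ω (ε j) -
            (2 ^ P * (fl B (F.x1 B ω) (ε j) : ℝ) + (((F.win B).L P ω).1 (ε j) : ℝ)) -
            (((F.win B).L P ω).2 (ε j) : ℝ) * (2 ^ B * F.t ω - F.T1 B ω)) = _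
          ring
        have h1 : |(2 : ℝ) ^ (B + P) * (b (some (ε j)) - F.x ω (ε j))| ≤ 1 / 2 ^ R := by
          rw [abs_mul, abs_of_pos (by positivity : (0 : ℝ) < 2 ^ (B + P)), ← u1]
          exact mul_le_mul_of_nonneg_left (hbk _) (by positivity)
        have h2 := hvt j
        rw [e1]
        rw [abs_le] at h1 h2 ⊢
        constructor <;> linarith [h1.1, h1.2, h2.1, h2.2]
    have hzn : ∀ o, |bt (zmV F hP y ε) ω o - zs F ε B P ω o| ≤ 1 / 2 ^ R := fun o => by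
      rw [hR]
      exact zs_near F hP y ε hB ω o
    have hsb : ∀ o, |s o - bt (zmV F hP y ε) ω o| ≤ 3 * (1 / 2 ^ R) := by
      intro o
      have h1 := hsz1 o
      have h2 := hzn o
      rw [abs_le] at h1 h2 ⊢
      constructor <;> linarith [h1.1, h1.2, h2.1, h2.2]
    -- the gradients
    have hgr : ∀ x : Option (Fin n) → ℝ, (∀ o, |x o - bt (zmV F hP y ε) ω o| ≤ 4 * (1 / 2 ^ R)) →
        ∀ o, |eval x (pderiv o (G (z' (slam (zmV F hP y ε) w ω))))| ≤ C * 2 ^ e := by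
      intro x hx o
      refine hdil (Option (Fin n)) inferInstance _ (bt (zmV F hP y ε) ω) (1 / 2 ^ R) (2 ^ e)
        (Pool.GEN.totalDegree_pdσ (h.deg _) o) (fun y' hy' => ?_) x hx
      exact h.lip ω hω y' (fun o' => (hy' o').trans (inv_mono hρ)) o
    have hmv : |eval s (G (z' (slam (zmV F hP y ε) w ω))) -
        eval (bt (zmV F hP y ε) ω) (G (z' (slam (zmV F hP y ε) w ω)))| ≤
        C * 2 ^ e * ((n + 1) * (3 * (1 / 2 ^ R))) := by
      refine (mvσ _ _ _ (C * 2 ^ e) fun x hx o => hgr x (fun o' => ?_) o).trans ?_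
      · have h1 := (hx o').trans (hsb o')
        linarith
      · refine mul_le_mul_of_nonneg_left ?_ (by positivity)
        calc ∑ o, |s o - bt (zmV F hP y ε) ω o| ≤ ∑ _o : Option (Fin n), 3 * ((1 : ℝ) / 2 ^ R) :=
              Finset.sum_le_sum fun o _ => hsb o
          _ = _ := by
              rw [Finset.sum_const, Finset.card_univ, Fintype.card_option, Fintype.card_fin,
                nsmul_eq_mul]
              push_cast
              ring
    have k1 := sub_qst (w := B) (W := B + P) (a := a) (cv := cv) (vv := vv) (ε := ε)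
      (Q := G (z' (slam (zmV F hP y ε) w ω))) b k
    have k2 : eval b (sbt B (B + P) a cv vv ε (some k)) = s (some k) := by rw [hs]
    have k3 : (fun o => eval b (sbt B (B + P) a cv vv ε o)) = s := hs.symm
    rw [k2, k3] at k1
    have k5 := h.pos ω hω
    have k6 : (zmV F hP y ε).x ω k = bt (zmV F hP y ε) ω (some k) := rfl
    rw [k6] at k5
    -- the difference
    have e1 : 2 ^ (B + P) * (F.x ω (ε k) - eval b (qst B (B + P) a cv vv ε
        (G (z' (slam (zmV F hP y ε) w ω))) k)) =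
        (zs F ε B P ω (some k) - bt (zmV F hP y ε) ω (some k)) +
        (bt (zmV F hP y ε) ω (some k) - eval (bt (zmV F hP y ε) ω)
          (G (z' (slam (zmV F hP y ε) w ω)))) -
        (eval s (G (z' (slam (zmV F hP y ε) w ω))) -
        eval (bt (zmV F hP y ε) ω) (G (z' (slam (zmV F hP y ε) w ω)))) -
        vv k * (2 ^ B * (b none - F.t ω)) := by
      have e2 : s (some k) = 2 ^ (B + P) * b (some (ε k)) - cv k - vv k * (2 ^ B * b none - a) := by
        rw [hs]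
        simp only
        rw [eval_sbt_some]
      have e3 : zs F ε B P ω (some k) = 2 ^ (B + P) * F.x ω (ε k) - cv k -
          vv k * (2 ^ B * F.t ω - a) := by
        rw [hcv', hvv', ha']
        rfl
      rw [e3]
      rw [e2] at k1
      linarith
    have h6 := hzn (some k)
    have h7 := hvt k
    have h8 : C * 2 ^ e * ((n + 1) * (3 * (1 / 2 ^ R))) + 2 * (1 / 2 ^ R) ≤ 1 / 2 ^ P₁ := by
      obtain ⟨q, hq⟩ : ∃ q, R = P₁ + e + c₀ + q := ⟨R - (P₁ + e + c₀), by omega⟩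
      have h9 : (1 : ℝ) ≤ 2 ^ e := one_le_pow₀ (by norm_num)
      have h10 : (1 : ℝ) ≤ 2 ^ q := one_le_pow₀ (by norm_num)
      have e4 : C * 2 ^ e * ((n + 1) * (3 * (1 / 2 ^ R))) + 2 * ((1 : ℝ) / 2 ^ R) =
          (3 * C * (n + 1) * 2 ^ e + 2) / 2 ^ R := by ring
      rw [e4, div_le_div_iff₀ (by positivity) (by positivity), one_mul, hq, pow_add, pow_add,
        pow_add]
      have h11 : 3 * C * (n + 1) * 2 ^ e + 2 ≤ (2 + 3 * C * (n + 1)) * 2 ^ e := by nlinarith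
      have h12 : (2 + 3 * C * (n + 1)) * 2 ^ e ≤ 2 ^ c₀ * 2 ^ e :=
        mul_le_mul_of_nonneg_right hc₀.le (by positivity)
      calc (3 * C * (n + 1) * 2 ^ e + 2) * 2 ^ P₁ ≤ 2 ^ c₀ * 2 ^ e * 2 ^ P₁ :=
            mul_le_mul_of_nonneg_right (h11.trans h12) (by positivity)
        _ = 2 ^ P₁ * 2 ^ e * 2 ^ c₀ * 1 := by ring
        _ ≤ 2 ^ P₁ * 2 ^ e * 2 ^ c₀ * 2 ^ q := mul_le_mul_of_nonneg_left h10 (by positivity)
    have h13 : |2 ^ (B + P) * (F.x ω (ε k) - eval b (qst B (B + P) a cv vv ε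
        (G (z' (slam (zmV F hP y ε) w ω))) k))| ≤ 2 * (1 / 2 ^ P₁) := by
      rw [e1]
      rw [abs_le] at h6 h7 hmv k5 ⊢
      constructor <;> linarith [h6.1, h6.2, h7.1, h7.2, hmv.1, hmv.2, k5.1, k5.2]
    have p0 : (0 : ℝ) < 2 ^ (B + P) := by positivity
    rw [abs_mul, abs_of_pos p0] at h13
    have e5 : (1 : ℝ) / 2 ^ (B + P + (P₁ - 1)) = 2 * (1 / 2 ^ P₁) / 2 ^ (B + P) := by
      obtain ⟨p, rfl⟩ : ∃ p, P₁ = p + 1 := ⟨P₁ - 1, by omega⟩
      rw [Nat.add_sub_cancel, pow_add (2 : ℝ) (B + P) p, pow_succ]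
      field_simp
    rw [e5, le_div_iff₀ p0, mul_comm]
    exact h13

/-- **The closed labels of a zoom are labels of the family with a record.** -/
theorem lbr_of (n K : ℕ) : ∃ c₀ : ℕ, ∀ {m J : ℕ} (F : Fam m J) {B P : ℕ} (_ : B ≤ J)
    (hP : P ≤ J - B) {κ : Type} (y : F.Ω → κ)
    (_ : ∀ ω ω' : F.Ω, slam F B ω = slam F B ω' → y ω = y ω') {ε : Fin n → Fin m}
    {I : Finset (Fin n)} {k : Fin n} {e w ρ P₁ : ℕ} {A : F.Ω → Prop} {V : Type}
    {z : PtT (zmV F hP y ε) → V} {z' : LnT (zmV F hP y ε) → V}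
    {G : V → MvPolynomial (Option (Fin n)) ℝ},
    PtDet F hP y ε A → LbOK (zmV F hP y ε) I k K e (J - B - P) w ρ P₁ A z z' G →
    w ≤ J - B - P → ρ ≤ J - B - P → 1 ≤ P₁ → P₁ + e + c₀ ≤ J - B - P →
    ∃ (V' : Type) (zz : PtT F → κ × (Fin n → ℤ) → V') (zz' : LnT F → V')
      (GG : V' → MvPolynomial (Option (Fin m)) ℝ),
      Lbr F (I.image ε) (ε k) (K + 1) (B + w) (B + P + (P₁ - 1)) (ydg F y ε P) A zz zz' GG := by
  obtain ⟨c₀, h⟩ := lbr_ofD n K
  refine ⟨c₀, ?_⟩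
  intro m J F B P hB hP κ y hy ε I k e w ρ P₁ A V z z' G h1 h2 h3 h4 h5 h6
  obtain ⟨V', zz, zz', GG, h7, -⟩ := h F hB hP y hy h1 h2 h3 h4 h5 h6
  exact ⟨V', zz, zz', GG, h7⟩

end Pool.TGT
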