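import Pool.Agent.H89.TGT.EndC
import Pool.Agent.H78.MIC.Cel

/-!
# No improved chains, from the thresholds

`noCh_of`: `NoCh` from the thresholds of the chains with restricted sides.
-/

set_option autoImplicit false

namespace Pool.TGT

open Finset Real MvPolynomial Filter
open Pool.Agent.H49.Ent Pool.Agent.H32.Dense Pool.STK Pool.KA Pool.KSAT Pool.K2S Pool.PB
open Pool.PB.Trl Pool.STAT Pool.STAT.CLO Pool.GEN Pool.S6C
open Pool.CHB (chsysB)
open Pool.CHT (bet)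
open Pool.LBT (ThrOf)
open Pool.LEV (Law)

variable {m : ℕ}

/-- **No improved chains**, from the thresholds. -/
theorem noCh_of {S : PCl m} {β P : List (Fin m) × Fin m → ℝ → ℝ → ℝ}
    (hP : ThrOf (chsysB m none β) S P) {c : ℕ → Fin m} {n₀ : ℕ} {L : ℕ → ℝ → ℝ → ℝ}
    (hL : ∀ k < n₀, Law (L k)) (hLβ : ∀ k < n₀, ∀ a w : ℝ, bet β c k a w = L k a w)
    {a w wp t gn δ₀ : ℝ} {b : ℕ → ℝ} (hw0 : 0 ≤ w) (hwp : w < wp) (hwa : wp < a) (ht : 0 < t)
    (hat : a + t < 1) (hb : ∀ k < n₀, b k < L k a w ∧ b k + t < 1) (hδ₀ : 0 < δ₀)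
    (htar : ∀ a' w' : ℝ, a + t < a' → a' < a + t + δ₀ → wp < w' → w' < wp + δ₀ →
      bet P c n₀ a' w' + δ₀ < b n₀ + gn + (a' - a) ∧ bet P c n₀ a' w' + δ₀ < 1) :
    NoCh S c n₀ a wp t gn b := by
  classical
  intro K C
  -- the rational point
  obtain ⟨w', hw1, hw2⟩ := exists_rat_btwn (show wp < min (wp + δ₀) a from
    lt_min (by linarith) hwa)
  obtain ⟨a', ha1, ha2⟩ := exists_rat_btwn (show a + t < min (a + t + δ₀) 1 from
    lt_min (by linarith) hat)
  have hw2a : (w' : ℝ) < wp + δ₀ := hw2.trans_le (min_le_left _ _)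
  have hw2b : (w' : ℝ) < a := hw2.trans_le (min_le_right _ _)
  have ha2a : (a' : ℝ) < a + t + δ₀ := ha2.trans_le (min_le_left _ _)
  have ha2b : (a' : ℝ) < 1 := ha2.trans_le (min_le_right _ _)
  obtain ⟨t1, t2⟩ := htar a' w' ha1 ha2a hw1 hw2a
  -- the margin of the base
  obtain ⟨δ, hδ, hδb⟩ : ∃ δ : ℝ, 0 < δ ∧ ∀ k < n₀, b k + 2 * δ ≤ L k a w ∧ b k + t + 2 * δ ≤ 1 := by
    have h1 : ∀ n ≤ n₀, ∃ δ : ℝ, 0 < δ ∧ ∀ k < n, b k + 2 * δ ≤ L k a w ∧
        b k + t + 2 * δ ≤ 1 := by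
      intro n
      induction n with
      | zero => exact fun _ => ⟨1, one_pos, fun k hk => absurd hk (Nat.not_lt_zero k)⟩
      | succ n ih =>
        intro hn
        obtain ⟨δ, hδ, h2⟩ := ih (by omega)
        obtain ⟨h3, h4⟩ := hb n (by omega)
        refine ⟨min δ (min ((L n a w - b n) / 2) ((1 - (b n + t)) / 2)),
          lt_min hδ (lt_min (by linarith) (by linarith)), fun k hk => ?_⟩
        have e1 := min_le_left δ (min ((L n a w - b n) / 2) ((1 - (b n + t)) / 2))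
        have e2 := min_le_right δ (min ((L n a w - b n) / 2) ((1 - (b n + t)) / 2))
        have e3 := min_le_left ((L n a w - b n) / 2) ((1 - (b n + t)) / 2)
        have e4 := min_le_right ((L n a w - b n) / 2) ((1 - (b n + t)) / 2)
        rcases Nat.lt_succ_iff_lt_or_eq.1 hk with hk | rfl
        · obtain ⟨h5, h6⟩ := h2 k hk
          constructor <;> linarith
        · constructor <;> linarith
    exact h1 n₀ le_rfl
  obtain ⟨L', hL'⟩ : ∃ L' : ℕ → ℝ → ℝ → ℝ, L' = fun k => if k < n₀ then L k else bet P c n₀ :=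
    ⟨_, rfl⟩
  have hL'n : L' n₀ = bet P c n₀ := by
    rw [hL']
    exact if_neg (lt_irrefl n₀)
  have hL'k : ∀ k < n₀, L' k = L k := fun k hk => by
    rw [hL']
    exact if_pos hk
  have hno := CellL.no_of_B (S := S) hP (c := c) (l := n₀) (L := L')
    (fun x y => by rw [hL'n]) (fun k hk x y => by rw [hL'k k hk]; exact hLβ k hk x y) K a' w'
    (δ₀ / 2) δ (by
      have : (0 : ℝ) ≤ w' := by linarith
      exact_mod_cast this) (by
      have : (w' : ℝ) ≤ a' := by linarith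
      exact_mod_cast this) (by exact_mod_cast ha2b.le) (by linarith) hδ
    (by rw [hL'n]; linarith)
  have q1 := evl ha1 (|C| + 1)
  have q2 := evl hw1 (|C| + 1)
  have q3 := evl (show w < wp from hwp) |C|
  have q4 := evl (show (0 : ℝ) < min t δ from lt_min ht hδ) (|C| + 1)
  have q5 := evl (show bet P c n₀ a' w' + δ₀ / 2 + (a + t) < b n₀ + t + gn + a' by linarith)
    (|C| + 2)
  obtain ⟨J₁, hJ₁⟩ := Filter.eventually_atTop.1 (q1.and (q2.and (q3.and (q4.and q5))))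
  refine Bas.mono (max J₁ 1) hno ?_
  intro J hJ F A hno' a₀ w₀ e₀ g hwa₀ haJ hC1 hC2 hgJ hgk hgn hch
  obtain ⟨p1, p2, p3, p4, p5⟩ := hJ₁ J ((le_max_left _ _).trans hJ)
  have hJ1 : 1 ≤ J := (le_max_right _ _).trans hJ
  have hJ0 : (0 : ℝ) < J := by exact_mod_cast hJ1
  have hC : C ≤ |C| := le_abs_self C
  have c1 := abs_le.1 hC1
  have c2 := abs_le.1 hC2
  obtain ⟨Gc, Hc, hch'⟩ := hch
  refine hno' a₀ w₀ e₀ g Gc Hc ⟨hJ1, hwa₀, ?_, ?_, hgJ, fun k hk => ?_, ?_⟩ hch'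
  · refine Nat.le_floor ?_
    linarith
  · refine Nat.le_floor ?_
    linarith
  · rw [hL'k k hk]
    refine (hgk k hk).trans (le_trans ?_ (le_max_right _ _))
    refine mul_le_mul_of_nonneg_right ?_ hJ0.le
    obtain ⟨h5, h6⟩ := hδb k hk
    have haR : (a₀ : ℝ) ≤ J := by exact_mod_cast haJ
    have hwaR : (w₀ : ℝ) ≤ a₀ := by exact_mod_cast hwa₀
    have hmin1 : min t δ ≤ t := min_le_left _ _
    have hmin2 : min t δ ≤ δ := min_le_right _ _
    have e0 : min t δ * J ≤ t * J := mul_le_mul_of_nonneg_right hmin1 hJ0.le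
    have e1 : min t δ * J ≤ δ * J := mul_le_mul_of_nonneg_right hmin2 hJ0.le
    have e2 : a ≤ (a₀ : ℝ) / J := by
      rw [le_div_iff₀ hJ0]
      linarith
    have e3 : t - δ ≤ (a₀ : ℝ) / J - a := by
      rw [le_sub_iff_add_le, le_div_iff₀ hJ0]
      linarith
    have e4 : w ≤ (w₀ : ℝ) / J := by
      rw [le_div_iff₀ hJ0]
      linarith
    have e5 : (a₀ : ℝ) / J ≤ 1 := div_le_one_of_le₀ haR hJ0.le
    have e6 : (w₀ : ℝ) / J ≤ (a₀ : ℝ) / J := div_le_div_of_nonneg_right hwaR hJ0.le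
    have e7 := (hL k hk).slope a w ((a₀ : ℝ) / J - a) hw0 (by linarith) (by linarith)
      (by linarith)
    rw [add_sub_cancel] at e7
    have e8 := (hL k hk).mono_w ((a₀ : ℝ) / J) w ((w₀ : ℝ) / J) hw0 e4 e6 e5
    have e9 : b k + t + δ ≤ min 1 (L k a w + ((a₀ : ℝ) / J - a)) :=
      le_min (by linarith) (by linarith)
    linarith
  · rw [hL'n]
    have e1 : (⌊(bet P c n₀ a' w' + δ₀ / 2) * (J : ℝ)⌋₊ : ℝ) ≤
        max 0 ((bet P c n₀ a' w' + δ₀ / 2) * J) := by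
      rcases le_total 0 ((bet P c n₀ a' w' + δ₀ / 2) * (J : ℝ)) with h | h
      · exact (Nat.floor_le h).trans (le_max_right _ _)
      · rw [Nat.floor_of_nonpos h]
        push_cast
        exact le_max_left _ _
    have e2 : (a' : ℝ) * J - 1 ≤ (⌊(a' : ℝ) * J⌋₊ : ℝ) := fl2 _ J
    have e3 : ((⌊(bet P c n₀ a' w' + δ₀ / 2) * (J : ℝ)⌋₊ + a₀ : ℕ) : ℝ) ≤
        ((g n₀ + ⌊(a' : ℝ) * J⌋₊ : ℕ) : ℝ) := by
      push_cast
      rcases le_total 0 ((bet P c n₀ a' w' + δ₀ / 2) * (J : ℝ)) with h | h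
      · rw [max_eq_right h] at e1
        linarith
      · rw [max_eq_left h] at e1
        have hg0 : (0 : ℝ) ≤ g n₀ := Nat.cast_nonneg _
        linarith
    exact_mod_cast e3

end Pool.TGT
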