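import Pool.Agent.H89.TGT.Ntk
import Pool.Agent.H33.EXC.Yrh
import Pool.Agent.H72.OWN.ActV

/-!
# No label of the target above its level, at the boxes of a kit

`actF_of`: the activity near zero, in all subclasses. `labf_boxY`: the labels of the places have few
bits. `ntq_boxY`: `NtQ` at the places of a box, from the facts `BoxY` of the box.
-/

set_option autoImplicit false

namespace Pool.TGT

open Finset Real MvPolynomial Filter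
open Pool.Agent.H49.Ent Pool.Agent.H32.Dense Pool.STK Pool.KA Pool.KSAT Pool.K2S Pool.PB
open Pool.PB.Trl Pool.STAT Pool.STAT.CLO Pool.GEN Pool.S6C Pool.GEN.N83 Pool.REX83
open Pool.STR (NfB Nw)
open Pool.ALL (RateOf)
open Pool.CHT (TmH bet)
open Pool.CHB (chsysB)
open Pool.LBT (ThrOf)
open Pool.EXC33
open Pool.SUPA (FF)
open Pool.OWN72 (RecExh)

variable {m : ℕ} {Θ : Type*} {n₀ : ℕ}

/-- Smaller bounds of the windows and of the tubes. -/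
theorem zmq_mono {Kt : KitP m Θ n₀} {S : PCl m} {K' s₁ : ℕ} {sh : ℕ → ℕ} {N M : ℕ} {θ : ℝ} {p : Θ}
    {ka ξ ξ' : ℝ} {b : ℕ → ℕ → ℕ → ℝ} {e : ℕ → ℕ → ℝ} {i j : ℕ}
    (h : ZmQ Kt S K' s₁ sh N M θ p ka ξ b e i j) (hξ : ξ' ≤ ξ) :
    ZmQ Kt S K' s₁ sh N M θ p ka ξ' b e i j :=
  fun S' hne hsub d hd wp h1 h2 q h3 h4 V z z' hz =>
    h S' hne hsub d hd wp h1 (by linarith) q h3 (by linarith) V z z' hz

/-- `NtQ` from subclasses. -/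
theorem ntq_of_sub {Kt : KitP m Θ n₀} {S : PCl m} {K' s₁ : ℕ} {sh : ℕ → ℕ} {N M : ℕ} {θ : ℝ}
    {p : Θ} {ξ : ℝ} {b : ℕ → ℕ → ℕ → ℝ} {e : ℕ → ℕ → ℝ} {i j : ℕ}
    (h : ∀ S' : PCl m, S'.Ne →
      (∀ (τ : ℝ) (J : ℕ) (F : Fam m J) (A : F.Ω → Prop), S'.St τ J F A → S.St τ J F A) →
      ∃ S₁ : PCl m, S₁.Ne ∧
        (∀ (τ : ℝ) (J : ℕ) (F : Fam m J) (A : F.Ω → Prop), S₁.St τ J F A → S'.St τ J F A) ∧
        NtQ Kt S₁ K' s₁ sh N M θ p ξ b e i j) :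
    NtQ Kt S K' s₁ sh N M θ p ξ b e i j := by
  intro S' hne hsub d hd wp h1 h2 q h3 KQ hb
  obtain ⟨S₁, hne₁, hsub₁, h4⟩ := h S' hne hsub
  exact h4 S₁ hne₁ (fun _ _ _ _ hA => hA) d (fun τ J F A hA => hd τ J F A (hsub₁ τ J F A hA)) wp h1
    h2 q h3 KQ (hb.sub hsub₁)

/-- **The activity near zero**, in all subclasses. -/
theorem actF_of {al : ℝ} {g₀ : ℝ → ℝ} (hal : 0 < al) (hg₀ : ∀ e, 0 < e → 0 < g₀ e) {θ : ℝ}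
    (hθ : 0 < θ) :
    ∃ r₀ : ℝ, 0 < r₀ ∧ ∀ (n : ℕ) (S : PCl n),
      (∀ (τ : ℝ) (J : ℕ) (F : Fam n J) (A : F.Ω → Prop), S.St τ J F A → 0 < Pe F.p A) →
      ∀ (κ : Fin n) (Na : ℚ → ℚ → ℝ), ActM Na al g₀ → ActB Na S κ →
      ∀ P Q h : ℝ, 0 ≤ P → P < Q → Q ≤ r₀ → θ * Q ≤ Q - P →
      h / Real.log 2 < al * (Q - P) / 16 → Pool.TGT.ActF S κ P Q h := by
  obtain ⟨r₀, h0, -, h1⟩ := Pool.OWN72.act_ptF hal hg₀ hθ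
  refine ⟨r₀, h0, fun n S hpos κ Na hM hB P Q h hP hPQ hQ hθQ hh S' hne hsub => ?_⟩
  obtain ⟨S₃, Ns, hne₃, hsub₃, hN⟩ := actN_exists' hne
    (fun τ J F A hA => hpos τ J F A (hsub τ J F A hA))
  have hs₃ : ∀ (τ : ℝ) (J : ℕ) (F : Fam n J) (A : F.Ω → Prop), S₃.St τ J F A → S.St τ J F A :=
    fun τ J F A hA => hsub τ J F A (hsub₃ τ J F A hA)
  refine ⟨S₃, Ns, hne₃, hsub₃, hN, hh.trans_le ?_⟩
  exact h1 n S₃ hne₃ ⟨1, one_pos, 0, fun J _ F A hA => hpos 1 J F A (hs₃ 1 J F A hA)⟩ Ns hN κ Na hM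
    (fun a b c1 c2 c3 x hx => (hB a b c1 c2 c3 x hx).sub hs₃) P Q hP hPQ hQ hθQ

/-- **The labels of the places of a box have few bits.** -/
theorem labf_boxY (n₀ K K' s₁ : ℕ) (sh : ℕ → ℕ) (hn1 : 1 ≤ n₀) (hK1 : 1 ≤ K) (hK' : 1 ≤ K')
    {co : ℝ} (hco : 0 < co) (M : ℕ) {c h' : ℝ} (hc : 0 < c) (hc1 : c ≤ 1 / 2) (hh' : 0 < h') :
    ∃ δ θ₀ : ℝ, 0 < δ ∧ 0 < θ₀ ∧ ∀ {m : ℕ} {Θ : Type*} {Kt : KitP m Θ n₀} {S : PCl m} {C₀ : ℝ}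
    {L : Finset (Fin m) → Fin m → ℝ → ℝ → ℝ} {N : ℕ} {θ : ℝ} {p : Θ} {Dn : ℕ → ℕ → ℝ}
    {be K₁ δ' E : ℝ}, Kt.K = K → TmH S → TmC S C₀ → Pool.MIC6.ActF S (Kt.cs p 0) →
    NumZ Kt N M θ p Dn → BoxY Kt S L N M p Dn be co K₁ δ' E → 0 ≤ δ' → δ' ≤ δ → 0 ≤ θ → θ ≤ θ₀ →
    Kt.X p ≤ co / 16 → Kt.X p ≤ 1 / 16 → ∀ (b : ℕ → ℕ → ℕ → ℝ) (e : ℕ → ℕ → ℝ),
    Kt.Near p N M θ b e → ∀ i ≤ M, ∀ j ≤ M, LabFQ Kt S K' s₁ sh N M θ p b e i j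
      ((Kt.y p).2 + i * msh (Kt.X p) N M - j * msh (Kt.X p) N M + c * msh (Kt.X p) N M)
      (h' * msh (Kt.X p) N M) := by
  obtain ⟨C, hC, hlab⟩ := lab_few_place n₀ K K' s₁ sh hK1 hK'
  obtain ⟨ε, hε, hpre⟩ := box_preY n₀ K K' s₁ sh hn1 hC hh' (show 0 < c / 8 by positivity)
    (by linarith) hco M
  obtain ⟨κ₀, hκ₀, -, hpl⟩ := hlab ε hε
  obtain ⟨κ, δ, θ₀, y, hκ, hκκ, hδ, hθ₀, hbox⟩ := hpre κ₀ hκ₀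
  refine ⟨δ, θ₀, hδ, hθ₀, ?_⟩
  intro m Θ Kt S C₀ L N θ p Dn be K₁ δ' E hKK htmh htmc hact hz hB hδ0 hδδ hθ0 hθθ hX1 hX2 b e
    hnear i hi j hj S' hne hsub d hd
  obtain ⟨hP, hh, hH⟩ := hbox hKK htmh htmc hact hz hB hδ0 hδδ hθ0 hθθ hX1 hX2
  have h1 := hH b e i hi j hj
  have e1 : 8 * (c / 8 * msh (Kt.X p) N M) = c * msh (Kt.X p) N M := by ring
  rw [e1] at h1
  exact hpl κ hκ hκκ hKK hP hnear hi hj hh h1 S' hne hsub d hd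

end Pool.TGT
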