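import Pool.Agent.H89.TGT.RtP
import Pool.Agent.H33.EXC.Zrl

/-!
# No label of the target above its level, at the places of a kit

`NtQ`: at a place there is no closed label of the target over the base, with the label of the place
and first digits of the direction as record, `msh / 4` above the level of the target. `ntq_kit`:
this follows from the exactness of the base behind closed values (`ZmQ`), the bits of the label of
the place (`LabFQ`) and an active coordinate (`ActF`).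
-/

set_option autoImplicit false

namespace Pool.TGT

open Finset Real MvPolynomial Filter
open Pool.Agent.H49.Ent Pool.Agent.H32.Dense Pool.STK Pool.KA Pool.KSAT Pool.K2S Pool.PB
open Pool.PB.Trl Pool.STAT Pool.STAT.CLO Pool.GEN Pool.S6C Pool.GEN.N83
open Pool.STR (NfB Nw)
open Pool.ALL (RateOf)
open Pool.CHT (TmH bet)
open Pool.CHB (chsysB)
open Pool.LBT (ThrOf)
open Pool.EXC33 (ZmQ)
open Pool.SUPA (FF)

variable {m : ℕ} {Θ : Type*} {n₀ : ℕ}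

/-- **No label of the target above its level**, at a place. -/
def NtQ (Kt : KitP m Θ n₀) (S : PCl m) (K' s₁ : ℕ) (sh : ℕ → ℕ) (N M : ℕ) (θ : ℝ) (p : Θ)
    (ξ : ℝ) (b : ℕ → ℕ → ℕ → ℝ) (e : ℕ → ℕ → ℝ) (i j : ℕ) : Prop :=
  ∀ S' : PCl m, S'.Ne →
    (∀ (τ : ℝ) (J : ℕ) (F : Fam m J) (A : F.Ω → Prop), S'.St τ J F A → S.St τ J F A) →
  ∀ d : ∀ (J : ℕ) (F : Fam m J), GDat F,
    (∀ (τ : ℝ) (J : ℕ) (F : Fam m J) (A : F.Ω → Prop), S'.St τ J F A →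
      (Kt.grid K' s₁ sh p N M θ b e).Ok F (d J F) A) →
  ∀ wp : ℝ, (Kt.y p).1 + j * msh (Kt.X p) N M < wp →
    wp < (Kt.y p).1 + j * msh (Kt.X p) N M + ξ →
  ∀ q : ℝ, q < (Kt.y p).2 + i * msh (Kt.X p) N M - j * msh (Kt.X p) N M + ξ → ∀ KQ : ℕ,
  ¬ Bas S' (fun J F A => ∃ (V : Type)
    (z : PtT F → ((((i' j' : ℕ) → Option (((d J F).cd (n₀ + 1)
      (Kt.rc p N M θ J F (d J F))).V i' j')) × ℕ) × (Fin m → ℤ)) → V)
    (z' : LnT F → V) (G : V → MvPolynomial (Option (Fin m)) ℝ),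
    Lbr F ((range n₀).image (Kt.cs p)) (Kt.cs p n₀) KQ ⌊wp * J⌋₊
      ⌊(Kt.L p n₀ ((Kt.y p).1 + (Kt.y p).2 + i * msh (Kt.X p) N M)
        ((Kt.y p).1 + j * msh (Kt.X p) N M) + msh (Kt.X p) N M / 4) * J⌋₊
      (fun ω => (((d J F).cd (n₀ + 1) (Kt.rc p N M θ J F (d J F))).lab2
        (up (Kt.y p).1 J) (up (msh (Kt.X p) N M) J) i j ω, F.D ⌊q * J⌋₊ ω)) A z z' G)

/-- **The label of a place has few bits** given the exact point and first digits of the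
direction. -/
def LabFQ (Kt : KitP m Θ n₀) (S : PCl m) (K' s₁ : ℕ) (sh : ℕ → ℕ) (N M : ℕ) (θ : ℝ) (p : Θ)
    (b : ℕ → ℕ → ℕ → ℝ) (e : ℕ → ℕ → ℝ) (i j : ℕ) (P₀ h : ℝ) : Prop :=
  ∀ S' : PCl m, S'.Ne →
    (∀ (τ : ℝ) (J : ℕ) (F : Fam m J) (A : F.Ω → Prop), S'.St τ J F A → S.St τ J F A) →
    ∀ d : ∀ (J : ℕ) (F : Fam m J), GDat F,
    (∀ (τ : ℝ) (J : ℕ) (F : Fam m J) (A : F.Ω → Prop), S'.St τ J F A →
      (Kt.grid K' s₁ sh p N M θ b e).Ok F (d J F) A) →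
    ∃ S'' : PCl m, S''.Ne ∧
      (∀ (τ : ℝ) (J : ℕ) (F : Fam m J) (A : F.Ω → Prop), S''.St τ J F A → S'.St τ J F A) ∧
      Bas S'' (fun J F A => CH (Pool.Agent.H49.Ent.cond F.p A True)
        (((d J F).cd (n₀ + 1) (Kt.rc p N M θ J F (d J F))).lab2 (up (Kt.y p).1 J)
          (up (msh (Kt.X p) N M) J) i j)
        (fun ω => (F.D ⌊P₀ * J⌋₊ ω, (F.X J ω, F.W ω))) ≤ h * J)

/-- **Activity** of a coordinate between two depths, in all subclasses. -/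
def ActF (S : PCl m) (κ : Fin m) (P Q h : ℝ) : Prop :=
  ∀ S' : PCl m, S'.Ne →
    (∀ (τ : ℝ) (J : ℕ) (F : Fam m J) (A : F.Ω → Prop), S'.St τ J F A → S.St τ J F A) →
    ∃ (S'' : PCl m) (Ns : Finset (Fin m) → ℝ → ℝ → ℝ), S''.Ne ∧
      (∀ (τ : ℝ) (J : ℕ) (F : Fam m J) (A : F.Ω → Prop), S''.St τ J F A → S'.St τ J F A) ∧
      ActN S'' Ns ∧ h / Real.log 2 < FF (Ns {κ}) Q - FF (Ns {κ}) P

/-- The exactness at a place of a kit. -/
theorem zmx_of {Kt : KitP m Θ n₀} {S S' : PCl m} {K' s₁ : ℕ} {sh : ℕ → ℕ} {N M : ℕ} {θ : ℝ}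
    {p : Θ} {ka ξ w₁ : ℝ} {b : ℕ → ℕ → ℕ → ℝ} {e : ℕ → ℕ → ℝ} {i j : ℕ}
    (hzm : ZmQ Kt S K' s₁ sh N M θ p ka ξ b e i j)
    (hs : ∀ (τ : ℝ) (J : ℕ) (F : Fam m J) (A : F.Ω → Prop), S'.St τ J F A → S.St τ J F A)
    {d : ∀ (J : ℕ) (F : Fam m J), GDat F}
    (hd : ∀ (τ : ℝ) (J : ℕ) (F : Fam m J) (A : F.Ω → Prop), S'.St τ J F A →
      (Kt.grid K' s₁ sh p N M θ b e).Ok F (d J F) A)
    (hw₁ : w₁ ≤ (Kt.y p).1 + j * msh (Kt.X p) N M + ξ) :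
    ZmX S' (Kt.cs p) n₀ (fun J F => ((d J F).cd (n₀ + 1) (Kt.rc p N M θ J F (d J F))).lab2
      (up (Kt.y p).1 J) (up (msh (Kt.X p) N M) J) i j)
      (∑ l ∈ range n₀, (1 - Kt.L p l ((Kt.y p).1 + (Kt.y p).2 + i * msh (Kt.X p) N M)
          ((Kt.y p).1 + j * msh (Kt.X p) N M)) - ka * msh (Kt.X p) N M)
      ((Kt.y p).1 + j * msh (Kt.X p) N M) w₁
      ((Kt.y p).2 + i * msh (Kt.X p) N M - j * msh (Kt.X p) N M + ξ) := by
  intro S₁ hne hsub wp h1 h2 q hq0 hq V z z' hz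
  exact hzm S₁ hne (fun τ J F A h => hs τ J F A (hsub τ J F A h)) d
    (fun τ J F A h => hd τ J F A (hsub τ J F A h)) wp h1 (h2.trans_le hw₁) q hq0 hq V z z' hz

end Pool.TGT
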