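import Pool.Agent.H89.TGT.Lbr
import Pool.Agent.H89.TGT.Imp

/-!
# Labels as polynomials in the time and the coordinates of a list

`tpn c n₀ G`: the polynomial `G` in the variables `0` (time) and `l + 1` (the coordinate `c l`,
`l < n₀`).
-/

set_option autoImplicit false

namespace Pool.TGT

open Finset Real MvPolynomial
open Pool.Agent.H49.Ent Pool.Agent.H32.Dense Pool.STK Pool.KA Pool.KSAT Pool.K2S Pool.PB Pool.S6C
open Pool.GEN Pool.STAT

variable {m : ℕ}

open Classical in
/-- The values of the variables. -/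
noncomputable def svc (c : ℕ → Fin m) (n₀ : ℕ) : Option (Fin m) → PN
  | none => MvPolynomial.X 0
  | some i => if h : ∃ l, l < n₀ ∧ c l = i then MvPolynomial.X (h.choose + 1) else 0

/-- The polynomial in the time and the coordinates of the list. -/
noncomputable def tpn (c : ℕ → Fin m) (n₀ : ℕ) (G : MvPolynomial (Option (Fin m)) ℝ) : PN :=
  aeval (svc c n₀) G

theorem svc_none (c : ℕ → Fin m) (n₀ : ℕ) : svc c n₀ none = MvPolynomial.X 0 := rfl

theorem svc_some {c : ℕ → Fin m} {n₀ : ℕ} (hc : ∀ i < n₀, ∀ j < n₀, c i = c j → i = j) {l : ℕ}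
    (hl : l < n₀) : svc c n₀ (some (c l)) = MvPolynomial.X (l + 1) := by
  have h : ∃ l', l' < n₀ ∧ c l' = c l := ⟨l, hl, rfl⟩
  show (if h : ∃ l', l' < n₀ ∧ c l' = c l then (MvPolynomial.X (h.choose + 1) : PN) else 0) = _
  rw [dif_pos h]
  have h1 := h.choose_spec
  rw [hc _ h1.1 _ hl h1.2]

theorem svc_deg (c : ℕ → Fin m) (n₀ : ℕ) (o : Option (Fin m)) : (svc c n₀ o).totalDegree ≤ 1 := by
  rcases o with _ | i
  · rw [svc_none, totalDegree_X]
  · show (if h : ∃ l', l' < n₀ ∧ c l' = i then (MvPolynomial.X (h.choose + 1) : PN)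
      else 0).totalDegree ≤ 1
    split_ifs with h
    · rw [totalDegree_X]
    · rw [totalDegree_zero]
      exact Nat.zero_le 1

theorem svc_vars (c : ℕ → Fin m) (n₀ : ℕ) (o : Option (Fin m)) :
    (svc c n₀ o).vars ⊆ range (n₀ + 1) := by
  rcases o with _ | i
  · rw [svc_none, vars_X]
    intro x hx
    rw [mem_singleton] at hx
    rw [hx, mem_range]
    exact Nat.succ_pos _
  · show (if h : ∃ l', l' < n₀ ∧ c l' = i then (MvPolynomial.X (h.choose + 1) : PN)
      else 0).vars ⊆ range (n₀ + 1)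
    split_ifs with h
    · rw [vars_X]
      intro x hx
      rw [mem_singleton] at hx
      have h1 := h.choose_spec
      rw [hx, mem_range]
      exact Nat.succ_lt_succ h1.1
    · rw [vars_0]
      exact Finset.empty_subset _

theorem tpn_deg {c : ℕ → Fin m} {n₀ K : ℕ} {G : MvPolynomial (Option (Fin m)) ℝ}
    (hG : G.totalDegree ≤ K) : (tpn c n₀ G).totalDegree ≤ K := by
  have := totalDegree_aevalσ (g := svc c n₀) (fun o => svc_deg c n₀ o) hG
  unfold tpn
  omega

theorem tpn_vars (c : ℕ → Fin m) (n₀ : ℕ) (G : MvPolynomial (Option (Fin m)) ℝ) :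
    (tpn c n₀ G).vars ⊆ range (n₀ + 1) := by
  classical
  refine (vars_bind₁ (svc c n₀) G).trans ?_
  intro x hx
  rw [mem_biUnion] at hx
  obtain ⟨o, -, ho⟩ := hx
  exact svc_vars c n₀ o ho

/-- The values, for polynomials in the time and the coordinates in `I`. -/
theorem tpn_eval {c : ℕ → Fin m} {n₀ : ℕ} (hc : ∀ i < n₀, ∀ j < n₀, c i = c j → i = j)
    {I : Finset (Fin m)} {G : MvPolynomial (Option (Fin m)) ℝ}
    (hG : ∀ b b' : Option (Fin m) → ℝ, b none = b' none →
      (∀ i ∈ I, b (some i) = b' (some i)) → eval b G = eval b' G)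
    (hI : ∀ i ∈ I, ∃ l < n₀, c l = i) {b : ℕ → ℝ} {b' : Option (Fin m) → ℝ} (h0 : b 0 = b' none)
    (h1 : ∀ l < n₀, c l ∈ I → b (l + 1) = b' (some (c l))) : eval b (tpn c n₀ G) = eval b' G := by
  unfold tpn
  rw [eval_aevalσ]
  refine hG _ _ ?_ fun i hi => ?_
  · rw [svc_none, eval_X, h0]
  · obtain ⟨l, hl, rfl⟩ := hI i hi
    rw [svc_some hc hl, eval_X]
    exact h1 l hl hi

end Pool.TGT
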