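import Pool.Agent.H89.TGT.Imp
import Pool.Agent.H45.EXA.ExvB

/-!
# The chart of a place, closed with the cell of the time, on an event

`pre_of`: the data of a place of a grid give `Pre` on a large part of the event.
-/

set_option autoImplicit false

namespace Pool.TGT

open Finset MvPolynomial
open Pool.Agent.H49.Ent Pool.Agent.H32.Dense Pool.STK Pool.KA Pool.KSAT Pool.K2S Pool.PB
open Pool.PB.Trl Pool.STAT Pool.STAT.CLO Pool.GEN Pool.S6C
open Pool.FLF (Fam.sub)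

variable {m J : ℕ}

/-- The precisions of the chart. -/
def gpr (sh₂ a : ℕ) (g : ℕ → ℕ) (i : ℕ) : ℕ := if i = 0 then a else g (i - 1) - sh₂ - 1

theorem pre_of (n₀ K K' : ℕ) (sh : ℕ → ℕ) : ∃ (Kp C₂ sh₂ : ℕ) (D Cθ : ℝ),
    1 ≤ Kp ∧ 1 ≤ D ∧ 1 ≤ Cθ ∧ ∀ {m J : ℕ} (F : Fam m J) (c : ℕ → Fin m) (a w e s₁ gm m' : ℕ)
    (g : ℕ → ℕ) (A : F.Ω → Prop) (G : PtT F → ℕ → MvPolynomial (Option (Fin m)) ℝ)
    (H : LnT F → ℕ → MvPolynomial (Option (Fin m)) ℝ) (zL : LnT F → LV) (PL : LV → ℕ → PN)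
    (zS : PtT F → LV) (zS' : LV → ℝ → LV) (PS : LV → ℕ → PN) (θ : ℝ), w ≤ a → a ≤ J →
    Inj c (n₀ + 1) → ChOK F c (n₀ + 1) (fun _ => K) a w e g A G H →
    Out2 (n₀ + 1) K' s₁ sh a w A (ptr F J) (slam F w) tx (tl w) (fun l => g (l - 1))
      (Gx c (n₀ + 1) G) (Hx c (n₀ + 1) w H) (cx F fun i => c (i - 1)) zL PL zS zS' PS →
    (∀ i < n₀ + 1, sh₂ + 1 ≤ g i ∧ g i ≤ gm) → e + gm + m' + C₂ ≤ J → 0 ≤ θ →
    (∀ B : F.Ω → Prop, Sub B A → Pe F.p A ≤ D * Pe F.p B →
      ∃ h : 0 < Pe F.p B, (Fam.sub F B h).Tm θ) →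
    Cθ * (θ + 1) ≤ ((a : ℝ) - w) * Real.log 2 →
    ∃ (z : PtT F → LV) (z' : LV × ℕ → LV) (P : LV → ℕ → PN) (B : F.Ω → Prop), Sub B A ∧
      Pe F.p A ≤ D * Pe F.p B ∧ Pre F c n₀ Kp C₂ a w m' (gpr sh₂ a g) B zL PL z P ∧
      ∀ ω, B ω → z (ptr F J ω) = z' (zL (slam F w ω), F.T1 a ω) := by
  classical
  obtain ⟨s₀, sh₂, c₁, C₃, hc₁, hcht⟩ := cht (n₀ + 1) K K'
  obtain ⟨L, s₂, hL, hgx⟩ := near_gx (n₀ + 1) (n₀ + 1) K (2 * c₁) s₀ (fun _ => sh₂) le_rfl
    (by omega)
  obtain ⟨Kp, hKp⟩ : ∃ Kp, Kp = max c₁ K' := ⟨_, rfl⟩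
  have hKp1 : 1 ≤ Kp := by rw [hKp]; exact hc₁.trans (le_max_left _ _)
  obtain ⟨Cd, hCd, hdil⟩ := dil (n₀ + 1) Kp
  obtain ⟨K₁, hK₁⟩ : ∃ K₁, K₁ = Kp * (Kp + 1) ^ (n₀ + 1 + 1) := ⟨_, rfl⟩
  rw [← hK₁] at hdil
  obtain ⟨C₁, hC₁, hpth⟩ := pth Kp hKp1
  obtain ⟨SH, hSH⟩ : ∃ SH, SH = ∑ i ∈ range (n₀ + 2), sh i := ⟨_, rfl⟩
  have hSHle : ∀ i ≤ n₀ + 1, sh i ≤ SH := fun i hi => by
    rw [hSH]
    exact Finset.single_le_sum (f := sh) (fun _ _ => Nat.zero_le _) (mem_range.2 (by omega))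
  obtain ⟨q₁, hq₁⟩ := pow_unbounded_of_one_lt (Cd * 2 ^ C₃ * 2 ^ K₁ + L) (one_lt_two (α := ℝ))
  have p2 : ∀ k : ℕ, (0 : ℝ) < 2 ^ k := fun k => by positivity
  refine ⟨Kp, q₁ + s₂, sh₂, c₁ * 2 ^ n₀, C₁ + SH, hKp1, ?_, ?_, ?_⟩
  · have h1 : (1 : ℝ) ≤ c₁ := by exact_mod_cast hc₁
    have h2 : (1 : ℝ) ≤ 2 ^ n₀ := one_le_pow₀ (by norm_num)
    nlinarith
  · have : (0 : ℝ) ≤ SH := Nat.cast_nonneg _
    linarith
  intro m J F c a w e s₁ gm m' g A G H zL PL zS zS' PS θ hwa haJ hc hch hO hg hJ hθ hTm hth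
  obtain ⟨z, z', P, B, hBA, hPe, hLev, hNr⟩ := hcht m J F c a w e s₁ g sh A G H zL PL zS zS' PS
    hwa haJ hc hch hO fun i hi => (Nat.le_succ _).trans (hg i hi).1
  have h1c : (1 : ℝ) ≤ c₁ := by exact_mod_cast hc₁
  have hgs : ∀ i, 1 ≤ i → CLO.gs sh₂ (gg a g) i = g (i - 1) - sh₂ := by
    intro i hi
    unfold CLO.gs gg
    rw [if_neg (by omega), if_neg (by omega)]
  have hgs0 : CLO.gs sh₂ (gg a g) 0 = a := by
    unfold CLO.gs gg
    rw [if_pos rfl, if_pos rfl]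
  have hgp : ∀ i, 1 ≤ i → gpr sh₂ a g i = g (i - 1) - sh₂ - 1 := fun i hi => if_neg (by omega)
  have hgp0 : gpr sh₂ a g 0 = a := if_pos rfl
  -- the own paths
  have key : ∀ k ≤ n₀, ∃ B' : F.Ω → Prop, Sub B' B ∧ Pe F.p B ≤ 2 ^ k * Pe F.p B' ∧
      ∀ i < k, ∀ ω, B' ω → ∀ t' : ℝ, |t' - F.t ω| ≤ 1 / 2 ^ (a + m') →
      |(mu c (slam F w ω) (PL (zL (slam F w ω)) (i + 1)) (i + 1)).eval (F.t ω) -
        (mu c (slam F w ω) (PL (zL (slam F w ω)) (i + 1)) (i + 1)).eval t'| ≤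
        1 / 2 ^ (gpr sh₂ a g (i + 1) + m') := by
    intro k
    induction k with
    | zero =>
      intro _
      refine ⟨B, fun _ h => h, ?_, fun i hi => absurd hi (Nat.not_lt_zero i)⟩
      rw [pow_zero, one_mul]
    | succ k ih =>
      intro hk
      obtain ⟨B₀, hB₀, hPe₀, hb₀⟩ := ih (by omega)
      have h1 : Pe F.p A ≤ c₁ * 2 ^ n₀ * Pe F.p B₀ := by
        calc Pe F.p A ≤ c₁ * Pe F.p B := hPe
          _ ≤ c₁ * (2 ^ k * Pe F.p B₀) := mul_le_mul_of_nonneg_left hPe₀ (by linarith)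
          _ ≤ c₁ * (2 ^ n₀ * Pe F.p B₀) := by
              refine mul_le_mul_of_nonneg_left ?_ (by linarith)
              exact mul_le_mul_of_nonneg_right (pow_le_pow_right₀ (by norm_num) (by omega))
                (Pe_nonneg F.isLaw _)
          _ = _ := by ring
      obtain ⟨hB₀p, hTm₀⟩ := hTm B₀ (fun ω hω => hBA ω (hB₀ ω hω)) h1
      have hCθ : C₁ * (θ + 1) ≤ (C₁ + SH) * (θ + 1) :=
        mul_le_mul_of_nonneg_right (by
          have : (0 : ℝ) ≤ SH := Nat.cast_nonneg _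
          linarith) (by linarith)
      have haJR : (a : ℝ) ≤ J := by exact_mod_cast haJ
      obtain ⟨B₁, hB₁, hPe₁, hb₁⟩ := hpth F c B₀ hB₀p w (fun s => PL (zL s) (k + 1)) (k + 1)
        (2 ^ SH / 2 ^ g k) θ (hwa.trans haJ) (fun s => (hO.Ldeg _ _).trans (by
          rw [hKp]
          exact le_max_right _ _)) (by positivity) hθ hTm₀ (by
          refine (hCθ.trans hth).trans ?_
          exact mul_le_mul_of_nonneg_right (by linarith) (Real.log_nonneg one_le_two))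
        (fun ω hω => by
          have h2 := hO.hgt ω (hBA ω (hB₀ ω hω)) (k + 1) (by omega) (by omega)
          refine h2.trans ?_
          show (1 : ℝ) / 2 ^ (g (k + 1 - 1) - sh (k + 1)) ≤ _
          rw [Nat.add_sub_cancel, div_le_div_iff₀ (p2 _) (p2 _), one_mul, ← pow_add]
          refine pow_le_pow_right₀ (by norm_num) ?_
          have := hSHle (k + 1) (by omega)
          omega)
      refine ⟨B₁, fun ω hω => hB₀ ω (hB₁ ω hω), ?_, ?_⟩
      · calc Pe F.p B ≤ 2 ^ k * Pe F.p B₀ := hPe₀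
          _ ≤ 2 ^ k * (2 * Pe F.p B₁) := mul_le_mul_of_nonneg_left (by linarith) (p2 _).le
          _ = 2 ^ (k + 1) * Pe F.p B₁ := by ring
      · intro i hi ω hω t' ht'
        rcases Nat.lt_succ_iff_lt_or_eq.1 hi with hi | rfl
        · exact hb₀ i hi ω (hB₁ ω hω) t' ht'
        · have h3 : (1 : ℝ) / 2 ^ (a + m') ≤ 1 / 2 ^ w :=
            one_div_le_one_div_of_le (p2 _) (pow_le_pow_right₀ (by norm_num) (by omega))
          have h2 := hb₁ ω hω (F.t ω) t' (by
            rw [sub_self, abs_zero]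
            positivity) (ht'.trans h3)
          refine h2.trans ?_
          have h4 : (2 : ℝ) ^ w * |F.t ω - t'| ≤ 2 ^ w * (1 / 2 ^ (a + m')) := by
            rw [abs_sub_comm]
            exact mul_le_mul_of_nonneg_left ht' (p2 _).le
          have h5 : Real.exp (C₁ * (θ + 1)) * 2 ^ SH ≤ 2 ^ (a - w) := by
            have e1 : (2 : ℝ) ^ (a - w) = Real.exp (((a : ℝ) - w) * Real.log 2) := by
              rw [← Nat.cast_sub hwa, Real.exp_nat_mul, Real.exp_log two_pos]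
            have e2 : (2 : ℝ) ^ SH ≤ Real.exp (SH * (θ + 1)) := by
              have e3 : (2 : ℝ) ^ SH = Real.exp (SH * Real.log 2) := by
                rw [Real.exp_nat_mul, Real.exp_log two_pos]
              rw [e3]
              refine Real.exp_le_exp.2 (mul_le_mul_of_nonneg_left ?_ (Nat.cast_nonneg _))
              have := Real.log_two_lt_d9
              linarith
            rw [e1]
            calc Real.exp (C₁ * (θ + 1)) * 2 ^ SH ≤
                Real.exp (C₁ * (θ + 1)) * Real.exp (SH * (θ + 1)) :=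
                  mul_le_mul_of_nonneg_left e2 (Real.exp_pos _).le
              _ = Real.exp ((C₁ + SH) * (θ + 1)) := by
                  rw [← Real.exp_add]
                  congr 1
                  ring
              _ ≤ _ := Real.exp_le_exp.2 hth
          calc Real.exp (C₁ * (θ + 1)) * (2 ^ SH / 2 ^ g i) * (2 ^ w * |F.t ω - t'|) ≤
              Real.exp (C₁ * (θ + 1)) * (2 ^ SH / 2 ^ g i) * (2 ^ w * (1 / 2 ^ (a + m'))) :=
                mul_le_mul_of_nonneg_left h4 (by positivity)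
            _ = (Real.exp (C₁ * (θ + 1)) * 2 ^ SH) * (2 ^ w / (2 ^ g i * 2 ^ (a + m'))) := by
                ring
            _ ≤ 2 ^ (a - w) * (2 ^ w / (2 ^ g i * 2 ^ (a + m'))) :=
                mul_le_mul_of_nonneg_right h5 (by positivity)
            _ = 1 / 2 ^ (g i + m') := by
                rw [mul_div_assoc', ← pow_add, Nat.sub_add_cancel hwa, pow_add, pow_add]
                field_simp
            _ ≤ 1 / 2 ^ (gpr sh₂ a g (i + 1) + m') := by
                refine one_div_le_one_div_of_le (p2 _) (pow_le_pow_right₀ (by norm_num) ?_)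
                rw [hgp (i + 1) (by omega), Nat.add_sub_cancel]
                omega
  obtain ⟨B', hB'B, hPe', hpt⟩ := key n₀ le_rfl
  refine ⟨z, z', P, B', fun ω hω => hBA ω (hB'B ω hω), ?_, ?_, fun ω hω => hLev.cls ω (hB'B ω hω)⟩
  · calc Pe F.p A ≤ c₁ * Pe F.p B := hPe
      _ ≤ c₁ * (2 ^ n₀ * Pe F.p B') := mul_le_mul_of_nonneg_left hPe' (by linarith)
      _ = _ := by ring
  refine
    { g0 := hgp0
      Ptri := hLev.tri
      Pdeg := fun v j => (hLev.deg v j).trans (by rw [hKp]; exact le_max_left _ _)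
      Pzero := hLev.zero
      zfst := hLev.fst
      Ltri := hO.Ltri
      Ldeg := fun v j => (hO.Ldeg v j).trans (by rw [hKp]; exact le_max_right _ _)
      hgt := fun ω hω i hi => ?_
      hgt1 := fun ω hω i hi1 hi => ?_
      line := fun ω hω i hi1 hi b hb => ?_
      rnd := fun ω hω i hi1 hi b hb0 hb => ?_
      pth := fun ω hω i hi1 hi t' ht' => ?_ }
  · -- the samples
    have h1 := hLev.hgt ω (hB'B ω hω) i hi
    refine h1.trans (one_div_le_one_div_of_le (p2 _) (pow_le_pow_right₀ (by norm_num) ?_))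
    rcases Nat.eq_zero_or_pos i with rfl | hi1
    · rw [hgs0, hgp0]
    · rw [hgs i hi1, hgp i hi1]
      omega
  · have h1 := hLev.hgt ω (hB'B ω hω) i hi
    refine h1.trans ?_
    rw [hgs i hi1, hgp i hi1]
    obtain ⟨q, hq⟩ : ∃ q, g (i - 1) - sh₂ = q + 1 :=
      ⟨g (i - 1) - sh₂ - 1, by have := (hg (i - 1) (by omega)).1; omega⟩
    rw [hq, Nat.add_sub_cancel, pow_succ, div_div, mul_comm]
  · -- the line
    have h1 := hdil (P (z (ptr F J ω))) (CLO.gs sh₂ (gg a g))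
      (PL (zL (slam F w ω)) i - P (z (ptr F J ω)) i) i (2 ^ C₃ / 2 ^ CLO.gs sh₂ (gg a g) i) 2
      (hLev.tri _) (fun j => (hLev.deg _ j).trans (by rw [hKp]; exact le_max_left _ _)) (by omega)
      (AdxRow.vars_sub_le (hO.Ltri _ i) (hLev.tri _ i))
      ((totalDegree_sub _ _).trans (max_le ((hO.Ldeg _ i).trans
        (by rw [hKp]; exact le_max_right _ _)) ((hLev.deg _ i).trans
        (by rw [hKp]; exact le_max_left _ _)))) (by norm_num) (fun b hb => by
        rw [map_sub]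
        exact hLev.line ω (hB'B ω hω) i hi1 hi b hb) b (fun j hj => by
        have h2 := hb j hj
        refine h2.trans ?_
        rcases Nat.eq_zero_or_pos j with rfl | hj1
        · rw [hgs0, hgp0]
          exact div_le_div_of_nonneg_right (by norm_num) (p2 _).le
        · rw [hgs j hj1, hgp j hj1, div_le_div_iff₀ (p2 _) (p2 _), one_mul]
          rw [← pow_succ']
          exact pow_le_pow_right₀ (by norm_num) (by omega))
    rw [map_sub] at h1
    refine h1.trans ?_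
    rw [hgs i hi1, hgp i hi1]
    calc Cd * (2 ^ C₃ / 2 ^ (g (i - 1) - sh₂)) * 2 ^ K₁ =
        (Cd * 2 ^ C₃ * 2 ^ K₁) / 2 ^ (g (i - 1) - sh₂) := by ring
      _ ≤ 2 ^ (q₁ + s₂) / 2 ^ (g (i - 1) - sh₂) := by
          refine div_le_div_of_nonneg_right ?_ (p2 _).le
          have e1 : (2 : ℝ) ^ q₁ ≤ 2 ^ (q₁ + s₂) := pow_le_pow_right₀ (by norm_num) (by omega)
          linarith
      _ ≤ 2 ^ (q₁ + s₂) / 2 ^ (g (i - 1) - sh₂ - 1) :=
          div_le_div_of_nonneg_left (p2 _).le (p2 _) (pow_le_pow_right₀ (by norm_num) (by omega))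
  · -- the rounded samples
    obtain ⟨Φ, hΦ⟩ : ∃ Φ, Φ = P (z (ptr F J ω)) := ⟨_, rfl⟩
    obtain ⟨Φ', hΦ'⟩ : ∃ Φ' : ℕ → PN, Φ' = fun i => if i = 0 then MvPolynomial.C (F.t ω)
      else Φ i := ⟨_, rfl⟩
    have eΦ : ∀ j, 1 ≤ j → Φ' j = Φ j := fun j hj => by
      rw [hΦ']
      exact if_neg (by omega)
    have hchω : ∀ k < n₀ + 1, ∀ b : Option (Fin m) → ℝ,
        NBx c (G (ptr F J ω)) g a (F.t ω) k b → ∀ l < k,
        |eval b (pderiv (some (c l)) (G (ptr F J ω) k))| ≤ 2 ^ (e + (gm - g k)) := by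
      intro k hk b hb l hl
      refine (hch.lip ω (hBA ω (hB'B ω hω)) k hk b hb l hl).trans
        (pow_le_pow_right₀ (by norm_num) ?_)
      unfold nlp
      have h1 : (Finset.Icc l k).sup g ≤ gm := Finset.sup_le fun j hj => by
        rw [Finset.mem_Icc] at hj
        exact (hg j (by omega)).2
      omega
    have hNr' : Nr (2 * c₁) (2 ^ s₀) (gg a g) Φ' (sy c (n₀ + 1) (F.t ω) (G (ptr F J ω)))
        (n₀ + 1 + 1) := by
      refine ⟨?_, fun j hj1 hj ρ hρ b hb => ?_⟩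
      · rw [hΦ', sy_zero]
        exact if_pos rfl
      · have hb2 : Bxr (2 * ρ) (gg a g) (Gs c (n₀ + 1) a G (ptr F J ω)) j b := by
          intro l hl
          have h1 := hb l hl
          rcases Nat.eq_zero_or_pos l with rfl | hl1
          · rw [sy_zero, eval_C] at h1
            unfold Gs
            rw [sy_zero, eval_C, tp_eq]
            have h2 := t_cell F haJ ω
            have h3 : gg a g 0 = a := if_pos rfl
            rw [h3] at h1 ⊢
            have h4 : (1 : ℝ) / 2 ^ a ≤ ρ / 2 ^ a := div_le_div_of_nonneg_right hρ (p2 _).le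
            have h5 : 2 * ρ / 2 ^ a = ρ / 2 ^ a + ρ / 2 ^ a := by ring
            rw [h5]
            rw [abs_le] at h1 h2 ⊢
            constructor <;> linarith [h1.1, h1.2, h2.1, h2.2]
          · have h2 : sy c (n₀ + 1) (F.t ω) (G (ptr F J ω)) l =
                Gs c (n₀ + 1) a G (ptr F J ω) l := by
              have h0 : ¬ l = 0 := by omega
              unfold Gs sy
              simp only [h0, if_false]
            rw [h2] at h1
            refine h1.trans (div_le_div_of_nonneg_right ?_ (p2 _).le)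
            linarith
        have h1 := (hNr ω (hB'B ω hω)).2 j hj1 hj (2 * ρ) (by linarith) b hb2
        have h2 : Gs c (n₀ + 1) a G (ptr F J ω) j =
            sy c (n₀ + 1) (F.t ω) (G (ptr F J ω)) j := by
          have h0 : ¬ j = 0 := by omega
          unfold Gs sy
          simp only [h0, if_false]
        rw [eΦ j hj1, hΦ, ← h2]
        refine h1.trans (div_le_div_of_nonneg_right ?_ (p2 _).le)
        have hs0 : (1 : ℝ) ≤ 2 ^ s₀ := one_le_pow₀ (by norm_num)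
        have e1 : (c₁ : ℝ) * 2 ^ s₀ * (2 * ρ) = ((2 * c₁ : ℕ) : ℝ) * 2 ^ s₀ * ρ := by
          push_cast
          ring
        rw [e1]
        refine pow_le_pow_right₀ ?_ (by omega)
        have e2 : (1 : ℝ) ≤ ((2 * c₁ : ℕ) : ℝ) := by
          push_cast
          linarith
        have e3 : (1 : ℝ) ≤ ((2 * c₁ : ℕ) : ℝ) * 2 ^ s₀ := by nlinarith
        nlinarith
    have h1 := hgx m J F c a g (fun k => e + (gm - g k)) m' (G (ptr F J ω)) Φ' ω haJ hc
      (fun k _ => hch.degG _ k) (hch.depG _) hchω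
      (fun k hk1 _ => by
        rw [eΦ k hk1, hΦ]
        exact hLev.tri _ k)
      (fun k hk1 _ => by
        rw [eΦ k hk1, hΦ]
        exact (hLev.deg _ k).trans (by omega))
      (by rw [hΦ']; exact if_pos rfl) hNr'
      (fun k hk1 hk => by
        rw [eΦ k hk1, hΦ]
        have h2 := hLev.hgt ω (hB'B ω hω) k hk
        rwa [hgs k hk1] at h2)
      (fun k hk => (Nat.le_succ _).trans (hg k hk).1)
      (fun k hk => by
        have h2 := (hg k hk).2
        show g k + m' + (e + (gm - g k)) + s₂ ≤ J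
        omega) b hb0 i hi1 hi hb
    rw [eΦ i hi1, hΦ] at h1
    refine h1.trans ?_
    rw [hgp i hi1]
    calc L / 2 ^ (g (i - 1) - sh₂ + m') ≤ 2 ^ (q₁ + s₂) / 2 ^ (g (i - 1) - sh₂ + m') := by
          refine div_le_div_of_nonneg_right ?_ (p2 _).le
          have e1 : (2 : ℝ) ^ q₁ ≤ 2 ^ (q₁ + s₂) := pow_le_pow_right₀ (by norm_num) (by omega)
          have e2 : (0 : ℝ) ≤ Cd * 2 ^ C₃ * 2 ^ K₁ := by positivity
          linarith
      _ ≤ 2 ^ (q₁ + s₂) / 2 ^ (g (i - 1) - sh₂ - 1 + m') :=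
          div_le_div_of_nonneg_left (p2 _).le (p2 _) (pow_le_pow_right₀ (by norm_num) (by omega))
  · have h1 := hpt (i - 1) (by omega) ω hω t' ht'
    rwa [Nat.sub_add_cancel hi1] at h1

end Pool.TGT
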