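import Pool.Agent.H89.TGT.Non
import Pool.Agent.H89.TGT.NoC
import Pool.Agent.H6.MIC.NfD
import Pool.Agent.H78.MIC.GenT

/-!
# The rate of the target and the data of a place, for a kit

`rateD_of`: `RateD` from the rates of the rows. `placeD_kit`: `PlaceD` from the labels of a grid.
-/

set_option autoImplicit false

namespace Pool.TGT

open Finset Real MvPolynomial Filter
open Pool.Agent.H49.Ent Pool.Agent.H32.Dense Pool.STK Pool.KA Pool.KSAT Pool.K2S Pool.PB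
open Pool.PB.Trl Pool.STAT Pool.STAT.CLO Pool.GEN Pool.S6C Pool.GEN.N83
open Pool.STR (NfB)
open Pool.ALL (RateOf)

variable {m n J : ℕ}

/-- **The rate of the target**, given the base. -/
theorem rateD_of {S : PCl m}
    (hpos : ∀ (τ : ℝ) (J : ℕ) (F : Fam m J) (A : F.Ω → Prop), S.St τ J F A → 0 < Pe F.p A)
    (hZ : Bas S (fun _ F _ => Zc F)) {c : ℕ → Fin m} {n₀ : ℕ}
    (hcov : ∀ i : Fin m, i ≠ c n₀ → ∃ l < n₀, c l = i) {rr : ℝ → ℝ} (hR : RateOf S (c n₀) rr)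
    {h ηr A₀ B₀ : ℝ} (h0 : 0 ≤ A₀) (hAB : A₀ ≤ B₀) (h1 : B₀ ≤ 1) (hh : 0 < h) (hh1 : h ≤ 1)
    (hη : 0 ≤ ηr) (hnf : NfB rr h ηr A₀ B₀) : RateD S c n₀ h A₀ B₀ ηr := by
  intro e he
  have hrb := rate_box hpos (fun J F ω => oth (c n₀) J F (ptr F J ω)) (c n₀) (ρ := rr) hR.num h0
    hAB h1 hh.le hh1 hη hnf he
  have hP : Bas S (fun _ F A => 0 < Pe F.p A) :=
    ⟨1, one_pos, 0, fun J _ F A hA => hpos 1 J F A hA⟩
  refine Bas.mono 0 ((hrb.and hZ).and hP) ?_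
  rintro J - F A ⟨⟨f1, f2⟩, f3⟩ P Q hP hPQ hQ
  refine le_trans ?_ (f1 P Q hP hPQ hQ)
  have hq := isLaw_cond F.isLaw f3
  refine CH_mono_cond hq.nonneg fun ω ω' hω hω' e => ?_
  simp only [Prod.mk.injEq] at e
  obtain ⟨e2, e3, e4⟩ := e
  have hpω : ∀ ω, 0 < Pool.Agent.H49.Ent.cond F.p A True ω → 0 < F.p ω := fun ω hω =>
    ((cond_pos_iff F.isLaw.nonneg A True ω).1 hω).1
  have e5 : ∀ i : Fin m, i ≠ c n₀ → F.X J ω i = F.X J ω' i := by
    intro i hi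
    obtain ⟨l, hl, rfl⟩ := hcov i hi
    exact congrFun e3 ⟨l, hl⟩
  refine Prod.ext e2 (Prod.ext ?_ (Prod.ext e4 (f2 ω ω' (hpω ω hω) (hpω ω' hω'))))
  funext i
  show Function.update (F.X J ω) (c n₀) 0 i = Function.update (F.X J ω') (c n₀) 0 i
  by_cases hi : i = c n₀
  · subst hi
    rw [Function.update_self, Function.update_self]
  · rw [Function.update_of_ne hi, Function.update_of_ne hi, e5 i hi]

/-- **The data of a place** of a grid of a kit. -/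
theorem placeD_kit {Θ : Type*} {n₀ : ℕ} {Kt : KitP m Θ n₀} {S' : PCl m} {K' s₁ : ℕ} {sh : ℕ → ℕ}
    {N M : ℕ} {θ : ℝ} {p : Θ} {b : ℕ → ℕ → ℕ → ℝ} {e : ℕ → ℕ → ℝ}
    {d : ∀ (J : ℕ) (F : Fam m J), GDat F}
    (hd : ∀ (τ : ℝ) (J : ℕ) (F : Fam m J) (A : F.Ω → Prop), S'.St τ J F A →
      (Kt.grid K' s₁ sh p N M θ b e).Ok F (d J F) A) {i j : ℕ} (hi : i ≤ M) (hj : j ≤ M) :
    PlaceD S' (Kt.cs p) n₀ Kt.K K' s₁ sh
      (fun J => up ((Kt.y p).1 + (Kt.y p).2) J + i * up (msh (Kt.X p) N M) J)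
      (fun J => up (Kt.y p).1 J + j * up (msh (Kt.X p) N M) J) (e i j) (b i j)
      (fun J F => ((d J F).cd (n₀ + 1) (Kt.rc p N M θ J F (d J F))).lab2 (up (Kt.y p).1 J)
        (up (msh (Kt.X p) N M) J) i j) (fun J F => (d J F).zL i j) := by
  refine ⟨fun J F hJ ω ω' h => ?_, fun τ J F A hA => ⟨fun ω ω' _ _ h => ?_, ?_⟩⟩
  · have h1 : ∀ j' ≤ j, slam F (up (Kt.y p).1 J + j' * up (msh (Kt.X p) N M) J) ω =
        slam F (up (Kt.y p).1 J + j' * up (msh (Kt.X p) N M) J) ω' := fun j' hj' =>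
      Pool.EXC33.slam_of (Nat.add_le_add_left (Nat.mul_le_mul_right _ hj') _) hJ h
    unfold CDat2.lab2
    refine Prod.ext (funext fun i' => funext fun j' => ?_) (congrArg (fun s => s.2.2) h)
    show (if j' ≤ j ∧ i' + j ≤ i + j' then some _ else none) =
      (if j' ≤ j ∧ i' + j ≤ i + j' then some _ else none)
    split_ifs with h2
    · rw [h1 j' h2.1]
    · rfl
  · have h1 := CDat2.lab2_val _ (i' := i) (j' := j) le_rfl le_rfl h
    exact (Prod.ext_iff.mp h1).1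
  · have h1 := (hd τ J F A hA).1
    exact ⟨(d J F).G i j, (d J F).H i j, (d J F).PL i j, (d J F).zS i j, (d J F).zS' i j,
      (d J F).PS i j, h1.chn i hi j hj, h1.out i hi j hj⟩

end Pool.TGT
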