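import Pool.Agent.H89.TGT.Imp
import Pool.Agent.H72.REC.Ent

/-!
# A closed label of the target which is better than the level, given the base, in a family

`tgt_fam`: the chart of a place closed with the cell of the time (`Pre`), a polynomial `Q` of the
line for the target with `X` digits behind the chart, rows of the target which are not full, and a
base which is full behind any labels `L` given the context. Then there is a chain of two-sided labels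
with `η X / 64` digits behind the chart, on boxes with `m'` digits more.
-/

set_option autoImplicit false

namespace Pool.TGT

open Finset MvPolynomial
open Pool.Agent.H49.Ent Pool.Agent.H32.Dense Pool.STK Pool.KA Pool.KSAT Pool.K2S Pool.PB
open Pool.PB.Trl Pool.STAT Pool.STAT.CLO Pool.GEN Pool.S6C
open Pool.TUB (gx lo core4 CH_le_dig)
open Pool.MIC.Frm (nat)

variable {m J : ℕ}

/-- The digits: the time and the positions of the chain. -/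
noncomputable def dgt (F : Fam m J) (c : ℕ → Fin m) (ω : F.Ω) (i : ℕ) : ℤ :=
  if i = 0 then (F.T ω : ℤ) else F.X J ω (c (i - 1))

theorem gx_dgt (F : Fam m J) (c : ℕ → Fin m) (ω : F.Ω) :
    gx J (dgt F c ω) = xq c (ptr F J ω) := by
  funext i
  unfold gx dgt xq
  split_ifs with h
  · rw [tx_eq]
    unfold Fam.t
    push_cast
    rfl
  · rfl

theorem nat_nc (g : ℕ → ℕ) (Ψ : ℕ → PN) (b : ℕ → ℝ) (i : ℕ) : nat g Ψ b i = nc g Ψ b i := rfl

/-- The floors of near numbers. -/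
theorem fl_dist {x y d : ℝ} (h : |x - y| ≤ d) : |((⌊x⌋ - ⌊y⌋ : ℤ) : ℝ)| ≤ d + 1 :=
  Pool.TUB.floor_dist h

theorem tgt_fam (n₀ Kp C₂ KQ : ℕ) (hn₀ : 1 ≤ n₀) (hKp : 1 ≤ Kp) {η : ℝ} (hη : 0 < η)
    (hη1 : η ≤ 1) : ∃ (c₄ KU : ℕ) (κ₁ : ℝ), C₂ + 2 ≤ c₄ ∧ 0 < κ₁ ∧ κ₁ ≤ 1 ∧
    ∀ κ : ℝ, 0 < κ → κ ≤ κ₁ → ∀ K₁ : ℕ, ∃ X₀ : ℕ,
    ∀ {m J : ℕ} (F : Fam m J) (c : ℕ → Fin m) (a w w₂ m' X : ℕ) (g₁ : ℕ → ℕ) (B : F.Ω → Prop)
      (zL : LnT F → LV) (PL : LV → ℕ → PN) (z : PtT F → LV) (z' : LV × ℕ → LV) (P : LV → ℕ → PN)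
      (Γ : Type) (y : F.Ω → Γ) (Q : LnT F → PN) (σ sV : ℕ → ℕ) (L : F.Ω → ℕ → PN)
      (θ₁ θ₂ δ : ℝ),
      Pre F c n₀ Kp C₂ a w m' g₁ B zL PL z P →
      (∀ ω, B ω → z (ptr F J ω) = z' (zL (slam F w ω), F.T1 a ω)) → 0 < Pe F.p B →
      w ≤ w₂ → w₂ ≤ J → a ≤ J → X₀ ≤ X → (n₀ + 1) * c₄ ≤ m' →
      (∀ i ≤ n₀ + 1, g₁ i + m' + X + 1 ≤ J) →
      (∀ ω ω', B ω → B ω' → y ω = y ω' → zL (slam F w ω) = zL (slam F w ω') ∧
        F.T1 a ω = F.T1 a ω' ∧ Q (slam F w₂ ω) = Q (slam F w₂ ω') ∧ L ω = L ω') →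
      (∀ ω ω', F.l ω = F.l ω' → F.Z ω = F.Z ω' → F.T1 a ω = F.T1 a ω' → y ω = y ω') →
      (∀ s, (Q s).vars ⊆ range (n₀ + 1) ∧ (Q s).totalDegree ≤ KQ) →
      (∀ ω, B ω → ∀ b : ℕ → ℝ, b 0 = F.t ω →
        (∀ j, 1 ≤ j → |b j - cx F (fun i => c (i - 1)) ω j| ≤ 1 / 2 ^ J) →
        |cx F (fun i => c (i - 1)) ω (n₀ + 1) - eval b (Q (slam F w₂ ω))| ≤
          1 / 2 ^ (g₁ (n₀ + 1) + X + 1)) →
      (∀ j < n₀, σ j < n₀) → (∀ l < n₀, ∃ j < n₀, σ j = l) → (∀ j < n₀, sV j + 1 ≤ J) →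
      (∀ ω, B ω → ∀ j < n₀, (L ω j).vars ⊆ range (n₀ + 1) ∧ (L ω j).totalDegree ≤ K₁ ∧
        (∀ b b' : ℕ → ℝ, b 0 = b' 0 → (∀ k < j, b (σ k + 1) = b' (σ k + 1)) →
          eval b (L ω j) = eval b' (L ω j)) ∧
        ∀ b : ℕ → ℝ, b 0 = F.t ω →
          (∀ i, 1 ≤ i → |b i - cx F (fun i => c (i - 1)) ω i| ≤ 1 / 2 ^ J) →
          |cx F (fun i => c (i - 1)) ω (σ j + 1) - eval b (L ω j)| ≤ 1 / 2 ^ (sV j + 1)) →
      Pool.REX.TmQ F (Pool.Agent.H49.Ent.cond F.p B True) θ₁ →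
      (∑ j ∈ range n₀, ((J : ℝ) - sV j)) * Real.log 2 - θ₂ ≤
        CH (Pool.Agent.H49.Ent.cond F.p B True) (fun ω (l : Fin n₀) => F.X J ω (c l))
          (fun ω => (y ω, F.T ω)) →
      0 ≤ δ → ∑ j ∈ range n₀, (sV j : ℝ) - ∑ l ∈ range n₀, (g₁ (l + 1) : ℝ) ≤ δ →
      16 * ((n₀ + 1 : ℕ) : ℝ) ^ 2 * (δ + κ * X) ≤ η * m' → θ₁ + θ₂ ≤ κ * X →
      CH (Pool.Agent.H49.Ent.cond F.p B True) (fun ω => F.X (g₁ (n₀ + 1) + X) ω (c n₀))
        (fun ω => (F.X (g₁ (n₀ + 1)) ω (c n₀), ((fun l : Fin n₀ => F.X J ω (c l)), F.T ω))) ≤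
        (1 - 2 * η) * (X * Real.log 2) →
      ∃ E : F.Ω → Prop, Sub E B ∧ η / 32 * Pe F.p B ≤ Pe F.p E ∧ ∃ e : ℕ,
        ChN F c (n₀ + 1) (fun _ => max Kp KU) (a + m') w₂ e
          (gim n₀ c₄ m' (g₁ (n₀ + 1) + ⌊η / 64 * X⌋₊) g₁) E := by
  classical
  obtain ⟨c₄, hc₄, hchn⟩ := imp_chn n₀ Kp C₂ hn₀ hKp
  obtain ⟨K, hK⟩ : ∃ K, K = max Kp KQ := ⟨_, rfl⟩
  obtain ⟨κ₁, hκ₁, hκ₁1, hcore⟩ := core4 (n₀ + 1) K (by omega) (2 ^ (n₀ * c₄)) hη hη1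
  obtain ⟨KU, hKU⟩ : ∃ KU, KU = K + (n₀ + 1) * (K * (K + 1) ^ (n₀ + 1) * (K + 1)) := ⟨_, rfl⟩
  refine ⟨c₄, KU, κ₁, hc₄, hκ₁, hκ₁1, fun κ hκ hκκ K₁ => ?_⟩
  obtain ⟨X₁, hX₁⟩ := hcore κ hκ hκκ K₁
  obtain ⟨X₂, hX₂⟩ := exists_nat_ge ((Real.log 7 + Real.log 11) / (η * Real.log 2))
  obtain ⟨X₃, hX₃⟩ := exists_nat_ge (64 / η)
  refine ⟨max X₁ (max X₂ (max X₃ 1)), ?_⟩
  intro m J F c a w w₂ m' X g₁ B zL PL z z' P Γ y Q σ sV L θ₁ θ₂ δ hp hcls hB hw hw₂ haJ hX hm hJ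
    hy hyl hQ1 hQ2 hσ1 hσ2 hsJ hL hTm hful hδ hsum hsm hθ hrate
  have hl2 : 0 < Real.log 2 := Real.log_pos one_lt_two
  have p2 : ∀ k : ℕ, (0 : ℝ) < 2 ^ k := fun k => by positivity
  obtain ⟨p, hpd⟩ : ∃ p, p = Pool.Agent.H49.Ent.cond F.p B True := ⟨_, rfl⟩
  rw [← hpd] at hTm hful hrate
  have hpl : IsLaw p := by rw [hpd]; exact isLaw_cond F.isLaw hB
  have hpB : ∀ ω, 0 < p ω → B ω := by
    intro ω hω
    rw [hpd] at hω
    exact of_eq_true ((cond_pos_iff F.isLaw.nonneg B True ω).1 hω).2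
  have hX₁' : X₁ ≤ X := (le_max_left _ _).trans hX
  have hXX : 1 ≤ η / 64 * X := by
    have h1 : (X₃ : ℝ) ≤ X := by
      exact_mod_cast (((le_max_left _ _).trans (le_max_right _ _)).trans (le_max_right _ _)).trans hX
    have h2 := hX₃.trans h1
    rw [div_le_iff₀ hη] at h2
    linarith
  have hX₂' : Real.log 7 + Real.log 11 ≤ η * (X * Real.log 2) := by
    have h1 : (X₂ : ℝ) ≤ X := by
      exact_mod_cast ((le_max_left _ _).trans (le_max_right _ _)).trans hX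
    have h2 := hX₂.trans h1
    rw [div_le_iff₀ (by positivity)] at h2
    linarith
  have hJ' : ∀ i ≤ n₀ + 1, g₁ i + m' ≤ J := fun i hi => by have := hJ i hi; omega
  have hmm : C₂ + 2 ≤ m' := by
    have h1 : 1 * c₄ ≤ (n₀ + 1) * c₄ := Nat.mul_le_mul_right _ (by omega)
    omega
  have hsm2 : (1 + 2 ^ C₂ : ℝ) / 2 ^ m' ≤ 1 / 2 := by
    rw [div_le_div_iff₀ (p2 _) (by norm_num), one_mul]
    have h1 : (2 : ℝ) ^ (C₂ + 2) ≤ 2 ^ m' := pow_le_pow_right₀ (by norm_num) hmm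
    have h2 : (2 : ℝ) ^ (C₂ + 2) = 4 * 2 ^ C₂ := by rw [pow_add]; ring
    have h3 : (1 : ℝ) ≤ 2 ^ C₂ := one_le_pow₀ (by norm_num)
    linarith
  -- the system
  obtain ⟨Ψ, hΨ⟩ : ∃ Ψ : F.Ω → ℕ → PN, Ψ = fun ω => P (z (ptr F J ω)) := ⟨_, rfl⟩
  obtain ⟨Dg, hDg⟩ : ∃ Dg, Dg = dgt F c := ⟨_, rfl⟩
  have hgx : ∀ ω, gx J (Dg ω) = xq c (ptr F J ω) := fun ω => by rw [hDg]; exact gx_dgt F c ω
  obtain ⟨L', hL'⟩ : ∃ L' : F.Ω → ℕ → PN, L' = fun ω j => if j = 0 then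
    MvPolynomial.C ((F.T1 a ω : ℝ) / 2 ^ a) else L ω (j - 1) := ⟨_, rfl⟩
  obtain ⟨s', hs'⟩ : ∃ s' : ℕ → ℕ, s' = fun j => if j = 0 then a else sV (j - 1) := ⟨_, rfl⟩
  obtain ⟨τ, hτ⟩ : ∃ τ : ℕ → ℕ, τ = fun j => if j = 0 then 0 else σ (j - 1) + 1 := ⟨_, rfl⟩
  have e0 : τ 0 = 0 ∧ s' 0 = a ∧ ∀ ω, L' ω 0 = MvPolynomial.C ((F.T1 a ω : ℝ) / 2 ^ a) := by
    rw [hτ, hs', hL']
    exact ⟨if_pos rfl, if_pos rfl, fun ω => if_pos rfl⟩
  have e1 : ∀ j, τ (j + 1) = σ j + 1 ∧ s' (j + 1) = sV j ∧ ∀ ω, L' ω (j + 1) = L ω j := by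
    intro j
    rw [hτ, hs', hL']
    refine ⟨?_, ?_, fun ω => ?_⟩
    · show (if j + 1 = 0 then 0 else σ (j + 1 - 1) + 1) = _
      rw [if_neg (Nat.succ_ne_zero j), Nat.add_sub_cancel]
    · show (if j + 1 = 0 then a else sV (j + 1 - 1)) = _
      rw [if_neg (Nat.succ_ne_zero j), Nat.add_sub_cancel]
    · show (if j + 1 = 0 then _ else L ω (j + 1 - 1)) = _
      rw [if_neg (Nat.succ_ne_zero j), Nat.add_sub_cancel]
  have hx0 : ∀ ω, xq c (ptr F J ω) 0 = F.t ω := xq_zero F c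
  have hdW : Pool.Agent.H49.Ent.Det p y (fun ω => z (ptr F J ω)) := by
    intro ω ω' h1 h2 h
    obtain ⟨a1, a2, -, -⟩ := hy ω ω' (hpB ω h1) (hpB ω' h2) h
    show z (ptr F J ω) = z (ptr F J ω')
    rw [hcls ω (hpB ω h1), hcls ω' (hpB ω' h2), a1, a2]
  have hdD : Pool.Agent.H49.Ent.Det p (ptr F J) (lo (n₀ + 1 + 1) Dg) := by
    intro ω ω' _ _ h
    have h1 : F.X J ω = F.X J ω' := congrArg Prod.fst h
    have h2 : F.T ω = F.T ω' := congrArg (fun y => y.2.1) h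
    funext l
    rw [hDg]
    unfold lo dgt
    rw [h1, h2]
  have hnx : ∀ ω, B ω → ∀ i ≤ n₀ + 1, |nat g₁ (Ψ ω) (gx J (Dg ω)) i| ≤ 1 := by
    intro ω hω i hi
    rw [hgx, nat_nc, hΨ]
    obtain ⟨m1, m2, -, -⟩ := pre_near (J := J) hp hJ' hω _ rfl _ rfl _ rfl
    rcases Nat.eq_zero_or_pos i with rfl | hi1
    · have h1 := m1 0 (by omega)
      show |nc g₁ (P (z (ptr F J ω))) (xq c (ptr F J ω)) 0| ≤ 1
      unfold nc at h1 ⊢
      rw [hp.Pzero, eval_C] at h1 ⊢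
      rw [hx0]
      exact h1
    · have h1 : |nc g₁ (P (z (ptr F J ω))) (cx F (fun i => c (i - 1)) ω) i| ≤ 1 / 2 := by
        rw [nc_le]
        exact hp.hgt1 ω hω i hi1 hi
      have h2 := m2 i hi
      simp only
      rw [abs_le] at h1 h2 ⊢
      constructor <;> linarith [h1.1, h1.2, h2.1, h2.2]
  have hQx : ∀ ω, B ω → |gx J (Dg ω) (n₀ + 1) - eval (gx J (Dg ω)) (Q (slam F w₂ ω))| ≤
      1 / 2 ^ (g₁ (n₀ + 1) + X) := by
    intro ω hω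
    rw [hgx]
    have h1 := hQ2 ω hω (xq c (ptr F J ω)) (hx0 ω) fun j hj => xq_near F c ω hj
    have h2 := xq_near F c ω (i := n₀ + 1) (by omega)
    have h3 : (1 : ℝ) / 2 ^ J ≤ 1 / 2 ^ (g₁ (n₀ + 1) + X + 1) :=
      one_div_le_one_div_of_le (p2 _) (pow_le_pow_right₀ (by norm_num) (by
        have := hJ (n₀ + 1) le_rfl
        omega))
    have h4 : (1 : ℝ) / 2 ^ (g₁ (n₀ + 1) + X) = 1 / 2 ^ (g₁ (n₀ + 1) + X + 1) +
        1 / 2 ^ (g₁ (n₀ + 1) + X + 1) := by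
      rw [pow_succ]
      field_simp
      norm_num
    rw [h4]
    rw [abs_le] at h1 h2 ⊢
    constructor <;> linarith [h1.1, h1.2, h2.1, h2.2]
  -- fullness
  have hfull : (∑ j ∈ range (n₀ + 1), ((J : ℝ) - s' j)) * Real.log 2 - κ * X ≤
      CH p (lo (n₀ + 1) Dg) y := by
    have h0 := hpl.nonneg
    have h1 : CH p (fun ω => ((fun l : Fin n₀ => F.X J ω (c l)), F.T ω)) y ≤
        CH p (lo (n₀ + 1) Dg) y := by
      refine CH_mono_left h0 fun ω ω' _ _ h => ?_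
      have h2 : lo (n₀ + 1) Dg ω = lo (n₀ + 1) Dg ω' := congrArg Prod.fst h
      rw [hDg] at h2
      refine Prod.ext (funext fun l => ?_) ?_
      · have h3 := congrFun h2 (l + 1)
        unfold lo dgt at h3
        have h4 : (l : ℕ) + 1 < n₀ + 1 := by have := l.2; omega
        simp only [if_pos h4, if_neg (Nat.succ_ne_zero (l : ℕ)), Nat.add_sub_cancel] at h3
        exact h3
      · have h3 := congrFun h2 0
        unfold lo dgt at h3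
        have h4 : 0 < n₀ + 1 := by omega
        simp only [if_pos h4, if_true] at h3
        exact_mod_cast h3
    have h2 := CH_chain h0 (fun ω (l : Fin n₀) => F.X J ω (c l)) F.T y
    have h3 : CH p (fun ω (l : Fin n₀) => F.X J ω (c l)) (fun ω => (y ω, F.T ω)) ≤
        CH p (fun ω (l : Fin n₀) => F.X J ω (c l)) (fun ω => (F.T ω, y ω)) := by
      refine CH_mono_cond h0 fun ω ω' _ _ h => ?_
      simp only [Prod.mk.injEq] at h ⊢
      exact ⟨h.2, h.1⟩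
    have h4 := Pool.Agent.H40.BFL.window_time hpl F.T (fun ω => (F.l ω, F.Z ω)) J a haJ F.tim θ₁
      hTm
    have h5 : CH p (fun ω => F.T ω % 2 ^ (J - a))
        (fun ω => ((F.l ω, F.Z ω), F.T ω / 2 ^ (J - a))) ≤
        CH p F.T (fun ω => ((F.l ω, F.Z ω), F.T ω / 2 ^ (J - a))) := by
      refine CH_mono_left h0 fun ω ω' _ _ h => ?_
      have h6 : F.T ω = F.T ω' := congrArg Prod.fst h
      show F.T ω % 2 ^ (J - a) = F.T ω' % 2 ^ (J - a)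
      rw [h6]
    have h6 : CH p F.T (fun ω => ((F.l ω, F.Z ω), F.T ω / 2 ^ (J - a))) ≤ CH p F.T y := by
      refine CH_mono_cond h0 fun ω ω' _ _ h => ?_
      simp only [Prod.mk.injEq] at h
      exact hyl ω ω' h.1.1 h.1.2 h.2
    have h7 : ∑ j ∈ range (n₀ + 1), ((J : ℝ) - s' j) =
        ∑ j ∈ range n₀, ((J : ℝ) - sV j) + ((J : ℝ) - a) := by
      rw [Finset.sum_range_succ', e0.2.1]
      congr 1
      exact Finset.sum_congr rfl fun j _ => by rw [(e1 j).2.1]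
    rw [h7, add_mul]
    linarith
  -- rates
  have hrate' : CH p (fun ω => ⌊(2 : ℝ) ^ X * nat g₁ (Ψ ω) (gx J (Dg ω)) (n₀ + 1)⌋)
      (fun ω => (lo (n₀ + 1) Dg ω, z (ptr F J ω))) ≤ (1 - η) * (X * Real.log 2) := by
    have h0 := hpl.nonneg
    obtain ⟨g, hg⟩ : ∃ g, g = g₁ (n₀ + 1) := ⟨_, rfl⟩
    rw [← hg] at hrate
    have hgJ : g + X ≤ J := by have := hJ (n₀ + 1) le_rfl; omega
    -- the centre
    obtain ⟨v, hv⟩ : ∃ v : F.Ω → ℝ, v = fun ω =>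
        eval (xq c (ptr F J ω)) (P (z (ptr F J ω)) (n₀ + 1)) := ⟨_, rfl⟩
    have hvd : ∀ ω ω', (lo (n₀ + 1) Dg ω, z (ptr F J ω)) = (lo (n₀ + 1) Dg ω', z (ptr F J ω')) →
        v ω = v ω' := by
      intro ω ω' h
      simp only [Prod.mk.injEq] at h
      rw [hv]
      show eval (xq c (ptr F J ω)) (P (z (ptr F J ω)) (n₀ + 1)) =
        eval (xq c (ptr F J ω')) (P (z (ptr F J ω')) (n₀ + 1))
      rw [h.2]
      refine eval₂Hom_congr' rfl (fun k hk _ => ?_) rfl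
      have h1 : k < n₀ + 1 := mem_range.1 (hp.Ptri _ _ hk)
      have h2 := congrFun h.1 k
      unfold lo at h2
      rw [if_pos h1, if_pos h1] at h2
      rw [← hgx, ← hgx]
      unfold gx
      rw [h2]
    have hb : ∀ ω, xq c (ptr F J ω) (n₀ + 1) = (F.X J ω (c n₀) : ℝ) / 2 ^ J := fun ω => by
      unfold xq
      rw [if_neg (by omega), Nat.add_sub_cancel]
      rfl
    have hnat : ∀ ω, nat g₁ (Ψ ω) (gx J (Dg ω)) (n₀ + 1) =
        2 ^ g * ((F.X J ω (c n₀) : ℝ) / 2 ^ J - v ω) := fun ω => by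
      rw [hgx, nat_nc, hΨ, hv, hg]
      unfold nc
      rw [hb]
    have hX2 : ∀ k, k ≤ J → ∀ ω, (F.X k ω (c n₀) : ℝ) - 1 <
        2 ^ k * ((F.X J ω (c n₀) : ℝ) / 2 ^ J) ∧
        2 ^ k * ((F.X J ω (c n₀) : ℝ) / 2 ^ J) < (F.X k ω (c n₀) : ℝ) + 1 := by
      intro k hk ω
      have a1 : ((F.X k ω (c n₀) : ℤ) : ℝ) ≤ 2 ^ k * F.x ω (c n₀) := Int.floor_le _
      have a2 : 2 ^ k * F.x ω (c n₀) < ((F.X k ω (c n₀) : ℤ) : ℝ) + 1 := Int.lt_floor_add_one _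
      have a3 : ((F.X J ω (c n₀) : ℤ) : ℝ) ≤ 2 ^ J * F.x ω (c n₀) := Int.floor_le _
      have a4 : 2 ^ J * F.x ω (c n₀) < ((F.X J ω (c n₀) : ℤ) : ℝ) + 1 := Int.lt_floor_add_one _
      have a5 : (2 : ℝ) ^ J = 2 ^ k * 2 ^ (J - k) := by rw [← pow_add]; congr 1; omega
      have a6 : (1 : ℝ) ≤ 2 ^ (J - k) := one_le_pow₀ (by norm_num)
      have e2 : (2 : ℝ) ^ k * ((F.X J ω (c n₀) : ℝ) / 2 ^ J) =
          (F.X J ω (c n₀) : ℝ) / 2 ^ (J - k) := by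
        rw [a5]
        field_simp
      rw [e2]
      rw [a5] at a3 a4
      constructor
      · rw [lt_div_iff₀ (p2 _)]
        nlinarith [mul_le_mul_of_nonneg_right a1 (p2 (J - k)).le]
      · rw [div_lt_iff₀ (p2 _)]
        nlinarith [mul_lt_mul_of_pos_right a2 (p2 (J - k))]
    have h1 := CH_le_add h0 (fun ω => ⌊(2 : ℝ) ^ X * nat g₁ (Ψ ω) (gx J (Dg ω)) (n₀ + 1)⌋)
      (fun ω => F.X (g + X) ω (c n₀)) (fun ω => (lo (n₀ + 1) Dg ω, z (ptr F J ω)))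
    have h2 : CH p (fun ω => ⌊(2 : ℝ) ^ X * nat g₁ (Ψ ω) (gx J (Dg ω)) (n₀ + 1)⌋)
        (fun ω => (F.X (g + X) ω (c n₀), (lo (n₀ + 1) Dg ω, z (ptr F J ω)))) ≤
        Real.log (2 * 3 + 1) := by
      refine CH_le_dig hpl _ _ fun ω ω' hω hω' h => ?_
      simp only [Prod.mk.injEq] at h
      have b1 := hX2 (g + X) hgJ ω
      have b2 := hX2 (g + X) hgJ ω'
      have b3 := hvd ω ω' (Prod.ext h.2.1 h.2.2)
      have b4 : |2 ^ X * nat g₁ (Ψ ω) (gx J (Dg ω)) (n₀ + 1) -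
          2 ^ X * nat g₁ (Ψ ω') (gx J (Dg ω')) (n₀ + 1)| ≤ 2 := by
        rw [hnat, hnat, b3]
        have e2 : (2 : ℝ) ^ X * (2 ^ g * ((F.X J ω (c n₀) : ℝ) / 2 ^ J - v ω')) -
            2 ^ X * (2 ^ g * ((F.X J ω' (c n₀) : ℝ) / 2 ^ J - v ω')) =
            2 ^ (g + X) * ((F.X J ω (c n₀) : ℝ) / 2 ^ J) -
              2 ^ (g + X) * ((F.X J ω' (c n₀) : ℝ) / 2 ^ J) := by
          rw [pow_add]
          ring
        rw [e2]
        rw [h.1] at b1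
        rw [abs_le]
        constructor <;> linarith [b1.1, b1.2, b2.1, b2.2]
      have b5 := fl_dist b4
      linarith
    have h3 := CH_le_add h0 (fun ω => F.X (g + X) ω (c n₀)) (fun ω => F.X g ω (c n₀))
      (fun ω => (lo (n₀ + 1) Dg ω, z (ptr F J ω)))
    have h4 : CH p (fun ω => F.X g ω (c n₀)) (fun ω => (lo (n₀ + 1) Dg ω, z (ptr F J ω))) ≤
        Real.log (2 * 5 + 1) := by
      refine CH_le_dig hpl _ _ fun ω ω' hω hω' h => ?_
      have b1 := hX2 g (by omega) ω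
      have b2 := hX2 g (by omega) ω'
      have b3 := hvd ω ω' h
      have b4 := hnx ω (hpB ω hω) (n₀ + 1) le_rfl
      have b5 := hnx ω' (hpB ω' hω') (n₀ + 1) le_rfl
      rw [hnat, abs_le] at b4 b5
      rw [b3] at b4
      push_cast
      rw [abs_le]
      constructor <;> linarith [b1.1, b1.2, b2.1, b2.2, b4.1, b4.2, b5.1, b5.2]
    have h5 : CH p (fun ω => F.X (g + X) ω (c n₀))
        (fun ω => (F.X g ω (c n₀), (lo (n₀ + 1) Dg ω, z (ptr F J ω)))) ≤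
        CH p (fun ω => F.X (g + X) ω (c n₀))
        (fun ω => (F.X g ω (c n₀), ((fun l : Fin n₀ => F.X J ω (c l)), F.T ω))) := by
      refine CH_mono_cond h0 fun ω ω' _ _ h => ?_
      simp only [Prod.mk.injEq] at h ⊢
      refine ⟨h.1, funext fun l => ?_, ?_⟩
      · have h3 := congrFun h.2.1 (l + 1)
        rw [hDg] at h3
        unfold lo dgt at h3
        have h4 : (l : ℕ) + 1 < n₀ + 1 := by have := l.2; omega
        simp only [if_pos h4, if_neg (Nat.succ_ne_zero (l : ℕ)), Nat.add_sub_cancel] at h3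
        exact h3
      · have h3 := congrFun h.2.1 0
        rw [hDg] at h3
        unfold lo dgt at h3
        have h4 : 0 < n₀ + 1 := by omega
        simp only [if_pos h4, if_true] at h3
        exact_mod_cast h3
    have e3 : (2 : ℝ) * 3 + 1 = 7 := by norm_num
    have e4 : (2 : ℝ) * 5 + 1 = 11 := by norm_num
    rw [e3] at h2
    rw [e4] at h4
    have h6 : (1 - 2 * η) * (X * Real.log 2) = (1 - η) * (X * Real.log 2) -
        η * (X * Real.log 2) := by ring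
    linarith
  obtain ⟨U, hU, hPU⟩ := hX₁ hpl X m' J (ptr F J) y (fun ω => z (ptr F J ω)) g₁ Ψ
    (fun ω => Q (slam F w₂ ω)) Dg τ s' L' δ hX₁' hdW
    (fun ω ω' _ _ h => by rw [hΨ]; exact congrArg P h)
    (fun ω ω' h1 h2 h => (hy ω ω' (hpB ω h1) (hpB ω' h2) h).2.2.1)
    (fun ω ω' h1 h2 h => by
      obtain ⟨-, a2, -, a4⟩ := hy ω ω' (hpB ω h1) (hpB ω' h2) h
      rw [hL']
      funext j
      show (if j = 0 then MvPolynomial.C ((F.T1 a ω : ℝ) / 2 ^ a) else L ω (j - 1)) =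
        if j = 0 then MvPolynomial.C ((F.T1 a ω' : ℝ) / 2 ^ a) else L ω' (j - 1)
      rw [a2, a4])
    (fun ω ω' _ _ h => congrArg z h) hdD
    (fun ω _ => by rw [hΨ]; exact hp.Ptri _)
    (fun ω _ i => by
      rw [hΨ]
      exact (hp.Pdeg _ i).trans (by rw [hK]; exact le_max_left _ _))
    (fun ω _ => (hQ1 _).1) (fun ω _ => (hQ1 _).2.trans (by rw [hK]; exact le_max_right _ _))
    (fun ω h1 j hj => by
      rcases Nat.eq_zero_or_pos j with rfl | hj1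
      · rw [e0.2.2, vars_C]
        exact Finset.empty_subset _
      · obtain ⟨j, rfl⟩ : ∃ j', j = j' + 1 := ⟨j - 1, by omega⟩
        rw [(e1 j).2.2]
        exact (hL ω (hpB ω h1) j (by omega)).1)
    (fun ω h1 j hj => by
      rcases Nat.eq_zero_or_pos j with rfl | hj1
      · rw [e0.2.2, totalDegree_C]
        exact Nat.zero_le _
      · obtain ⟨j, rfl⟩ : ∃ j', j = j' + 1 := ⟨j - 1, by omega⟩
        rw [(e1 j).2.2]
        exact (hL ω (hpB ω h1) j (by omega)).2.1)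
    (fun j hj => by
      rcases Nat.eq_zero_or_pos j with rfl | hj1
      · rw [e0.1]
        omega
      · obtain ⟨j, rfl⟩ : ∃ j', j = j' + 1 := ⟨j - 1, by omega⟩
        rw [(e1 j).1]
        have := hσ1 j (by omega)
        omega)
    (fun l hl => by
      rcases Nat.eq_zero_or_pos l with rfl | hl1
      · exact ⟨0, by omega, e0.1⟩
      · obtain ⟨l, rfl⟩ : ∃ l', l = l' + 1 := ⟨l - 1, by omega⟩
        obtain ⟨j, hj, hjl⟩ := hσ2 l (by omega)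
        exact ⟨j + 1, by omega, by rw [(e1 j).1, hjl]⟩)
    (fun ω h1 j hj b b' hb => by
      rcases Nat.eq_zero_or_pos j with rfl | hj1
      · rw [e0.2.2, eval_C, eval_C]
      · obtain ⟨j, rfl⟩ : ∃ j', j = j' + 1 := ⟨j - 1, by omega⟩
        rw [(e1 j).2.2]
        refine (hL ω (hpB ω h1) j (by omega)).2.2.1 b b' ?_ fun k hk => ?_
        · have := hb 0 (by omega)
          rwa [e0.1] at this
        · have := hb (k + 1) (by omega)
          rwa [(e1 k).1] at this)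
    (fun l hl => hJ l (by omega))
    (fun j hj => by
      rcases Nat.eq_zero_or_pos j with rfl | hj1
      · rw [e0.2.1]
        exact haJ
      · obtain ⟨j, rfl⟩ : ∃ j', j = j' + 1 := ⟨j - 1, by omega⟩
        rw [(e1 j).2.1]
        have := hsJ j (by omega)
        omega)
    (fun ω h1 i hi => hnx ω (hpB ω h1) i hi)
    (fun ω h1 j hj => by
      rcases Nat.eq_zero_or_pos j with rfl | hj1
      · rw [e0.1, e0.2.1, e0.2.2, eval_C, hgx, hx0]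
        exact t_cell F haJ ω
      · obtain ⟨j, rfl⟩ : ∃ j', j = j' + 1 := ⟨j - 1, by omega⟩
        rw [(e1 j).1, (e1 j).2.1, (e1 j).2.2, hgx]
        have h2 := (hL ω (hpB ω h1) j (by omega)).2.2.2 (xq c (ptr F J ω)) (hx0 ω)
          fun i hi => xq_near F c ω hi
        have h3 := xq_near F c ω (i := σ j + 1) (by omega)
        have h4 : (1 : ℝ) / 2 ^ J ≤ 1 / 2 ^ (sV j + 1) :=
          one_div_le_one_div_of_le (p2 _) (pow_le_pow_right₀ (by norm_num) (hsJ j (by omega)))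
        have h5 : (1 : ℝ) / 2 ^ sV j = 1 / 2 ^ (sV j + 1) + 1 / 2 ^ (sV j + 1) := by
          rw [pow_succ]
          field_simp
          norm_num
        rw [h5]
        rw [abs_le] at h2 h3 ⊢
        constructor <;> linarith [h2.1, h2.2, h3.1, h3.2])
    (fun ω h1 => hQx ω (hpB ω h1)) hδ
    (by
      rw [Finset.sum_range_succ', Finset.sum_range_succ' (fun l => (g₁ l : ℝ)), e0.2.1, hp.g0]
      have h1 : ∑ j ∈ range n₀, (s' (j + 1) : ℝ) = ∑ j ∈ range n₀, (sV j : ℝ) :=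
        Finset.sum_congr rfl fun j _ => by rw [(e1 j).2.1]
      rw [h1]
      linarith)
    hsm hfull hrate'
  obtain ⟨Ev, hEv⟩ : ∃ Ev : F.Ω → Prop, Ev = fun ω => ∀ b : ℕ → ℝ, (∀ i < n₀ + 1,
      |nat g₁ (Ψ ω) b i - nat g₁ (Ψ ω) (gx J (Dg ω)) i| ≤ 2 ^ (n₀ * c₄) / 2 ^ m') →
      |eval b (U (ptr F J ω)) - eval b (Q (slam F w₂ ω))| ≤
        1 / 2 ^ (g₁ (n₀ + 1) + ⌊η / 64 * X⌋₊) := ⟨_, rfl⟩
  rw [← hEv] at hPU
  refine ⟨fun ω => B ω ∧ Ev ω, fun ω h => h.1, ?_, ?_⟩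
  · have h1 : Pe p Ev = Pe F.p (fun ω => B ω ∧ Ev ω) / Pe F.p B := by
      rw [hpd]
      exact Pe_cond (p := F.p) (A := B) Ev
    rw [h1, le_div_iff₀ hB] at hPU
    exact hPU
  · refine hchn F c a w w₂ m' KU (g₁ (n₀ + 1) + ⌊η / 64 * X⌋₊) g₁ (fun ω => B ω ∧ Ev ω) zL PL z P
      U Q (hp.sub fun ω h => h.1) hw hw₂ hm ?_ hJ' (fun v => ⟨(hU v).1, by
        rw [hKU]
        exact (hU v).2⟩) (fun s => ⟨(hQ1 s).1, (hQ1 s).2.trans ?_⟩) (fun ω hω => ?_)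
      fun ω hω b hb => ?_
    · have h2 : 1 ≤ ⌊η / 64 * X⌋₊ := (Nat.one_le_floor_iff _).2 hXX
      omega
    · rw [hKU, hK]
      exact (le_max_right _ _).trans (Nat.le_add_right _ _)
    · have h1 := hQ2 ω hω.1 (cx F (fun i => c (i - 1)) ω) (if_pos rfl) (fun j _ => by
        rw [sub_self, abs_zero]
        positivity)
      refine h1.trans (one_div_le_one_div_of_le (p2 _) (pow_le_pow_right₀ (by norm_num) ?_))
      have h2 : ⌊η / 64 * X⌋₊ ≤ X := Nat.floor_le_of_le (by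
        have h3 : (0 : ℝ) ≤ X := Nat.cast_nonneg X
        nlinarith)
      omega
    · have h1 := hω.2
      rw [hEv] at h1
      refine h1 b fun i hi => ?_
      rw [hgx, hΨ]
      exact hb i hi

end Pool.TGT
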