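import Pool.Agent.H89.TGT.Vlb
import Pool.Agent.H89.TUB.Seq

/-!
# Counting with the labels of the base
-/

set_option autoImplicit false

namespace Pool.TGT

open Finset Real MvPolynomial
open Pool.Agent.H49.Ent Pool.Agent.H32.Dense Pool.STK Pool.KA Pool.KSAT Pool.K2S Pool.PB Pool.S6C
open Pool.GEN Pool.STAT Pool.REX Pool.GRW
open Pool.TUB (lo lo_eq lo_ext seq_up CH_le_dig)

variable {m n J : ℕ}

/-- **The entropy of the base**, given the labels and the time. -/
theorem vl_count {F : Fam m J} {c : ℕ → Fin m} {n₀ K w : ℕ} {σ sV : ℕ → ℕ} {κ V : Type}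
    {yd : F.Ω → κ} {z : PtT F → κ → V} {z' : LnT F → V} {G : V → ℕ → PN} {A : F.Ω → Prop}
    (h : VL F c n₀ K w σ sV yd z z' G A) {q : F.Ω → ℝ} (hq : IsLaw q) (hA : ∀ ω, 0 < q ω → A ω)
    (hσ : ∀ l < n₀, ∃ j < n₀, σ j = l) (hs : ∀ j < n₀, sV j ≤ J) {Γ : Type} (Y : F.Ω → Γ)
    (hY : ∀ ω ω', A ω → A ω' → Y ω = Y ω' → z' (slam F w ω) = z' (slam F w ω') ∧
      F.T ω = F.T ω') :
    CH q (fun ω (l : Fin n₀) => F.X J ω (c l)) Y ≤
      (∑ j ∈ range n₀, ((J : ℝ) - sV j)) * Real.log 2 + n₀ * Real.log 7 := by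
  classical
  obtain ⟨X, hX⟩ : ∃ X : F.Ω → ℕ → ℤ, X = fun ω l => F.X J ω (c (σ l)) := ⟨_, rfl⟩
  have h1 := seq_up hq X Y 0 (fun j => ((J : ℝ) - sV j) * Real.log 2 + Real.log 7) n₀
    (Nat.zero_le _) fun l _ hl => by
      obtain ⟨b, hb⟩ : ∃ b : F.Ω → ℕ → ℝ, b = fun ω i => if i = 0 then F.t ω else
        if ∃ k < l, σ k + 1 = i then (F.X J ω (c (i - 1)) : ℝ) / 2 ^ J else F.x ω (c (i - 1)) :=
        ⟨_, rfl⟩
      have hb0 : ∀ ω, b ω 0 = F.t ω := fun ω => by rw [hb]; exact if_pos rfl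
      have hbk : ∀ ω, ∀ k < l, b ω (σ k + 1) = (F.X J ω (c (σ k)) : ℝ) / 2 ^ J := by
        intro ω k hk
        rw [hb]
        simp only
        rw [if_neg (Nat.succ_ne_zero _), if_pos ⟨k, hk, rfl⟩, Nat.add_sub_cancel]
      have pJ : (0 : ℝ) < 2 ^ J := by positivity
      have hnear : ∀ ω i, 1 ≤ i → |b ω i - cx F (fun i => c (i - 1)) ω i| ≤ 1 / 2 ^ J := by
        intro ω i hi
        obtain ⟨i, rfl⟩ : ∃ i', i = i' + 1 := ⟨i - 1, by omega⟩
        rw [cx_succ, hb]
        simp only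
        rw [if_neg (Nat.succ_ne_zero _), Nat.add_sub_cancel]
        split_ifs with h2
        · have a1 : ((F.X J ω (c i) : ℤ) : ℝ) ≤ 2 ^ J * F.x ω (c i) := Int.floor_le _
          have a2 : (2 : ℝ) ^ J * F.x ω (c i) < (F.X J ω (c i) : ℤ) + 1 := Int.lt_floor_add_one _
          have e1 : ((F.X J ω (c i) : ℤ) : ℝ) / 2 ^ J - F.x ω (c i) =
              (((F.X J ω (c i) : ℤ) : ℝ) - 2 ^ J * F.x ω (c i)) / 2 ^ J := by
            field_simp
          rw [e1, abs_div, abs_of_pos pJ]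
          refine div_le_div_of_nonneg_right ?_ pJ.le
          rw [abs_le]
          constructor <;> linarith
        · rw [sub_self, abs_zero]
          positivity
      obtain ⟨W, hW⟩ : ∃ W : F.Ω → (ℕ → ℤ) × Γ, W = fun ω => (lo l X ω, Y ω) := ⟨_, rfl⟩
      have key : CH q (fun ω => X ω l) W ≤
          Real.log (2 * (2 * 2 ^ (J - sV l) + 1) + 1) := by
        refine CH_le_dig hq _ _ fun ω ω' h1 h2 hWe => ?_
        rw [hW] at hWe
        have e1 := Prod.ext_iff.1 hWe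
        obtain ⟨e2, e3⟩ := hY ω ω' (hA ω h1) (hA ω' h2) e1.2
        have e4 : F.t ω = F.t ω' := by
          unfold Fam.t
          rw [e3]
        have e5 : eval (b ω) (G (z' (slam F w ω)) l) = eval (b ω') (G (z' (slam F w ω')) l) := by
          rw [e2]
          refine h.dep _ l hl _ _ (by rw [hb0, hb0, e4]) fun k hk => ?_
          rw [hbk ω k hk, hbk ω' k hk]
          have e6 : X ω k = X ω' k := lo_eq e1.1 hk
          rw [hX] at e6
          simp only at e6
          rw [e6]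
        have p1 := h.pos ω (hA ω h1) l hl (b ω) (hb0 ω) (hnear ω)
        have p2 := h.pos ω' (hA ω' h2) l hl (b ω') (hb0 ω') (hnear ω')
        rw [cx_succ] at p1 p2
        rw [e5] at p1
        have p3 : |F.x ω (c (σ l)) - F.x ω' (c (σ l))| ≤ 2 / 2 ^ sV l := by
          have e7 : (2 : ℝ) / 2 ^ sV l = 1 / 2 ^ sV l + 1 / 2 ^ sV l := by ring
          rw [e7]
          rw [abs_le] at p1 p2 ⊢
          constructor <;> linarith [p1.1, p1.2, p2.1, p2.2]
        have p4 : |(2 : ℝ) ^ J * F.x ω (c (σ l)) - 2 ^ J * F.x ω' (c (σ l))| ≤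
            2 * 2 ^ (J - sV l) := by
          rw [← mul_sub, abs_mul, abs_of_pos pJ]
          calc (2 : ℝ) ^ J * |F.x ω (c (σ l)) - F.x ω' (c (σ l))| ≤ 2 ^ J * (2 / 2 ^ sV l) :=
                mul_le_mul_of_nonneg_left p3 pJ.le
            _ = 2 * 2 ^ (J - sV l) := by
                obtain ⟨d, hd⟩ : ∃ d, J = sV l + d := ⟨J - sV l, by have := hs l hl; omega⟩
                have e8 : J - sV l = d := by omega
                rw [e8, hd, pow_add]
                field_simp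
        have p5 := Pool.TUB.floor_dist p4
        rw [hX]
        show |((⌊(2 : ℝ) ^ J * F.x ω (c (σ l))⌋ - ⌊(2 : ℝ) ^ J * F.x ω' (c (σ l))⌋ : ℤ) : ℝ)| ≤ _
        exact p5
      rw [← hW]
      refine key.trans ?_
      have p1 : (1 : ℝ) ≤ 2 ^ (J - sV l) := one_le_pow₀ (by norm_num)
      have e1 : Real.log (2 * (2 * 2 ^ (J - sV l) + 1) + 1) ≤ Real.log (7 * 2 ^ (J - sV l)) :=
        Real.log_le_log (by positivity) (by linarith)
      refine e1.trans (le_of_eq ?_)
      rw [Real.log_mul (by norm_num) (by positivity), Real.log_pow, Nat.cast_sub (hs l hl)]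
      ring
  have h2 : CH q (fun ω (l : Fin n₀) => F.X J ω (c l)) Y ≤
      CH q (lo n₀ X) (fun ω => (lo 0 X ω, Y ω)) := by
    refine le_trans (CH_mono_cond hq.nonneg (W' := Y) (W := fun ω => (lo 0 X ω, Y ω))
      fun ω ω' _ _ e => ?_) (CH_mono_left hq.nonneg fun ω ω' _ _ e => ?_)
    · have e0 : lo 0 X ω = lo 0 X ω' := lo_ext fun l hl => absurd hl (Nat.not_lt_zero l)
      exact Prod.ext e0 e
    · have e1 := (Prod.ext_iff.1 e).1
      funext l
      obtain ⟨j, hj, hjl⟩ := hσ l l.2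
      have e2 := lo_eq e1 hj
      rw [hX] at e2
      simp only at e2
      rw [hjl] at e2
      exact e2
  refine h2.trans (h1.trans (le_of_eq ?_))
  rw [← Finset.range_eq_Ico, Finset.sum_add_distrib, Finset.sum_const, Finset.card_range,
    nsmul_eq_mul, Finset.sum_mul]

end Pool.TGT
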