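import Pool.Agent.H89.TGT.Pnc
import Pool.Agent.H89.TGT.Exz
import Pool.Agent.H45.EXA.Vgr

/-!
# The labels of the base with a record

`VL`: closed labels of the coordinates of a list, in an order, with a record. `vl_cls`: the labels of
a greedy order of a zoom are such labels of the family, and they are functions of a closed value of
the zoom, of the zoom, of the time and of the side information.
-/

set_option autoImplicit false

namespace Pool.TGT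

open Finset Real MvPolynomial
open Pool.Agent.H49.Ent Pool.Agent.H32.Dense Pool.STK Pool.KA Pool.KSAT Pool.K2S Pool.PB Pool.S6C
open Pool.GEN Pool.STAT Pool.REX Pool.GRW

variable {m n J : ℕ}

/-- **Closed labels of a list of coordinates**, in the order `σ`, with the record `yd`. -/
structure VL (F : Fam m J) (c : ℕ → Fin m) (n₀ K w : ℕ) (σ sV : ℕ → ℕ) {κ V : Type}
    (yd : F.Ω → κ) (z : PtT F → κ → V) (z' : LnT F → V) (G : V → ℕ → PN) (A : F.Ω → Prop) :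
    Prop where
  vars : ∀ v, ∀ j < n₀, (G v j).vars ⊆ range (n₀ + 1)
  deg : ∀ v, ∀ j < n₀, (G v j).totalDegree ≤ K
  dep : ∀ v, ∀ j < n₀, ∀ b b' : ℕ → ℝ, b 0 = b' 0 → (∀ k < j, b (σ k + 1) = b' (σ k + 1)) →
    eval b (G v j) = eval b' (G v j)
  cls : ∀ ω, A ω → z (ptr F J ω) (yd ω) = z' (slam F w ω)
  pos : ∀ ω, A ω → ∀ j < n₀, ∀ b : ℕ → ℝ, b 0 = F.t ω →
    (∀ i, 1 ≤ i → |b i - cx F (fun i => c (i - 1)) ω i| ≤ 1 / 2 ^ J) →
    |cx F (fun i => c (i - 1)) ω (σ j + 1) - eval b (G (z' (slam F w ω)) j)| ≤ 1 / 2 ^ (sV j)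

theorem VL.sub {F : Fam m J} {c : ℕ → Fin m} {n₀ K w : ℕ} {σ sV : ℕ → ℕ} {κ V : Type}
    {yd : F.Ω → κ} {z : PtT F → κ → V} {z' : LnT F → V} {G : V → ℕ → PN} {A B : F.Ω → Prop}
    (h : VL F c n₀ K w σ sV yd z z' G A) (hB : Sub B A) : VL F c n₀ K w σ sV yd z z' G B :=
  ⟨h.vars, h.deg, h.dep, fun ω hω => h.cls ω (hB ω hω), fun ω hω => h.pos ω (hB ω hω)⟩

theorem cx_zero (F : Fam m J) (f : ℕ → Fin m) (ω : F.Ω) : cx F f ω 0 = F.t ω := if_pos rfl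

theorem cx_succ (F : Fam m J) (c : ℕ → Fin m) (ω : F.Ω) (i : ℕ) :
    cx F (fun i => c (i - 1)) ω (i + 1) = F.x ω (c i) := by
  unfold cx
  rw [if_neg (Nat.succ_ne_zero i)]
  show F.x ω (c (i + 1 - 1)) = _
  rw [Nat.add_sub_cancel]

/-- Labels of the coordinates give labels of the list. -/
theorem vl_of {F : Fam m J} {c : ℕ → Fin m} {n₀ K w : ℕ} {σ sV : ℕ → ℕ} {κ : Type}
    {yd : F.Ω → κ} {A : F.Ω → Prop} (hc : ∀ i < n₀, ∀ j < n₀, c i = c j → i = j)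
    (hσ : ∀ j < n₀, σ j < n₀) {D : F.Ω → F.Ω → Fin n₀ → Prop}
    (h : ∀ j : Fin n₀, ∃ (V : Type) (z : PtT F → κ → V) (z' : LnT F → V)
      (G : V → MvPolynomial (Option (Fin m)) ℝ),
      Lbr F ((range j).image fun k => c (σ k)) (c (σ j)) K w (sV j) yd A z z' G ∧
      ∀ ω ω', A ω → A ω' → D ω ω' j → z' (slam F w ω) = z' (slam F w ω')) :
    ∃ (V : Type) (z : PtT F → κ → V) (z' : LnT F → V) (G : V → ℕ → PN),
      VL F c n₀ K w σ sV yd z z' G A ∧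
      ∀ ω ω', A ω → A ω' → (∀ j, D ω ω' j) → z' (slam F w ω) = z' (slam F w ω') := by
  classical
  choose V z z' G hL hD using h
  refine ⟨∀ j, V j, fun u k j => z j u k, fun s j => z' j s,
    fun v i => if hi : i < n₀ then tpn c n₀ (G ⟨i, hi⟩ (v ⟨i, hi⟩)) else 0,
    ⟨fun v j hj => ?_, fun v j hj => ?_, fun v j hj b b' h0 h1 => ?_, fun ω hω => ?_,
      fun ω hω j hj b h0 h1 => ?_⟩, fun ω ω' hω hω' hd => funext fun j => hD j ω ω' hω hω' (hd j)⟩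
  · rw [dif_pos hj]
    exact tpn_vars _ _ _
  · rw [dif_pos hj]
    exact tpn_deg ((hL ⟨j, hj⟩).deg _)
  · rw [dif_pos hj]
    obtain ⟨b₁, hb₁⟩ : ∃ b₁ : Option (Fin m) → ℝ, b₁ = fun o => eval b (svc c n₀ o) := ⟨_, rfl⟩
    obtain ⟨b₂, hb₂⟩ : ∃ b₂ : Option (Fin m) → ℝ, b₂ = fun o => eval b' (svc c n₀ o) := ⟨_, rfl⟩
    unfold tpn
    rw [eval_aevalσ, eval_aevalσ, ← hb₁, ← hb₂]
    refine (hL ⟨j, hj⟩).dep _ _ _ ?_ fun i hi => ?_
    · rw [hb₁, hb₂]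
      simp only
      rw [svc_none, eval_X, eval_X, h0]
    · rw [mem_image] at hi
      obtain ⟨k, hk, rfl⟩ := hi
      rw [mem_range] at hk
      have hk' : k < j := hk
      rw [hb₁, hb₂]
      simp only
      rw [svc_some hc (hσ k (hk'.trans hj)), eval_X, eval_X, h1 k hk']
  · exact funext fun j => (hL j).cls ω hω
  · rw [dif_pos hj, cx_succ]
    obtain ⟨b', hb'⟩ : ∃ b' : Option (Fin m) → ℝ, b' = fun o => match o with
      | none => F.t ω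
      | some i => if h : ∃ l, l < n₀ ∧ c l = i then b (h.choose + 1) else F.x ω i := ⟨_, rfl⟩
    have e0 : b' none = F.t ω := by rw [hb']
    have e1 : ∀ l < n₀, b' (some (c l)) = b (l + 1) := by
      intro l hl
      have h : ∃ l', l' < n₀ ∧ c l' = c l := ⟨l, hl, rfl⟩
      rw [hb']
      show (if h : ∃ l', l' < n₀ ∧ c l' = c l then b (h.choose + 1) else F.x ω (c l)) = _
      rw [dif_pos h]
      have h1 := h.choose_spec
      rw [hc _ h1.1 _ hl h1.2]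
    have e2 : ∀ o, |b' o - bt F ω o| ≤ 1 / 2 ^ J := by
      intro o
      rcases o with _ | i
      · rw [e0]
        show |F.t ω - F.t ω| ≤ _
        rw [sub_self, abs_zero]
        positivity
      · by_cases h : ∃ l, l < n₀ ∧ c l = i
        · obtain ⟨l, hl, rfl⟩ := h
          rw [e1 l hl]
          have h2 := h1 (l + 1) (by omega)
          rw [cx_succ] at h2
          exact h2
        · rw [hb']
          show |(if h : ∃ l, l < n₀ ∧ c l = i then b (h.choose + 1) else F.x ω i) - F.x ω i| ≤ _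
          rw [dif_neg h, sub_self, abs_zero]
          positivity
    have h2 := (hL ⟨j, hj⟩).pos ω hω b' e2
    have e3 : eval b (tpn c n₀ (G ⟨j, hj⟩ (z' ⟨j, hj⟩ (slam F w ω)))) =
        eval b' (G ⟨j, hj⟩ (z' ⟨j, hj⟩ (slam F w ω))) := by
      refine tpn_eval hc ((hL ⟨j, hj⟩).dep _) (fun i hi => ?_) (by rw [e0, h0]) fun l hl _ =>
        (e1 l hl).symm
      rw [mem_image] at hi
      obtain ⟨k, hk, rfl⟩ := hi
      rw [mem_range] at hk
      exact ⟨σ k, hσ k (hk.trans hj), rfl⟩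
    rw [e3]
    exact h2

/-- The data of the labels. -/
structure VDat (F : Fam m J) (κ : Type) : Type 1 where
  /-- the values -/
  V : Type
  /-- the labels at the points -/
  z : PtT F → κ → V
  /-- the labels on the lines -/
  z' : LnT F → V
  /-- the polynomials -/
  G : V → ℕ → PN

instance {F : Fam m J} {κ : Type} : Nonempty (VDat F κ) :=
  ⟨⟨Unit, fun _ _ => (), fun _ => (), fun _ _ => 0⟩⟩

/-- **The labels are functions of a closed value of the zoom** and of the zoom, the time and the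
side information. -/
def ZDt (F : Fam m J) (v : Vz m) (ε : Fin n → Fin m) (w : ℝ) {β : Type} (Φ : F.Ω → β)
    (A : F.Ω → Prop) : Prop :=
  ∀ hP : v.P J ≤ J - v.B J, ∃ (V : Type) (z : PtT (zmV F hP (v.y J F) ε) → V)
    (z' : LnT (zmV F hP (v.y J F) ε) → V),
    (∀ ω, A ω → z (ptr (zmV F hP (v.y J F) ε) (v.R J) ω) =
      z' (slam (zmV F hP (v.y J F) ε) ⌊w * v.R J⌋₊ ω)) ∧
    ∀ ω ω', A ω → A ω' → z' (slam (zmV F hP (v.y J F) ε) ⌊w * v.R J⌋₊ ω) =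
      z' (slam (zmV F hP (v.y J F) ε) ⌊w * v.R J⌋₊ ω') →
      (zmV F hP (v.y J F) ε).W ω = (zmV F hP (v.y J F) ε).W ω' → F.T ω = F.T ω' →
      F.Z ω = F.Z ω' → Φ ω = Φ ω'

theorem ZDt.sub {F : Fam m J} {v : Vz m} {ε : Fin n → Fin m} {w : ℝ} {β : Type} {Φ : F.Ω → β}
    {A B : F.Ω → Prop} (h : ZDt F v ε w Φ A) (hB : Sub B A) : ZDt F v ε w Φ B := by
  intro hP
  obtain ⟨V, z, z', h1, h2⟩ := h hP
  exact ⟨V, z, z', fun ω hω => h1 ω (hB ω hω), fun ω ω' hω hω' => h2 ω ω' (hB ω hω) (hB ω' hω')⟩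

/-- The order of the labels. -/
def sgN {n₀ : ℕ} (σ : Equiv.Perm (Fin n₀)) (j : ℕ) : ℕ := if h : j < n₀ then σ ⟨j, h⟩ else 0

/-- The precisions of the labels. -/
noncomputable def sgV (v : Vz m) {n₀ : ℕ} (L : Finset (Fin n₀) → Fin n₀ → ℝ → ℝ → ℝ)
    (σ : Equiv.Perm (Fin n₀)) (w e : ℝ) (J j : ℕ) : ℕ :=
  v.B J + v.P J + (⌊(vs L σ w (j + 1) - 3 * e) * v.R J⌋₊ - 1)

theorem sgN_lt {n₀ : ℕ} (σ : Equiv.Perm (Fin n₀)) {j : ℕ} (hj : j < n₀) : sgN σ j < n₀ := by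
  unfold sgN
  rw [dif_pos hj]
  exact (σ ⟨j, hj⟩).2

/-- The resolution of a zoom is large. -/
theorem vz_R (v : Vz m) : ∃ c : ℝ, 0 < c ∧ ∀ J : ℕ, c * J ≤ v.R J := by
  have hb1 := v.b1
  have hp1 := v.p1
  have hc : 0 < (1 - v.b) * (1 - v.p) := mul_pos (by linarith) (by linarith)
  refine ⟨(1 - v.b) * (1 - v.p), hc, fun J => ?_⟩
  have h1 := (v.floor_le J).2.2
  rw [one_div, ← div_eq_inv_mul, le_div_iff₀ hc] at h1
  linarith

/-- **The labels of a greedy order of a zoom**, with a record, for a class. -/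
theorem vl_cls {S : PCl m} (hpos : Bas S (fun _ F A => 0 < Pe F.p A)) (v : Vz m) {c : ℕ → Fin m}
    {n₀ : ℕ} (hc : ∀ i < n₀, ∀ j < n₀, c i = c j → i = j)
    {L : Finset (Fin n₀) → Fin n₀ → ℝ → ℝ → ℝ} (hL : LamW (RecV S v fun l : Fin n₀ => c l) L)
    (σ : Equiv.Perm (Fin n₀)) {w : ℝ} (hw : w ∈ Wv L σ) {e : ℝ} (he : 0 < e) (hew : 4 * e ≤ w) :
    ∃ K : ℕ, Bas S (fun J F A => ∃ (d : VDat F (v.κ J F × (Fin n₀ → ℤ))) (B : F.Ω → Prop),
      Sub B A ∧ Pe F.p A ≤ 7 ^ m * 7 ^ n₀ * 99 ^ n₀ * Pe F.p B ∧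
      VL F c n₀ K (v.B J + ⌊w * v.R J⌋₊) (sgN σ) (sgV v L σ w e J)
        (ydg F (v.y J F) (fun l : Fin n₀ => c l) (v.P J)) d.z d.z' d.G B ∧
      ZDt F v (fun l : Fin n₀ => c l) w (fun ω => d.z' (slam F (v.B J + ⌊w * v.R J⌋₊) ω)) B) := by
  classical
  obtain ⟨K, hK⟩ := vst_att hL hw.1 hw.2.1 hw.2.2.1 hw.2.2.2 he
  obtain ⟨c₀, hlbr⟩ := lbr_ofD n₀ K
  obtain ⟨cR, hcR, hR⟩ := vz_R v
  have hw1 := hw.2.1
  have hall := Bas.fin fun j : Fin n₀ => bas_rec (hK j j le_rfl)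
  obtain ⟨J₁, hJ₁⟩ := exists_nat_ge (((c₀ : ℝ) + 1) / (e * cR))
  refine ⟨K + 1, Bas.mono J₁ (hall.and hpos) ?_⟩
  rintro J hJ F A ⟨hl, hA⟩
  have hJ0 : (0 : ℝ) ≤ J := Nat.cast_nonneg J
  have hRJ := hR J
  have hR0 : (0 : ℝ) ≤ v.R J := Nat.cast_nonneg _
  have heR : (c₀ : ℝ) + 1 ≤ e * v.R J := by
    have h1 : (J₁ : ℝ) ≤ J := by exact_mod_cast hJ
    have h2 := hJ₁.trans h1
    rw [div_le_iff₀ (by positivity)] at h2
    have h3 := mul_le_mul_of_nonneg_left hRJ he.le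
    linarith
  have hc0 : (0 : ℝ) ≤ c₀ := Nat.cast_nonneg _
  have hB := (v.floor_le J).1
  have hP := (v.floor_le J).2.1
  obtain ⟨A', hA', hPe, hpt⟩ := ptr_part F hP (v.y J F) (fun l : Fin n₀ => c l) hB A
  have hmono := hw.2.2.1.mono hL hw1.le
  obtain ⟨D, hD⟩ : ∃ D : F.Ω → F.Ω → Fin n₀ → Prop, D = fun ω ω' _ =>
    dsub F (v.B J) (v.P J) (fun l : Fin n₀ => c l) ω =
      dsub F (v.B J) (v.P J) (fun l : Fin n₀ => c l) ω' := ⟨_, rfl⟩
  -- the labels of the zoom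
  have hl' : ∀ j : Fin n₀, Lb (zmV F hP (v.y J F) fun l : Fin n₀ => c l) ((Iio j).image σ) (σ j) K
      ⌊e * v.R J⌋₊ (v.R J) ⌊w * v.R J⌋₊ ⌊min (vs L σ w j + e) 1 * v.R J⌋₊
      ⌊(vs L σ w (j + 1) - e) * v.R J⌋₊ A := fun j => hl j hP
  choose Vf zf zf' Gf hf using hl'
  have hone : ∀ j : Fin n₀, ∃ (V : Type) (z : PtT F → v.κ J F × (Fin n₀ → ℤ) → V)
      (z' : LnT F → V) (G : V → MvPolynomial (Option (Fin m)) ℝ),
      Lbr F ((range j).image fun k => c (sgN σ k)) (c (sgN σ j)) (K + 1)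
        (v.B J + ⌊w * v.R J⌋₊) (sgV v L σ w e J j)
        (ydg F (v.y J F) (fun l : Fin n₀ => c l) (v.P J)) A' z z' G ∧
      ∀ ω ω', A' ω → A' ω' →
        (zf' j (slam (zmV F hP (v.y J F) fun l : Fin n₀ => c l) ⌊w * v.R J⌋₊ ω) =
          zf' j (slam (zmV F hP (v.y J F) fun l : Fin n₀ => c l) ⌊w * v.R J⌋₊ ω') ∧
        dsub F (v.B J) (v.P J) (fun l : Fin n₀ => c l) ω =
          dsub F (v.B J) (v.P J) (fun l : Fin n₀ => c l) ω') →
        z' (slam F (v.B J + ⌊w * v.R J⌋₊) ω) = z' (slam F (v.B J + ⌊w * v.R J⌋₊) ω') := by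
    intro j
    have hvs : w ≤ vs L σ w (j + 1) := le_vs hL σ hw1.le _
    have hvs1 : vs L σ w (j + 1) ≤ 1 := vs_le1 hL σ hw1.le _
    obtain ⟨P₁, hP₁⟩ : ∃ P₁ : ℕ, P₁ = ⌊(vs L σ w (j + 1) - 3 * e) * v.R J⌋₊ := ⟨_, rfl⟩
    have f1 : (P₁ : ℝ) ≤ (vs L σ w (j + 1) - 3 * e) * v.R J := by
      rw [hP₁]
      exact Nat.floor_le (mul_nonneg (by linarith) hR0)
    have f2 : (⌊e * v.R J⌋₊ : ℝ) ≤ e * v.R J := Nat.floor_le (by positivity)
    have f3 : (vs L σ w (j + 1) - 3 * e) * v.R J ≤ v.R J - 3 * (e * v.R J) := by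
      have := mul_le_mul_of_nonneg_right hvs1 hR0
      linarith
    have h1 : 1 ≤ P₁ := by
      rw [hP₁]
      refine Nat.le_floor ?_
      have := mul_le_mul_of_nonneg_right (show e ≤ vs L σ w (j + 1) - 3 * e by linarith) hR0
      push_cast
      linarith
    have h2 : P₁ + ⌊e * v.R J⌋₊ + c₀ ≤ J - v.B J - v.P J := by
      have : ((P₁ + ⌊e * v.R J⌋₊ + c₀ : ℕ) : ℝ) ≤ (v.R J : ℝ) := by
        push_cast
        linarith
      exact_mod_cast this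
    have h3 : ⌊w * v.R J⌋₊ ≤ J - v.B J - v.P J :=
      Nat.floor_le_of_le (mul_le_of_le_one_left hR0 hw1.le)
    have h4 : ⌊min (vs L σ w j + e) 1 * v.R J⌋₊ ≤ J - v.B J - v.P J :=
      Nat.floor_le_of_le (mul_le_of_le_one_left hR0 (min_le_right _ _))
    have h5 : P₁ ≤ ⌊(vs L σ w (j + 1) - e) * v.R J⌋₊ := by
      rw [hP₁]
      exact Nat.floor_le_floor (mul_le_mul_of_nonneg_right (by linarith) hR0)
    have h6 := ((hf j).sub hA').mono (Finset.Subset.refl _) le_rfl le_rfl le_rfl h5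
    obtain ⟨V', zz, zz', GG, h7, h8⟩ := hlbr F hB hP (v.y J F) (v.line J F) hpt h6 h3 h4 h1 h2
    have e1 : (((Iio j).image σ).image fun l : Fin n₀ => c l) =
        (range j).image fun k => c (sgN σ k) := by
      ext x
      simp only [mem_image, mem_Iio, mem_range]
      constructor
      · rintro ⟨l, ⟨k, hk, rfl⟩, rfl⟩
        refine ⟨k, hk, ?_⟩
        unfold sgN
        rw [dif_pos k.2]
      · rintro ⟨k, hk, rfl⟩
        refine ⟨σ ⟨k, hk.trans j.2⟩, ⟨⟨k, hk.trans j.2⟩, hk, rfl⟩, ?_⟩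
        unfold sgN
        rw [dif_pos (hk.trans j.2)]
    have e2 : c (sgN σ j) = c (σ j) := by
      unfold sgN
      rw [dif_pos j.2]
    rw [e1] at h7
    refine ⟨V', zz, zz', GG, ?_, fun ω ω' hω hω' hd => h8 ω ω' hω hω' hd.1 hd.2⟩
    rw [e2]
    unfold sgV
    rw [← hP₁]
    exact h7
  obtain ⟨V, z, z', G, h1, h2⟩ := vl_of (F := F) (K := K + 1) (w := v.B J + ⌊w * v.R J⌋₊)
    (yd := ydg F (v.y J F) (fun l : Fin n₀ => c l) (v.P J)) (A := A') (σ := sgN σ)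
    (sV := sgV v L σ w e J) hc (fun j hj => sgN_lt σ hj) (D := fun (ω ω' : F.Ω) j =>
      zf' j (slam (zmV F hP (v.y J F) fun l : Fin n₀ => c l) ⌊w * v.R J⌋₊ ω) =
          zf' j (slam (zmV F hP (v.y J F) fun l : Fin n₀ => c l) ⌊w * v.R J⌋₊ ω') ∧
        dsub F (v.B J) (v.P J) (fun l : Fin n₀ => c l) ω =
          dsub F (v.B J) (v.P J) (fun l : Fin n₀ => c l) ω') hone
  refine ⟨⟨V, z, z', G⟩, A', hA', hPe, h1, ?_⟩
  intro hP'
  refine ⟨∀ j, Vf j, fun u j => zf j u, fun s j => zf' j s, fun ω hω =>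
    funext fun j => (hf j).cls ω (hA' ω hω), fun ω ω' hω hω' a1 a2 a3 a4 => ?_⟩
  refine h2 ω ω' hω hω' fun j => ⟨congrFun a1 j, ?_⟩
  obtain ⟨b1, b2, -, b4, b5, b6⟩ := of_zmV F hP (v.y J F) (fun l : Fin n₀ => c l)
    (congrArg (fun t => t % 2 ^ v.P J) a3) a2
  unfold dsub
  have b7 : F.T1 (v.B J) ω = F.T1 (v.B J) ω' := by
    unfold Fam.T1
    rw [b1]
  rw [b7, b6]
  simp only [b4, b5]

end Pool.TGT
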