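import Pool.Agent.H89.TGT.Vct
import Pool.Agent.H89.TGT.RexH
import Pool.Agent.H89.TGT.Tgt
import Pool.Agent.H89.TGT.PreO

/-!
# Exactness of the zooms given closed values; the last step in a family

`rdt_vexa`: the greedy orders of a zoom with an active coordinate are exact, given closed values.
`lbr_tpn`: labels over a list as polynomials in the list. `fin_fam`: the place, the label of the
target and the labels of the base give the chain of an improved label.
-/

set_option autoImplicit false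

namespace Pool.TGT

open Finset Real MvPolynomial
open Pool.Agent.H49.Ent Pool.Agent.H32.Dense Pool.STK Pool.KA Pool.KSAT Pool.K2S Pool.PB
open Pool.PB.Trl Pool.STAT Pool.STAT.CLO Pool.GEN Pool.S6C Pool.REX Pool.GRW
open Pool.FLF (Fam.sub)

variable {m n J : ℕ}

/-- **The greedy orders of a zoom are exact**, given closed values. -/
theorem rdt_vexa {S : PCl m} {v : Vz m} {ε : Fin n → Fin m} {κ : Fin n}
    {L : Finset (Fin n) → Fin n → ℝ → ℝ → ℝ} (hne : S.Ne) {C₀ : ℝ} (hC₀ : 0 ≤ C₀)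
    (htm : TmC S C₀) (hF : FZX n) (hL : LamW (RecV S v ε) L) {Na : ℚ → ℚ → ℝ} {al : ℝ}
    {g₀ : ℝ → ℝ} (hal : 0 < al) (hg₀ : ∀ e, 0 < e → 0 < g₀ e) (hM : ActM Na al g₀)
    (hB : ActB Na (RecV S v ε) κ) {σ : Fin n → Fin n} (hσ : Function.Injective σ)
    (hσ0 : ∀ j : Fin n, (j : ℕ) = 0 → σ j = κ) {w : ℝ} (hw : w ∈ Wv L σ) :
    VExa (RecV S v ε) L σ w := by
  have hb1 := v.b1
  have hp1 := v.p1
  have hc0 : 0 < (1 - v.b) * (1 - v.p) := mul_pos (by linarith) (by linarith)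
  have htm' : TmC (RecV S v ε) (C₀ * (1 / ((1 - v.b) * (1 - v.p)))) := fun τ J F A hτ hA =>
    recV_tm hC₀ htm v ε τ J F A hτ hA
  have hpos' : Bas (RecV S v ε) (fun _ F A => 0 < Pe F.p A) :=
    ⟨1, one_pos, 0, fun J _ F A hA => (htm' 1 J F A one_pos hA).1⟩
  intro ρ hρ
  exact vst_exa hF (recV_ne hne _ _) (mul_nonneg hC₀ (by positivity)) htm' hL hal hg₀ hM hpos' hσ
    (fun j hj => by rw [hσ0 j hj]; exact hB) hw.1 hw.2.1 hw.2.2.1 hw.2.2.2 hρ

/-- **Labels over a list** as polynomials in the list. -/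
theorem lbr_tpn {F : Fam m J} {c : ℕ → Fin m} {n₀ K w P : ℕ} {κ : Type} {yd : F.Ω → κ}
    {A : F.Ω → Prop} {V : Type} {z : PtT F → κ → V} {z' : LnT F → V}
    {G : V → MvPolynomial (Option (Fin m)) ℝ}
    (h : Lbr F ((range n₀).image c) (c n₀) K w P yd A z z' G)
    (hc : ∀ i < n₀, ∀ j < n₀, c i = c j → i = j) {ω : F.Ω} (hω : A ω) {b : ℕ → ℝ}
    (h0 : b 0 = F.t ω)
    (h1 : ∀ i, 1 ≤ i → |b i - cx F (fun i => c (i - 1)) ω i| ≤ 1 / 2 ^ J) :
    |F.x ω (c n₀) - eval b (tpn c n₀ (G (z' (slam F w ω))))| ≤ 1 / 2 ^ P := by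
  classical
  obtain ⟨b', hb'⟩ : ∃ b' : Option (Fin m) → ℝ, b' = fun o => match o with
    | none => F.t ω
    | some i => if h : ∃ l, l < n₀ ∧ c l = i then b (h.choose + 1) else F.x ω i := ⟨_, rfl⟩
  have e0 : b' none = F.t ω := by rw [hb']
  have e1 : ∀ l < n₀, b' (some (c l)) = b (l + 1) := by
    intro l hl
    have h : ∃ l', l' < n₀ ∧ c l' = c l := ⟨l, hl, rfl⟩
    rw [hb']
    show (if h : ∃ l', l' < n₀ ∧ c l' = c l then b (h.choose + 1) else F.x ω (c l)) = _
    rw [dif_pos h]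
    have h1 := h.choose_spec
    rw [hc _ h1.1 _ hl h1.2]
  have e2 : ∀ o, |b' o - bt F ω o| ≤ 1 / 2 ^ J := by
    intro o
    rcases o with _ | i
    · rw [e0]
      show |F.t ω - F.t ω| ≤ _
      rw [sub_self, abs_zero]
      positivity
    · by_cases h : ∃ l, l < n₀ ∧ c l = i
      · obtain ⟨l, hl, rfl⟩ := h
        rw [e1 l hl]
        have h2 := h1 (l + 1) (by omega)
        rw [cx_succ] at h2
        exact h2
      · rw [hb']
        show |(if h : ∃ l, l < n₀ ∧ c l = i then b (h.choose + 1) else F.x ω i) - F.x ω i| ≤ _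
        rw [dif_neg h, sub_self, abs_zero]
        positivity
  have h2 := h.pos ω hω b' e2
  have e3 : eval b (tpn c n₀ (G (z' (slam F w ω)))) = eval b' (G (z' (slam F w ω))) := by
    refine tpn_eval hc (h.dep _) (fun i hi => ?_) (by rw [e0, h0]) fun l hl _ => (e1 l hl).symm
    rw [mem_image] at hi
    obtain ⟨k, hk, rfl⟩ := hi
    exact ⟨k, mem_range.1 hk, rfl⟩
  rw [e3]
  exact h2

end Pool.TGT
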